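import Pool.Agent.H656.DC.GStmts

set_option autoImplicit false

namespace Pool.Agent.H656.DC.Add

open Pool.Agent.H656.DC

theorem main : S_add := by
  intro p _ F _ M R J t σ ρ η h κ _ q e hq hsum hη hdef
  classical
  obtain ⟨κ0, hκ0, r, d, hr, hR, hs0, hle0⟩ := h.rel
  haveI := h.nM
  haveI := h.nR
  obtain ⟨k0, hk0⟩ := h.ind
  have hidx : M.index ≠ 0 := by rw [hk0]; exact pow_ne_zero _ (Fact.out : p.Prime).ne_zero
  haveI : M.FiniteIndex := ⟨hidx⟩
  haveI : Finite (F ⧸ M) := inferInstance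
  haveI : Fintype (F ⧸ M) := Fintype.ofFinite _
  have ht0 := h.t0
  set R' := Subgroup.normalClosure ((R : Set F) ∪ Set.range q) with hR'
  have hRR' : R ≤ R' := fun x hx => Subgroup.subset_normalClosure (Or.inl hx)
  have hqR' : ∀ l, q l ∈ R' := fun l => Subgroup.subset_normalClosure (Or.inr ⟨l, rfl⟩)
  have hrR : ∀ k, r k ∈ R := by
    intro k
    rw [hR]
    exact Subgroup.subset_closure ⟨1, M.one_mem, k, by simp⟩
  let τ : F ⧸ M → F := fun c => Quotient.out c
  let r' : κ0 ⊕ ((F ⧸ M) × κ) → F := Sum.elim r (fun x => τ x.1 * q x.2 * (τ x.1)⁻¹)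
  let d' : κ0 ⊕ ((F ⧸ M) × κ) → ℕ := Sum.elim d (fun x => e x.2)
  have hS1 : HasSum (fun k => t ^ d k) (∑' k, t ^ d k) := hs0.hasSum
  have hS2 : HasSum (fun x : (F ⧸ M) × κ => t ^ e x.2) ((M.index : ℝ) * ∑' k, t ^ e k) := by
    have hsm : Summable (fun x : (F ⧸ M) × κ => t ^ e x.2) := by
      rw [summable_prod_of_nonneg (fun x => by positivity)]
      refine ⟨fun c => hsum, ?_⟩
      exact Summable.of_finite
    have hval : ∑' x : (F ⧸ M) × κ, t ^ e x.2 = (M.index : ℝ) * ∑' k, t ^ e k := by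
      rw [hsm.tsum_prod' (fun c => hsum), tsum_fintype]
      simp only [Finset.sum_const, Finset.card_univ, nsmul_eq_mul]
      congr 2
      rw [Subgroup.index_eq_card, Nat.card_eq_fintype_card]
    rw [← hval]
    exact hsm.hasSum
  have hS : HasSum (fun x => t ^ d' x) (∑' k, t ^ d k + (M.index : ℝ) * ∑' k, t ^ e k) := by
    refine HasSum.sum ?_ ?_
    · exact hS1
    · exact hS2
  refine ⟨h.nM, h.ind, h.t0, h.t1, h.W, h.inv, ?_, ?_, ?_⟩
  · exact Subgroup.normalClosure_normal
  · refine ⟨κ0 ⊕ ((F ⧸ M) × κ), inferInstance, r', d', ?_, ?_, hS.summable, ?_⟩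
    · rintro (k | ⟨c, l⟩)
      · exact hr k
      · refine ⟨h.nM.conj_mem _ (hq l).1 _, (hq l).2.1, ?_⟩
        have := h.inv (τ c) (e l) _ (hq l).2.2
        have h2 : el p (τ c) * (el p (q l) - 1) * el p (τ c)⁻¹ = el p (τ c * q l * (τ c)⁻¹) - 1 := by
          rw [el_mul, el_mul, mul_sub, sub_mul, mul_one, el_mul_inv]
        rw [h2] at this
        exact this
    · unfold RelGen
      apply le_antisymm
      · have hN : R' = Subgroup.closure (Group.conjugatesOfSet ((R : Set F) ∪ Set.range q)) := rfl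
        rw [hN, Subgroup.closure_le]
        intro x hx
        obtain ⟨s, hs, hsx⟩ := Group.mem_conjugatesOfSet_iff.1 hx
        obtain ⟨g, rfl⟩ := isConj_iff.1 hsx
        rcases hs with hs | ⟨l, rfl⟩
        · have h1 : g * s * g⁻¹ ∈ R := h.nR.conj_mem _ hs _
          rw [hR] at h1
          refine Subgroup.closure_mono ?_ h1
          rintro _ ⟨m, hm, k, rfl⟩
          exact ⟨m, hm, Sum.inl k, rfl⟩
        · have hg : (τ (g : F ⧸ M))⁻¹ * g ∈ M := by
            rw [← QuotientGroup.eq]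
            exact Quotient.out_eq _
          refine Subgroup.subset_closure ⟨g * (τ (g : F ⧸ M))⁻¹, ?_, Sum.inr ((g : F ⧸ M), l), ?_⟩
          · have := h.nM.conj_mem _ hg (τ (g : F ⧸ M))
            simpa [mul_assoc] using this
          · simp only [r', Sum.elim_inr]
            group
      · rw [Subgroup.closure_le]
        rintro _ ⟨m, hm, (k | ⟨c, l⟩), rfl⟩
        · exact Subgroup.normalClosure_normal.conj_mem _ (hRR' (hrR k)) _
        · refine Subgroup.normalClosure_normal.conj_mem _ ?_ _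
          exact Subgroup.normalClosure_normal.conj_mem _ (hqR' l) _
    · rw [hS.tsum_eq]
      linarith
  · exact hdef

end Pool.Agent.H656.DC.Add
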