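import Pool.Agent.H656.DC.GStmts

/-!
# Change of basis in a weighted free filtration: `S_bc`
-/

set_option autoImplicit false

namespace Pool.Agent.H656.DC.BC

variable {p : ℕ} {F : Type} [Group F]

/-- `x^k - 1` is a left multiple of `x - 1` -/
lemma exists_zpow {M : Subgroup F} {x : F} (hx : x ∈ M) (k : ℤ) :
    ∃ e : GA p F, e ∈ KS p M ∧ el p (x ^ k) - 1 = e * (el p x - 1) ∧ (k = 0 → e = 0) := by
  by_cases hk : k = 0
  · exact ⟨0, (KS p M).zero_mem, by simp [hk], fun _ => rfl⟩
  · have hcl : Subgroup.closure (Set.range (fun _ : Unit => x)) = Subgroup.zpowers x := by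
      rw [Set.range_const, Subgroup.zpowers_eq_closure]
    obtain ⟨b, hb, hb'⟩ := exists_decomp_el (p := p) hcl (g := x ^ k)
      (Subgroup.zpow_mem_zpowers x k)
    refine ⟨b (), KS_mono ((Subgroup.zpowers_le).2 hx) (hb ()), ?_, fun h => absurd h hk⟩
    rw [hb']
    simp

theorem main : S_bc := by
  intro p _ F _ M ι _ y n J h i0 k hk0 hk
  classical
  have hx : y i0 ∈ M := h.memM i0
  choose e heM he he0 using fun i => exists_zpow (p := p) hx (k i)
  have hstep : ∀ i, el p (y i * y i0 ^ k i) - 1 =
      (el p (y i) - 1) + (el p (y i) * e i) * (el p (y i0) - 1) := by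
    intro i
    rw [mul_assoc, ← he i, el_mul]
    noncomm_ring
  set e' : ι → GA p F := fun i => el p (y i) * e i with he'
  have he'M : ∀ i, e' i ∈ KS p M := fun i => KS_mul_mem (el_mem_KS (h.memM i)) (heM i)
  have he'0 : ∀ i, k i = 0 → e' i = 0 := fun i hi => by simp [he', he0 i hi]
  -- the sum in terms of the old basis
  have hsum : ∀ a : ι → GA p F, ∑ i, a i * (el p (y i * y i0 ^ k i) - 1) =
      ∑ i, (a i + if i = i0 then ∑ j, a j * e' j else 0) * (el p (y i) - 1) := by
    intro a
    have h1 : ∀ i, a i * (el p (y i * y i0 ^ k i) - 1) =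
        a i * (el p (y i) - 1) + (a i * e' i) * (el p (y i0) - 1) := by
      intro i
      rw [hstep i, mul_add, mul_assoc (a i)]
    rw [Finset.sum_congr rfl fun i _ => h1 i, Finset.sum_add_distrib, ← Finset.sum_mul]
    simp only [add_mul, Finset.sum_add_distrib, ite_mul, zero_mul, Finset.sum_ite_eq',
      Finset.mem_univ, if_true]
  have hAM : ∀ a : ι → GA p F, (∀ i, a i ∈ KS p M) →
      ∀ i, (a i + if i = i0 then ∑ j, a j * e' j else 0) ∈ KS p M := by
    intro a ha i
    refine (KS p M).add_mem (ha i) ?_
    split_ifs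
    · exact Submodule.sum_mem _ fun j _ => KS_mul_mem (ha j) (he'M j)
    · exact (KS p M).zero_mem
  refine ⟨h.pos, ?_, ?_, h.zero, h.anti, h.mul, h.aug1, ?_, ?_⟩
  · -- generation
    apply le_antisymm
    · rw [Subgroup.closure_le]
      rintro _ ⟨i, rfl⟩
      exact M.mul_mem (h.memM i) (M.zpow_mem hx _)
    · have hx' : y i0 ∈ Subgroup.closure (Set.range fun i => y i * y i0 ^ k i) :=
        Subgroup.subset_closure ⟨i0, by simp [hk0]⟩
      rw [← h.gen, Subgroup.closure_le]
      rintro _ ⟨i, rfl⟩
      have h1 : y i * y i0 ^ k i ∈ Subgroup.closure (Set.range fun i => y i * y i0 ^ k i) :=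
        Subgroup.subset_closure ⟨i, rfl⟩
      have h2 := Subgroup.mul_mem _ h1 (Subgroup.inv_mem _ (Subgroup.zpow_mem _ hx' (k i)))
      simpa using h2
  · -- independence
    intro a ha h0
    rw [hsum a] at h0
    have h1 := h.indep _ (hAM a ha) h0
    have h2 : ∀ i, i ≠ i0 → a i = 0 := by
      intro i hi
      have := h1 i
      simpa [hi] using this
    have h3 : ∑ j, a j * e' j = 0 := by
      apply Finset.sum_eq_zero
      intro j _
      by_cases hj : j = i0
      · rw [hj, he'0 i0 hk0, mul_zero]
      · rw [h2 j hj, zero_mul]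
    intro i
    by_cases hi : i = i0
    · have := h1 i
      rw [if_pos hi, h3, add_zero] at this
      exact this
    · exact h2 i hi
  · -- degrees of the generators
    intro i
    rw [hstep i]
    refine (J (n i)).add_mem (h.geny i) ?_
    by_cases hki : k i = 0
    · have : el p (y i) * e i = 0 := he'0 i hki
      rw [this, zero_mul]
      exact (J (n i)).zero_mem
    · exact h.anti (hk i hki) (h.left_mul (he'M i) (h.geny i0))
  · -- splitting
    intro m a ha hm
    rw [hsum a] at hm
    have h1 := h.split m _ (hAM a ha) hm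
    have h2 : ∀ i, i ≠ i0 → a i ∈ J (m - n i) := by
      intro i hi
      have := h1 i
      simpa [hi] using this
    have h3 : ∑ j, a j * e' j ∈ J (m - n i0) := by
      apply Submodule.sum_mem
      intro j _
      by_cases hj : k j = 0
      · rw [he'0 j hj, mul_zero]
        exact (J (m - n i0)).zero_mem
      · have hji : j ≠ i0 := by
          rintro rfl
          exact hj hk0
        exact h.anti (by have := hk j hj; omega) (h.right_mul (h2 j hji) (he'M j))
    intro i
    by_cases hi : i = i0
    · subst hi
      have h4 := h1 i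
      rw [if_pos rfl] at h4
      have := (J (m - n i)).sub_mem h4 h3
      simpa using this
    · exact h2 i hi

end Pool.Agent.H656.DC.BC
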