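import Pool.Agent.H656.DC.GStmts

/-!
# Leaf Base: the base group has positive weighted deficiency
-/

set_option autoImplicit false

open scoped commutatorElement

namespace Pool.Agent.H656.DC.Base

variable {p : ℕ} {F : Type} [Group F] {M : Subgroup F} {ι : Type} [Fintype ι] {y : ι → F}
  {n : ι → ℕ} {J : ℕ → Submodule (ZMod p) (GA p F)}

lemma mem_KS_top (a : GA p F) : a ∈ KS p (⊤ : Subgroup F) := fun _ hg => absurd trivial hg

lemma pow_mem (h : WFS p M y n J) {a : GA p F} (ha : a ∈ J 1) (k : ℕ) : a ^ k ∈ J k := by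
  induction k with
  | zero => rw [pow_zero, h.zero]; exact one_mem_KS M
  | succ k ih => rw [pow_succ]; exact h.mul _ _ _ _ ih ha

lemma el_pow (g : F) (k : ℕ) : el p (g ^ k) = el p g ^ k := by
  induction k with
  | zero => simp
  | succ k ih => rw [pow_succ, el_mul, ih, pow_succ]

lemma pow_p_mem [Fact p.Prime] (h : WFS p M y n J) {g : F} (hg : el p g - 1 ∈ J 1) :
    el p (g ^ p) - 1 ∈ J p := by
  have hc : CharP (GA p F) p := by
    exact charP_of_injective_algebraMap (FaithfulSMul.algebraMap_injective (ZMod p) (GA p F)) p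
  have h1 : (el p g - 1) ^ p = el p g ^ p - 1 := by
    rw [sub_pow_char_of_commute (p := p) (Commute.one_right _), one_pow]
  rw [el_pow, ← h1]
  exact pow_mem h hg p

lemma comm_mem (h : WFS p M y n J) {a b : F} {k l : ℕ} (ha : el p a - 1 ∈ J k)
    (hb : el p b - 1 ∈ J l) (hab : el p (a⁻¹ * b⁻¹) ∈ KS p M) : el p ⁅a, b⁆ - 1 ∈ J (k + l) := by
  have h1 : el p ⁅a, b⁆ - 1 =
      ((el p a - 1) * (el p b - 1) - (el p b - 1) * (el p a - 1)) * el p (a⁻¹ * b⁻¹) := by
    have h2 : (el p a - 1) * (el p b - 1) - (el p b - 1) * (el p a - 1)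
        = el p (a * b) - el p (b * a) := by
      rw [el_mul, el_mul]; noncomm_ring
    rw [h2, sub_mul, ← el_mul, ← el_mul, commutatorElement_def]
    have h3 : b * a * (a⁻¹ * b⁻¹) = 1 := by group
    have h4 : a * b * (a⁻¹ * b⁻¹) = a * b * a⁻¹ * b⁻¹ := by group
    rw [h3, h4, el_one]
  rw [h1]
  apply h.right_mul _ hab
  apply Submodule.sub_mem
  · exact h.mul _ _ _ _ ha hb
  · rw [add_comm k l]; exact h.mul _ _ _ _ hb ha

/-- index type of the relators -/
abbrev Kap : Type := Fin 9 ⊕ {x : Fin 9 × Fin 9 // x.1 ≠ x.2}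

/-- the relators -/
def rel : Kap → FreeGroup (Fin 9)
  | Sum.inl i => FreeGroup.of i ^ 67
  | Sum.inr x => ⁅⁅FreeGroup.of x.1.1, FreeGroup.of x.1.2⁆, FreeGroup.of x.1.2⁆

/-- their degrees -/
def deg : Kap → ℕ
  | Sum.inl _ => 67
  | Sum.inr _ => 3

lemma sum_deg : ∑ k : Kap, ((1 : ℝ) / 5) ^ deg k < 4 / 5 := by
  rw [Fintype.sum_sum_type]
  simp only [deg]
  rw [Finset.sum_const, Finset.sum_const, Finset.card_univ, Finset.card_univ]
  have h1 : Fintype.card (Fin 9) = 9 := by simp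
  have h2 : Fintype.card {x : Fin 9 × Fin 9 // x.1 ≠ x.2} = 72 := by decide
  rw [h1, h2]
  norm_num

theorem main (hf : S_foxFree) (hc : S_construct) : S_base := by
  have : Fact (Nat.Prime 67) := ⟨by norm_num⟩
  obtain ⟨J, hJ⟩ := hc 67 (FreeGroup (Fin 9)) ⊤ (Fin 9) FreeGroup.of (fun _ => 1)
    (fun _ => le_refl _) (FreeGroup.closure_range_of _) (fun a _ h => hf 67 (Fin 9) a h)
  refine ⟨⊤, J, 1 / 5, 9 / 5, ∑ k : Kap, ((1 : ℝ) / 5) ^ deg k, ?_⟩
  refine ⟨inferInstance, ⟨0, by simp⟩, by norm_num, by norm_num, ?_, ?_, inferInstance, ?_, ?_⟩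
  · exact ⟨Fin 9, inferInstance, FreeGroup.of, fun _ => 1, hJ, by norm_num⟩
  · intro g k a ha
    exact hJ.right_mul (hJ.left_mul (mem_KS_top _) ha) (mem_KS_top _)
  · refine ⟨Kap, inferInstance, rel, deg, ?_, ?_, ?_, ?_⟩
    · rintro (i | x)
      · refine ⟨trivial, by simp [deg], ?_⟩
        exact pow_p_mem hJ (hJ.geny i)
      · refine ⟨trivial, by simp [deg], ?_⟩
        exact comm_mem hJ (comm_mem hJ (hJ.geny x.1.1) (hJ.geny x.1.2) (mem_KS_top _))
          (hJ.geny x.1.2) (mem_KS_top _)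
    · unfold RelGen Subgroup.normalClosure
      congr 1
      ext g
      rw [Group.mem_conjugatesOfSet_iff]
      constructor
      · rintro ⟨a, ha, hg⟩
        obtain ⟨c, hc⟩ := isConj_iff.1 hg
        refine ⟨c, trivial, ?_⟩
        rcases ha with ⟨i, rfl⟩ | ⟨i, j, hij, rfl⟩
        · exact ⟨Sum.inl i, hc.symm⟩
        · exact ⟨Sum.inr ⟨(i, j), hij⟩, hc.symm⟩
      · rintro ⟨m, _, (i | x), rfl⟩
        · exact ⟨_, Or.inl ⟨i, rfl⟩, isConj_iff.2 ⟨m, rfl⟩⟩
        · exact ⟨_, Or.inr ⟨x.1.1, x.1.2, x.2, rfl⟩, isConj_iff.2 ⟨m, rfl⟩⟩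
    · exact Summable.of_finite
    · rw [tsum_fintype]
  · have := sum_deg
    linarith

end Pool.Agent.H656.DC.Base
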