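import Pool.Agent.H656.DC.EStmts

/-!
# Project DC, leaf BernPMP: the shift preserves the Bernoulli measure; mixing implies ergodic
-/

set_option autoImplicit false

open MeasureTheory Filter Topology

namespace Pool.Agent.H656.DC.BernPMP

open Pool.Agent.H656.DC

theorem measurable_shift {G : Type} [Group G] {B : Type} [MeasurableSpace B] (g : G) :
    Measurable (shift g : (G → B) → (G → B)) :=
  measurable_pi_lambda _ fun _ => measurable_pi_apply _

theorem main : S_bernPMP := by
  classical
  intro G _ _ B _ ν _
  refine ⟨shift_one, shift_mul, fun g => ⟨measurable_shift g, ?_⟩⟩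
  unfold bern
  refine Measure.eq_infinitePi _ ?_
  intro s (t : G → Set B) ht
  have hm : MeasurableSet (Set.pi (s : Set G) t) :=
    MeasurableSet.pi s.countable_toSet fun i _ => ht i
  rw [Measure.map_apply (measurable_shift g) hm]
  have h1 : (shift g : (G → B) → (G → B)) ⁻¹' (Set.pi (s : Set G) t) =
      Set.pi ((s.map (Equiv.mulLeft g⁻¹).toEmbedding : Finset G) : Set G) fun h => t (g * h) := by
    ext x
    simp only [Set.mem_preimage, Set.mem_pi, Finset.coe_map, Set.mem_image, shift_apply,
      Equiv.coe_toEmbedding, Equiv.coe_mulLeft, Finset.mem_coe]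
    constructor
    · rintro h _ ⟨i, hi, rfl⟩
      have e : g * (g⁻¹ * i) = i := mul_inv_cancel_left g i
      rw [e]
      exact h i hi
    · intro h i hi
      have := h (g⁻¹ * i) ⟨i, hi, rfl⟩
      have e : g * (g⁻¹ * i) = i := mul_inv_cancel_left g i
      rwa [e] at this
  rw [h1, Measure.infinitePi_pi _ (fun i _ => ht _), Finset.prod_map]
  refine Finset.prod_congr rfl fun i _ => ?_
  have e : g * (g⁻¹ * i) = i := mul_inv_cancel_left g i
  change ν (t (g * (g⁻¹ * i))) = ν (t i)
  rw [e]

theorem main2 : S_mixErg := by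
  intro G _ _ X _ μ _ act hact hmix A hA hinv
  have h1 := hmix A A hA hA
  have h2 : ∀ g : G, μ.real (A ∩ act g ⁻¹' A) = μ.real A := by
    intro g
    have h3 : (A ∩ act g ⁻¹' A : Set X) =ᵐ[μ] A := by
      have h4 : (A ∩ act g ⁻¹' A : Set X) =ᵐ[μ] (A ∩ A : Set X) :=
        (ae_eq_refl A).inter (hinv g)
      rwa [Set.inter_self] at h4
    exact measureReal_congr h3
  simp only [h2] at h1
  have h3 : μ.real A = μ.real A * μ.real A := tendsto_nhds_unique tendsto_const_nhds h1
  have h4 : μ.real A = 0 ∨ μ.real A = 1 := by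
    rcases eq_or_ne (μ.real A) 0 with h | h
    · exact Or.inl h
    · right
      have : μ.real A * (μ.real A - 1) = 0 := by linarith
      rcases mul_eq_zero.mp this with h5 | h5
      · exact absurd h5 h
      · linarith
  rcases h4 with h | h
  · left
    rwa [measureReal_eq_zero_iff] at h
  · right
    have h5 : μ A = 1 := by
      rw [measureReal_def] at h
      have h6 : (μ A).toReal = (1 : ENNReal).toReal := by rw [h]; simp
      exact (ENNReal.toReal_eq_toReal_iff' (measure_ne_top μ A) ENNReal.one_ne_top).mp h6
    rw [prob_compl_eq_zero_iff hA]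
    exact h5

end Pool.Agent.H656.DC.BernPMP
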