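import Pool.Agent.H656.DC.GStmts

/-!
# Project DC, leaf Burnside: the Burnside basis lemma for subgroups of `p`-power index
-/

set_option autoImplicit false

namespace Pool.Agent.H656.DC.Burnside

open Pool.Agent.H656.DC

/-- maximal subgroups of finite `p`-groups contain the commutators and the `p`-th powers -/
theorem coat (p : ℕ) [hp : Fact p.Prime] (P : Type) [Group P] [Finite P] (hP : IsPGroup p P)
    (M : Subgroup P) (hM : IsCoatom M) :
    (∀ g, g ^ p ∈ M) ∧ ∀ a b : P, a * b * a⁻¹ * b⁻¹ ∈ M := by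
  have hnil : Group.IsNilpotent P := hP.isNilpotent
  have hnc : NormalizerCondition P := Group.normalizerCondition_of_isNilpotent
  have hN : M.Normal := Subgroup.NormalizerCondition.normal_of_coatom M hnc hM
  have hnt : Nontrivial (P ⧸ M) := QuotientGroup.nontrivial_iff.mpr hM.1
  have hsimp : IsSimpleGroup (P ⧸ M) := by
    refine ⟨fun N hNn => ?_⟩
    have h1 : M ≤ N.comap (QuotientGroup.mk' M) := by
      intro x hx
      rw [Subgroup.mem_comap]
      have : QuotientGroup.mk' M x = 1 := (QuotientGroup.eq_one_iff x).mpr hx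
      rw [this]
      exact N.one_mem
    have h2 : (N.comap (QuotientGroup.mk' M)).map (QuotientGroup.mk' M) = N :=
      Subgroup.map_comap_eq_self_of_surjective (QuotientGroup.mk'_surjective M) N
    rcases hM.le_iff.mp h1 with h3 | h3
    · right
      rw [← h2, h3]
      exact Subgroup.map_top_of_surjective _ (QuotientGroup.mk'_surjective M)
    · left
      rw [← h2, h3, eq_bot_iff]
      rintro _ ⟨x, hx, rfl⟩
      exact (QuotientGroup.eq_one_iff x).mpr hx
  have hsol : Group.IsSolvable (P ⧸ M) := inferInstance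
  have hcomm : ∀ a b : P ⧸ M, a * b = b * a := IsSimpleGroup.comm_iff_isSolvable.mpr hsol
  have hcard : Nat.card (P ⧸ M) = p := by
    let : CommGroup (P ⧸ M) := { (inferInstance : Group (P ⧸ M)) with mul_comm := hcomm }
    have h1 : (Nat.card (P ⧸ M)).Prime := IsSimpleGroup.prime_card
    have h2 : IsPGroup p (P ⧸ M) := hP.to_quotient M
    obtain ⟨n, hn⟩ := IsPGroup.iff_card.mp h2
    rw [hn] at h1 ⊢
    have : n = 1 := by
      rcases n with _ | _ | n
      · rw [pow_zero] at h1; exact absurd h1 Nat.not_prime_one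
      · rfl
      · exact absurd h1 (Nat.Prime.not_prime_pow (by omega))
    rw [this, pow_one]
  constructor
  · intro g
    rw [← QuotientGroup.eq_one_iff, QuotientGroup.mk_pow, ← hcard]
    exact pow_card_eq_one'
  · intro a b
    rw [← QuotientGroup.eq_one_iff]
    have h1 := hcomm (a : P ⧸ M) (b : P ⧸ M)
    rw [QuotientGroup.mk_mul, QuotientGroup.mk_mul, QuotientGroup.mk_mul, QuotientGroup.mk_inv,
      QuotientGroup.mk_inv, h1]
    group

section

variable (p : ℕ) {F : Type} [Group F]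

/-- the subgroup generated by commutators and `p`-th powers -/
def Phi (H : Subgroup F) : Subgroup F :=
  Subgroup.closure ({g | ∃ a ∈ H, ∃ b ∈ H, g = a * b * a⁻¹ * b⁻¹} ∪ {g | ∃ a ∈ H, g = a ^ p})

variable {p}

theorem comm_mem_Phi {H : Subgroup F} {a b : F} (ha : a ∈ H) (hb : b ∈ H) :
    a * b * a⁻¹ * b⁻¹ ∈ Phi p H := Subgroup.subset_closure (Or.inl ⟨a, ha, b, hb, rfl⟩)

theorem pow_mem_Phi {H : Subgroup F} {a : F} (ha : a ∈ H) : a ^ p ∈ Phi p H :=
  Subgroup.subset_closure (Or.inr ⟨a, ha, rfl⟩)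

theorem Phi_le (H : Subgroup F) : Phi p H ≤ H := by
  refine (Subgroup.closure_le _).mpr ?_
  rintro g (⟨a, ha, b, hb, rfl⟩ | ⟨a, ha, rfl⟩)
  · exact H.mul_mem (H.mul_mem (H.mul_mem ha hb) (H.inv_mem ha)) (H.inv_mem hb)
  · exact H.pow_mem ha p

theorem Phi_mono {H H' : Subgroup F} (h : H ≤ H') : Phi p H ≤ Phi p H' := by
  refine (Subgroup.closure_le _).mpr ?_
  rintro g (⟨a, ha, b, hb, rfl⟩ | ⟨a, ha, rfl⟩)
  · exact comm_mem_Phi (h ha) (h hb)
  · exact pow_mem_Phi (h ha)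

theorem Phi_normal (H : Subgroup F) (hH : H.Normal) : (Phi p H).Normal := by
  refine ⟨fun n hn g => ?_⟩
  have h1 : Phi p H ≤ (Phi p H).comap (MulAut.conj g).toMonoidHom := by
    refine (Subgroup.closure_le _).mpr ?_
    rintro x (⟨a, ha, b, hb, rfl⟩ | ⟨a, ha, rfl⟩)
    · change g * (a * b * a⁻¹ * b⁻¹) * g⁻¹ ∈ Phi p H
      have : g * (a * b * a⁻¹ * b⁻¹) * g⁻¹ = (g * a * g⁻¹) * (g * b * g⁻¹) * (g * a * g⁻¹)⁻¹ *
        (g * b * g⁻¹)⁻¹ := by group
      rw [this]
      exact comm_mem_Phi (hH.conj_mem a ha g) (hH.conj_mem b hb g)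
    · change g * (a ^ p) * g⁻¹ ∈ Phi p H
      rw [← conj_pow]
      exact pow_mem_Phi (hH.conj_mem a ha g)
  exact h1 hn

theorem Phi_index [hp : Fact p.Prime] (hF : Group.FG F) (K : Subgroup F) (hK : K.Normal)
    (hKi : ∃ k, K.index = p ^ k) : ∃ k, (Phi p K).index = p ^ k := by
  obtain ⟨k, hk⟩ := hKi
  have hfin : K.FiniteIndex := ⟨by rw [hk]; exact pow_ne_zero _ hp.out.ne_zero⟩
  have hKfg : Group.FG K := Subgroup.fg_of_index_ne_zero K
  have hN : ((Phi p K).subgroupOf K).Normal := (Phi_normal K hK).subgroupOf K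
  set Q := K ⧸ (Phi p K).subgroupOf K with hQ
  have hcomm : ∀ a b : Q, a * b = b * a := by
    intro a b
    obtain ⟨x, rfl⟩ := QuotientGroup.mk'_surjective _ a
    obtain ⟨y, rfl⟩ := QuotientGroup.mk'_surjective _ b
    rw [← map_mul, ← map_mul, QuotientGroup.mk'_eq_mk']
    refine ⟨(x * y)⁻¹ * (y * x), ?_, by group⟩
    rw [Subgroup.mem_subgroupOf]
    have h1 := comm_mem_Phi (p := p) (K.inv_mem y.2) (K.inv_mem x.2)
    simpa [mul_assoc] using h1
  have hpow : ∀ a : Q, a ^ p = 1 := by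
    intro a
    obtain ⟨x, rfl⟩ := QuotientGroup.mk'_surjective _ a
    rw [← map_pow]
    refine (QuotientGroup.eq_one_iff _).mpr ?_
    rw [Subgroup.mem_subgroupOf]
    have h1 := pow_mem_Phi (p := p) x.2
    simpa using h1
  let : CommGroup Q := { (inferInstance : Group Q) with mul_comm := hcomm }
  have hQfg : Group.FG Q := QuotientGroup.fg _
  have htor : IsMulTorsion Q := fun a =>
    isOfFinOrder_iff_pow_eq_one.mpr ⟨p, hp.out.pos, hpow a⟩
  have hQfin : Finite Q := CommGroup.finite_of_fg_isMulTorsion Q htor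
  have hQp : IsPGroup p Q := fun a => ⟨1, by rw [pow_one]; exact hpow a⟩
  obtain ⟨n, hn⟩ := IsPGroup.iff_card.mp hQp
  refine ⟨n + k, ?_⟩
  rw [← Subgroup.relIndex_mul_index (Phi_le (p := p) K), hk, pow_add]
  congr 1

/-- elements which generate modulo `Phi U` generate modulo normal subgroups of `p`-power index -/
theorem gen_of_Phi [hp : Fact p.Prime] (U A K : Subgroup F) (hAU : A ≤ U)
    (hA : U ≤ A ⊔ Phi p U) (hK : K.Normal) (hKi : ∃ k, K.index = p ^ k) : U ≤ A ⊔ K := by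
  obtain ⟨k, hk⟩ := hKi
  have hfin : K.FiniteIndex := ⟨by rw [hk]; exact pow_ne_zero _ hp.out.ne_zero⟩
  have hfinQ : Finite (F ⧸ K) := inferInstance
  have hPQ : IsPGroup p (F ⧸ K) := IsPGroup.of_card (n := k) (by rw [← hk]; rfl)
  -- the image of `U`
  let φ := QuotientGroup.mk' K
  let V : Subgroup (F ⧸ K) := U.map φ
  have hPV : IsPGroup p V := hPQ.to_subgroup V
  have hV : A.map φ = V := by
    by_contra hne
    have hle : A.map φ ≤ V := Subgroup.map_mono hAU
    have hne' : (A.map φ).subgroupOf V ≠ ⊤ := by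
      intro h
      rw [Subgroup.subgroupOf_eq_top] at h
      exact hne (le_antisymm hle h)
    obtain ⟨M, hM, hAM⟩ := (eq_top_or_exists_le_coatom ((A.map φ).subgroupOf V)).resolve_left hne'
    obtain ⟨h1, h2⟩ := coat p V hPV M hM
    have h3 : A ⊔ Phi p U ≤ (M.map V.subtype).comap φ := by
      refine sup_le ?_ ?_
      · intro a ha
        rw [Subgroup.mem_comap]
        have hav : φ a ∈ V := hle ⟨a, ha, rfl⟩
        exact ⟨⟨φ a, hav⟩, hAM (by rw [Subgroup.mem_subgroupOf]; exact ⟨a, ha, rfl⟩), rfl⟩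
      · refine (Subgroup.closure_le _).mpr ?_
        rintro x (⟨a, ha, b, hb, rfl⟩ | ⟨a, ha, rfl⟩)
        · change φ (a * b * a⁻¹ * b⁻¹) ∈ M.map V.subtype
          have hav : φ a ∈ V := ⟨a, ha, rfl⟩
          have hbv : φ b ∈ V := ⟨b, hb, rfl⟩
          refine ⟨_, h2 ⟨φ a, hav⟩ ⟨φ b, hbv⟩, ?_⟩
          simp
        · change φ (a ^ p) ∈ M.map V.subtype
          have hav : φ a ∈ V := ⟨a, ha, rfl⟩
          refine ⟨_, h1 ⟨φ a, hav⟩, ?_⟩
          simp
    apply hM.1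
    rw [eq_top_iff]
    rintro ⟨_, ⟨u, hu, rfl⟩⟩ -
    have h4 := h3 (hA hu)
    rw [Subgroup.mem_comap] at h4
    obtain ⟨m, hm, hmu⟩ := h4
    have : m = ⟨φ u, ⟨u, hu, rfl⟩⟩ := Subtype.ext hmu
    rw [← this]
    exact hm
  intro u hu
  have h1 : φ u ∈ A.map φ := by rw [hV]; exact ⟨u, hu, rfl⟩
  obtain ⟨a, ha, hau⟩ := h1
  have h2 : a⁻¹ * u ∈ K := by
    rw [← QuotientGroup.eq_one_iff]
    change φ (a⁻¹ * u) = 1
    rw [map_mul, map_inv, hau, inv_mul_cancel]
  have h3 : u = a * (a⁻¹ * u) := by group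
  rw [h3]
  exact Subgroup.mul_mem _ (Subgroup.mem_sup_left ha) (Subgroup.mem_sup_right h2)

end

theorem main : S_burnside := by
  intro p hp F _ hF L U K0 hLU hK0U hK0n hK0i hd
  have h1 : U ≤ L ⊔ Phi p U :=
    (hd (Phi p K0) (Phi_normal K0 hK0n) (Phi_index hF K0 hK0n hK0i)).trans
      (sup_le_sup_left (Phi_mono hK0U) L)
  have hfin0 : K0.FiniteIndex := by
    obtain ⟨k, hk⟩ := hK0i
    exact ⟨by rw [hk]; exact pow_ne_zero _ hp.out.ne_zero⟩
  have hfinU : U.FiniteIndex := Subgroup.finiteIndex_of_le hK0U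
  have hUfg : U.FG := (Group.fg_iff_subgroup_fg U).mp (Subgroup.fg_of_index_ne_zero U)
  have h2 : ∀ x ∈ L ⊔ Phi p U, ∃ A : Subgroup F, A.FG ∧ A ≤ L ∧ x ∈ A ⊔ Phi p U := by
    intro x hx
    rw [Subgroup.sup_eq_closure] at hx
    induction hx using Subgroup.closure_induction with
    | mem x hx =>
      rcases hx with hx | hx
      · exact ⟨Subgroup.zpowers x, ⟨{x}, by simp [Subgroup.zpowers_eq_closure]⟩,
          by rwa [Subgroup.zpowers_le], Subgroup.mem_sup_left (Subgroup.mem_zpowers x)⟩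
      · exact ⟨⊥, ⟨∅, by simp⟩, bot_le, Subgroup.mem_sup_right hx⟩
    | one => exact ⟨⊥, ⟨∅, by simp⟩, bot_le, Subgroup.one_mem _⟩
    | mul x y _ _ hx hy =>
      obtain ⟨A, hA, hAL, hxA⟩ := hx
      obtain ⟨B, hB, hBL, hyB⟩ := hy
      exact ⟨A ⊔ B, hA.sup hB, sup_le hAL hBL, Subgroup.mul_mem _
        (sup_le_sup_right (le_sup_left : A ≤ A ⊔ B) (Phi p U) hxA)
        (sup_le_sup_right (le_sup_right : B ≤ A ⊔ B) (Phi p U) hyB)⟩
    | inv x _ hx =>
      obtain ⟨A, hA, hAL, hxA⟩ := hx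
      exact ⟨A, hA, hAL, Subgroup.inv_mem _ hxA⟩
  obtain ⟨S, hS⟩ := hUfg
  have h3 : ∀ T : Finset F, (∀ x ∈ T, x ∈ L ⊔ Phi p U) →
      ∃ A : Subgroup F, A.FG ∧ A ≤ L ∧ ∀ x ∈ T, x ∈ A ⊔ Phi p U := by
    classical
    intro T
    induction T using Finset.induction_on with
    | empty => intro _; exact ⟨⊥, ⟨∅, by simp⟩, bot_le, by simp⟩
    | insert a T ha ih =>
      intro hT
      obtain ⟨A, hA, hAL, hTA⟩ := ih fun x hx => hT x (Finset.mem_insert_of_mem hx)
      obtain ⟨B, hB, hBL, haB⟩ := h2 a (hT a (Finset.mem_insert_self _ _))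
      refine ⟨A ⊔ B, hA.sup hB, sup_le hAL hBL, fun x hx => ?_⟩
      rcases Finset.mem_insert.mp hx with rfl | hx
      · exact sup_le_sup_right (le_sup_right : B ≤ A ⊔ B) (Phi p U) haB
      · exact sup_le_sup_right (le_sup_left : A ≤ A ⊔ B) (Phi p U) (hTA x hx)
  obtain ⟨A, hA, hAL, hSA⟩ := h3 S fun x hx => h1 (hS ▸ Subgroup.subset_closure hx)
  have h4 : U ≤ A ⊔ Phi p U := by
    rw [← hS, Subgroup.closure_le]
    intro x hx
    have := hSA x hx
    rwa [← hS] at this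
  exact ⟨A, hA, hAL, fun K hK hKi => gen_of_Phi U A K (hAL.trans hLU) h4 hK hKi⟩

end Pool.Agent.H656.DC.Burnside
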