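import Pool.Agent.H656.DC.GStmts

/-!
# Leaf `Case1` of project DC: `S_rescale → S_small → S_add → S_case1`
-/

set_option autoImplicit false

namespace Pool.Agent.H656.DC.Case1

/-- rational rescaling exponent: for `0 < t < 1`, `1 < L`, `r < L` there is `t' = t^(1/k)` and
`c = t'^m` with `c * L > 1`, `c * r < 1`. -/
lemma exists_scale (t L r : ℝ) (ht0 : 0 < t) (ht1 : t < 1) (hL : 1 < L) (hr : r < L) :
    ∃ (k m : ℕ) (t' : ℝ), 1 ≤ k ∧ 0 < t' ∧ t' < 1 ∧ t' ^ k = t ∧ 1 < t' ^ m * L ∧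
      t' ^ m * r < 1 := by
  set r' : ℝ := max r 1 with hr'
  have h1r : 1 ≤ r' := le_max_right _ _
  have hrL : r' < L := max_lt hr hL
  have hlog : Real.log t < 0 := Real.log_neg ht0 ht1
  have hr0 : 0 < r' := by linarith
  have hL0 : 0 < L := by linarith
  have hll : Real.log r' < Real.log L := Real.log_lt_log hr0 hrL
  have hlr : 0 ≤ Real.log r' := Real.log_nonneg h1r
  have hlt : Real.log r' / (-Real.log t) < Real.log L / (-Real.log t) :=
    div_lt_div_of_pos_right hll (by linarith)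
  obtain ⟨q, hq1, hq2⟩ := exists_rat_btwn hlt
  have hq0 : (0 : ℝ) < q := lt_of_le_of_lt (div_nonneg hlr (by linarith)) hq1
  have hq0' : 0 < q := by exact_mod_cast hq0
  have hk : q.den ≠ 0 := q.den_nz
  have hk0 : (0 : ℝ) < q.den := by exact_mod_cast Nat.pos_of_ne_zero hk
  have hnum : (q.num.toNat : ℝ) = (q.num : ℝ) := by
    have : (q.num.toNat : ℤ) = q.num := Int.toNat_of_nonneg (by
      have := Rat.num_pos.2 hq0'
      omega)
    exact_mod_cast this
  refine ⟨q.den, q.num.toNat, t ^ ((q.den : ℝ)⁻¹), Nat.pos_of_ne_zero hk,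
    Real.rpow_pos_of_pos ht0 _, Real.rpow_lt_one ht0.le ht1 (by positivity),
    Real.rpow_inv_natCast_pow ht0.le hk, ?_, ?_⟩
  all_goals
    have hc : (t ^ ((q.den : ℝ)⁻¹)) ^ q.num.toNat = Real.exp ((q : ℝ) * Real.log t) := by
      rw [← Real.rpow_natCast, ← Real.rpow_mul ht0.le, hnum, Real.rpow_def_of_pos ht0, mul_comm]
      congr 1
      have : (q : ℝ) = q.num / q.den := by exact_mod_cast (Rat.num_div_den q).symm
      rw [this]
      field_simp
    rw [hc]
  · have h2 : -Real.log L < (q : ℝ) * Real.log t := by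
      rw [lt_div_iff₀ (by linarith)] at hq2
      linarith
    have h3 : Real.exp (-Real.log L) < Real.exp ((q : ℝ) * Real.log t) := Real.exp_lt_exp.2 h2
    rw [Real.exp_neg, Real.exp_log hL0] at h3
    calc (1 : ℝ) = L⁻¹ * L := by field_simp
      _ < _ := mul_lt_mul_of_pos_right h3 hL0
  · have h2 : (q : ℝ) * Real.log t < -Real.log r' := by
      rw [div_lt_iff₀ (by linarith)] at hq1
      linarith
    have h3 : Real.exp ((q : ℝ) * Real.log t) < Real.exp (-Real.log r') := Real.exp_lt_exp.2 h2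
    rw [Real.exp_neg, Real.exp_log hr0] at h3
    calc Real.exp ((q : ℝ) * Real.log t) * r ≤ Real.exp ((q : ℝ) * Real.log t) * r' :=
          mul_le_mul_of_nonneg_left (le_max_left _ _) (Real.exp_pos _).le
      _ < r'⁻¹ * r' := mul_lt_mul_of_pos_right h3 hr0
      _ = 1 := by field_simp

/-- finiteness bookkeeping -/
lemma relIndex_aux {F : Type} [Group F] (A R M R' S V : Subgroup F) [M.Normal] [R'.Normal]
    (hM : M.index ≠ 0) (hR : R ≤ R') (hV : V ≤ R') (hVS : V.relIndex S ≠ 0)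
    (hS : S ⊔ R = (A ⊔ R) ⊓ M) : R'.relIndex (A ⊔ R') ≠ 0 := by
  have h1 : R'.relIndex S ≠ 0 := fun h =>
    hVS (Nat.eq_zero_of_zero_dvd (h ▸ Subgroup.relIndex_dvd_of_le_left S hV))
  have h2 : R'.relIndex ((A ⊔ R) ⊓ M) ≠ 0 := by
    rw [← Subgroup.relIndex_sup_right, ← hS, sup_assoc, sup_eq_right.2 hR,
      Subgroup.relIndex_sup_right]
    exact h1
  have h3 : ((A ⊔ R) ⊓ M).relIndex (A ⊔ R) ≠ 0 := by
    rw [Subgroup.inf_relIndex_left]
    intro h
    apply hM
    have := Subgroup.relIndex_dvd_index_of_normal M (A ⊔ R)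
    rw [h] at this
    exact Nat.eq_zero_of_zero_dvd this
  have h4 : R'.relIndex (A ⊔ R) ≠ 0 := Subgroup.relIndex_ne_zero_trans h2 h3
  have h5 : A ⊔ R' = (A ⊔ R) ⊔ R' := by rw [sup_assoc, sup_eq_right.2 hR]
  rw [h5, Subgroup.relIndex_sup_right]
  exact h4

theorem main (hr : S_rescale) (hs : S_small) (ha : S_add) : S_case1 := by
  intro p _ F _ M R J t σ ρ r hD A hG hrr
  obtain ⟨nM, ⟨kk, hind⟩, t0, t1, W, inv, nR, rel, defi⟩ := hD
  haveI := nM
  have hp : 0 < p := (Fact.out : p.Prime).pos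
  have hMi : M.index ≠ 0 := by rw [hind]; exact pow_ne_zero _ hp.ne'
  obtain ⟨k, m, t', hk, ht0, ht1, htk, hc1, hc2⟩ :=
    exists_scale t (σ - ρ) r t0 t1 (by linarith) hrr
  set c : ℝ := t' ^ m with hc
  have hc0 : 0 < c := pow_pos ht0 _
  have hpow : ∀ j : ℕ, t' ^ (k * j + m) = c * t ^ j := by
    intro j
    rw [pow_add, pow_mul, htk, mul_comm]
  obtain ⟨ι, _, y, n, hW, hσ⟩ := W
  obtain ⟨J', hW', hJJ', hInv'⟩ := hr p F M ι y n J hW k m hk
  have hHW' : HasW p M J' t' (c * σ) := by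
    refine ⟨ι, inferInstance, y, _, hW', ?_⟩
    simp only [hpow]
    rw [← Finset.mul_sum, hσ]
  have hD' : StgD p M J' t' (c * σ) (c * ρ) R := by
    refine ⟨nM, ⟨kk, hind⟩, ht0, ht1, hHW', hInv' inv nM, nR, ?_, ?_⟩
    · obtain ⟨κ, hκ, rr, d, h1, h2, h3, h4⟩ := rel
      refine ⟨κ, hκ, rr, fun i => k * d i + m, ?_, h2, ?_, ?_⟩
      · intro i
        obtain ⟨ha1, ha2, ha3⟩ := h1 i
        refine ⟨ha1, ?_, hJJ' _ _ ha2 ha3⟩
        have : 1 * 1 ≤ k * d i := Nat.mul_le_mul hk ha2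
        show 1 ≤ k * d i + m
        omega
      · simp only [hpow]
        exact h3.mul_left c
      · simp only [hpow]
        rw [tsum_mul_left]
        exact mul_le_mul_of_nonneg_left h4 hc0.le
    · nlinarith
  obtain ⟨κ, hκ, s, e, hs1, hs2, hs3⟩ := hG
  have hdel : 0 < c * σ - 1 - c * ρ := by nlinarith
  set ε : ℝ := (c * σ - 1 - c * ρ) / (2 * (M.index : ℝ)) with hε
  have hMpos : (0 : ℝ) < M.index := by exact_mod_cast Nat.pos_of_ne_zero hMi
  have hε0 : 0 < ε := by positivity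
  have hlight : ∑ i, t' ^ (k * e i + m) < 1 := by
    simp only [hpow]
    rw [← Finset.mul_sum]
    exact lt_of_le_of_lt (mul_le_mul_of_nonneg_left hs3 hc0.le) hc2
  obtain ⟨κ', hκ', v, e', hv1, hv2, hv3⟩ := hs p F M J' t' (c * σ) ht0 ht1 hHW' κ s
    (fun i => k * e i + m) (by
      intro i
      obtain ⟨ha1, ha2, ha3⟩ := hs1 i
      refine ⟨ha1.2, ?_, hJJ' _ _ ha2 ha3⟩
      have : 1 * 1 ≤ k * e i := Nat.mul_le_mul hk ha2
      show 1 ≤ k * e i + m
      omega) hlight ε hε0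
  have hsM : Subgroup.closure (Set.range s) ≤ M := by
    rw [Subgroup.closure_le]
    rintro _ ⟨i, rfl⟩
    exact (hs1 i).1.2
  haveI : Countable κ' := Finite.to_countable
  have hst := ha p F M R J' t' (c * σ) (c * ρ) ((M.index : ℝ) * ε) hD' κ' v e'
    (fun i => ⟨hsM (hv1 i).1, (hv1 i).2.1, (hv1 i).2.2⟩)
    (Summable.of_finite)
    (by
      rw [tsum_fintype]
      exact mul_le_mul_of_nonneg_left hv2.le hMpos.le)
    (by
      have : (M.index : ℝ) * ε = (c * σ - 1 - c * ρ) / 2 := by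
        rw [hε]; field_simp
      rw [this]
      linarith)
  refine ⟨Subgroup.normalClosure ((R : Set F) ∪ Set.range v), ?_, ⟨M, J', t', _, _, hst⟩, ?_⟩
  · intro g hg
    exact Subgroup.subset_normalClosure (Or.inl hg)
  · refine relIndex_aux A R M _ (Subgroup.closure (Set.range s)) (Subgroup.closure (Set.range v))
      hMi ?_ ?_ hv3 hs2
    · intro g hg
      exact Subgroup.subset_normalClosure (Or.inl hg)
    · rw [Subgroup.closure_le]
      exact fun g hg => Subgroup.subset_normalClosure (Or.inr hg)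

end Pool.Agent.H656.DC.Case1
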