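import Pool.Agent.H656.DC.GStmts

set_option autoImplicit false

open scoped Topology

namespace Pool.Agent.H656.DC.Case2

variable {F : Type} [Group F]

/-- no intermediate subgroup in prime relative index -/
lemma le_of_relIndex_prime {p : ℕ} [Fact p.Prime] {H K X : Subgroup F} (hKH : K ≤ H)
    (hi : K.relIndex H = p) (hKX : K ≤ X) {g : F} (hgH : g ∈ H) (hgX : g ∈ X) (hgK : g ∉ K) :
    H ≤ X := by
  have hp := (Fact.out : p.Prime)
  have h1 : K.relIndex (X ⊓ H) * (X ⊓ H).relIndex H = K.relIndex H :=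
    Subgroup.relIndex_mul_relIndex K (X ⊓ H) H (le_inf hKX hKH) inf_le_right
  rw [hi] at h1
  have h2 : K.relIndex (X ⊓ H) ≠ 1 := by
    intro h
    rw [Subgroup.relIndex_eq_one] at h
    exact hgK (h ⟨hgX, hgH⟩)
  have h3 : (X ⊓ H).relIndex H = 1 := by
    rcases (Nat.dvd_prime hp).1 (Dvd.intro _ h1) with h | h
    · exact absurd h h2
    · rw [h] at h1
      have : p * (X ⊓ H).relIndex H = p * 1 := by omega
      exact Nat.eq_of_mul_eq_mul_left hp.pos this
  rw [Subgroup.relIndex_eq_one] at h3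
  exact h3.trans inf_le_left

theorem main (hD : S_Dsub) (ha : S_add) : S_case2 := by
  classical
  intro p hpF F _ M R J t σ ρ hFG hst A H u h0 hn hR hs hlow hup hu hsum
  have hp := hpF.out
  have hp1 : p ≠ 1 := hp.one_lt.ne'
  obtain ⟨ι, _, y, n, hW, hWσ⟩ := hst.W
  -- `M` has finite index
  have hMi : M.index ≠ 0 := by
    obtain ⟨k, hk⟩ := hst.ind
    rw [hk]
    exact pow_ne_zero _ hp.ne_zero
  -- the chain is decreasing and has finite index
  have hanti : Antitone H := antitone_nat_of_succ_le fun i => (hs i).1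
  have hHM : ∀ i, H i ≤ M := fun i => h0 ▸ hanti (Nat.zero_le i)
  have hHi : ∀ i, (H i).index ≠ 0 := by
    intro i
    induction i with
    | zero => rw [h0]; exact hMi
    | succ i ih =>
      rw [← Subgroup.relIndex_mul_index (hs i).1, (hs i).2]
      exact mul_ne_zero hp.ne_zero ih
  -- elements realizing the steps
  have hex : ∀ i, ∃ g ∈ H i, g ∉ H (i + 1) ∧ el p g - 1 ∈ J (u i) := by
    intro i
    have h1 : ¬ H i ≤ H (i + 1) := by
      intro h
      have := Subgroup.relIndex_eq_one.2 h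
      rw [(hs i).2] at this
      exact hp1 this
    obtain ⟨g, hg, hg'⟩ := SetLike.not_le_iff_exists.1 h1
    obtain ⟨r, hr, hr'⟩ := hup i g hg
    refine ⟨g * r, (H i).mul_mem hg (hR i hr), ?_, hr'⟩
    intro h
    exact hg' ((Subgroup.mul_mem_cancel_right _ (hR (i + 1) hr)).1 h)
  choose h hhH hhn hhJ using hex
  -- constants
  set δ : ℝ := (σ - 1 - ρ) / 4 with hδ
  have hdef := hst.defi
  have hδ0 : 0 < δ := by rw [hδ]; linarith
  have hN0 : (0 : ℝ) < M.index := by exact_mod_cast Nat.pos_of_ne_zero hMi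
  -- choice of the tail
  obtain ⟨i1, hi1⟩ := Filter.eventually_atTop.1 (hu.eventually_ge_atTop 1)
  set P : ℕ → Prop := fun i => (A ⊔ R) ⊓ H i ≤ H (i + 1) with hP
  have htail := tendsto_tsum_compl_atTop_zero (fun i : {i : ℕ // P i} => t ^ u i)
  have hε : (0 : ℝ) < δ / M.index := div_pos hδ0 hN0
  obtain ⟨s0, hs0⟩ := Filter.eventually_atTop.1 (htail.eventually (gt_mem_nhds hε))
  set S1 : Finset {i : ℕ // P i} := (Finset.range i1).subtype P with hS1
  set s : Finset {i : ℕ // P i} := s0 ∪ S1 with hsdef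
  have hs1 : ∑' a : {x : {i : ℕ // P i} // x ∉ s}, t ^ u a.1.1 < δ / M.index :=
    hs0 s Finset.subset_union_left
  set i0 : ℕ := s.sup (fun x => x.1) + 1 with hi0
  have hlt : ∀ x ∈ s, x.1 < i0 := by
    intro x hx
    have : x.1 ≤ s.sup (fun x => x.1) := Finset.le_sup (f := fun x : {i : ℕ // P i} => x.1) hx
    omega
  have hge : ∀ x : {x : {i : ℕ // P i} // x ∉ s}, i1 ≤ x.1.1 := by
    intro x
    by_contra hx
    push Not at hx
    exact x.2 (Finset.mem_union_right _ (Finset.mem_subtype.2 (Finset.mem_range.2 hx)))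
  -- first enlargement
  have hst1 := ha p F M R J t σ ρ δ hst {x : {i : ℕ // P i} // x ∉ s}
    (fun x => h x.1.1) (fun x => u x.1.1)
    (fun x => ⟨hHM _ (hhH _), hi1 _ (hge x), hhJ _⟩)
    (hsum.subtype _) (by
      have := mul_lt_mul_of_pos_left hs1 hN0
      rw [mul_div_cancel₀ _ hN0.ne'] at this
      exact this.le) (by rw [hδ]; linarith)
  set R1 : Subgroup F := Subgroup.normalClosure
    ((R : Set F) ∪ Set.range (fun x : {x : {i : ℕ // P i} // x ∉ s} => h x.1.1)) with hR1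
  have hRR1 : R ≤ R1 := fun g hg => Subgroup.subset_normalClosure (Or.inl hg)
  have hqR1 : ∀ j, i0 ≤ j → P j → h j ∈ R1 := by
    intro j hj hPj
    refine Subgroup.subset_normalClosure (Or.inr ⟨⟨⟨j, hPj⟩, ?_⟩, rfl⟩)
    intro hjs
    have := hlt _ hjs
    simp only at this
    omega
  -- one step of the chain
  have hclaim : ∀ j, i0 ≤ j → H j ≤ (A ⊔ R1) ⊔ H (j + 1) := by
    intro j hj
    by_cases hPj : P j
    · exact le_of_relIndex_prime (hs j).1 (hs j).2 le_sup_right (hhH j)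
        ((le_sup_right.trans le_sup_left : R1 ≤ (A ⊔ R1) ⊔ H (j + 1)) (hqR1 j hj hPj)) (hhn j)
    · obtain ⟨b, hb, hb'⟩ := SetLike.not_le_iff_exists.1 hPj
      exact le_of_relIndex_prime (hs j).1 (hs j).2 le_sup_right hb.2
        (((sup_le_sup_left hRR1 A).trans le_sup_left : A ⊔ R ≤ (A ⊔ R1) ⊔ H (j + 1)) hb.1) hb'
  have hind : ∀ k, H i0 ≤ (A ⊔ R1) ⊔ H (i0 + k) := by
    intro k
    induction k with
    | zero => exact le_sup_right
    | succ k ih =>
      exact ih.trans (sup_le le_sup_left (hclaim (i0 + k) (by omega)))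
  have hHD : ∀ j, H j ≤ R ⊔ Dsub p J (u j) := by
    intro j g hg
    obtain ⟨r, hr, hr'⟩ := hup j g hg
    have h1 : g * r ∈ Dsub p J (u j) := Subgroup.subset_closure hr'
    have h2 : g = (g * r) * r⁻¹ := by group
    rw [h2]
    exact Subgroup.mul_mem _ ((le_sup_right : Dsub p J (u j) ≤ R ⊔ Dsub p J (u j)) h1)
      ((le_sup_left : R ≤ R ⊔ Dsub p J (u j)) (R.inv_mem hr))
  have hfin : ∀ j, i0 ≤ j → H i0 ≤ (A ⊔ R1) ⊔ Dsub p J (u j) := by
    intro j hj
    have h1 := hind (j - i0)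
    rw [Nat.add_sub_cancel' hj] at h1
    refine h1.trans (sup_le le_sup_left ((hHD j).trans (sup_le ?_ le_sup_right)))
    exact hRR1.trans (le_sup_right.trans le_sup_left)
  -- finite generation of `H i0`
  have hfi : (H i0).FiniteIndex := ⟨hHi i0⟩
  have hfg : (H i0).FG := (Group.fg_iff_subgroup_fg _).1 (Subgroup.fg_of_index_ne_zero (H i0))
  obtain ⟨S, hS⟩ := hfg
  -- choice of `j`
  have hlim : Filter.Tendsto (fun j => (M.index : ℝ) * ((S.card : ℝ) * t ^ u j)) Filter.atTop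
      (𝓝 ((M.index : ℝ) * ((S.card : ℝ) * 0))) := by
    apply Filter.Tendsto.const_mul
    apply Filter.Tendsto.const_mul
    exact (tendsto_pow_atTop_nhds_zero_of_lt_one hst.t0.le hst.t1).comp hu
  rw [mul_zero, mul_zero] at hlim
  obtain ⟨j, hj1, hj2, hj3⟩ := ((hlim.eventually (gt_mem_nhds hδ0)).and
    ((hu.eventually_ge_atTop 1).and (Filter.eventually_ge_atTop i0))).exists
  have hDn : (Dsub p J (u j)).Normal := (hD p F M ι y n J hW).2.2.2.2 hst.inv (u j)
  have hdec : ∀ x : {x // x ∈ S}, ∃ a ∈ A ⊔ R1, ∃ d ∈ Dsub p J (u j), a * d = x.1 := by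
    intro x
    have hx : x.1 ∈ H i0 := hS ▸ Subgroup.subset_closure x.2
    exact Subgroup.mem_sup_of_normal_right.1 (hfin j hj3 hx)
  choose a haA d hdD had using hdec
  have hst2 := ha p F M R1 J t σ (ρ + δ) δ hst1 {x // x ∈ S} d (fun _ => u j)
    (fun x => ⟨hW.Dsub_le hp1 _ (hdD x), hj2, (hW.mem_Dsub hp1).1 (hdD x)⟩)
    (Summable.of_finite) (by
      rw [tsum_fintype, Finset.sum_const, Finset.card_univ, Fintype.card_coe, nsmul_eq_mul]
      exact hj1.le) (by rw [hδ]; linarith)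
  refine ⟨_, ?_, ⟨M, J, t, σ, _, hst2⟩, ?_⟩
  · exact fun g hg => Subgroup.subset_normalClosure (Or.inl (hRR1 hg))
  · set R2 : Subgroup F := Subgroup.normalClosure ((R1 : Set F) ∪ Set.range d) with hR2
    have hle : H i0 ≤ A ⊔ R2 := by
      rw [← hS, Subgroup.closure_le]
      intro x hx
      have h1 := had ⟨x, hx⟩
      simp only at h1
      rw [← h1]
      have h2 : A ⊔ R1 ≤ A ⊔ R2 :=
        sup_le_sup_left (show R1 ≤ R2 from
          fun g hg => Subgroup.subset_normalClosure (Or.inl hg)) A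
      exact Subgroup.mul_mem _ (h2 (haA ⟨x, hx⟩)) ((le_sup_right : R2 ≤ A ⊔ R2)
        (Subgroup.subset_normalClosure (Or.inr ⟨⟨x, hx⟩, rfl⟩)))
    intro hz
    have := Subgroup.index_dvd_of_le hle
    rw [hz] at this
    exact hHi i0 (Nat.eq_zero_of_zero_dvd this)

end Pool.Agent.H656.DC.Case2
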