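import Pool.Agent.H656.DC.GStmts

set_option autoImplicit false

open scoped commutatorElement

namespace Pool.Agent.H656.DC.Chain

/-- in a finite `p`-group a nontrivial normal subgroup contains a normal subgroup of index `p` -/
theorem exists_normal_quot {p : ℕ} [Fact p.Prime] {Q : Type*} [Group Q] [Finite Q]
    (hQ : IsPGroup p Q) (K : Subgroup Q) (hK : K.Normal) (hne : K ≠ ⊥) :
    ∃ K' : Subgroup Q, K'.Normal ∧ K' ≤ K ∧ K'.relIndex K = p := by
  have hnil : Group.IsNilpotent Q := hQ.isNilpotent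
  set C : Subgroup Q := ⁅K, (⊤ : Subgroup Q)⁆ with hC
  have hCK : C ≤ K := Subgroup.commutator_le_left _ _
  have hCne : C ≠ K := by
    intro h
    apply hne
    obtain ⟨n, hn⟩ := Subgroup.nilpotent_iff_lowerCentralSeries.1 hnil
    have h1 : ∀ m, K ≤ Subgroup.lowerCentralSeries (⊤ : Subgroup Q) m := by
      intro m
      induction m with
      | zero => exact le_top
      | succ m ih =>
        rw [Subgroup.lowerCentralSeries_succ, ← h, hC]
        exact Subgroup.commutator_mono ih le_rfl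
    have h2 := h1 n
    rw [hn] at h2
    exact le_bot_iff.1 h2
  obtain ⟨b, hb⟩ := (hQ.to_subgroup K).exists_card_eq
  obtain ⟨a, ha⟩ := (hQ.to_subgroup C).exists_card_eq
  have hp := (Fact.out : p.Prime)
  have hab : a < b := by
    have h1 : Nat.card C ≤ Nat.card K := Nat.card_le_card_of_injective _
      (Subgroup.inclusion_injective hCK)
    rw [hb, ha] at h1
    have h2 : a ≤ b := (Nat.pow_le_pow_iff_right hp.one_lt).1 h1
    rcases h2.lt_or_eq with h3 | h3
    · exact h3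
    · exfalso
      apply hCne
      apply Subgroup.eq_of_le_of_card_ge hCK
      rw [hb, ha, h3]
  -- a subgroup of `K`
  have h3 : Nat.card (C.subgroupOf K) = p ^ a := by
    rw [← ha]
    exact Nat.card_congr (Subgroup.subgroupOfEquivOfLe hCK).toEquiv
  obtain ⟨K₀, hK₀, hle⟩ := Sylow.exists_subgroup_card_pow_prime_le (G := K) p
    (n := a) (m := b - 1) (by rw [hb]; exact pow_dvd_pow p (by omega)) (C.subgroupOf K) h3 (by omega)
  set K' : Subgroup Q := K₀.map K.subtype with hK'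
  have hK'K : K' ≤ K := Subgroup.map_subtype_le _
  have hCK' : C ≤ K' := by
    intro x hx
    rw [hK', Subgroup.mem_map]
    exact ⟨⟨x, hCK hx⟩, hle (Subgroup.mem_subgroupOf.2 hx), rfl⟩
  have hcard : Nat.card K' = p ^ (b - 1) := by
    rw [← hK₀]
    exact Nat.card_congr (K₀.equivMapOfInjective _ K.subtype_injective).symm.toEquiv
  refine ⟨K', ⟨fun x hx q => ?_⟩, hK'K, ?_⟩
  · have h4 : ⁅q, x⁆ ∈ C := by
      rw [← inv_mem_iff, commutatorElement_inv, hC]
      exact Subgroup.commutator_mem_commutator (hK'K hx) (Subgroup.mem_top q)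
    have h5 : q * x * q⁻¹ = ⁅q, x⁆ * x := by
      rw [commutatorElement_def]; group
    rw [h5]
    exact K'.mul_mem (hCK' h4) hx
  · have h4 : K'.relIndex K * Nat.card K' = Nat.card K := by
      have h5 := Subgroup.card_mul_index (K'.subgroupOf K)
      rw [Nat.card_congr (Subgroup.subgroupOfEquivOfLe hK'K).toEquiv] at h5
      rw [mul_comm]
      exact h5
    rw [hcard, hb] at h4
    have h6 : p ^ b = p * p ^ (b - 1) := by
      rw [← pow_succ']
      congr 1
      omega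
    rw [h6] at h4
    exact Nat.eq_of_mul_eq_mul_right (pow_pos hp.pos _) h4

theorem exists_normal {p : ℕ} [Fact p.Prime] {F : Type} [Group F] (H N : Subgroup F)
    (hH : H.Normal) (hN : N.Normal) (hNH : N ≤ H) (hne : N ≠ H) (hind : ∃ k, N.index = p ^ k) :
    ∃ H' : Subgroup F, H'.Normal ∧ N ≤ H' ∧ H' ≤ H ∧ H'.relIndex H = p := by
  obtain ⟨k, hk⟩ := hind
  have hp := (Fact.out : p.Prime)
  have hcard : Nat.card (F ⧸ N) = p ^ k := hk
  have hfin : Finite (F ⧸ N) := Nat.finite_of_card_ne_zero (by rw [hcard]; exact (pow_pos hp.pos _).ne')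
  have hQ : IsPGroup p (F ⧸ N) := IsPGroup.of_card hcard
  have hKn : (H.map (QuotientGroup.mk' N)).Normal :=
    hH.map _ (QuotientGroup.mk'_surjective N)
  have hcm : (H.map (QuotientGroup.mk' N)).comap (QuotientGroup.mk' N) = H := by
    rw [Subgroup.comap_map_eq, QuotientGroup.ker_mk']
    exact sup_eq_left.2 hNH
  have hKne : H.map (QuotientGroup.mk' N) ≠ ⊥ := by
    intro h
    rw [h] at hcm
    apply hne
    rw [← hcm]
    show N = (QuotientGroup.mk' N).ker
    rw [QuotientGroup.ker_mk']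
  obtain ⟨K', hK'n, hK'le, hK'i⟩ := exists_normal_quot hQ _ hKn hKne
  refine ⟨K'.comap (QuotientGroup.mk' N), hK'n.comap _, ?_, ?_, ?_⟩
  · intro x hx
    rw [Subgroup.mem_comap]
    have : QuotientGroup.mk' N x = 1 := by
      rw [← MonoidHom.mem_ker, QuotientGroup.ker_mk']; exact hx
    rw [this]
    exact K'.one_mem
  · rw [← hcm]
    exact Subgroup.comap_mono hK'le
  · rw [Subgroup.relIndex_comap]
    exact hK'i

section

variable {p : ℕ} [Fact p.Prime] {F : Type} [Group F]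

/-- the invariant -/
structure St (M R : Subgroup F) (E : ℕ → Subgroup F) (H : Subgroup F) (v : ℕ) : Prop where
  nH : H.Normal
  R_le : R ≤ H
  le_M : H ≤ M
  fin : H.relIndex M ≠ 0
  one_le : 1 ≤ v
  le_E : H ≤ E (v - 1)
  not_le : ¬ H ≤ E v
  E_le : E v ≤ H

theorem find {M : Subgroup F} {E : ℕ → Subgroup F}
    (hE : Antitone E) (hE0 : M ≤ E 0) (hfin : ∀ m, (E m).relIndex M ≠ 0)
    (hunb : ∀ B : ℕ, ∃ m, B ≤ (E m).relIndex M) (H : Subgroup F) (hHM : H ≤ M)
    (hH : H.relIndex M ≠ 0) :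
    ∃ v, 1 ≤ v ∧ H ≤ E (v - 1) ∧ ¬ H ≤ E v := by
  classical
  have hex : ∃ v, ¬ H ≤ E v := by
    obtain ⟨m, hm⟩ := hunb (H.relIndex M + 1)
    refine ⟨m, fun h => ?_⟩
    have := Subgroup.relIndex_le_of_le_left (L := M) h hH
    omega
  have h1 := Nat.find_spec hex
  have h2 : 1 ≤ Nat.find hex := by
    by_contra hc
    have h3 : Nat.find hex = 0 := by omega
    rw [h3] at h1
    exact h1 (hHM.trans hE0)
  refine ⟨Nat.find hex, h2, ?_, h1⟩
  have h3 := Nat.find_min hex (m := Nat.find hex - 1) (by omega)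
  exact not_not.1 h3

theorem step {M R : Subgroup F} {E : ℕ → Subgroup F}
    (hE : Antitone E) (hE0 : M ≤ E 0) (hfin : ∀ m, (E m).relIndex M ≠ 0)
    (hunb : ∀ B : ℕ, ∃ m, B ≤ (E m).relIndex M) (hEn : ∀ m, (E m).Normal)
    (hER : ∀ m, R ≤ E m) (hind : ∀ m, ∃ k, (E m).index = p ^ k)
    (H : Subgroup F) (v : ℕ) (h : St M R E H v) :
    ∃ (H' : Subgroup F) (v' : ℕ), St M R E H' v' ∧ H' ≤ H ∧ H'.relIndex H = p ∧ v ≤ v' ∧
      E v ≤ H' := by
  obtain ⟨H', hn, hle, hle', hi⟩ := exists_normal (p := p) H (E v) h.nH (hEn v) h.E_le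
    (fun he => h.not_le he.ge) (hind v)
  have hp := (Fact.out : p.Prime)
  have hfin' : H'.relIndex M ≠ 0 := by
    rw [← Subgroup.relIndex_mul_relIndex H' H M hle' h.le_M, hi]
    exact mul_ne_zero hp.pos.ne' h.fin
  obtain ⟨v', hv1, hv2, hv3⟩ := find hE hE0 hfin hunb H' (hle'.trans h.le_M) hfin'
  have hvv : v ≤ v' := by
    by_contra hc
    push Not at hc
    apply hv3
    exact (hle'.trans h.le_E).trans (hE (by omega))
  exact ⟨H', v', ⟨hn, (hER v).trans hle, hle'.trans h.le_M, hfin', hv1, hv2, hv3,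
    (hE hvv).trans hle⟩, hle', hi, hvv, hle⟩

end

theorem main (hD : S_Dsub) : S_chain := by
  intro p _ F _ M R J t σ hM hMi hW hinv hR hRM hunb
  obtain ⟨ι, _, y, n, hwfs, hσ⟩ := hW
  obtain ⟨hD1, hD2, hD3, hD4, hD5⟩ := hD p F M ι y n J hwfs
  have hp := (Fact.out : p.Prime)
  have hp1 : p ≠ 1 := hp.one_lt.ne'
  obtain ⟨kM, hkM⟩ := hMi
  set E : ℕ → Subgroup F := fun m => Dsub p J m ⊔ R with hEdef
  have hDanti : Antitone (Dsub p J) := by
    intro a b hab g hg
    rw [hwfs.mem_Dsub hp1] at hg ⊢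
    exact hwfs.anti hab hg
  have hE : Antitone E := fun a b hab => sup_le_sup_right (hDanti hab) R
  have hDn : ∀ m, (Dsub p J m).Normal := hD5 hinv
  have hEn : ∀ m, (E m).Normal := fun m => by
    have := hDn m
    exact Subgroup.sup_normal _ _
  have hEM : ∀ m, E m ≤ M := fun m => sup_le (hwfs.Dsub_le hp1 m) hRM
  have hER : ∀ m, R ≤ E m := fun m => le_sup_right
  have hE0 : M ≤ E 0 := by
    intro g hg
    apply Subgroup.mem_sup_left
    rw [hwfs.mem_Dsub hp1]
    exact hwfs.anti (Nat.zero_le 1) (hwfs.el_sub_one_mem_one hg)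
  have hind : ∀ m, ∃ k, (E m).index = p ^ k := by
    intro m
    obtain ⟨k, hk⟩ := hD1 m
    have h1 := Subgroup.relIndex_mul_index (hwfs.Dsub_le hp1 m)
    rw [hk, hkM, ← pow_add] at h1
    have h2 : (E m).index ∣ p ^ (k + kM) := by
      rw [h1]
      exact Subgroup.index_dvd_of_le le_sup_left
    obtain ⟨j, -, hj⟩ := (Nat.dvd_prime_pow hp).1 h2
    exact ⟨j, hj⟩
  have hfin : ∀ m, (E m).relIndex M ≠ 0 := by
    intro m h0
    obtain ⟨k, hk⟩ := hind m
    have h1 := Subgroup.relIndex_mul_index (hEM m)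
    rw [h0, zero_mul, hk] at h1
    exact (pow_pos hp.pos k).ne h1
  -- start
  have hstart : ∃ v, St M R E M v := by
    obtain ⟨v, h1, h2, h3⟩ := find hE hE0 hfin hunb M le_rfl (by simp)
    exact ⟨v, hM, hRM, le_rfl, by simp, h1, h2, h3, hEM v⟩
  obtain ⟨v₀, hv₀⟩ := hstart
  have hstep : ∀ x : {x : Subgroup F × ℕ // St M R E x.1 x.2},
      ∃ y : {x : Subgroup F × ℕ // St M R E x.1 x.2}, y.1.1 ≤ x.1.1 ∧
        y.1.1.relIndex x.1.1 = p ∧ x.1.2 ≤ y.1.2 ∧ E x.1.2 ≤ y.1.1 := by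
    rintro ⟨⟨H, v⟩, hx⟩
    obtain ⟨H', v', h1, h2, h3, h4, h5⟩ := step (p := p) hE hE0 hfin hunb hEn hER hind H v hx
    exact ⟨⟨⟨H', v'⟩, h1⟩, h2, h3, h4, h5⟩
  choose f hf using hstep
  let s : ℕ → {x : Subgroup F × ℕ // St M R E x.1 x.2} := fun i =>
    Nat.rec ⟨⟨M, v₀⟩, hv₀⟩ (fun _ x => f x) i
  have hs0 : s 0 = ⟨⟨M, v₀⟩, hv₀⟩ := rfl
  have hs1 : ∀ i, s (i + 1) = f (s i) := fun i => rfl
  have hrel : ∀ i, (s (i + 1)).1.1.relIndex (s i).1.1 = p := fun i => by
    rw [hs1]; exact (hf (s i)).2.1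
  have hle : ∀ i, (s (i + 1)).1.1 ≤ (s i).1.1 := fun i => by
    rw [hs1]; exact (hf (s i)).1
  have hvle : ∀ i, (s i).1.2 ≤ (s (i + 1)).1.2 := fun i => by
    rw [hs1]; exact (hf (s i)).2.2.1
  have hEle : ∀ i, E (s i).1.2 ≤ (s (i + 1)).1.1 := fun i => by
    rw [hs1]; exact (hf (s i)).2.2.2
  have hpow : ∀ i, (s i).1.1.relIndex M = p ^ i := by
    intro i
    induction i with
    | zero => rw [hs0]; simp
    | succ i ih =>
      rw [← Subgroup.relIndex_mul_relIndex _ _ _ (hle i) (s i).2.le_M, hrel i, ih, pow_succ']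
  refine ⟨fun i => (s i).1.1, fun i => (s i).1.2 - 1, rfl, fun i => (s i).2.nH,
    fun i => (s i).2.R_le, fun i => ⟨hle i, hrel i⟩, ?_, ?_, ?_⟩
  · intro i g _ hg
    have h1 : (s i).1.2 - 1 + 1 = (s i).1.2 := by
      have := (s i).2.one_le
      omega
    rw [h1] at hg
    exact hEle i (Subgroup.mem_sup_left ((hwfs.mem_Dsub hp1).2 hg))
  · intro i g hg
    have h1 : g ∈ Dsub p J ((s i).1.2 - 1) ⊔ R := (s i).2.le_E hg
    rw [Subgroup.mem_sup_of_normal_right] at h1
    obtain ⟨d, hd, r, hr, hdr⟩ := h1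
    refine ⟨r⁻¹, R.inv_mem hr, ?_⟩
    have h2 : g * r⁻¹ = d := by
      rw [← hdr]; group
    rw [h2]
    exact (hwfs.mem_Dsub hp1).1 hd
  · apply Filter.tendsto_atTop_atTop_of_monotone
    · apply monotone_nat_of_le_succ
      intro i
      exact Nat.sub_le_sub_right (hvle i) 1
    · intro b
      by_contra hc
      push Not at hc
      have h1 : ∀ i, p ^ i ≤ (E b).relIndex M := by
        intro i
        rw [← hpow i]
        have h2 : E b ≤ (s i).1.1 := by
          have h3 := hc i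
          have h4 : (s i).1.2 ≤ b := by omega
          exact (hE h4).trans (s i).2.E_le
        exact Subgroup.relIndex_le_of_le_left h2 (hfin b)
      have h2 := h1 ((E b).relIndex M)
      have h3 : (E b).relIndex M < p ^ ((E b).relIndex M) := Nat.lt_pow_self hp.one_lt
      omega

end Pool.Agent.H656.DC.Chain
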