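import Pool.Agent.H656.DC.GStmts

/-!
# Unions of chains keep unbounded finite `p`-quotients (by helper52)
-/

set_option autoImplicit false

namespace Pool.Agent.H656.DC.ChainUnb

open Subgroup

/-- a finitely generated group has finitely many homomorphisms to a finite group -/
theorem finite_hom (G M : Type) [Group G] [Group M] [Finite M] (h : Group.FG G) :
    Finite (G →* M) := by
  obtain ⟨S, hS⟩ := h.out
  refine Finite.of_injective (β := S → M) (fun f s => f s) ?_
  intro f g hfg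
  refine MonoidHom.eq_of_eqOn_dense hS ?_
  intro x hx
  exact congrFun hfg ⟨x, hx⟩

/-- a group of order `p ^ j`, `j ≠ 0`, has a nontrivial homomorphism to `ZMod p` -/
theorem exists_hom (p : ℕ) [Fact p.Prime] (G : Type) [Group G] (j : ℕ) (hj : j ≠ 0)
    (hG : Nat.card G = p ^ j) : ∃ f : G →* Multiplicative (ZMod p), Function.Surjective f := by
  have hp : p.Prime := Fact.out
  have hpos : 0 < Nat.card G := by rw [hG]; exact pow_pos hp.pos _
  have : Finite G := Nat.finite_of_card_ne_zero hpos.ne'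
  obtain ⟨N, hN⟩ := Sylow.exists_subgroup_card_pow_prime (G := G) p (n := j - 1)
    (by rw [hG]; exact pow_dvd_pow p (by omega))
  have hidx : N.index = p := by
    have h1 := N.card_mul_index
    rw [hN, hG] at h1
    have h2 : p ^ j = p ^ (j - 1) * p := by
      rw [← pow_succ]; congr 1; omega
    rw [h2] at h1
    exact Nat.eq_of_mul_eq_mul_left (pow_pos hp.pos _) h1
  have hNn : N.Normal := by
    apply Subgroup.normal_of_index_eq_minFac_card
    rw [hidx, hG, Nat.Prime.pow_minFac hp hj]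
  have hc1 : Nat.card (G ⧸ N) = p := hidx
  have hc2 : Nat.card (Multiplicative (ZMod p)) = p := by
    rw [Nat.card_congr Multiplicative.toAdd, Nat.card_zmod]
  exact ⟨(mulEquivOfPrimeCardEq hc1 hc2).toMonoidHom.comp (QuotientGroup.mk' N),
    (mulEquivOfPrimeCardEq hc1 hc2).surjective.comp (QuotientGroup.mk'_surjective N)⟩

/-- evaluation at all homomorphisms to `M` -/
def Phi (G M : Type) [Group G] [CommGroup M] : G →* ((G →* M) → M) := MonoidHom.pi (fun f => f)

theorem mem_ker_Phi {G M : Type} [Group G] [CommGroup M] (x : G) :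
    x ∈ (Phi G M).ker ↔ ∀ f : G →* M, f x = 1 := by
  rw [MonoidHom.mem_ker]
  constructor
  · intro h f
    exact congrFun h f
  · intro h
    funext f
    exact h f

/-- the subgroup `K₁` -/
def K1 {F : Type} [Group F] (M : Type) [CommGroup M] (K : Subgroup F) : Subgroup F :=
  (Phi K M).ker.map K.subtype

theorem mem_K1 {F M : Type} [Group F] [CommGroup M] (K : Subgroup F) (x : F) :
    x ∈ K1 M K ↔ ∃ h : x ∈ K, ∀ f : K →* M, f ⟨x, h⟩ = 1 := by
  constructor
  · rintro ⟨y, hy, rfl⟩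
    exact ⟨y.2, (mem_ker_Phi y).1 hy⟩
  · rintro ⟨h, hf⟩
    exact ⟨⟨x, h⟩, (mem_ker_Phi _).2 hf, rfl⟩

theorem K1_le {F M : Type} [Group F] [CommGroup M] (K : Subgroup F) : K1 M K ≤ K := by
  intro x hx
  exact ((mem_K1 K x).1 hx).1

theorem K1_normal {F M : Type} [Group F] [CommGroup M] (K : Subgroup F) [K.Normal] :
    (K1 M K).Normal := by
  constructor
  intro x hx g
  rw [mem_K1] at hx ⊢
  obtain ⟨h, hf⟩ := hx
  refine ⟨Subgroup.Normal.conj_mem inferInstance x h g, fun f => ?_⟩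
  have h1 := hf (f.comp (MulAut.conjNormal g : MulAut K).toMonoidHom)
  exact h1

theorem K1_index {F : Type} [Group F] (p : ℕ) [Fact p.Prime] (hF : Group.FG F) (K : Subgroup F)
    (hK : ∃ k, K.index = p ^ k) :
    ∃ k, (K1 (Multiplicative (ZMod p)) K).index = p ^ k := by
  have hp : p.Prime := Fact.out
  obtain ⟨k, hk⟩ := hK
  have : K.FiniteIndex := ⟨by rw [hk]; exact (pow_pos hp.pos _).ne'⟩
  have hKF : Group.FG K := Subgroup.fg_of_index_ne_zero K
  have hfin := finite_hom K (Multiplicative (ZMod p)) hKF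
  have h1 : (K1 (Multiplicative (ZMod p)) K).relIndex K * K.index =
      (K1 (Multiplicative (ZMod p)) K).index := Subgroup.relIndex_mul_index (K1_le K)
  have h2 : (K1 (Multiplicative (ZMod p)) K).relIndex K = (Phi K (Multiplicative (ZMod p))).ker.index := by
    unfold Subgroup.relIndex K1
    congr 1
    exact Subgroup.comap_map_eq_self_of_injective K.subtype_injective _
  have h3 : (Phi K (Multiplicative (ZMod p))).ker.index ∣
      p ^ (Nat.card (K →* Multiplicative (ZMod p))) := by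
    rw [Subgroup.index_ker]
    have h4 := Subgroup.card_subgroup_dvd_card (Phi K (Multiplicative (ZMod p))).range
    have h5 : Nat.card ((K →* Multiplicative (ZMod p)) → Multiplicative (ZMod p)) =
        p ^ (Nat.card (K →* Multiplicative (ZMod p))) := by
      have := Fintype.ofFinite (K →* Multiplicative (ZMod p))
      rw [Nat.card_fun, Nat.card_congr Multiplicative.toAdd, Nat.card_zmod]
    rwa [h5] at h4
  obtain ⟨l, -, hl⟩ := (Nat.dvd_prime_pow hp).1 h3
  exact ⟨l + k, by rw [← h1, h2, hl, hk, pow_add]⟩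

/-- the key claim -/
theorem not_le {F : Type} [Group F] (p : ℕ) [Fact p.Prime] (K0 : Subgroup F) [K0.Normal]
    (hK0 : ∃ k, K0.index = p ^ k) (R : Subgroup F) (hRK : R ≤ K0) (hR : Unb p R) :
    ¬ K0 ≤ R ⊔ K1 (Multiplicative (ZMod p)) K0 := by
  have hp : p.Prime := Fact.out
  intro hle
  obtain ⟨K, hKn, hRK', ⟨k, hk⟩, hKB⟩ := hR (K0.index + 1)
  have hK0p : 0 < K0.index := by
    obtain ⟨k0, hk0⟩ := hK0
    rw [hk0]; exact pow_pos hp.pos _
  -- `L' = K ∩ K0` as a subgroup of `K0`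
  have hd : (K.subgroupOf K0).index ∣ p ^ k := by
    rw [← hk]; exact K.relIndex_dvd_index_of_normal K0
  obtain ⟨j, -, hj⟩ := (Nat.dvd_prime_pow hp).1 hd
  have hj0 : j ≠ 0 := by
    rintro rfl
    rw [pow_zero] at hj
    have h1 : K0 ≤ K := Subgroup.relIndex_eq_one.1 hj
    have h2 : K.index ≤ K0.index := Nat.le_of_dvd hK0p (Subgroup.index_dvd_of_le h1)
    omega
  have hn : (K.subgroupOf K0).Normal := inferInstance
  obtain ⟨g, hg⟩ := exists_hom p (K0 ⧸ K.subgroupOf K0) j hj0 hj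
  set f : K0 →* Multiplicative (ZMod p) := g.comp (QuotientGroup.mk' (K.subgroupOf K0)) with hf
  have hfs : Function.Surjective f := hg.comp (QuotientGroup.mk'_surjective _)
  have h1 : R ≤ f.ker.map K0.subtype := by
    intro x hx
    refine ⟨⟨x, hRK hx⟩, ?_, rfl⟩
    have h2 : (QuotientGroup.mk' (K.subgroupOf K0)) ⟨x, hRK hx⟩ = 1 := by
      rw [QuotientGroup.mk'_apply, QuotientGroup.eq_one_iff, Subgroup.mem_subgroupOf]
      exact hRK' hx
    show f ⟨x, hRK hx⟩ = 1
    rw [hf, MonoidHom.comp_apply, h2, map_one]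
  have h2 : K1 (Multiplicative (ZMod p)) K0 ≤ f.ker.map K0.subtype := by
    intro x hx
    obtain ⟨h, h'⟩ := (mem_K1 K0 x).1 hx
    exact ⟨⟨x, h⟩, h' f, rfl⟩
  have h3 : K0 ≤ f.ker.map K0.subtype := hle.trans (sup_le h1 h2)
  have h4 : ∀ x : K0, f x = 1 := by
    intro x
    obtain ⟨y, hy, hyx⟩ := h3 x.2
    have : y = x := Subtype.ext hyx
    rw [← this]; exact hy
  obtain ⟨x, hx⟩ := hfs (Multiplicative.ofAdd 1)
  rw [h4 x] at hx
  have h5 : (0 : ZMod p) = 1 := congrArg Multiplicative.toAdd hx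
  exact zero_ne_one h5

theorem main : S_chainUnb := by
  classical
  intro p _ F _ hFG c hc0 hc hcN
  have hp : p.Prime := Fact.out
  by_contra hU
  unfold Unb at hU
  push Not at hU
  obtain ⟨B, hB⟩ := hU
  -- maximal index
  set P : ℕ → Prop := fun n => ∃ K : Subgroup F, K.Normal ∧ sSup c ≤ K ∧ (∃ k, K.index = p ^ k) ∧
    K.index = n with hPdef
  have hP1 : P 1 := ⟨⊤, inferInstance, le_top, ⟨0, by simp⟩, by simp⟩
  have hPB : ∀ n, P n → n ≤ B := by
    rintro n ⟨K, h1, h2, h3, rfl⟩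
    exact (hB K h1 h2 h3).le
  have hmem := Nat.findGreatest_spec (hPB 1 hP1) hP1
  have hmax : ∀ n, P n → n ≤ Nat.findGreatest P B := fun n hn => Nat.le_findGreatest (hPB n hn) hn
  set n0 := Nat.findGreatest P B with hn0
  obtain ⟨K0, hK0n, hUK0, hK0p, hK0i⟩ := hmem
  have hK1n : (K1 (Multiplicative (ZMod p)) K0).Normal := K1_normal K0
  obtain ⟨k1, hk1⟩ := K1_index p hFG K0 hK0p
  -- minimal index of `R ⊔ K1`
  obtain ⟨R0, hR0, hmin⟩ : ∃ R ∈ c, ∀ R' ∈ c, (R ⊔ K1 (Multiplicative (ZMod p)) K0).index ≤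
      (R' ⊔ K1 (Multiplicative (ZMod p)) K0).index := by
    obtain ⟨R, hR, hmin⟩ := WellFounded.has_min
      (measure (fun R : Subgroup F => (R ⊔ K1 (Multiplicative (ZMod p)) K0).index)).wf c hc0
    exact ⟨R, hR, fun R' hR' => not_lt.1 (hmin R' hR')⟩
  have hpos : ∀ R : Subgroup F, (R ⊔ K1 (Multiplicative (ZMod p)) K0).index ≠ 0 := by
    intro R h0
    have h1 := Subgroup.index_dvd_of_le (le_sup_right : K1 (Multiplicative (ZMod p)) K0 ≤
      R ⊔ K1 (Multiplicative (ZMod p)) K0)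
    rw [h0, hk1, zero_dvd_iff] at h1
    exact (pow_pos hp.pos _).ne' h1
  have hUR : sSup c ≤ R0 ⊔ K1 (Multiplicative (ZMod p)) K0 := by
    apply sSup_le
    intro R' hR'
    rcases hc.total hR' hR0 with h | h
    · exact h.trans le_sup_left
    · have h1 : R0 ⊔ K1 (Multiplicative (ZMod p)) K0 ≤ R' ⊔ K1 (Multiplicative (ZMod p)) K0 :=
        sup_le_sup_right h _
      have h2 := Subgroup.relIndex_mul_index h1
      have h3 : (R' ⊔ K1 (Multiplicative (ZMod p)) K0).index =
          (R0 ⊔ K1 (Multiplicative (ZMod p)) K0).index :=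
        le_antisymm (Nat.le_of_dvd (Nat.pos_of_ne_zero (hpos R0)) (Subgroup.index_dvd_of_le h1))
          (hmin R' hR')
      have h4 : (R0 ⊔ K1 (Multiplicative (ZMod p)) K0).relIndex
          (R' ⊔ K1 (Multiplicative (ZMod p)) K0) = 1 := by
        rw [h3] at h2
        exact Nat.eq_of_mul_eq_mul_right (Nat.pos_of_ne_zero (hpos R0)) (by rw [h2, one_mul])
      exact le_sup_left.trans (Subgroup.relIndex_eq_one.1 h4)
  -- contradiction
  have hR0n := (hcN R0 hR0).1
  have hR0K : R0 ≤ K0 := (le_sSup hR0).trans hUK0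
  have hnl := not_le p K0 hK0p R0 hR0K (hcN R0 hR0).2
  have hle : R0 ⊔ K1 (Multiplicative (ZMod p)) K0 ≤ K0 := sup_le hR0K (K1_le K0)
  have h5 : P (R0 ⊔ K1 (Multiplicative (ZMod p)) K0).index := by
    refine ⟨_, inferInstance, hUR, ?_, rfl⟩
    have h1 := Subgroup.index_dvd_of_le (le_sup_right : K1 (Multiplicative (ZMod p)) K0 ≤
      R0 ⊔ K1 (Multiplicative (ZMod p)) K0)
    rw [hk1] at h1
    obtain ⟨l, -, hl⟩ := (Nat.dvd_prime_pow hp).1 h1
    exact ⟨l, hl⟩
  have h6 := hmax _ h5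
  rw [← hK0i] at h6
  have h7 := Subgroup.relIndex_mul_index hle
  have hK0pos : 0 < K0.index := by
    obtain ⟨k0, hk0⟩ := hK0p
    rw [hk0]; exact pow_pos hp.pos _
  apply hnl
  rw [← Subgroup.relIndex_eq_one]
  have h8 : (R0 ⊔ K1 (Multiplicative (ZMod p)) K0).relIndex K0 ≠ 0 := by
    intro h0
    rw [h0, zero_mul] at h7
    exact hpos R0 h7.symm
  have h9 : (R0 ⊔ K1 (Multiplicative (ZMod p)) K0).relIndex K0 * K0.index ≤ 1 * K0.index := by
    rw [h7, one_mul]; exact h6
  have h10 := Nat.le_of_mul_le_mul_right h9 hK0pos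
  omega

end Pool.Agent.H656.DC.ChainUnb
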