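import Pool.Agent.H656.DC.EStmts

/-!
# Leaf Const: rigidity of profinite invariants of a Bernoulli shift of a group with property (T)
-/

set_option autoImplicit false
set_option linter.unusedSectionVars false

open MeasureTheory Filter Topology

namespace Pool.Agent.H656.DC.Const

section

variable {G D : Type}

theorem meas_rel {q : (G → ℝ) → D} (hfin : (Set.range q).Finite)
    (hm : ∀ d, MeasurableSet {x | q x = d}) {Z : Type} [MeasurableSpace Z] {u v : Z → (G → ℝ)}
    (hu : Measurable u) (hv : Measurable v) (c : D → D) :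
    MeasurableSet {z | q (u z) = c (q (v z))} := by
  have h1 : {z | q (u z) = c (q (v z))} =
      ⋃ d ∈ Set.range q, ({z | q (v z) = d} ∩ {z | q (u z) = c d}) := by
    ext z
    simp only [Set.mem_ofPred_eq, Set.mem_iUnion, Set.mem_inter_iff, exists_prop]
    constructor
    · intro h
      exact ⟨q (v z), ⟨v z, rfl⟩, rfl, h⟩
    · rintro ⟨d, _, h1, h2⟩
      rw [h1, h2]
  rw [h1]
  exact Set.Finite.measurableSet_biUnion hfin fun d _ => (hv (hm d)).inter (hu (hm (c d)))

end

section

variable {G : Type} [Group G] [Countable G] {D : Type} (cj : G → D → D)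
  (q : ℕ → (G → ℝ) → D)

/-- The set of the points where the two interpolations have the same invariant. -/
def En (n : ℕ) (s s' : ℝ) : Set (G → ℝ × ℝ × ℝ) := {z | q n (interp s z) = q n (interp s' z)}

/-- Points with the same invariants up to the action. -/
def Rel (x x' : G → ℝ) : Prop := ∃ γ : G, ∀ n, q n x = cj γ (q n x')

/-- The set of the points where the two interpolations are related. -/
def Om (s s' : ℝ) : Set (G → ℝ × ℝ × ℝ) := {z | Rel cj q (interp s z) (interp s' z)}

variable {cj q}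

theorem Rel.symm (h1 : ∀ d, cj 1 d = d) (h2 : ∀ g h d, cj (g * h) d = cj g (cj h d))
    {x x' : G → ℝ} (h : Rel cj q x x') : Rel cj q x' x := by
  obtain ⟨γ, hγ⟩ := h
  refine ⟨γ⁻¹, fun n => ?_⟩
  rw [hγ, ← h2, inv_mul_cancel, h1]

theorem Rel.trans (h2 : ∀ g h d, cj (g * h) d = cj g (cj h d))
    {x x' x'' : G → ℝ} (h : Rel cj q x x') (h' : Rel cj q x' x'') : Rel cj q x x'' := by
  obtain ⟨γ, hγ⟩ := h
  obtain ⟨γ', hγ'⟩ := h'
  refine ⟨γ * γ', fun n => ?_⟩
  rw [hγ, hγ', h2]

theorem meas_Rel {Z : Type} [MeasurableSpace Z] {u v : Z → (G → ℝ)}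
    (hfin : ∀ n, (Set.range (q n)).Finite) (hm : ∀ n d, MeasurableSet {x | q n x = d})
    (hu : Measurable u) (hv : Measurable v) : MeasurableSet {z | Rel cj q (u z) (v z)} := by
  have : {z | Rel cj q (u z) (v z)} = ⋃ γ : G, ⋂ n : ℕ, {z | q n (u z) = cj γ (q n (v z))} := by
    ext z
    simp only [Rel, Set.mem_ofPred_eq, Set.mem_iUnion, Set.mem_iInter]
  rw [this]
  exact MeasurableSet.iUnion fun γ => MeasurableSet.iInter fun n =>
    meas_rel (hfin n) (hm n) hu hv (cj γ)

theorem Rel_shift (_h1 : ∀ d, cj 1 d = d) (h2 : ∀ g h d, cj (g * h) d = cj g (cj h d))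
    {lam : G → (G → ℝ) → G} (hq : ∀ n g x, q n (shift g x) = cj (lam g x) (q n x))
    (g : G) {x x' : G → ℝ} (h : Rel cj q x x') : Rel cj q (shift g x) (shift g x') := by
  obtain ⟨γ, hγ⟩ := h
  refine ⟨lam g x * γ * (lam g x')⁻¹, fun n => ?_⟩
  rw [hq, hq, hγ, ← h2, ← h2, inv_mul_cancel_right]

theorem Om_shift (h1 : ∀ d, cj 1 d = d) (h2 : ∀ g h d, cj (g * h) d = cj g (cj h d))
    {lam : G → (G → ℝ) → G} (hq : ∀ n g x, q n (shift g x) = cj (lam g x) (q n x))
    (s s' : ℝ) (g : G) : shift g ⁻¹' (Om cj q s s') = Om cj q s s' := by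
  ext z
  constructor
  · intro h
    have h3 : Rel cj q (interp s (shift g z)) (interp s' (shift g z)) := h
    have h4 := Rel_shift h1 h2 hq g⁻¹ h3
    rw [← interp_shift, ← interp_shift, ← shift_mul, inv_mul_cancel, shift_one] at h4
    exact h4
  · intro h
    have h3 : Rel cj q (interp s z) (interp s' z) := h
    have h4 := Rel_shift h1 h2 hq g h3
    rw [← interp_shift, ← interp_shift] at h4
    exact h4

theorem En_shift (h1 : ∀ d, cj 1 d = d) (h2 : ∀ g h d, cj (g * h) d = cj g (cj h d))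
    {lam : G → (G → ℝ) → G} (hq : ∀ n g x, q n (shift g x) = cj (lam g x) (q n x))
    (n : ℕ) (s s' : ℝ) (g : G) (z : G → ℝ × ℝ × ℝ)
    (hz : lam g (interp s z) = lam g (interp s' z)) :
    shift g z ∈ En q n s s' ↔ z ∈ En q n s s' := by
  show q n (interp s (shift g z)) = q n (interp s' (shift g z)) ↔
    q n (interp s z) = q n (interp s' z)
  rw [interp_shift, interp_shift, hq, hq, hz]
  constructor
  · intro h
    have h3 := congrArg (cj (lam g (interp s' z))⁻¹) h
    rw [← h2, ← h2, inv_mul_cancel, h1, h1] at h3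
    exact h3
  · intro h
    rw [h]

end

/-- The first step: the measure of `En` is small or large. -/
theorem gap (h1' : S_T1) (hm : S_mix) (hb : S_bernPMP) {G : Type} [Group G] [Countable G]
    [Infinite G] {S : Finset G} {C : ℝ} (hT : HasTC G S C) {ε : ℝ}
    (hε : 4 * C * ((S.card : ℝ) * ε) ≤ 1 / 8)
    (A : Set (G → ℝ × ℝ × ℝ)) (hA : MeasurableSet A)
    (h : ∀ g ∈ S, (bern G nu3).real (symmDiff (shift g ⁻¹' A) A) ≤ ε) :
    (bern G nu3).real A * (1 - (bern G nu3).real A) ≤ 1 / 8 := by
  have hC := hT.1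
  have hpmp := hb G (ℝ × ℝ × ℝ) nu3
  have h2 : ∀ g : G, (bern G nu3).real (symmDiff (shift g ⁻¹' A) A) ≤ 1 / 8 := by
    intro g
    refine (h1' G S C hT _ (bern G nu3) shift hpmp A hA g).trans (le_trans ?_ hε)
    refine mul_le_mul_of_nonneg_left ?_ (by linarith)
    refine (Finset.sum_le_sum h).trans (le_of_eq ?_)
    rw [Finset.sum_const, nsmul_eq_mul]
  have h3 := hm G (ℝ × ℝ × ℝ) nu3 A Aᶜ hA hA.compl
  have h4 : (bern G nu3).real Aᶜ = 1 - (bern G nu3).real A := by
    rw [measureReal_compl hA]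
    simp
  rw [h4] at h3
  refine le_of_tendsto' h3 fun g => ?_
  refine (measureReal_mono ?_).trans (h2 g)
  rintro z ⟨hz1, hz2⟩
  exact Or.inr ⟨hz1, hz2⟩

section

variable {G : Type} [Group G] [Countable G] {D : Type} {cj : G → D → D}
  {q : ℕ → (G → ℝ) → D}

theorem En_meas (hi : S_interp) (hfin : ∀ n, (Set.range (q n)).Finite)
    (hm : ∀ n d, MeasurableSet {x | q n x = d}) (n : ℕ) (s s' : ℝ) :
    MeasurableSet (En q n s s') :=
  meas_rel (hfin n) (hm n) ((hi G).1 s).measurable ((hi G).1 s').measurable id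

theorem En_self (n : ℕ) (s : ℝ) : En q n s s = Set.univ := by
  ext z; simp [En]

theorem En_trans (n : ℕ) (s s' s'' : ℝ) : En q n s s' ∩ En q n s' s'' ⊆ En q n s s'' :=
  fun _ hz => hz.1.trans hz.2

/-- Continuity in the parameter. -/
theorem En_cont (hi : S_interp) (hc : S_cont) (hfin : ∀ n, (Set.range (q n)).Finite)
    (hm : ∀ n d, MeasurableSet {x | q n x = d}) (n : ℕ) {ε : ℝ} (hε : 0 < ε) :
    ∃ δ : ℝ, 0 < δ ∧ ∀ s s' : ℝ, |s - s'| ≤ δ → 1 - ε ≤ (bern G nu3).real (En q n s s') := by
  have : Finite (Set.range (q n)) := hfin n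
  obtain ⟨δ, hδ, h⟩ := hc G (Set.range (q n)) (fun x => ⟨q n x, x, rfl⟩) (by
    intro l
    have : {x : G → ℝ | (⟨q n x, x, rfl⟩ : Set.range (q n)) = l} = {x | q n x = l.1} := by
      ext x
      simp only [Set.mem_ofPred_eq, Subtype.ext_iff]
    rw [this]
    exact hm n _) ε hε
  refine ⟨δ, hδ, fun s s' hs => ?_⟩
  have h2 := h s s' hs
  have h3 : {z : G → ℝ × ℝ × ℝ | (⟨q n (interp s z), interp s z, rfl⟩ : Set.range (q n)) ≠
      ⟨q n (interp s' z), interp s' z, rfl⟩} = (En q n s s')ᶜ := by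
    ext z
    exact not_congr Subtype.ext_iff
  rw [h3, measureReal_compl (En_meas hi hfin hm n s s')] at h2
  simp only [probReal_univ] at h2
  linarith

/-- The stepping argument. -/
theorem En_large (hi : S_interp) (hc : S_cont) (hfin : ∀ n, (Set.range (q n)).Finite)
    (hm : ∀ n d, MeasurableSet {x | q n x = d}) {δ₀ : ℝ} (n : ℕ)
    (hgap : ∀ s s' : ℝ, |s - s'| ≤ δ₀ → (bern G nu3).real (En q n s s') *
      (1 - (bern G nu3).real (En q n s s')) ≤ 1 / 8) (s s' : ℝ) (hs : |s - s'| ≤ δ₀) :
    5 / 6 ≤ (bern G nu3).real (En q n s s') := by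
  obtain ⟨δ, hδ, hcont⟩ := En_cont hi hc hfin hm n (ε := 1 / 10) (by norm_num)
  obtain ⟨K, hK⟩ := exists_nat_gt (|s - s'| / δ)
  have hK0 : (0:ℝ) < K := lt_of_le_of_lt (by positivity) hK
  have hstep : |s - s'| / K ≤ δ := by
    rw [div_lt_iff₀ hδ] at hK
    rw [div_le_iff₀ hK0]
    linarith
  have key : ∀ k : ℕ, k ≤ K → 5 / 6 ≤ (bern G nu3).real (En q n s (s + k * ((s' - s) / K))) := by
    intro k
    induction k with
    | zero =>
      intro _
      rw [Nat.cast_zero, zero_mul, add_zero, En_self]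
      rw [probReal_univ]
      norm_num
    | succ k ih =>
      intro hk
      have h1 := ih (by omega)
      set t := s + k * ((s' - s) / K) with ht
      set t' := s + ((k + 1 : ℕ) : ℝ) * ((s' - s) / K) with ht'
      have e1 : |t - t'| ≤ δ := by
        have : t - t' = (s - s') / K := by
          rw [ht, ht']; push_cast; field_simp; ring
        rw [this, abs_div, abs_of_pos hK0]
        exact hstep
      have h2 := hcont t t' e1
      have h3 : |s - t'| ≤ δ₀ := by
        have : s - t' = ((k + 1 : ℕ) : ℝ) / K * (s - s') := by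
          rw [ht']; field_simp; ring
        rw [this, abs_mul, abs_of_nonneg (by positivity)]
        have h5 : ((k + 1 : ℕ) : ℝ) / K ≤ 1 := by
          rw [div_le_one hK0]
          exact_mod_cast hk
        exact (mul_le_of_le_one_left (abs_nonneg _) h5).trans hs
      have h4 := hgap s t' h3
      have h5 : (bern G nu3).real (En q n s t) - 1 / 10 ≤ (bern G nu3).real (En q n s t') := by
        have hA := En_meas (q := q) hi hfin hm n s t
        have hB := En_meas (q := q) hi hfin hm n t t'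
        have h6 := measureReal_mono (μ := bern G nu3) (En_trans (q := q) n s t t')
        have h7 := measureReal_union_add_inter (μ := bern G nu3) (s := En q n s t) hB
        have h8 : (bern G nu3).real (En q n s t ∪ En q n t t') ≤ 1 := measureReal_le_one
        linarith
      set e := (bern G nu3).real (En q n s t') with he
      by_contra hcon
      push Not at hcon
      nlinarith
  have h9 := key K le_rfl
  have : s + (K:ℝ) * ((s' - s) / K) = s' := by
    field_simp; ring
  rwa [this] at h9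

end

theorem main (hi : S_interp) (hc : S_cont) (h1 : S_T1) (hm : S_mix) (hb : S_bernPMP)
    (he : S_mixErg) (hp : S_prodBern) : S_const := by
  intro G _ _ _ S C hT D cj hcj1 hcj2 q lam hfin hqm hlm hq hdec
  have hC := hT.1
  -- the choice of the constants
  obtain ⟨ε, hε0, hε⟩ : ∃ ε : ℝ, 0 < ε ∧ 4 * C * ((S.card : ℝ) * ε) ≤ 1 / 8 := by
    refine ⟨1 / (8 * (4 * C * S.card + 1)), by positivity, ?_⟩
    have h0 : 0 ≤ 4 * C * (S.card : ℝ) := by positivity
    rw [← mul_assoc, mul_one_div, div_le_div_iff₀ (by positivity) (by norm_num)]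
    nlinarith
  have hδ : ∃ δ : ℝ, 0 < δ ∧ ∀ g ∈ S, ∀ s s' : ℝ, |s - s'| ≤ δ →
      (bern G nu3).real {z | lam g (interp s z) ≠ lam g (interp s' z)} ≤ ε := by
    choose δ hδ hδ' using fun g : G => hc G G (lam g) (hlm g) ε hε0
    clear hT hε
    classical
    induction S using Finset.induction_on with
    | empty => exact ⟨1, one_pos, by simp⟩
    | insert a S ha ih =>
      obtain ⟨δ₁, h2, h3⟩ := ih
      refine ⟨min δ₁ (δ a), lt_min h2 (hδ a), ?_⟩
      intro g hg s s' hs
      rw [Finset.mem_insert] at hg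
      rcases hg with rfl | hg
      · exact hδ' _ s s' (hs.trans (min_le_right _ _))
      · exact h3 g hg s s' (hs.trans (min_le_left _ _))
  obtain ⟨δ, hδ0, hδ⟩ := hδ
  have hpmp := hb G (ℝ × ℝ × ℝ) nu3
  have herg := he G _ (bern G nu3) shift hpmp (hm G (ℝ × ℝ × ℝ) nu3)
  -- the gap
  have hlarge : ∀ (n : ℕ) (s s' : ℝ), |s - s'| ≤ δ → 5 / 6 ≤ (bern G nu3).real (En q n s s') := by
    intro n
    refine En_large hi hc hfin hqm n ?_
    intro s s' hs
    refine gap h1 hm hb hT hε _ (En_meas hi hfin hqm n s s') fun g hg => ?_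
    refine (measureReal_mono ?_).trans (hδ g hg s s' hs)
    intro z hz hcon
    have h3 := En_shift hcj1 hcj2 hq n s s' g z hcon
    rcases hz with ⟨h4, h5⟩ | ⟨h4, h5⟩
    · exact h5 (h3.1 h4)
    · exact h5 (h3.2 h4)
  -- one step
  have hstep : ∀ s s' : ℝ, |s - s'| ≤ δ → bern G nu3 (Om cj q s s')ᶜ = 0 := by
    intro s s' hs
    have hOm : MeasurableSet (Om cj q s s') :=
      meas_Rel hfin hqm ((hi G).1 s).measurable ((hi G).1 s').measurable
    refine (herg (Om cj q s s') hOm fun g => ?_).resolve_left fun h0 => ?_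
    · exact Filter.EventuallyEq.of_eq (Om_shift hcj1 hcj2 hq s s' g)
    · have hsub : (⋂ n, En q n s s') ⊆ Om cj q s s' := by
        intro z hz
        rw [Set.mem_iInter] at hz
        refine ⟨1, fun n => ?_⟩
        rw [hcj1]
        exact hz n
      have hanti : Antitone fun n => En q n s s' := by
        refine antitone_nat_of_succ_le fun n => ?_
        intro z hz
        exact hdec n _ _ hz
      have h2 := tendsto_measure_iInter_atTop (μ := bern G nu3)
        (fun n => (En_meas (q := q) hi hfin hqm n s s').nullMeasurableSet) hanti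
        ⟨0, measure_ne_top _ _⟩
      have h3 : bern G nu3 (⋂ n, En q n s s') = 0 :=
        measure_mono_null hsub h0
      rw [h3] at h2
      have h4 : ∀ n, ENNReal.ofReal (5 / 6) ≤ (bern G nu3 ∘ fun n => En q n s s') n := by
        intro n
        rw [Function.comp_apply, ENNReal.ofReal_le_iff_le_toReal (measure_ne_top _ _)]
        exact hlarge n s s' hs
      have h5 := ge_of_tendsto' h2 h4
      rw [nonpos_iff_eq_zero, ENNReal.ofReal_eq_zero] at h5
      norm_num at h5
  -- the chain
  obtain ⟨K, hK⟩ := exists_nat_gt (1 / δ)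
  have hK0 : (0:ℝ) < K := lt_of_le_of_lt (by positivity) hK
  have hchain : ∀ k : ℕ, bern G nu3 (Om cj q 0 (k / K))ᶜ = 0 := by
    intro k
    induction k with
    | zero =>
      rw [Nat.cast_zero, zero_div]
      exact hstep 0 0 (by simpa using hδ0.le)
    | succ k ih =>
      have h2 := hstep (k / K) ((k + 1 : ℕ) / K) (by
        have : (k:ℝ) / K - ((k + 1 : ℕ) : ℝ) / K = -(1 / K) := by push_cast; ring
        rw [this, abs_neg, abs_of_pos (by positivity), div_le_iff₀ hK0]
        rw [div_lt_iff₀ hδ0] at hK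
        linarith)
      refine measure_mono_null ?_ (measure_union_null ih h2)
      rw [← Set.compl_inter]
      refine Set.compl_subset_compl.2 ?_
      rintro z ⟨hz1, hz2⟩
      exact Rel.trans hcj2 hz1 hz2
  have h01 : ∀ᵐ z ∂(bern G nu3), Rel cj q (interp 0 z) (interp 1 z) := by
    have h2 := hchain K
    rw [div_self hK0.ne'] at h2
    exact h2
  -- independence
  have hmp : MeasurePreserving (fun z : G → ℝ × ℝ × ℝ => ((fun g => (z g).1), (fun g => (z g).2.1)))
      (bern G nu3) ((bern G nu0).prod (bern G nu0)) := by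
    have h2 := hp G ℝ (ℝ × ℝ) nu0 (nu0.prod nu0)
    have h3 := hp G ℝ ℝ nu0 nu0
    have h4 : MeasurePreserving (fun w : G → ℝ × ℝ => fun g => (w g).1)
        (bern G (nu0.prod nu0)) (bern G nu0) := measurePreserving_fst.comp h3
    exact ((MeasurePreserving.id (bern G nu0)).prod h4).comp h2
  have hmeas : MeasurableSet {p : (G → ℝ) × (G → ℝ) | Rel cj q p.1 p.2} :=
    meas_Rel hfin hqm measurable_fst measurable_snd
  have h2 : ∀ᵐ p ∂((bern G nu0).prod (bern G nu0)), Rel cj q p.1 p.2 := by
    rw [← hmp.map_eq, ae_map_iff hmp.measurable.aemeasurable hmeas]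
    filter_upwards [h01, (hi G).2.1, (hi G).2.2] with z hz hz0 hz1
    rw [hz0, hz1] at hz
    exact hz
  have h3 := Measure.ae_ae_of_ae_prod h2
  obtain ⟨x0, hx0⟩ := h3.exists
  refine ⟨x0, ?_⟩
  filter_upwards [hx0] with x hx
  exact Rel.symm hcj1 hcj2 hx

end Pool.Agent.H656.DC.Const
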