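import Pool.Agent.H656.DC.GStmts

/-!
# Construction of the Magnus filtration from freeness of the augmentation ideal
-/

set_option autoImplicit false

namespace Pool.Agent.H656.DC.Construct

open Pool.Agent.H656.DC

variable {p : ℕ} {F : Type} [Group F] {ι : Type} [Fintype ι]

/-- the map `(b_i) ↦ ∑ b_i (y_i - 1)` -/
noncomputable def sm (p : ℕ) {F : Type} [Group F] {ι : Type} [Fintype ι] (y : ι → F) :
    (ι → GA p F) →ₗ[ZMod p] GA p F where
  toFun b := ∑ i, b i * (el p (y i) - 1)
  map_add' a b := by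
    rw [← Finset.sum_add_distrib]
    refine Finset.sum_congr rfl fun i _ => ?_
    rw [Pi.add_apply, add_mul]
  map_smul' c b := by
    rw [RingHom.id_apply, Finset.smul_sum]
    refine Finset.sum_congr rfl fun i _ => ?_
    rw [Pi.smul_apply, smul_mul_assoc]

/-- the filtration -/
noncomputable def JJ (p : ℕ) {F : Type} [Group F] {ι : Type} [Fintype ι] (M : Subgroup F)
    (y : ι → F) (n : ι → ℕ) : ℕ → Submodule (ZMod p) (GA p F)
  | 0 => KS p M
  | k + 1 => (Submodule.pi Set.univ fun i => JJ p M y n (k - (n i - 1))).map (sm p y)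
termination_by k => k
decreasing_by omega

variable {M : Subgroup F} {y : ι → F} {n : ι → ℕ}

theorem JJ_zero : JJ p M y n 0 = KS p M := by
  rw [JJ]

theorem mem_JJ (hn : ∀ i, 1 ≤ n i) {k : ℕ} (hk : 1 ≤ k) {a : GA p F} :
    a ∈ JJ p M y n k ↔ ∃ b : ι → GA p F, (∀ i, b i ∈ JJ p M y n (k - n i)) ∧
      ∑ i, b i * (el p (y i) - 1) = a := by
  obtain ⟨k, rfl⟩ : ∃ l, k = l + 1 := ⟨k - 1, by omega⟩
  rw [JJ, Submodule.mem_map]
  have h : ∀ i, k - (n i - 1) = k + 1 - n i := fun i => by
    have := hn i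
    omega
  constructor
  · rintro ⟨b, hb, rfl⟩
    refine ⟨b, fun i => ?_, rfl⟩
    have := Submodule.mem_pi.mp hb i (Set.mem_univ i)
    rwa [h i] at this
  · rintro ⟨b, hb, rfl⟩
    refine ⟨b, Submodule.mem_pi.mpr fun i _ => ?_, rfl⟩
    rw [h i]
    exact hb i

theorem JJ_le (hn : ∀ i, 1 ≤ n i) (hy : ∀ i, y i ∈ M) (k : ℕ) : JJ p M y n k ≤ KS p M := by
  induction k using Nat.strong_induction_on with
  | _ k ih =>
    rcases Nat.eq_zero_or_pos k with rfl | hk
    · rw [JJ_zero]
    · intro a ha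
      obtain ⟨b, hb, rfl⟩ := (mem_JJ hn hk).mp ha
      refine Submodule.sum_mem _ fun i _ => ?_
      exact KS_mul_mem (ih (k - n i) (by have := hn i; omega) (hb i)) (el_sub_one_mem_KS (hy i))

theorem JJ_anti (hn : ∀ i, 1 ≤ n i) (hy : ∀ i, y i ∈ M) : Antitone (JJ p M y n) := by
  refine antitone_nat_of_succ_le fun k => ?_
  induction k using Nat.strong_induction_on with
  | _ k ih =>
    rcases Nat.eq_zero_or_pos k with rfl | hk
    · rw [JJ_zero]
      exact JJ_le hn hy _
    · intro a ha
      obtain ⟨b, hb, rfl⟩ := (mem_JJ hn (by omega)).mp ha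
      rw [mem_JJ hn hk]
      refine ⟨b, fun i => ?_, rfl⟩
      have hi := hn i
      rcases Nat.lt_or_ge k (n i) with hlt | hge
      · have h1 : k + 1 - n i = k - n i := by omega
        rw [← h1]
        exact hb i
      · have h1 : k + 1 - n i = (k - n i) + 1 := by omega
        refine ih (k - n i) (by omega) ?_
        rw [← h1]
        exact hb i

theorem JJ_mul_KS (hn : ∀ i, 1 ≤ n i) (hy : Subgroup.closure (Set.range y) = M) (k : ℕ)
    (a b : GA p F) (ha : a ∈ JJ p M y n k) (hb : b ∈ KS p M) : a * b ∈ JJ p M y n k := by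
  have hyM : ∀ i, y i ∈ M := fun i => hy ▸ Subgroup.subset_closure ⟨i, rfl⟩
  induction k using Nat.strong_induction_on generalizing a b with
  | _ k ih =>
    rcases Nat.eq_zero_or_pos k with rfl | hk
    · rw [JJ_zero] at ha ⊢
      exact KS_mul_mem ha hb
    · obtain ⟨c, hc, hc'⟩ := exists_decomp hy hb
      obtain ⟨d, hd, hd'⟩ := (mem_JJ hn hk).mp ha
      rw [mem_JJ hn hk]
      refine ⟨fun i => aug p b • d i + a * c i, fun i => ?_, ?_⟩
      · refine Submodule.add_mem _ (Submodule.smul_mem _ _ (hd i)) ?_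
        refine ih (k - n i) (by have := hn i; omega) a (c i) ?_ (hc i)
        exact JJ_anti hn hyM (Nat.sub_le _ _) ha
      · have h1 : a * b = aug p b • a + a * ∑ i, c i * (el p (y i) - 1) := by
          conv_lhs => rw [hc']
          rw [mul_add, mul_smul_comm, mul_one]
        have h2 : aug p b • a = ∑ i, aug p b • (d i * (el p (y i) - 1)) := by
          rw [← Finset.smul_sum, hd']
        rw [h1, h2, Finset.mul_sum, ← Finset.sum_add_distrib]
        refine Finset.sum_congr rfl fun i _ => ?_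
        rw [add_mul, smul_mul_assoc, mul_assoc]

theorem JJ_mul (hn : ∀ i, 1 ≤ n i) (hy : Subgroup.closure (Set.range y) = M) (k l : ℕ)
    (a b : GA p F) (ha : a ∈ JJ p M y n k) (hb : b ∈ JJ p M y n l) :
    a * b ∈ JJ p M y n (k + l) := by
  have hyM : ∀ i, y i ∈ M := fun i => hy ▸ Subgroup.subset_closure ⟨i, rfl⟩
  induction l using Nat.strong_induction_on generalizing b with
  | _ l ih =>
    rcases Nat.eq_zero_or_pos l with rfl | hl
    · rw [JJ_zero] at hb
      exact JJ_mul_KS hn hy k a b ha hb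
    · obtain ⟨c, hc, rfl⟩ := (mem_JJ hn hl).mp hb
      rw [mem_JJ hn (by omega)]
      refine ⟨fun i => a * c i, fun i => ?_, ?_⟩
      · have h1 := ih (l - n i) (by have := hn i; omega) (c i) (hc i)
        exact JJ_anti hn hyM (by omega) h1
      · rw [Finset.mul_sum]
        refine Finset.sum_congr rfl fun i _ => ?_
        rw [mul_assoc]

/-- The Magnus filtration. -/
theorem main : S_construct := by
  intro p _ F _ M ι _ y n hn hy hind
  classical
  have hyM : ∀ i, y i ∈ M := fun i => hy ▸ Subgroup.subset_closure ⟨i, rfl⟩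
  refine ⟨JJ p M y n, hn, hy, hind, JJ_zero, JJ_anti hn hyM, JJ_mul hn hy, ?_, ?_, ?_⟩
  · intro a ha
    obtain ⟨b, _, rfl⟩ := (mem_JJ hn le_rfl).mp ha
    rw [map_sum]
    refine Finset.sum_eq_zero fun i _ => ?_
    rw [map_mul, map_sub, aug_el, map_one, sub_self, mul_zero]
  · intro i
    rw [mem_JJ hn (hn i)]
    refine ⟨fun j => if j = i then 1 else 0, fun j => ?_, ?_⟩
    · simp only []
      split_ifs with h
      · rw [h, Nat.sub_self, JJ_zero]
        exact one_mem_KS M
      · exact Submodule.zero_mem _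
    · simp
  · intro k a ha hk i
    rcases Nat.eq_zero_or_pos k with rfl | hk0
    · rw [Nat.zero_sub, JJ_zero]
      exact ha i
    · obtain ⟨b, hb, hb'⟩ := (mem_JJ hn hk0).mp hk
      have h1 := hind (fun i => a i - b i)
        (fun i => Submodule.sub_mem _ (ha i) (JJ_le hn hyM _ (hb i))) (by
          simp only [sub_mul, Finset.sum_sub_distrib]
          rw [hb', sub_self]) i
      have h2 : a i = b i := sub_eq_zero.mp h1
      rw [h2]
      exact hb i

end Pool.Agent.H656.DC.Construct
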