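import Pool.Agent.H656.DC.EStmts

/-! # Uniform continuity of the deformation -/

set_option autoImplicit false

open MeasureTheory Filter Topology Set
open scoped ENNReal symmDiff

namespace Pool.Agent.H656.DC.Cont

open Pool.Agent.H656.DC

variable {G : Type}

/-- approximation by cylinders -/
lemma approx {B : Type} [MeasurableSpace B] (μ : Measure (G → B)) [IsProbabilityMeasure μ]
    {A : Set (G → B)} (hA : MeasurableSet A) {ε : ℝ≥0∞} (hε : 0 < ε) :
    ∃ (I : Finset G) (S : Set (∀ _ : I, B)), MeasurableSet S ∧ μ (cylinder I S ∆ A) < ε := by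
  have h1 : ∃ D : Set (Set (G → B)), D.Countable ∧ D ⊆ measurableCylinders (fun _ : G => B) ∧
      μ (⋃₀ D)ᶜ = 0 := by
    refine ⟨{univ}, countable_singleton _, ?_, by simp⟩
    rw [singleton_subset_iff, mem_measurableCylinders]
    exact ⟨∅, univ, MeasurableSet.univ, by simp⟩
  obtain ⟨t, ht, ht2⟩ := exists_measure_symmDiff_lt_of_generateFrom_isSetRing (μ := μ)
    isSetRing_measurableCylinders h1 generateFrom_measurableCylinders.symm hA hε
  rw [mem_measurableCylinders] at ht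
  obtain ⟨I, S, hS, rfl⟩ := ht
  exact ⟨I, S, hS, ht2⟩

/-- the law of the third coordinate -/
lemma third [Countable G] (h : G) (s s' : ℝ) :
    (bern G nu3) {z | interp s z h ≠ interp s' z h} ≤ ENNReal.ofReal |s - s'| := by
  have hmp : MeasurePreserving (fun z : G → ℝ × ℝ × ℝ => (z h).2.2) (bern G nu3) nu0 := by
    have h1 : MeasurePreserving (Function.eval h) (bern G nu3) nu3 :=
      measurePreserving_eval_infinitePi (fun _ : G => nu3) h
    have h2 : MeasurePreserving (Prod.snd : ℝ × ℝ × ℝ → ℝ × ℝ) nu3 (nu0.prod nu0) :=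
      measurePreserving_snd
    have h3 : MeasurePreserving (Prod.snd : ℝ × ℝ → ℝ) (nu0.prod nu0) nu0 := measurePreserving_snd
    exact h3.comp (h2.comp h1)
  have hsub : {z : G → ℝ × ℝ × ℝ | interp s z h ≠ interp s' z h} ⊆
      (fun z : G → ℝ × ℝ × ℝ => (z h).2.2) ⁻¹' (uIcc s s') := by
    intro z hz
    rw [mem_preimage]
    by_contra hc
    apply hz
    rw [mem_uIcc, not_or] at hc
    unfold interp
    by_cases h1 : s ≤ (z h).2.2
    · have h2 : s' ≤ (z h).2.2 := by
        by_contra h3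
        exact hc.1 ⟨h1, (not_le.1 h3).le⟩
      rw [if_pos h1, if_pos h2]
    · have h2 : ¬ s' ≤ (z h).2.2 := fun h3 => hc.2 ⟨h3, (not_le.1 h1).le⟩
      rw [if_neg h1, if_neg h2]
  calc (bern G nu3) {z | interp s z h ≠ interp s' z h}
      ≤ (bern G nu3) ((fun z : G → ℝ × ℝ × ℝ => (z h).2.2) ⁻¹' (uIcc s s')) := measure_mono hsub
    _ = nu0 (uIcc s s') := hmp.measure_preimage measurableSet_uIcc.nullMeasurableSet
    _ ≤ volume (uIcc s s') := Measure.restrict_apply_le _ _
    _ = ENNReal.ofReal |s - s'| := by rw [uIcc, Real.volume_Icc, max_sub_min_eq_abs']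

/-- the case of a set -/
lemma setCase [Group G] [Countable G] (hi : S_interp) {A : Set (G → ℝ)} (hA : MeasurableSet A)
    {ε : ℝ≥0∞} (hε : 0 < ε) :
    ∀ᶠ δ : ℝ in 𝓝[>] 0, ∀ s s' : ℝ, |s - s'| ≤ δ →
      (bern G nu3) {z | ¬ (interp s z ∈ A ↔ interp s' z ∈ A)} ≤ ε := by
  have hε4 : 0 < ε / 4 := ENNReal.div_pos hε.ne' (by norm_num)
  obtain ⟨I, S, hS, hIS⟩ := approx (bern G nu0) hA hε4
  have hmpi := (hi G).1
  have hex : ∃ δ : ℝ, 0 < δ ∧ (I.card : ℝ≥0∞) * ENNReal.ofReal δ ≤ ε / 4 := by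
    by_cases h : ε = ∞
    · refine ⟨1, one_pos, ?_⟩
      rw [h, ENNReal.top_div_of_ne_top (by norm_num)]
      exact le_top
    · have h4 : (ε / 4).toReal / (I.card + 1) * I.card ≤ (ε / 4).toReal := by
        rw [div_mul_eq_mul_div, div_le_iff₀ (by positivity)]
        have := ENNReal.toReal_nonneg (a := ε / 4)
        nlinarith
      have h5 : ε / 4 ≠ ∞ := ENNReal.div_ne_top h (by norm_num)
      have h6 : 0 < (ε / 4).toReal := ENNReal.toReal_pos hε4.ne' h5
      refine ⟨(ε / 4).toReal / (I.card + 1), by positivity, ?_⟩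
      calc (I.card : ℝ≥0∞) * ENNReal.ofReal ((ε / 4).toReal / (I.card + 1))
          = ENNReal.ofReal ((ε / 4).toReal / (I.card + 1) * I.card) := by
            rw [mul_comm, ENNReal.ofReal_mul (by positivity), ENNReal.ofReal_natCast]
        _ ≤ ENNReal.ofReal ((ε / 4).toReal) := ENNReal.ofReal_le_ofReal h4
        _ = ε / 4 := ENNReal.ofReal_toReal h5
  obtain ⟨δ0, hδ0, hδ1⟩ := hex
  filter_upwards [Ioc_mem_nhdsGT hδ0] with δ hδ s s' hss
  set A' : Set (G → ℝ) := cylinder I S with hA'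
  have hsub : {z : G → ℝ × ℝ × ℝ | ¬ (interp s z ∈ A ↔ interp s' z ∈ A)} ⊆
      (interp s ⁻¹' (A' ∆ A) ∪ interp s' ⁻¹' (A' ∆ A)) ∪
        ⋃ h ∈ I, {z : G → ℝ × ℝ × ℝ | interp s z h ≠ interp s' z h} := by
    intro z hz
    by_contra hc
    rw [mem_union, mem_union, not_or, not_or] at hc
    obtain ⟨⟨h1, h2⟩, h3⟩ := hc
    simp only [mem_iUnion, mem_ofPred_eq, not_exists, ne_eq, not_not] at h3
    have h4 : interp s z ∈ A' ↔ interp s' z ∈ A' := by
      rw [hA', mem_cylinder, mem_cylinder]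
      have : I.restrict (interp s z) = I.restrict (interp s' z) := by
        funext h
        exact h3 h.1 h.2
      rw [this]
    simp only [mem_preimage, mem_symmDiff] at h1 h2
    apply hz
    tauto
  have hm : MeasurableSet (A' ∆ A) := (hS.cylinder I).symmDiff hA
  calc (bern G nu3) {z | ¬ (interp s z ∈ A ↔ interp s' z ∈ A)}
      ≤ (bern G nu3) ((interp s ⁻¹' (A' ∆ A) ∪ interp s' ⁻¹' (A' ∆ A)) ∪
        ⋃ h ∈ I, {z : G → ℝ × ℝ × ℝ | interp s z h ≠ interp s' z h}) := measure_mono hsub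
    _ ≤ ((bern G nu3) (interp s ⁻¹' (A' ∆ A)) + (bern G nu3) (interp s' ⁻¹' (A' ∆ A))) +
        ∑ h ∈ I, (bern G nu3) {z : G → ℝ × ℝ × ℝ | interp s z h ≠ interp s' z h} :=
        (measure_union_le _ _).trans (add_le_add (measure_union_le _ _)
          (measure_biUnion_finset_le _ _))
    _ ≤ (ε / 4 + ε / 4) + ∑ h ∈ I, ENNReal.ofReal δ0 := by
        refine add_le_add (add_le_add ?_ ?_) (Finset.sum_le_sum fun h _ => ?_)
        · rw [(hmpi s).measure_preimage hm.nullMeasurableSet]; exact hIS.le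
        · rw [(hmpi s').measure_preimage hm.nullMeasurableSet]; exact hIS.le
        · exact (third h s s').trans (ENNReal.ofReal_le_ofReal (hss.trans hδ.2))
    _ ≤ (ε / 4 + ε / 4) + ε / 4 := by
        rw [Finset.sum_const, nsmul_eq_mul]
        gcongr
    _ ≤ (ε / 4 + ε / 4) + (ε / 4 + ε / 4) := by gcongr; exact le_self_add
    _ = ε := by
        rw [← two_mul, ← two_mul, ← mul_assoc]
        rw [show (2 * 2 : ℝ≥0∞) = 4 by norm_num]
        exact ENNReal.mul_div_cancel (by norm_num) (by norm_num)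

theorem main (hi : S_interp) : S_cont := by
  intro G _ _ L _ f hf ε hε
  classical
  have hε' : (0 : ℝ≥0∞) < ENNReal.ofReal ε := ENNReal.ofReal_pos.2 hε
  set e : ℝ≥0∞ := ENNReal.ofReal ε with he
  have he2 : 0 < e / 2 := ENNReal.div_pos hε'.ne' (by norm_num)
  -- a finite set of values
  have hsum : ∑' l, bern G nu0 {x | f x = l} ≠ ∞ := by
    have h1 : bern G nu0 (⋃ l, {x | f x = l}) = ∑' l, bern G nu0 {x | f x = l} := by
      refine measure_iUnion (fun l l' hll => ?_) hf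
      rw [Function.onFun, Set.disjoint_left]
      intro x hx hx'
      exact hll ((show f x = l from hx).symm.trans hx')
    rw [← h1]
    exact measure_ne_top _ _
  obtain ⟨L₀, hL₀⟩ := ((ENNReal.tendsto_tsum_compl_atTop_zero hsum).eventually
    (gt_mem_nhds he2)).exists
  have htail : bern G nu0 {x | f x ∉ L₀} ≤ e / 2 := by
    have h1 : {x | f x ∉ L₀} ⊆ ⋃ l : {l // l ∉ L₀}, {x | f x = l} := by
      intro x hx
      rw [mem_iUnion]
      exact ⟨⟨f x, hx⟩, rfl⟩
    exact (measure_mono h1).trans ((measure_iUnion_le _).trans (le_of_lt hL₀))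
  have hmeas : MeasurableSet {x | f x ∉ L₀} := by
    have h1 : {x | f x ∉ L₀} = (⋃ l ∈ L₀, {x | f x = l})ᶜ := by
      ext x
      simp
    rw [h1]
    exact (L₀.measurableSet_biUnion fun l _ => hf l).compl
  set c : ℝ≥0∞ := e / 2 / (L₀.card + 1) with hc
  have hc0 : 0 < c := ENNReal.div_pos he2.ne' (by
    exact ENNReal.add_ne_top.2 ⟨ENNReal.natCast_ne_top _, ENNReal.one_ne_top⟩)
  have hall : ∀ᶠ δ : ℝ in 𝓝[>] 0, ∀ l ∈ L₀, ∀ s s' : ℝ, |s - s'| ≤ δ →
      (bern G nu3) {z | ¬ (interp s z ∈ {x | f x = l} ↔ interp s' z ∈ {x | f x = l})} ≤ c :=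
    (Finset.eventually_all L₀).2 fun l _ => setCase hi (hf l) hc0
  obtain ⟨δ, hδ, hδ0⟩ := (hall.and self_mem_nhdsWithin).exists
  refine ⟨δ, hδ0, fun s s' hss => ?_⟩
  have hsub : {z : G → ℝ × ℝ × ℝ | f (interp s z) ≠ f (interp s' z)} ⊆
      interp s ⁻¹' {x | f x ∉ L₀} ∪
        ⋃ l ∈ L₀, {z | ¬ (interp s z ∈ {x | f x = l} ↔ interp s' z ∈ {x | f x = l})} := by
    intro z hz
    by_cases h : f (interp s z) ∈ L₀
    · right
      simp only [mem_iUnion]
      refine ⟨f (interp s z), h, ?_⟩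
      intro hiff
      exact hz (hiff.1 rfl).symm
    · left
      exact h
  have hle : (bern G nu3) {z : G → ℝ × ℝ × ℝ | f (interp s z) ≠ f (interp s' z)} ≤ e := by
    calc (bern G nu3) {z : G → ℝ × ℝ × ℝ | f (interp s z) ≠ f (interp s' z)}
        ≤ (bern G nu3) (interp s ⁻¹' {x | f x ∉ L₀} ∪
          ⋃ l ∈ L₀, {z | ¬ (interp s z ∈ {x | f x = l} ↔ interp s' z ∈ {x | f x = l})}) :=
          measure_mono hsub
      _ ≤ (bern G nu3) (interp s ⁻¹' {x | f x ∉ L₀}) + ∑ l ∈ L₀,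
          (bern G nu3) {z | ¬ (interp s z ∈ {x | f x = l} ↔ interp s' z ∈ {x | f x = l})} :=
          (measure_union_le _ _).trans (add_le_add le_rfl (measure_biUnion_finset_le _ _))
      _ ≤ e / 2 + ∑ l ∈ L₀, c := by
          refine add_le_add ?_ (Finset.sum_le_sum fun l hl => hδ l hl s s' hss)
          rw [((hi G).1 s).measure_preimage hmeas.nullMeasurableSet]
          exact htail
      _ ≤ e / 2 + e / 2 := by
          rw [Finset.sum_const, nsmul_eq_mul]
          refine add_le_add le_rfl ?_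
          calc (L₀.card : ℝ≥0∞) * c ≤ (L₀.card + 1) * c := by gcongr; exact le_self_add
            _ = e / 2 := ENNReal.mul_div_cancel (by simp)
                (ENNReal.add_ne_top.2 ⟨ENNReal.natCast_ne_top _, ENNReal.one_ne_top⟩)
      _ = e := ENNReal.add_halves e
  rw [Measure.real]
  exact ENNReal.toReal_le_of_le_ofReal hε.le hle

end Pool.Agent.H656.DC.Cont
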