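import Pool.Agent.H656.DC.FinLem

/-!
# The core argument: no reduction of the Bernoulli shift to a compressible action
-/

set_option autoImplicit false

open MeasureTheory Filter Topology

namespace Pool.Agent.H656.DC.Core

open Pool.Agent.H656.DC Pool.Agent.H656.DC.Fin

/-- conjugation of subgroups -/
def cj {G : Type} [Group G] (g : G) (H : Subgroup G) : Subgroup G :=
  H.map (MulAut.conj g).toMonoidHom

section cj
variable {G : Type} [Group G]

lemma mem_cj {g x : G} {H : Subgroup G} : x ∈ cj g H ↔ g⁻¹ * x * g ∈ H := by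
  unfold cj
  constructor
  · rintro ⟨y, hy, rfl⟩
    simp only [MulEquiv.toMonoidHom_eq_coe, MonoidHom.coe_coe, MulAut.conj_apply]
    have : g⁻¹ * (g * y * g⁻¹) * g = y := by group
    rw [this]; exact hy
  · intro h
    refine ⟨g⁻¹ * x * g, h, ?_⟩
    simp only [MulEquiv.toMonoidHom_eq_coe, MonoidHom.coe_coe, MulAut.conj_apply]
    group

lemma cj_one (H : Subgroup G) : cj 1 H = H := by
  ext x; rw [mem_cj]; simp

lemma cj_mul (g h : G) (H : Subgroup G) : cj (g * h) H = cj g (cj h H) := by
  ext x
  rw [mem_cj, mem_cj, mem_cj]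
  have : (g * h)⁻¹ * x * (g * h) = h⁻¹ * (g⁻¹ * x * g) * h := by group
  rw [this]

lemma cj_sup (g : G) (H K : Subgroup G) (hK : K.Normal) : cj g (H ⊔ K) = cj g H ⊔ K := by
  have hK' : cj g K = K := by
    ext x
    rw [mem_cj]
    constructor
    · intro h
      have := hK.conj_mem _ h g
      have e : g * (g⁻¹ * x * g) * g⁻¹ = x := by group
      rwa [e] at this
    · intro h
      have := hK.conj_mem _ h g⁻¹
      simpa using this
  unfold cj at *
  rw [Subgroup.map_sup, hK']

/-- finitely many subgroups contain a given normal subgroup of finite index -/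
lemma finite_above (K : Subgroup G) [K.Normal] (hK : K.index ≠ 0) :
    {H : Subgroup G | K ≤ H}.Finite := by
  have : K.FiniteIndex := ⟨hK⟩
  have h1 : Finite (G ⧸ K) := inferInstance
  refine Set.Finite.of_finite_image (f := fun H : Subgroup G =>
    ((QuotientGroup.mk : G → G ⧸ K) '' (H : Set G))) (Set.toFinite _) ?_
  intro H hH H' hH' heq
  have key : ∀ (A B : Subgroup G), K ≤ B →
      ((QuotientGroup.mk : G → G ⧸ K) '' (A : Set G)) = ((QuotientGroup.mk : G → G ⧸ K) '' (B : Set G)) →
      A ≤ B := by
    intro A B hB h x hx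
    have : (QuotientGroup.mk x : G ⧸ K) ∈ ((QuotientGroup.mk : G → G ⧸ K) '' (B : Set G)) := by
      rw [← h]; exact ⟨x, hx, rfl⟩
    obtain ⟨y, hy, hxy⟩ := this
    have h2 : y⁻¹ * x ∈ K := QuotientGroup.eq.1 hxy
    have := B.mul_mem hy (hB h2)
    simpa using this
  exact le_antisymm (key H H' hH' heq) (key H' H hH heq.symm)

end cj

section meas
variable {G : Type} [Group G] [Countable G]

/-- the free part of the shift -/
def FP (G : Type) [Group G] : Set (G → ℝ) := {x | ∀ g : G, g ≠ 1 → shift g x ≠ x}

lemma measurable_shift (g : G) : Measurable (shift g : (G → ℝ) → G → ℝ) :=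
  measurable_pi_lambda _ fun h => measurable_pi_apply (g⁻¹ * h)

lemma measurable_FP : MeasurableSet (FP G) := by
  have : FP G = ⋂ (g : G) (_ : g ≠ 1), {x | shift g x = x}ᶜ := by
    ext x
    simp [FP]
  rw [this]
  exact MeasurableSet.iInter fun g => MeasurableSet.iInter fun _ =>
    (measurableSet_eq_fun (measurable_shift g) measurable_id).compl

lemma ae_FP (hfree : S_free) : ∀ᵐ x ∂(bern G nu0), x ∈ FP G := by
  have h := (hfree G).2
  have h2 : ∀ᵐ x ∂(bern G nu0), ∀ g : G, g ≠ 1 → shift g x ≠ x := by
    rw [ae_all_iff]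
    intro g
    by_cases hg : g = 1
    · exact Eventually.of_forall fun x h => absurd hg h
    · filter_upwards [h g hg] with x hx _
      exact hx
  exact h2

lemma shift_mem_FP {x : G → ℝ} (hx : x ∈ FP G) (g : G) : shift g x ∈ FP G := by
  intro k hk h
  refine hx (g⁻¹ * k * g) ?_ ?_
  · intro h1
    apply hk
    have : k = g * (g⁻¹ * k * g) * g⁻¹ := by group
    rw [this, h1]; group
  · rw [mul_assoc, shift_mul, shift_mul, h, ← shift_mul]
    simp [shift_one]

variable {Y : Type} [MeasurableSpace Y] [StandardBorelSpace Y] [MulAction G Y]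

/-- fibres of maps staying in the orbits of a reduction are null -/
lemma fib0 (hfree : S_free) (f : (G → ℝ) → Y)
    (h2 : ∀ x ∈ FP G, ∀ x' ∈ FP G, f x' ∈ MulAction.orbit G (f x) → ∃ g : G, x' = shift g x)
    (f' : (G → ℝ) → Y) (hf' : ∀ x, f' x ∈ MulAction.orbit G (f x)) (y : Y) :
    bern G nu0 (f' ⁻¹' {y}) = 0 := by
  have h0 : bern G nu0 (FP G)ᶜ = 0 := by
    have := ae_FP (G := G) hfree
    rwa [ae_iff] at this
  have h1 : bern G nu0 (f' ⁻¹' {y} ∩ FP G) = 0 := by
    rcases (f' ⁻¹' {y} ∩ FP G).eq_empty_or_nonempty with he | ⟨x0, hx0, hx0'⟩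
    · rw [he]; simp
    · have hsub : (f' ⁻¹' {y} ∩ FP G) ⊆ ⋃ g : G, {shift g x0} := by
        rintro x ⟨hx, hx'⟩
        obtain ⟨a, ha⟩ := hf' x0
        obtain ⟨b, hb⟩ := hf' x
        have e1 : f' x0 = y := hx0
        have e2 : f' x = y := hx
        have h3 : f x ∈ MulAction.orbit G (f x0) := by
          refine ⟨b⁻¹ * a, ?_⟩
          have ha' : a • f x0 = y := by rw [← e1]; exact ha
          have hb' : b • f x = y := by rw [← e2]; exact hb
          show (b⁻¹ * a) • f x0 = f x
          rw [mul_smul, ha', ← hb', inv_smul_smul]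
        obtain ⟨g, hg⟩ := h2 x0 hx0' x hx' h3
        exact Set.mem_iUnion.2 ⟨g, hg⟩
      exact measure_mono_null hsub (measure_iUnion_null fun g => (hfree G).1 _)
  refine measure_mono_null (t := (f' ⁻¹' {y} ∩ FP G) ∪ (FP G)ᶜ) ?_ (measure_union_null h1 h0)
  intro x hx
  by_cases hx' : x ∈ FP G
  · exact Or.inl ⟨hx, hx'⟩
  · exact Or.inr hx'

lemma meas_smul {X : Type} [MeasurableSpace X] (hm : ∀ g : G, Measurable (fun y : Y => g • y))
    (s : X → G) (hs : ∀ g, MeasurableSet {x | s x = g}) (f : X → Y) (hf : Measurable f) :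
    Measurable (fun x => s x • f x) := by
  intro B hB
  have : (fun x => s x • f x) ⁻¹' B = ⋃ g : G, {x | s x = g} ∩ (fun x => g • f x) ⁻¹' B := by
    ext x
    simp
  rw [this]
  exact MeasurableSet.iUnion fun g => (hs g).inter (((hm g).comp hf) hB)

end meas

section main
variable {G : Type} [Group G]

lemma loc_of_index {p : ℕ} (hR : RTM p G) (W : Subgroup G) (hW : W.index = 0) : LocFin W := by
  intro A hA hAW
  rcases hR.fin_or A hA with h | h
  · exact h
  · exact absurd (Nat.eq_zero_of_zero_dvd (hW ▸ Subgroup.index_dvd_of_le hAW)) h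

theorem core (hSR : S_SR) (hconst : S_const) (hL1 : S_L1) (hfree : S_free) (hbern : S_bernPMP)
    (hmix : S_mix) (hseq : S_seq) (hdense : S_dense) (hnorm : S_norm)
    [Countable G] {p : ℕ} [hp : Fact p.Prime] (hR : RTM p G) (S : Finset G) (C : ℝ)
    (hT : HasTC G S C)
    {Y : Type} [MeasurableSpace Y] [StandardBorelSpace Y] [MulAction G Y]
    (hm : ∀ g : G, Measurable (fun y : Y => g • y))
    (hinf : ∀ y : Y, (MulAction.orbit G y).Infinite)
    (c : Y → Y) (hc : Measurable c) (hci : Function.Injective c)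
    (hco : ∀ y, c y ∈ MulAction.orbit G y)
    (hcz : ∀ y : Y, ∃ z ∈ MulAction.orbit G y, ∀ w, c w ≠ z)
    (f : (G → ℝ) → Y) (hf : Measurable f)
    (h1 : ∀ (g : G) (x : G → ℝ), ∃ l : G, f (shift g x) = l • f x)
    (h2 : ∀ x ∈ FP G, ∀ x' ∈ FP G, f x' ∈ MulAction.orbit G (f x) → ∃ g : G, x' = shift g x) :
    False := by
  classical
  have hGinf : Infinite G := hR.inf
  have hpmp := hbern G ℝ nu0
  have hmx := hmix G ℝ nu0
  obtain ⟨K, hKa, hKn, hKc⟩ := hseq p G hR.fg
  have hKn' : ∀ n, (K n).Normal := fun n => (hKn n).1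
  have hKi : ∀ n, (K n).index ≠ 0 := fun n => by
    obtain ⟨k, hk⟩ := (hKn n).2
    rw [hk]; exact (pow_pos hp.out.pos k).ne'
  -- stabilisers
  have hstab : ∀ y : Y, LocFin (MulAction.stabilizer G y) := fun y => by
    apply loc_of_index hR
    rw [MulAction.index_stabilizer]
    exact (hinf y).ncard
  -- selection of lam
  have hsel : ∀ g : G, ∃ s : (G → ℝ) → G, (∀ x, f (shift g x) = s x • f x) ∧
      ∀ l, MeasurableSet {x | s x = l} := fun g =>
    exists_sel (fun (l : G) x => f (shift g x) = l • f x)
      (fun l => measurableSet_eq_fun (hf.comp (measurable_shift g)) ((hm l).comp hf)) (h1 g)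
  choose lam hlam hlamm using hsel
  let q : ℕ → (G → ℝ) → Subgroup G := fun n x => MulAction.stabilizer G (f x) ⊔ K n
  have hqfin : ∀ n, (Set.range (q n)).Finite := fun n =>
    (finite_above (K n) (hKi n)).subset (by
      rintro _ ⟨x, rfl⟩
      show K n ≤ MulAction.stabilizer G (f x) ⊔ K n
      exact le_sup_right)
  have hmem : ∀ n x g, g ∈ q n x ↔ ∃ k ∈ K n, (g * k⁻¹) • f x = f x := by
    intro n x g
    show g ∈ MulAction.stabilizer G (f x) ⊔ K n ↔ _
    rw [← SetLike.mem_coe, Subgroup.mul_normal]
    constructor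
    · rintro ⟨a, ha, k, hk, rfl⟩
      refine ⟨k, hk, ?_⟩
      simpa using ha
    · rintro ⟨k, hk, h⟩
      exact ⟨g * k⁻¹, h, k, hk, by simp⟩
  have hqm1 : ∀ n g, MeasurableSet {x | g ∈ q n x} := by
    intro n g
    have : {x | g ∈ q n x} = ⋃ (k : G) (_ : k ∈ K n), {x | (g * k⁻¹) • f x = f x} := by
      ext x
      simp only [Set.mem_ofPred_eq, Set.mem_iUnion, hmem, exists_prop]
    rw [this]
    exact MeasurableSet.iUnion fun k => MeasurableSet.iUnion fun _ =>
      measurableSet_eq_fun ((hm _).comp hf) hf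
  have hqm : ∀ n d, MeasurableSet {x | q n x = d} := by
    intro n d
    have : {x | q n x = d} = ⋂ g : G, {x | g ∈ q n x ↔ g ∈ d} := by
      ext x
      simp only [Set.mem_ofPred_eq, Set.mem_iInter]
      exact ⟨fun h g => by rw [h], fun h => Subgroup.ext h⟩
    rw [this]
    refine MeasurableSet.iInter fun g => ?_
    by_cases hg : g ∈ d
    · have e : {x | g ∈ q n x ↔ g ∈ d} = {x | g ∈ q n x} := by
        ext x; simp [hg]
      rw [e]; exact hqm1 n g
    · have e : {x | g ∈ q n x ↔ g ∈ d} = {x | g ∈ q n x}ᶜ := by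
        ext x; simp [hg]
      rw [e]; exact (hqm1 n g).compl
  have hqeq : ∀ n g x, q n (shift g x) = cj (lam g x) (q n x) := by
    intro n g x
    show MulAction.stabilizer G (f (shift g x)) ⊔ K n = _
    rw [hlam g x, MulAction.stabilizer_smul_eq_stabilizer_map_conj, cj_sup _ _ _ (hKn' n)]
    rfl
  have hqmono : ∀ n x x', q (n + 1) x = q (n + 1) x' → q n x = q n x' := by
    intro n x x' h
    have key : ∀ x, q n x = q (n + 1) x ⊔ K n := by
      intro x
      show MulAction.stabilizer G (f x) ⊔ K n = (MulAction.stabilizer G (f x) ⊔ K (n + 1)) ⊔ K n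
      rw [sup_assoc, sup_eq_right.2 (hKa (Nat.le_succ n))]
    rw [key, key, h]
  obtain ⟨x0, hx0⟩ := hconst G S C hT (Subgroup G) cj cj_one cj_mul q lam hqfin hqm hlamm hqeq
    hqmono
  set W0 : Subgroup G := ⨅ n, q n x0 with hW0
  have hW0i : W0.index = 0 := hdense p G hR K hKa hKn hKc _ (hstab (f x0))
  -- selection of γ
  obtain ⟨γ, hγ, hγm⟩ := exists_sel
    (fun (l : G) (x : G → ℝ) => (∃ l', ∀ n, q n x = cj l' (q n x0)) → ∀ n, q n x = cj l (q n x0))
    (fun l => by
      have e1 : ∀ l : G, MeasurableSet {x : G → ℝ | ∀ n, q n x = cj l (q n x0)} := fun l => by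
        have : {x : G → ℝ | ∀ n, q n x = cj l (q n x0)} =
            ⋂ n, {x : G → ℝ | q n x = cj l (q n x0)} := by
          ext x; simp
        rw [this]
        exact MeasurableSet.iInter fun n => hqm n _
      have e2 : MeasurableSet {x : G → ℝ | ∃ l', ∀ n, q n x = cj l' (q n x0)} := by
        have : {x : G → ℝ | ∃ l', ∀ n, q n x = cj l' (q n x0)} =
            ⋃ l', {x : G → ℝ | ∀ n, q n x = cj l' (q n x0)} := by
          ext x; simp
        rw [this]
        exact MeasurableSet.iUnion fun l' => e1 l'
      exact MeasurableSet.imp e2 (e1 l))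
    (fun x => by
      by_cases h : ∃ l', ∀ n, q n x = cj l' (q n x0)
      · obtain ⟨l, hl⟩ := h
        exact ⟨l, fun _ => hl⟩
      · exact ⟨1, fun h' => absurd h' h⟩)
  have hγae : ∀ᵐ x ∂(bern G nu0), ∀ n, q n x = cj (γ x) (q n x0) := by
    filter_upwards [hx0] with x hx
    exact hγ x hx
  by_cases hWbot : W0 = ⊥
  · -- free case
    have hfr : ∀ᵐ x ∂(bern G nu0), MulAction.stabilizer G (f x) = ⊥ := by
      filter_upwards [hγae] with x hx
      rw [eq_bot_iff]
      intro h hh
      have h3 : (γ x)⁻¹ * h * γ x ∈ W0 := by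
        rw [hW0, Subgroup.mem_iInf]
        intro n
        have h4 : h ∈ q n x := Subgroup.mem_sup_left hh
        rw [hx n, mem_cj] at h4
        exact h4
      rw [hWbot, Subgroup.mem_bot] at h3
      rw [Subgroup.mem_bot]
      have : h = γ x * ((γ x)⁻¹ * h * γ x) * (γ x)⁻¹ := by group
      rw [this, h3]; group
    have hTm : MeasurableSet {x : G → ℝ | MulAction.stabilizer G (f x) = ⊥} := by
      have : {x : G → ℝ | MulAction.stabilizer G (f x) = ⊥} =
          ⋂ (g : G) (_ : g ≠ 1), {x | g • f x = f x}ᶜ := by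
        ext x
        simp only [Set.mem_ofPred_eq, Set.mem_iInter, Set.mem_compl_iff]
        constructor
        · intro h g hg hgx
          apply hg
          have : g ∈ MulAction.stabilizer G (f x) := hgx
          rw [h] at this
          exact Subgroup.mem_bot.1 this
        · intro h
          rw [eq_bot_iff]
          intro g hg
          by_contra hne
          exact h g (fun h' => hne (Subgroup.mem_bot.2 h')) hg
      rw [this]
      exact MeasurableSet.iInter fun g => MeasurableSet.iInter fun _ =>
        (measurableSet_eq_fun ((hm _).comp hf) hf).compl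
    have hTinv : ∀ g x, MulAction.stabilizer G (f (shift g x)) = ⊥ ↔
        MulAction.stabilizer G (f x) = ⊥ := by
      intro g x
      rw [hlam g x, MulAction.stabilizer_smul_eq_stabilizer_map_conj]
      exact Subgroup.map_eq_bot_iff_of_injective _ (MulAut.conj (lam g x)).injective
    let co : G → (G → ℝ) → G := fun g x =>
      if MulAction.stabilizer G (f x) = ⊥ then lam g x else 1
    have hco' : Coc (shift : G → (G → ℝ) → _) co := by
      refine ⟨fun g l => ?_, fun g h x => ?_⟩
      · have : {x | co g x = l} = ({x | MulAction.stabilizer G (f x) = ⊥} ∩ {x | lam g x = l}) ∪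
            ({x | MulAction.stabilizer G (f x) = ⊥}ᶜ ∩ {_x | (1 : G) = l}) := by
          ext x
          by_cases hx : MulAction.stabilizer G (f x) = ⊥
          · simp [co, hx]
          · simp [co, hx]
        rw [this]
        exact (hTm.inter (hlamm g l)).union (hTm.compl.inter (MeasurableSet.const _))
      · by_cases hx : MulAction.stabilizer G (f x) = ⊥
        · have hx' := (hTinv h x).2 hx
          simp only [co, if_pos hx, if_pos hx']
          have e1 : lam (g * h) x • f x = (lam g (shift h x) * lam h x) • f x := by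
            rw [← hlam, mul_smul, ← hlam, ← hlam, shift_mul]
          have e2 : (lam g (shift h x) * lam h x)⁻¹ * lam (g * h) x ∈
              MulAction.stabilizer G (f x) := by
            rw [MulAction.mem_stabilizer_iff, mul_smul, e1, inv_smul_smul]
          rw [hx, Subgroup.mem_bot] at e2
          have := eq_of_inv_mul_eq_one e2
          exact this.symm
        · have hx' : ¬ MulAction.stabilizer G (f (shift h x)) = ⊥ := fun h' =>
            hx ((hTinv h x).1 h')
          simp [co, if_neg hx, if_neg hx']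
    obtain ⟨ρ, φ, hφm, hφ⟩ := hSR G S C hT G co hco'
    let f2 : (G → ℝ) → Y := fun x => (φ x)⁻¹ • f x
    have hf2m : Measurable f2 := by
      refine meas_smul hm (fun x => (φ x)⁻¹) (fun g => ?_) f hf
      have : {x | (φ x)⁻¹ = g} = {x | φ x = g⁻¹} := by
        ext x; simp [inv_eq_iff_eq_inv]
      rw [this]; exact hφm _
    have hf2o : ∀ x, f2 x ∈ MulAction.orbit G (f x) := fun x => ⟨(φ x)⁻¹, rfl⟩
    have hf2 : ∀ g : G, ∀ᵐ x ∂(bern G nu0), f2 (shift g x) = ρ g • f2 x := by
      intro g
      filter_upwards [hφ g, hfr] with x hx hx'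
      have e1 : lam g x = φ (shift g x) * ρ g * (φ x)⁻¹ := by
        rw [← hx]; simp only [co, if_pos hx']
      show (φ (shift g x))⁻¹ • f (shift g x) = ρ g • (φ x)⁻¹ • f x
      rw [hlam g x, e1, smul_smul, smul_smul]
      congr 1
      group
    by_cases hker : ρ.ker = ⊥
    · -- injective case: invariant measure
      have hinj : Function.Injective ρ := (MonoidHom.ker_eq_bot_iff ρ).1 hker
      have hrfg : ρ.range.FG := by
        have : Group.FG G := hR.fg
        exact (Group.fg_iff_subgroup_fg _).1 (Group.fg_range ρ)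
      have hrinf : ¬ Finite ρ.range := by
        intro hfin
        have : Finite G := Finite.of_injective (ρ.rangeRestrict)
          (fun a b h => hinj (congrArg Subtype.val h))
        exact not_finite G
      have hri : ρ.range.index ≠ 0 := (hR.fin_or _ hrfg).resolve_left hrinf
      have hprob : IsProbabilityMeasure ((bern G nu0).map f2) :=
        Measure.isProbabilityMeasure_map hf2m.aemeasurable
      obtain ⟨ν', hν1, hν2, hν3⟩ := exists_inv hm ρ.range hri ((bern G nu0).map f2) (by
        rintro _ ⟨g, rfl⟩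
        rw [Measure.map_map (hm _) hf2m]
        have e1 : ((fun y : Y => ρ g • y) ∘ f2) =ᵐ[bern G nu0] (f2 ∘ shift g) := by
          filter_upwards [hf2 g] with x hx
          exact hx.symm
        rw [Measure.map_congr e1, ← Measure.map_map hf2m (measurable_shift g),
          (hpmp.mp g).map_eq])
      exact hν2 (no_inv hm ν' hν3 c hc hci hco hcz)
    · -- kernel case
      have hki := hR.ji ρ.ker inferInstance hker
      have hkinf : (ρ.ker : Set G).Infinite := by
        intro hfin
        have : Finite ρ.ker := hfin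
        have h3 := Subgroup.card_mul_index ρ.ker
        have h4 : Nat.card G ≠ 0 := by
          rw [← h3]
          exact mul_ne_zero Nat.card_pos.ne' hki
        exact h4 Nat.card_eq_zero_of_infinite
      have : Nonempty Y := ⟨f x0⟩
      obtain ⟨y, hy⟩ := const_of_01 (bern G nu0) f2 (fun B hB => by
        refine mix_inf (bern G nu0) shift hmx (ρ.ker : Set G) hkinf _ (hf2m hB) fun k hk => ?_
        have hk' : ρ k = 1 := hk
        have : ∀ᵐ x ∂(bern G nu0), f2 (shift k x) = f2 x := by
          filter_upwards [hf2 k] with x hx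
          rw [hx, hk', one_smul]
        filter_upwards [this] with x hx
        show ((shift k x) ∈ f2 ⁻¹' B) = (x ∈ f2 ⁻¹' B)
        simp only [Set.mem_preimage, hx])
      have h0 := fib0 hfree f h2 f2 hf2o y
      have h3 : bern G nu0 (f2 ⁻¹' {y})ᶜ = 0 := by
        rw [ae_iff] at hy
        exact hy
      have h4 : bern G nu0 Set.univ = 0 := by
        rw [← Set.union_compl_self (f2 ⁻¹' {y})]
        exact measure_union_null h0 h3
      rw [measure_univ] at h4
      exact one_ne_zero h4
  · -- locally finite case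
    have hNi := hnorm p G hR W0 hWbot (loc_of_index hR W0 hW0i)
    have hNloc := loc_of_index hR _ hNi
    let f1 : (G → ℝ) → Y := fun x => (γ x)⁻¹ • f x
    have hγm' : ∀ g, MeasurableSet {x | (γ x)⁻¹ = g} := fun g => by
      have : {x | (γ x)⁻¹ = g} = {x | γ x = g⁻¹} := by
        ext x; simp [inv_eq_iff_eq_inv]
      rw [this]; exact hγm _
    have hf1m : Measurable f1 := meas_smul hm (fun x => (γ x)⁻¹) hγm' f hf
    have hf1o : ∀ x, f1 x ∈ MulAction.orbit G (f x) := fun x => ⟨(γ x)⁻¹, rfl⟩
    let lam1 : G → (G → ℝ) → G := fun g x => (γ (shift g x))⁻¹ * (lam g x * γ x)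
    have hlam1 : ∀ g h, MeasurableSet {x | lam1 g x = h} := by
      intro g h
      refine SR.measurable_level (f := fun x => (γ (shift g x))⁻¹) (g := fun x => lam g x * γ x)
        ?_ ?_ (fun a b => a * b) h
      · intro l
        exact measurable_shift g (hγm' l)
      · intro l
        exact SR.measurable_level (hlamm g) hγm (fun a b => a * b) l
    obtain ⟨y, hy⟩ := hL1 G S C hT Y hm f1 lam1 (Subgroup.normalizer (W0 : Set G)) hf1m hlam1
      hNloc (by
        intro g _
        have hγae' := (hpmp.mp g).quasiMeasurePreserving.ae hγae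
        filter_upwards [hγae, hγae'] with x hx hx'
        refine ⟨?_, ?_⟩
        · show (γ (shift g x))⁻¹ • f (shift g x) =
            ((γ (shift g x))⁻¹ * (lam g x * γ x)) • (γ x)⁻¹ • f x
          rw [hlam g x, smul_smul, smul_smul]
          congr 1
          group
        · have hfix : ∀ n, cj (lam1 g x) (q n x0) = q n x0 := by
            intro n
            have e1 : q n (shift g x) = cj (γ (shift g x)) (q n x0) := hx' n
            have e2 := hqeq n g x
            rw [hx n, ← cj_mul] at e2
            show cj ((γ (shift g x))⁻¹ * (lam g x * γ x)) (q n x0) = q n x0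
            rw [cj_mul, ← e2, e1, ← cj_mul, inv_mul_cancel, cj_one]
          rw [Subgroup.mem_normalizer_iff]
          intro h
          rw [hW0, Subgroup.mem_iInf, Subgroup.mem_iInf]
          refine forall_congr' fun n => ?_
          conv_rhs => rw [← hfix n, mem_cj]
          have : (lam1 g x)⁻¹ * (lam1 g x * h * (lam1 g x)⁻¹) * lam1 g x = h := by group
          rw [this])
    rw [fib0 hfree f h2 f1 hf1o y] at hy
    exact lt_irrefl _ hy

end main

end Pool.Agent.H656.DC.Core
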