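import Pool.Agent.H656.DC.GStmts

set_option autoImplicit false

namespace Pool.Agent.H656.DC.Dense

open Pool.Agent.H656.DC

variable {G : Type} [Group G]

theorem eq_of_index {H K : Subgroup G} (hle : H ≤ K) (h0 : H.index ≠ 0) (h : H.index = K.index) :
    H = K := by
  have h1 := Subgroup.relIndex_mul_index hle
  have hK : K.index ≠ 0 := h ▸ h0
  have h2 : H.relIndex K = 1 := by
    rw [h] at h1
    exact Nat.eq_of_mul_eq_mul_right (Nat.pos_of_ne_zero hK) (by rw [h1, one_mul])
  exact le_antisymm hle (Subgroup.relIndex_eq_one.1 h2)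

/-- stabilisation of a decreasing sequence whose intersection has finite index -/
theorem stab (V : ℕ → Subgroup G) (hV : Antitone V) (h : (⨅ n, V n).index ≠ 0) :
    ∃ n0, (⨅ n, V n) = V n0 := by
  set U := ⨅ n, V n with hU
  have hle : ∀ n, U ≤ V n := fun n => iInf_le _ _
  have hdvd : ∀ n, (V n).index ∣ U.index := fun n => Subgroup.index_dvd_of_le (hle n)
  have hne : ∀ n, (V n).index ≠ 0 := fun n h0 => h (by
    have := hdvd n
    rw [h0] at this
    exact Nat.eq_zero_of_zero_dvd this)
  have hbdd : BddAbove (Set.range fun n => (V n).index) := by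
    refine ⟨U.index, ?_⟩
    rintro _ ⟨n, rfl⟩
    exact Nat.le_of_dvd (Nat.pos_of_ne_zero h) (hdvd n)
  obtain ⟨n0, hn0⟩ := Nat.sSup_mem (Set.range_nonempty fun n => (V n).index) hbdd
  have hmax : ∀ n, (V n).index ≤ (V n0).index := by
    intro n
    have := le_csSup hbdd (Set.mem_range_self n)
    simpa [hn0] using this
  refine ⟨n0, le_antisymm (hle n0) (le_iInf fun n => ?_)⟩
  rcases le_total n n0 with hn | hn
  · exact hV hn
  · have h1 : V n ≤ V n0 := hV hn
    have h2 : (V n0).index ∣ (V n).index := Subgroup.index_dvd_of_le h1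
    have h3 : (V n).index = (V n0).index :=
      le_antisymm (hmax n) (Nat.le_of_dvd (Nat.pos_of_ne_zero (hne n)) h2)
    exact (eq_of_index h1 (hne n) h3).ge

theorem bound (A H U : Subgroup G) [hH : H.Normal] [Finite A] (h1 : U ≤ A ⊔ H)
    (h : U.index ≠ 0) : H.index ≤ Nat.card A * U.index := by
  have h2 : (A ⊔ H).index ≤ U.index :=
    Nat.le_of_dvd (Nat.pos_of_ne_zero h) (Subgroup.index_dvd_of_le h1)
  have h3 : H.relIndex (A ⊔ H) * (A ⊔ H).index = H.index :=
    Subgroup.relIndex_mul_index le_sup_right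
  have h4 : H.relIndex (A ⊔ H) = H.relIndex A := Subgroup.relIndex_sup_right A H
  have h5 : H.relIndex A ≤ Nat.card A :=
    Nat.le_of_dvd Nat.card_pos (Subgroup.relIndex_dvd_card H A)
  rw [← h3, h4]
  exact Nat.mul_le_mul h5 h2

theorem main (hb : S_burnside) : S_dense := by
  classical
  intro p _ G _ hG K hK hKn hcof L hL
  by_contra h
  have hVanti : Antitone fun n => L ⊔ K n := fun a b hab => sup_le_sup_left (hK hab) L
  obtain ⟨n0, hn0⟩ := stab (fun n => L ⊔ K n) hVanti h
  set U := ⨅ n, L ⊔ K n with hU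
  obtain ⟨A, hAfg, hAL, hA⟩ := hb p G hG.fg L U (K n0) (by rw [hn0]; exact le_sup_left)
    (by rw [hn0]; exact le_sup_right) (hKn n0).1 (hKn n0).2 (by
      intro K' hK' hK'p
      obtain ⟨n, hn⟩ := hcof K' hK' hK'p
      exact (iInf_le _ n).trans (sup_le_sup_left hn L))
  have hAfin : Finite A := hL A hAfg hAL
  -- bound of the indices
  have hbound : ∀ n, (K n).index ≤ Nat.card A * U.index := by
    intro n
    have hnorm := (hKn n).1
    exact bound A (K n) U (hA (K n) (hKn n).1 (hKn n).2) h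
  -- unboundedness
  set B := Nat.card A * U.index with hB
  have hinf := hG.inf
  obtain ⟨f⟩ : Nonempty (Fin (B + 1) ↪ G) := ⟨(Fin.valEmbedding).trans (Infinite.natEmbedding G)⟩
  have hsep : ∀ q : Fin (B + 1) × Fin (B + 1), ∃ n, q.1 ≠ q.2 → (f q.1)⁻¹ * f q.2 ∉ K n := by
    intro q
    by_cases hq : q.1 = q.2
    · exact ⟨0, fun h => absurd hq h⟩
    · have h1 : (f q.1)⁻¹ * f q.2 ≠ 1 := by
        intro h2
        apply hq
        apply f.injective
        exact (inv_mul_eq_one.1 h2)
      obtain ⟨K', hK', hK'p, hmem⟩ := hG.resp _ h1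
      obtain ⟨n, hn⟩ := hcof K' hK' hK'p
      exact ⟨n, fun _ hm => hmem (hn hm)⟩
  choose N hN using hsep
  set M := Finset.univ.sup N with hM
  have hsep2 : Function.Injective fun i => (QuotientGroup.mk (f i) : G ⧸ K M) := by
    intro i j hij
    by_contra hne
    have h1 : (f i)⁻¹ * f j ∈ K M := QuotientGroup.eq.1 hij
    have h2 : N (i, j) ≤ M := Finset.le_sup (f := N) (Finset.mem_univ (i, j))
    exact hN (i, j) hne (hK h2 h1)
  have hfin : Finite (G ⧸ K M) := by
    obtain ⟨k, hk⟩ := (hKn M).2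
    have : (K M).index ≠ 0 := by
      rw [hk]
      exact pow_ne_zero _ (Fact.out : p.Prime).ne_zero
    have : (K M).FiniteIndex := ⟨this⟩
    infer_instance
  have h1 := Nat.card_le_card_of_injective _ hsep2
  rw [Nat.card_fin] at h1
  have h2 : Nat.card (G ⧸ K M) = (K M).index := rfl
  have h3 := hbound M
  omega

end Pool.Agent.H656.DC.Dense
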