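import Pool.Agent.H656.DC.GStmts

/-!
# Dimension subgroups (leaf DsubL)
-/

set_option autoImplicit false

open scoped commutatorElement

namespace Pool.Agent.H656.DC.DsubL

variable {p : ℕ} {F : Type} [Group F] {M : Subgroup F} {ι : Type} [Fintype ι]
  {y : ι → F} {n : ι → ℕ} {J : ℕ → Submodule (ZMod p) (GA p F)}

/-- `𝔽_p[M]` is finite modulo `J m` -/
lemma fin_mod [NeZero p] (h : WFS p M y n J) (m : ℕ) :
    ∃ S : Set (GA p F), S.Finite ∧ ∀ a ∈ KS p M, ∃ s ∈ S, a - s ∈ J m := by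
  induction m using Nat.strong_induction_on with
  | _ m ih =>
    rcases Nat.eq_zero_or_pos m with rfl | hm
    · refine ⟨{0}, Set.finite_singleton 0, fun a ha => ⟨0, rfl, ?_⟩⟩
      rw [sub_zero, h.zero]; exact ha
    · have h1 : ∀ i, m - n i < m := fun i => by have := h.pos i; omega
      choose S hS1 hS2 using fun i => ih (m - n i) (h1 i)
      refine ⟨(fun q : ZMod p × (ι → GA p F) => q.1 • (1 : GA p F) +
        ∑ i, q.2 i * (el p (y i) - 1)) '' (Set.univ ×ˢ Set.univ.pi S),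
        ((Set.toFinite _).prod (Set.Finite.pi fun i => hS1 i)).image _, ?_⟩
      intro a ha
      obtain ⟨b, hb, hb'⟩ := exists_decomp h.gen ha
      choose s hs1 hs2 using fun i => hS2 i (b i) (hb i)
      refine ⟨_, ⟨(aug p a, s), ⟨Set.mem_univ _, fun i _ => hs1 i⟩, rfl⟩, ?_⟩
      have e : a - (aug p a • (1 : GA p F) + ∑ i, s i * (el p (y i) - 1)) =
          ∑ i, (b i - s i) * (el p (y i) - 1) := by
        have e2 : ∑ i, (b i - s i) * (el p (y i) - 1) =
            ∑ i, b i * (el p (y i) - 1) - ∑ i, s i * (el p (y i) - 1) := by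
          rw [← Finset.sum_sub_distrib]
          exact Finset.sum_congr rfl fun i _ => sub_mul _ _ _
        rw [e2]
        nth_rewrite 1 [hb']
        abel
      rw [e]
      refine Submodule.sum_mem _ fun i _ => ?_
      exact h.anti (by omega) (h.mul _ _ _ _ (hs2 i) (h.geny i))

lemma conj_mem (h : WFS p M y n J) (hp : p ≠ 1) {m : ℕ} {b g : F} (hb : b ∈ M)
    (hg : g ∈ Dsub p J m) : b * g * b⁻¹ ∈ Dsub p J m := by
  rw [h.mem_Dsub hp] at hg ⊢
  have e : el p (b * g * b⁻¹) - 1 = el p b * (el p g - 1) * el p b⁻¹ := by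
    rw [el_mul, el_mul, mul_sub, sub_mul, mul_one, el_mul_inv]
  rw [e]
  exact h.right_mul (h.left_mul (el_mem_KS hb) hg) (el_mem_KS (M.inv_mem hb))

lemma comm_mem (h : WFS p M y n J) (hp : p ≠ 1) {a b : ℕ} {g k : F} (hg : g ∈ Dsub p J a)
    (hk : k ∈ Dsub p J b) : ⁅g, k⁆ ∈ Dsub p J (a + b) := by
  have hgM := h.Dsub_le hp a hg
  have hkM := h.Dsub_le hp b hk
  rw [h.mem_Dsub hp] at hg hk ⊢
  have e : el p ⁅g, k⁆ - 1 = ((el p g - 1) * (el p k - 1) - (el p k - 1) * (el p g - 1)) *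
      (el p g⁻¹ * el p k⁻¹) := by
    have e1 : (el p g - 1) * (el p k - 1) - (el p k - 1) * (el p g - 1) =
        el p g * el p k - el p k * el p g := by noncomm_ring
    rw [e1, sub_mul]
    have e2 : el p k * el p g * (el p g⁻¹ * el p k⁻¹) = 1 := by
      rw [mul_assoc, ← mul_assoc (el p g), el_mul_inv, one_mul, el_mul_inv]
    rw [e2, commutatorElement_def, el_mul, el_mul, el_mul]
    simp only [mul_assoc]
  rw [e]
  refine h.right_mul (Submodule.sub_mem _ (h.mul a b _ _ hg hk) ?_)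
    (KS_mul_mem (el_mem_KS (M.inv_mem hgM)) (el_mem_KS (M.inv_mem hkM)))
  rw [add_comm a b]
  exact h.mul b a _ _ hk hg

lemma pow_mem (h : WFS p M y n J) {a : ℕ} {x : GA p F} (hx : x ∈ J a) (k : ℕ) :
    x ^ k ∈ J (k * a) := by
  induction k with
  | zero =>
    rw [pow_zero, zero_mul, h.zero]
    exact one_mem_KS M
  | succ k ih =>
    rw [pow_succ, Nat.succ_mul]
    exact h.mul _ _ _ _ ih hx

lemma el_pow (g : F) (k : ℕ) : el p (g ^ k) = el p g ^ k := by
  induction k with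
  | zero => simp
  | succ k ih => rw [pow_succ, el_mul, ih, pow_succ]

lemma ppow_mem [Fact p.Prime] (h : WFS p M y n J) {a : ℕ} {g : F} (hg : g ∈ Dsub p J a) :
    g ^ p ∈ Dsub p J (p * a) := by
  have hp : p ≠ 1 := (Fact.out : p.Prime).one_lt.ne'
  rw [h.mem_Dsub hp] at hg ⊢
  have : CharP (GA p F) p := charP_of_injective_algebraMap
    (algebraMap (ZMod p) (GA p F)).injective p
  have e : el p (g ^ p) - 1 = (el p g - 1) ^ p := by
    rw [sub_pow_char_of_commute _ (Commute.one_right _), one_pow, el_pow]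
  rw [e]
  exact pow_mem h hg p

lemma ppow_iter [Fact p.Prime] (h : WFS p M y n J) {g : F} (hg : g ∈ M) (k : ℕ) :
    g ^ p ^ k ∈ Dsub p J (p ^ k) := by
  have hp : p ≠ 1 := (Fact.out : p.Prime).one_lt.ne'
  induction k with
  | zero =>
    rw [pow_zero, pow_one, h.mem_Dsub hp]
    exact h.el_sub_one_mem_one hg
  | succ k ih =>
    have := ppow_mem h ih
    rwa [← pow_mul, ← pow_succ, ← pow_succ'] at this

lemma Dsub_anti (h : WFS p M y n J) (hp : p ≠ 1) {a b : ℕ} (hab : a ≤ b) :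
    Dsub p J b ≤ Dsub p J a := by
  intro g hg
  rw [h.mem_Dsub hp] at hg ⊢
  exact h.anti hab hg

lemma index [Fact p.Prime] (h : WFS p M y n J) (m : ℕ) : ∃ k, (Dsub p J m).relIndex M = p ^ k := by
  have hp : p ≠ 1 := (Fact.out : p.Prime).one_lt.ne'
  have : NeZero p := ⟨(Fact.out : p.Prime).ne_zero⟩
  set N : Subgroup M := (Dsub p J m).subgroupOf M with hN
  have hNn : N.Normal := by
    refine ⟨fun g hg b => ?_⟩
    rw [hN, Subgroup.mem_subgroupOf] at hg ⊢
    exact conj_mem h hp b.2 hg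
  obtain ⟨S, hS, hS2⟩ := fin_mod h m
  have hfin : Finite (M ⧸ N) := by
    choose s hs1 hs2 using fun g : M => hS2 (el p (g : F)) (el_mem_KS g.2)
    have : Finite S := hS.to_subtype
    refine Finite.of_injective (fun q : M ⧸ N => (⟨s q.out, hs1 q.out⟩ : S)) ?_
    intro q q' hq
    have h1 : s q.out = s q'.out := congrArg Subtype.val hq
    have h2 : el p (q.out : F) - el p (q'.out : F) ∈ J m := by
      have := (J m).sub_mem (hs2 q.out) (hs2 q'.out)
      rw [h1, sub_sub_sub_cancel_right] at this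
      exact this
    have h3 : (q'.out)⁻¹ * q.out ∈ N := by
      refine Subgroup.mem_subgroupOf.2 ?_
      rw [h.mem_Dsub hp]
      have e : el p (((q'.out)⁻¹ * q.out : M) : F) - 1 =
          el p ((q'.out : F))⁻¹ * (el p (q.out : F) - el p (q'.out : F)) := by
        rw [mul_sub, el_inv_mul, ← el_mul]
        rfl
      rw [e]
      exact h.left_mul (el_mem_KS (M.inv_mem q'.out.2)) h2
    have h4 : (QuotientGroup.mk q'.out : M ⧸ N) = QuotientGroup.mk q.out := QuotientGroup.eq.2 h3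
    rw [QuotientGroup.out_eq', QuotientGroup.out_eq'] at h4
    exact h4.symm
  have hpg : IsPGroup p (M ⧸ N) := by
    intro q
    obtain ⟨g, rfl⟩ := QuotientGroup.mk_surjective q
    refine ⟨m, ?_⟩
    rw [← QuotientGroup.mk_pow, QuotientGroup.eq_one_iff, hN, Subgroup.mem_subgroupOf]
    have hm : m ≤ p ^ m := (Nat.lt_pow_self (Fact.out : p.Prime).one_lt).le
    exact Dsub_anti h hp hm (ppow_iter h g.2 m)
  obtain ⟨k, hk⟩ := IsPGroup.iff_card.1 hpg
  exact ⟨k, hk⟩

/-- **Dimension subgroups** -/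
theorem main : S_Dsub := by
  intro p _ F _ M ι _ y n J h
  have hp : p ≠ 1 := (Fact.out : p.Prime).one_lt.ne'
  refine ⟨index h, fun m b hb g hg => conj_mem h hp hb hg, fun a b g k hg hk => comm_mem h hp hg hk,
    fun a g hg => ppow_mem h hg, fun hI m => ⟨fun g hg b => ?_⟩⟩
  rw [h.mem_Dsub hp] at hg ⊢
  have e : el p (b * g * b⁻¹) - 1 = el p b * (el p g - 1) * el p b⁻¹ := by
    rw [el_mul, el_mul, mul_sub, sub_mul, mul_one, el_mul_inv]
  rw [e]
  exact hI b m _ hg

end Pool.Agent.H656.DC.DsubL
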