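import Mathlib

/-!
# Definitions for the ergodic part of the proof of S14648 (MP_45e9b0_lc)
-/

set_option autoImplicit false

open MeasureTheory Filter Topology

namespace Pool.Agent.H656.DC

/-- Property (T) with a finite set `S` and a constant `C`: in every orthogonal representation each
vector is close to an invariant vector, quantitatively. -/
def HasTC (G : Type) [Group G] (S : Finset G) (C : ℝ) : Prop :=
  0 ≤ C ∧ ∀ (H : Type) [NormedAddCommGroup H] [InnerProductSpace ℝ H] [CompleteSpace H]
    (π : G →* (H ≃ₗᵢ[ℝ] H)) (ξ : H),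
    ∃ η : H, (∀ g, π g η = η) ∧ ‖ξ - η‖ ^ 2 ≤ C * ∑ s ∈ S, ‖π s ξ - ξ‖ ^ 2

/-- a measure preserving action, given by a bare function -/
structure PMP (G : Type) [Group G] {X : Type} [MeasurableSpace X] (μ : Measure X)
    (act : G → X → X) : Prop where
  one : ∀ x, act 1 x = x
  mul : ∀ g h x, act (g * h) x = act g (act h x)
  mp : ∀ g, MeasurePreserving (act g) μ μ

/-- mixing -/
def Mixing (G : Type) [Group G] {X : Type} [MeasurableSpace X] (μ : Measure X)
    (act : G → X → X) : Prop :=
  ∀ A B : Set X, MeasurableSet A → MeasurableSet B →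
    Tendsto (fun g : G => μ.real (A ∩ act g ⁻¹' B)) cofinite (𝓝 (μ.real A * μ.real B))

/-- ergodicity for almost everywhere invariant sets -/
def Erg (G : Type) [Group G] {X : Type} [MeasurableSpace X] (μ : Measure X)
    (act : G → X → X) : Prop :=
  ∀ A : Set X, MeasurableSet A → (∀ g : G, act g ⁻¹' A =ᵐ[μ] A) → μ A = 0 ∨ μ Aᶜ = 0

/-- a strict measurable cocycle with values in a countable group -/
structure Coc {G : Type} [Group G] {X : Type} [MeasurableSpace X] {L : Type} [Group L]
    (act : G → X → X) (a : G → X → L) : Prop where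
  meas : ∀ g l, MeasurableSet {x | a g x = l}
  coc : ∀ g h x, a (g * h) x = a g (act h x) * a h x

/-- the shift action on `B^G` -/
def shift {G : Type} [Group G] {B : Type} (g : G) (x : G → B) : G → B := fun h => x (g⁻¹ * h)

/-- the Bernoulli measure on `B^G` -/
noncomputable def bern (G : Type) {B : Type} [MeasurableSpace B] (ν : Measure B)
    [IsProbabilityMeasure ν] : Measure (G → B) := Measure.infinitePi (fun _ : G => ν)

instance (G : Type) {B : Type} [MeasurableSpace B] (ν : Measure B)
    [IsProbabilityMeasure ν] : IsProbabilityMeasure (bern G ν) := by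
  unfold bern; infer_instance

/-- Lebesgue measure on `[0,1]`, as a measure on `ℝ` -/
noncomputable def nu0 : Measure ℝ := volume.restrict (Set.Icc 0 1)

instance : IsProbabilityMeasure nu0 := ⟨by simp [nu0]⟩

/-- the base measure of the deformation space -/
noncomputable def nu3 : Measure (ℝ × ℝ × ℝ) := nu0.prod (nu0.prod nu0)

instance : IsProbabilityMeasure nu3 := by unfold nu3; infer_instance

/-- the interpolation maps `x̃ ↦ x^{(s)}`: coordinate `h` is the first one if `s ≤ u_h`, else the
second one -/
noncomputable def interp {G : Type} (s : ℝ) (z : G → ℝ × ℝ × ℝ) : G → ℝ :=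
  fun h => if s ≤ (z h).2.2 then (z h).1 else (z h).2.1

lemma shift_apply {G : Type} [Group G] {B : Type} (g : G) (x : G → B) (h : G) :
    shift g x h = x (g⁻¹ * h) := rfl

lemma shift_one {G : Type} [Group G] {B : Type} (x : G → B) : shift (1 : G) x = x := by
  funext h; simp [shift]

lemma shift_mul {G : Type} [Group G] {B : Type} (g h : G) (x : G → B) :
    shift (g * h) x = shift g (shift h x) := by
  funext k; simp [shift, mul_assoc]

lemma interp_shift {G : Type} [Group G] (s : ℝ) (g : G) (z : G → ℝ × ℝ × ℝ) :
    interp s (shift g z) = shift g (interp s z) := rfl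

end Pool.Agent.H656.DC
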