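import Pool.Agent.H656.DC.EDefs

/-!
# Statements (with proofs on paper) of the ergodic part for S14648
-/

set_option autoImplicit false

open MeasureTheory Filter Topology
open scoped commutatorElement

namespace Pool.Agent.H656.DC

/-- The shift preserves the Bernoulli measure.

Proof: `Measure.infinitePi_map_piCongrLeft` for the permutation `h ↦ g h` of `G` (or
`Measure.eq_infinitePi`). Measurability: `measurable_pi_lambda`. -/
def S_bernPMP : Prop :=
  ∀ (G : Type) [Group G] [Countable G] (B : Type) [MeasurableSpace B] (ν : Measure B)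
    [IsProbabilityMeasure ν], PMP G (bern G ν) (shift : G → (G → B) → (G → B))

/-- Bernoulli shifts of infinite groups are mixing.

Proof: let `ε > 0`. By approximation (the measurable cylinders form an algebra generating the
`σ`-algebra; e.g. `MeasureTheory.exists_measure_symmDiff_lt…` / `Measure.…GenerateFrom` density of
an algebra of sets in finite measure) there are measurable cylinders `A', B'`, depending on a finite
set `I` of coordinates, with `μ(A ∆ A') , μ(B ∆ B') < ε`. For all `g` outside the finite set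
`{g : g I ∩ I ≠ ∅}`-like set (`{i j⁻¹ : i, j ∈ I}` and inverses) the sets `A'` and
`shift g ⁻¹' B'` depend on disjoint sets of coordinates, so are independent
(`Measure.infinitePi`: `iIndepFun_infinitePi`, or `infinitePi_cylinder`/`infinitePi_map_restrict`
and product of finite `Measure.pi`), so `μ(A' ∩ g⁻¹B') = μ(A') μ(g⁻¹ B') = μ(A') μ(B')`. Hence
`|μ(A ∩ g⁻¹ B) - μ(A) μ(B)| ≤ 4 ε` for all but finitely many `g`. -/
def S_mix : Prop :=
  ∀ (G : Type) [Group G] [Countable G] [Infinite G] (B : Type) [MeasurableSpace B] (ν : Measure B)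
    [IsProbabilityMeasure ν], Mixing G (bern G ν) (shift : G → (G → B) → (G → B))

/-- `(B × B')^G ≅ B^G × B'^G`, measure theoretically.

Proof: `Measure.eq_infinitePi`-type uniqueness: both sides agree on boxes
`(∏_{i ∈ s} A_i) × (∏_{i ∈ s'} A'_i)` which form a π-system generating the σ-algebra
(`Measure.prod_eq`-like, or show that the image of the right side under the inverse map
`(x, x') ↦ (g ↦ (x g, x' g))` is `infinitePi (ν.prod ν')` by `eq_infinitePi`: for a box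
`∏_{i∈s} t_i`, it is enough to take `t_i` … use `Measure.pi_eq`-style π-system of rectangles
`A_i ×ˢ A'_i`; or use `infinitePi_map_curry`/`infinitePi_map_piCurry`-like lemmas). -/
def S_prodBern : Prop :=
  ∀ (G : Type) [Countable G] (B B' : Type) [MeasurableSpace B] [MeasurableSpace B']
    (ν : Measure B) (ν' : Measure B') [IsProbabilityMeasure ν] [IsProbabilityMeasure ν'],
    MeasurePreserving (fun z : G → B × B' => ((fun g => (z g).1), (fun g => (z g).2)))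
      (bern G (ν.prod ν')) ((bern G ν).prod (bern G ν'))

/-- The Bernoulli measure over `[0,1]` is atomless and a.e. point has trivial stabiliser.

Proof: `bern {x} ≤ nu0 {x 1} = 0` (`measurePreserving_eval_infinitePi`). For `g ≠ 1`:
`shift g x = x` implies `x g⁻¹ = x 1`; the joint law of two different coordinates is
`nu0.prod nu0` (independence of coordinates), for which the diagonal is null (`nu0` atomless). -/
def S_free : Prop :=
  ∀ (G : Type) [Group G] [Countable G],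
    (∀ x : G → ℝ, bern G nu0 {x} = 0) ∧
    ∀ g : G, g ≠ 1 → ∀ᵐ x ∂(bern G nu0), shift g x ≠ x

/-- The interpolation maps are measure preserving, and at the ends they are the projections.

Proof: `interp s` is the coordinatewise map of `e_s : ℝ×ℝ×ℝ → ℝ`, `(a,b,u) ↦ if s ≤ u then a else b`,
and `e_s` maps `nu3` to `nu0` (split the integral according to `u`: for fixed `u` it is one of the two
projections): `Measure.infinitePi_map_pi`. At `s = 0`: `0 ≤ u_h` for all `h`, a.s. (countably many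
coordinates); at `s = 1`: `u_h < 1` for all `h`, a.s. -/
def S_interp : Prop :=
  ∀ (G : Type) [Group G] [Countable G],
    (∀ s : ℝ, MeasurePreserving (interp s : (G → ℝ × ℝ × ℝ) → G → ℝ) (bern G nu3) (bern G nu0)) ∧
    (∀ᵐ z ∂(bern G nu3), interp 0 z = fun h => (z h).1) ∧
    (∀ᵐ z ∂(bern G nu3), interp 1 z = fun h => (z h).2.1)

/-- Uniform continuity of the deformation.

Proof (take `hi : S_interp`): first for `f` the indicator of a measurable set `A` (as a `Prop`- or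
`Bool`-valued function): given `ε`, choose a measurable cylinder `A'` depending on the finite
coordinate set `I` with `μ(A ∆ A') < ε/4`. If `interp s z ∈ A'` and `interp s' z ∉ A'` (or vice
versa) then `interp s z h ≠ interp s' z h` for some `h ∈ I`, so `u_h ∈ [min s s', max s s']`, which
has probability `≤ |I| |s - s'|` (law of `u_h` is `nu0 ≤ volume`). So the probability that exactly one
of `interp s z, interp s' z` is in `A` is `≤ 2 ε/4 + |I| |s-s'| ≤ ε` for `|s-s'| ≤ δ := ε/(2|I|+2)`.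
For `f` with values in a countable `L`: choose a finite `L₀ ⊆ L` with `μ {f ∉ L₀} < ε/2` and apply
the first part to the sets `{f = l}`, `l ∈ L₀`, with `ε/(2|L₀|+2)`: if `f(interp s z) ≠ f(interp s' z)`
then `f (interp s z) ∉ L₀`, or for `l = f(interp s z) ∈ L₀` exactly one of the two is in
`{f = l}`. -/
def S_cont : Prop :=
  ∀ (G : Type) [Group G] [Countable G] (L : Type) [Countable L] (f : (G → ℝ) → L),
    (∀ l, MeasurableSet {x | f x = l}) → ∀ ε : ℝ, 0 < ε → ∃ δ : ℝ, 0 < δ ∧ ∀ s s' : ℝ, |s - s'| ≤ δ →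
      (bern G nu3).real {z | f (interp s z) ≠ f (interp s' z)} ≤ ε

/-- Mixing (of a measure preserving action on a probability space of an infinite group) implies
ergodicity.  Proof: if `A` is a.e. invariant, `μ(A ∩ g⁻¹A) = μ(A)` for all `g`; the limit along
`cofinite` (`NeBot` as `G` is infinite) gives `μ(A) = μ(A)²`. -/
def S_mixErg : Prop :=
  ∀ (G : Type) [Group G] [Infinite G] (X : Type) [MeasurableSpace X] (μ : Measure X)
    [IsProbabilityMeasure μ] (act : G → X → X), PMP G μ act → Mixing G μ act → Erg G μ act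

/-- **(T) for sets.** Proof: the Koopman representation on `L²(X, μ; ℝ)`, `(π g φ)(x) = φ(g⁻¹ x)`
(`Lp.compMeasurePreservingₗᵢ`; an isometric equivalence with inverse `π g⁻¹`; multiplicativity from
`Lp.compMeasurePreserving` lemmas or a.e. equalities). For `ξ = indicatorConstLp 1_A`:
`‖π g ξ - ξ‖² = μ(g A ∆ A) = μ(act g⁻¹' A ∆ A)` (`gA = act g⁻¹ ⁻¹' A`; apply `act g` which preserves
`μ`). With the invariant `η`: `‖π g ξ - ξ‖ ≤ ‖π g ξ - π g η‖ + ‖η - ξ‖ = 2 ‖ξ - η‖`, so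
`‖π g ξ - ξ‖² ≤ 4 C Σ_s ‖π s ξ - ξ‖²`. -/
def S_T1 : Prop :=
  ∀ (G : Type) [Group G] (S : Finset G) (C : ℝ), HasTC G S C →
    ∀ (X : Type) [MeasurableSpace X] (μ : Measure X) [IsProbabilityMeasure μ] (act : G → X → X),
      PMP G μ act → ∀ A : Set X, MeasurableSet A → ∀ g : G,
        μ.real (symmDiff (act g ⁻¹' A) A) ≤ 4 * C * ∑ s ∈ S, μ.real (symmDiff (act s ⁻¹' A) A)

/-- **(T) for cocycles**: two cocycles that are close on `S` are cohomologous.

Proof: `L` gets the σ-algebra `⊤`. On `Z = X × L` with `μ.prod count` let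
`T g (x, l) = (g x, a g x * l * (b g x)⁻¹)`: an action by measurable maps preserving
`μ.prod count` (`Z` is the countable disjoint union of `X × {l}`; `T g` maps the piece
`{x : a g x = u, b g x = v} × {l}` to `g{…} × {u l v⁻¹}`). The Koopman representation on
`L²(Z)`, `ξ = 1_{X × {1}}`, `‖π g ξ - ξ‖² = 2 μ.real {x : a g x ≠ b g x}`. Take the invariant `η` of
`HasTC`: `‖ξ - η‖² ≤ 2 C |S| ε < 1/4` for `ε = 1/(8 (C |S| + 1))`. So with `η_l(x) = η(x, l)`,
`∫ Σ_l |η_l(x) - δ_{l,1}|² dμ < 1/4`, so the set of `x` with `Σ_l |η_l(x) - δ_{l,1}|² < 1/4` has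
positive measure; on it `η_1(x) > 1/2` and `η_l(x) < 1/2` for `l ≠ 1`, so
`U := {x : there is exactly one l with η_l(x) > 1/2}` has positive measure; `U` is measurable and
a.e. invariant (as `η(T g z) = η(z)` for a.e. `z`, i.e. for a.e. `x` and all `l`), so `μ Uᶜ = 0` by
ergodicity. `Φ(x) :=` that unique `l` for `x ∈ U`, `1` otherwise. For a.e. `x`,
`η(g x, a g x * Φ x * (b g x)⁻¹) = η(x, Φ x) > 1/2` and `gx ∈ U`, so
`Φ (g x) = a g x * Φ x * (b g x)⁻¹`. -/
def S_T2 : Prop :=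
  ∀ (G : Type) [Group G] [Countable G] (S : Finset G) (C : ℝ), HasTC G S C →
    ∃ ε : ℝ, 0 < ε ∧ ∀ (X : Type) [MeasurableSpace X] (μ : Measure X) [IsProbabilityMeasure μ]
      (act : G → X → X), PMP G μ act → Erg G μ act →
      ∀ (L : Type) [Group L] [Countable L] (a b : G → X → L), Coc act a → Coc act b →
        (∀ s ∈ S, μ.real {x | a s x ≠ b s x} ≤ ε) →
        ∃ Φ : X → L, (∀ l, MeasurableSet {x | Φ x = l}) ∧
          ∀ g, ∀ᵐ x ∂μ, a g x * Φ x = Φ (act g x) * b g x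

/-- **Splitting.** A transfer function between a cocycle on `X` and a cocycle on `W`, defined on
`X × W`, splits when the action on `(X × X) × (W × W)` is ergodic.

Proof: for `x : X`, `w, w' : W` let `Ψ(x, w, w') = Φ(x,w)⁻¹ Φ(x,w')`. For each `g`, for a.e.
`(x, w, w')`: `Ψ(gx, gw, gw') = b g w * Ψ(x,w,w') * (b g w')⁻¹`. Let
`E = {((x₁,x₂),(w,w')) : Ψ(x₁,w,w') = Ψ(x₂,w,w')}`, measurable and a.e. invariant (Fubini), so null or
conull. Not null: for every `(w, w')`, `(μ×μ){Ψ(x₁,w,w') = Ψ(x₂,w,w')} = Σ_l μ{Ψ(·,w,w') = l}² > 0`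
(`L` countable, `μ` probability). So `E` is conull. By Fubini there is `w₀` such that for a.e. `w`,
a.e. `(x₁, x₂)`: `Ψ(x₁,w,w₀) = Ψ(x₂,w,w₀)`. So there is `x₀`…: define
`θ(w) :=` the a.e. value of `Ψ(·, w, w₀)`; more simply choose by Fubini `x₀` with: for a.e. `(x₁,w)`,
`Ψ(x₁,w,w₀) = Ψ(x₀,w,w₀)`. Put `φ(x) = Φ(x,w₀)`, `ψ(w) = Ψ(x₀,w,w₀)⁻¹`: then for a.e. `(x,w)`:
`Φ(x,w)⁻¹ φ(x) = ψ(w)⁻¹`, i.e. `Φ(x,w) = φ(x) ψ(w)`. Substituting: for each `g`, a.e. `(x,w)`:
`a g x φ(x) ψ(w) = φ(gx) ψ(gw) b g w`, so `φ(gx)⁻¹ a g x φ(x) = ψ(gw) (b g w) ψ(w)⁻¹`; the left side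
depends on `x` only, the right side on `w` only, so both are a.e. equal to a constant `ρ g`
(Fubini: choose a good `w`). `ρ` is a homomorphism: `φ(ghx)⁻¹ a(gh,x) φ(x) =
[φ(ghx)⁻¹ a(g,hx) φ(hx)] [φ(hx)⁻¹ a(h,x) φ(x)]` for a.e. `x`. -/
def S_split : Prop :=
  ∀ (G : Type) [Group G] [Countable G] (X W : Type) [MeasurableSpace X] [MeasurableSpace W]
    (μ : Measure X) (κ : Measure W) [IsProbabilityMeasure μ] [IsProbabilityMeasure κ]
    (aX : G → X → X) (aW : G → W → W), PMP G μ aX → PMP G κ aW →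
    Erg G ((μ.prod μ).prod (κ.prod κ))
      (fun g q => ((aX g q.1.1, aX g q.1.2), (aW g q.2.1, aW g q.2.2))) →
    ∀ (L : Type) [Group L] [Countable L] (a : G → X → L) (b : G → W → L),
      Coc aX a → Coc aW b → ∀ Φ : X × W → L, (∀ l, MeasurableSet {q | Φ q = l}) →
        (∀ g, ∀ᵐ q ∂(μ.prod κ), a g q.1 * Φ q = Φ (aX g q.1, aW g q.2) * b g q.2) →
        ∃ (ρ : G →* L) (φ : X → L), (∀ l, MeasurableSet {x | φ x = l}) ∧
          ∀ g, ∀ᵐ x ∂μ, a g x = φ (aX g x) * ρ g * (φ x)⁻¹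

/-- **Rigidity of profinite invariants.** `q n : B^G → D` are finitely-valued maps, equivariant up
to a measurable `lam`, each determined by the next one.  Then they are a.e. constant up to the
action of `G` (simultaneously in `n`).

Proof (hypotheses `S_interp`, `S_cont`, `S_T1`, `S_mix`, `S_bernPMP`, `S_mixErg`): write
`m = bern G nu3` on `Z = G → ℝ×ℝ×ℝ`. For `s, s'` and `n` let
`E_n(s,s') = {z : q n (interp s z) = q n (interp s' z)}`. Fix `η = 1/8` and choose `ε > 0` with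
`4 C |S| ε ≤ η` (e.g. `ε = η/(4 C |S| + 1)`). By `S_cont` applied to `lam g`, `g ∈ S`, there is `δ > 0`
such that `|s - s'| ≤ δ` implies `m {lam g (interp s z) ≠ lam g (interp s' z)} ≤ ε/1` for all
`g ∈ S`. If `lam g (interp s z) = lam g (interp s' z) =: λ` then
`q n (interp s (gz)) = λ • q n (interp s z)` and the same for `s'`, so
`gz ∈ E_n ↔ z ∈ E_n`. So `m(g⁻¹E_n ∆ E_n) ≤ ε` for `g ∈ S`, hence by `S_T1`
`m(g⁻¹E_n ∆ E_n) ≤ 4 C |S| ε ≤ η` for all `g : G`. By mixing, `m(E_n ∩ g⁻¹ E_nᶜ) → m(E_n)(1 - m(E_n))`, so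
`e (1 - e) ≤ η = 1/8` for `e = m(E_n(s,s'))`: `e ≤ 1/6` or `e ≥ 5/6` (as `x(1-x) > 1/8` on
`(1/6, 5/6)`; `5/36 > 1/8`). By `S_cont` for `q n` (its values lie in a finite set; use the subtype
`range (q n)`), `s' ↦ m(E_n(s,s'))` is continuous, and it is `1` at `s' = s`; hence it is `≥ 5/6` on
`|s' - s| ≤ δ` (connectedness, or a discrete stepping argument: for `|s'-s''| ≤ δ_n` the values
differ by at most `1/10`). As `E_{n+1} ⊆ E_n`, `m(⋂_n E_n(s,s')) ≥ 5/6 > 0` for `|s-s'| ≤ δ`. The set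
`Ω(s,s') = {z : ∃ γ, ∀ n, q n (interp s z) = γ • q n (interp s' z)}` contains it, is measurable and
invariant (`q n (interp s (gz)) = λ • q n (interp s z)`, `λ = lam g (interp s z)`, and similarly with
`λ'` for `s'`: `γ' = λ γ λ'⁻¹`), so conull by ergodicity. Chaining `s = 0, δ', 2δ', …, 1` (`γ`'s
multiply): `Ω(0,1)` is conull, so for a.e. `z` there is `γ` with
`q n (z.1) = γ • q n (z.2.1)` for all `n`. By independence of the first and second coordinates
(`S_prodBern` twice, or directly) and Fubini, there is `x0` such that for a.e. `x`: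
`∃ γ, ∀ n, q n x = γ • q n x0`. -/
def S_const : Prop :=
  ∀ (G : Type) [Group G] [Countable G] [Infinite G] (S : Finset G) (C : ℝ), HasTC G S C →
    ∀ (D : Type) (cj : G → D → D), (∀ d, cj 1 d = d) → (∀ g h d, cj (g * h) d = cj g (cj h d)) →
    ∀ (q : ℕ → (G → ℝ) → D) (lam : G → (G → ℝ) → G), (∀ n, (Set.range (q n)).Finite) →
      (∀ n d, MeasurableSet {x | q n x = d}) → (∀ g h, MeasurableSet {x | lam g x = h}) →
      (∀ n g x, q n (shift g x) = cj (lam g x) (q n x)) →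
      (∀ n x x', q (n + 1) x = q (n + 1) x' → q n x = q n x') →
      ∃ x0 : G → ℝ, ∀ᵐ x ∂(bern G nu0), ∃ γ : G, ∀ n, q n x = cj γ (q n x0)

/-- **Locally finite targets.** Proof (hypotheses `S_T1`, `S_mix`, `S_bernPMP`): `N` is a countable
locally finite group, so `N = ⋃ N_k`, an increasing union of finite subgroups (`closure` of the
first `k` elements in an enumeration). Let `η = 1/8`, choose `ε` with `4 C |S| ε ≤ η` and `k` with
`μ{lam g x ∉ N_k} ≤ ε` for all `g ∈ S`. Let `e : Y → ℝ` be a measurable embedding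
(`MeasureTheory.embeddingReal`), `r(y) = min_{h ∈ N_k} e(h • y)` (finite minimum, measurable,
`N_k`-invariant; `r y = r y'` implies `y' ∈ N_k y`). For `c ∈ ℝ` let `A_c = {x : r(f x) ≤ c}`. If
`lam g x ∈ N_k` then `r(f(gx)) = r(f x)`. So `μ(g⁻¹A_c ∆ A_c) ≤ ε` for `g ∈ S`, and `≤ η` for all `g`
by `S_T1`; by mixing `μ(A_c)(1 - μ(A_c)) ≤ η`, so `μ(A_c) ∈ [0,1/6] ∪ [5/6,1]`. The distribution
function `F(c) = μ(A_c)` is monotone, tends to `0` at `-∞` and `1` at `∞`. Let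
`c₀ = inf {c : F(c) ≥ 5/6}`; by right continuity `F(c₀) ≥ 5/6`, and `μ{r∘f < c₀} ≤ 1/6`, so
`μ{r∘f = c₀} ≥ 4/6 > 0`. The set `{y : r y = c₀}` is contained in one `N_k`-orbit, so is finite, hence
some `f⁻¹{y}` has positive measure. -/
def S_L1 : Prop :=
  ∀ (G : Type) [Group G] [Countable G] [Infinite G] (S : Finset G) (C : ℝ), HasTC G S C →
    ∀ (Y : Type) [MeasurableSpace Y] [StandardBorelSpace Y] [MulAction G Y],
      (∀ g : G, Measurable (fun y : Y => g • y)) →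
    ∀ (f : (G → ℝ) → Y) (lam : G → (G → ℝ) → G) (N : Subgroup G), Measurable f →
      (∀ g h, MeasurableSet {x | lam g x = h}) →
      (∀ A : Subgroup G, A.FG → A ≤ N → Finite A) →
      (∀ g ∈ S, ∀ᵐ x ∂(bern G nu0), f (shift g x) = lam g x • f x ∧ lam g x ∈ N) →
      ∃ y : Y, 0 < bern G nu0 (f ⁻¹' {y})

/-- **The property (T) seed.**

Proof: Let `π` be an orthogonal representation of `G` on a real Hilbert space `H`, `p = 67`.
`P_i = (1/p) Σ_{k<p} π(x_i)^k` is the orthogonal projection onto the `x_i`-fixed vectors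
(`x_i^p = 1`): `P_i` is self-adjoint, idempotent, `π(x_i) P_i = P_i`. `L_i = 1 - P_i`.
(a) Pair lemma: fix `i ≠ j`, `z = [x_i, x_j]` commutes with `x_i` and `x_j`
(`⁅⁅x_i,x_j⁆,x_j⁆ = 1` and, from `⁅⁅x_j,x_i⁆,x_i⁆ = 1` with `⁅x_j,x_i⁆ = z⁻¹`), and `z^p = 1`
(`x_j^l x_i x_j^{-l} = z^{∓l} x_i`; take `l = p`). Let `P_z` be the projection on the `z`-fixed vectors. For
`k ≢ 0 mod p`: `P_j x_i^k P_j = P_j x_j^l x_i^k P_j = z^{∓kl} P_j x_i^k x_j^l P_j = z^{∓kl} P_j x_i^k P_j` for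
all `l`; averaging over `l`: `= P_z P_j x_i^k P_j = P_z x_i^k P_j` (on `z`-fixed vectors `x_i`, `x_j`
commute, so `P_z P_j x_i^k P_j = P_z x_i^k P_j P_j`). Sum over `k`:
`P_j P_i P_j = P_z P_i P_j + (1/p)(1 - P_z) P_j`. Let `E = P_z P_i P_j` (projection on the vectors fixed by
`x_i` and `x_j`). So if `ζ` is orthogonal to the vectors fixed by both `x_i, x_j` (so `Eζ = 0`):
`‖P_i P_j ζ‖² = ⟨P_j P_i P_j ζ, ζ⟩ ≤ (1/p) ‖P_j ζ‖²`.
(b) hence `|⟨P_i ζ, P_j ζ⟩| = |⟨P_i ζ, P_i P_j ζ⟩| ≤ ε ‖P_i ζ‖ ‖P_j ζ‖`, `ε = 1/√p`, and with `N = P_i + P_j`,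
`‖Nζ‖² = ⟨P_iζ,ζ⟩ + ⟨P_jζ,ζ⟩ + 2⟨P_iζ,P_jζ⟩ ≤ (1+ε) ⟨Nζ,ζ⟩`.
(c) `T = L_i + L_j = 2 - N`: `T² - (1-ε) T = (2 - N)(1 + ε - N) = α (1+ε-N)² + β N (1+ε-N)`,
`α = 2/(1+ε)`, `β = (1-ε)/(1+ε)`, so `‖Tζ‖² ≥ (1-ε)⟨Tζ,ζ⟩` for such `ζ`, i.e.
`2⟨L_iζ, L_jζ⟩ ≥ -ε(‖L_iζ‖² + ‖L_jζ‖²)`; since `L_i, L_j` kill the vectors fixed by both, this holds for
all `ζ ∈ H` (subtract the projection `Eζ`).
(d) `Δ = Σ_i L_i`: `‖Δζ‖² = Σ ‖L_iζ‖² + Σ_{i<j} 2⟨L_iζ,L_jζ⟩ ≥ (1 - 8ε) Σ ‖L_iζ‖² = (1-8ε)⟨Δζ,ζ⟩`;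
`c := 1 - 8/√67 > 0`.
(e) `Δ` is symmetric, `≥ 0`. For `ζ = Δω`: generalized Cauchy–Schwarz for the form `⟨Δ·,·⟩`:
`‖ζ‖⁴ = ⟨Δω, ζ⟩² ≤ ⟨Δω,ω⟩⟨Δζ,ζ⟩ ≤ (1/c)‖ζ‖²⟨Δζ,ζ⟩`, so `‖ζ‖² ≤ (1/c)⟨Δζ,ζ⟩` on the range of `Δ`, and
by continuity on its closure `= (ker Δ)^⊥`.
(f) Given `ξ`, let `η` be its orthogonal projection onto `ker Δ`. `Δη = 0` gives `⟨L_iη,η⟩ = 0` for
all `i` so `P_iη = η`, `x_iη = η`, so `η` is invariant (`closure (range x) = ⊤`). `ζ = ξ - η`:
`‖ζ‖² ≤ (1/c)⟨Δζ,ζ⟩ = (1/c)⟨Δξ,ξ⟩ = (1/c) Σ ‖L_iξ‖²`, and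
`‖L_iξ‖ ≤ (1/p) Σ_k ‖π(x_i)^k ξ - ξ‖ ≤ p ‖π(x_i)ξ - ξ‖`. So `C = p²/c`, with `S = {x_i}` (each `s ∈ S`
counted up to 9 times: take `C = 9 p²/c`). -/
def S_seed : Prop :=
  ∀ (G : Type) [Group G] (x : Fin 9 → G), Subgroup.closure (Set.range x) = ⊤ →
    (∀ i, x i ^ 67 = 1) → (∀ i j, i ≠ j → ⁅⁅x i, x j⁆, x j⁆ = 1) →
    ∃ (S : Finset G) (C : ℝ), HasTC G S C

end Pool.Agent.H656.DC
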