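import Pool.Agent.H656.DC.GStmts

/-!
# Elimination: the subgroup of index `p` is weighted free
-/

set_option autoImplicit false

open scoped commutatorElement

namespace Pool.Agent.H656.DC.Elim

/-- coefficient of `y - 1` in `z_j - 1` -/
noncomputable def dd (p : ℕ) {F : Type} [Group F] (x y : F) : ℕ → GA p F
  | 0 => 1
  | j + 1 => (1 - el p (icomm x (j + 1) y) * el p x) * dd p x y j

/-- coefficient of `x - 1` in `z_j - 1` -/
noncomputable def ee (p : ℕ) {F : Type} [Group F] (x y : F) : ℕ → GA p F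
  | 0 => 0
  | j + 1 => (1 - el p (icomm x (j + 1) y) * el p x) * ee p x y j +
      (el p (icomm x j y) - el p (icomm x (j + 1) y))

variable {p : ℕ} {F : Type} [Group F]

theorem icomm_succ (x y : F) (j : ℕ) :
    icomm x (j + 1) y = icomm x j y * x * (icomm x j y)⁻¹ * x⁻¹ := rfl

theorem icomm_mem {M H : Subgroup F} (_hHM : H ≤ M) (hn : ∀ b ∈ M, ∀ h ∈ H, b * h * b⁻¹ ∈ H) {x y : F}
    (hx : x ∈ M) (hy : y ∈ H) (j : ℕ) : icomm x j y ∈ H := by
  induction j with
  | zero => exact hy
  | succ j ih =>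
    rw [icomm_succ]
    have h1 := hn x hx _ (H.inv_mem ih)
    have e : icomm x j y * x * (icomm x j y)⁻¹ * x⁻¹ = icomm x j y * (x * (icomm x j y)⁻¹ * x⁻¹) := by
      group
    rw [e]
    exact H.mul_mem ih h1

theorem el_zxz (x y : F) (j : ℕ) :
    el p (icomm x (j + 1) y) * el p x * el p (icomm x j y) = el p (icomm x j y) * el p x := by
  rw [← el_mul, ← el_mul, ← el_mul]
  congr 1
  rw [icomm_succ]
  group

theorem el_z (x y : F) (j : ℕ) : el p (icomm x j y) - 1 =
    dd p x y j * (el p y - 1) + ee p x y j * (el p x - 1) := by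
  induction j with
  | zero => simp [dd, ee, icomm]
  | succ j ih =>
    have h := el_zxz (p := p) x y j
    have e1 : el p (icomm x (j + 1) y) - 1 =
        (1 - el p (icomm x (j + 1) y) * el p x) * (el p (icomm x j y) - 1) +
          (el p (icomm x j y) - el p (icomm x (j + 1) y)) * (el p x - 1) := by
      have e2 : (1 - el p (icomm x (j + 1) y) * el p x) * (el p (icomm x j y) - 1) +
          (el p (icomm x j y) - el p (icomm x (j + 1) y)) * (el p x - 1) =
          el p (icomm x (j + 1) y) - 1 + (el p (icomm x j y) * el p x -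
            el p (icomm x (j + 1) y) * el p x * el p (icomm x j y)) := by
        noncomm_ring
      rw [e2, h, sub_self, add_zero]
    rw [e1, ih]
    simp only [dd, ee]
    noncomm_ring

/-- conjugation by an element which normalises `H` -/
theorem conj_KS {M H : Subgroup F} (hn : ∀ b ∈ M, ∀ h ∈ H, b * h * b⁻¹ ∈ H) {x : F} (hx : x ∈ M)
    {b : GA p F} (hb : b ∈ KS p H) : el p x * b * el p x⁻¹ ∈ KS p H := by
  refine KS_induction (P := fun b => el p x * b * el p x⁻¹ ∈ KS p H) (by simp) ?_ ?_ ?_ hb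
  · intro g hg
    rw [← el_mul, ← el_mul]
    exact el_mem_KS (hn x hx g hg)
  · intro a b _ _ ha hb
    rw [mul_add, add_mul]
    exact (KS p H).add_mem ha hb
  · intro c a _ ha
    rw [mul_smul_comm, smul_mul_assoc]
    exact (KS p H).smul_mem c ha

theorem dd_top {M H : Subgroup F} (hHM : H ≤ M) (hn : ∀ b ∈ M, ∀ h ∈ H, b * h * b⁻¹ ∈ H) {x y : F}
    (hx : x ∈ M) (hy : y ∈ H) (j : ℕ) : ∃ u ∈ H, ∃ b : ℕ → GA p F, (∀ k, b k ∈ KS p H) ∧
      b j = (-1) ^ j * el p u ∧
      dd p x y j = ∑ k ∈ Finset.range (j + 1), b k * (el p x - 1) ^ k := by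
  induction j with
  | zero =>
    refine ⟨1, H.one_mem, fun _ => 1, fun _ => one_mem_KS H, by simp, by simp [dd]⟩
  | succ j ih =>
    obtain ⟨u, hu, b, hb, hbj, hd⟩ := ih
    set h := icomm x (j + 1) y with hh
    have hhH : h ∈ H := icomm_mem hHM hn hx hy (j + 1)
    let s : ℕ → GA p F := fun k => el p h * (el p x * b k * el p x⁻¹)
    have hs : ∀ k, s k ∈ KS p H := fun k => KS_mul_mem (el_mem_KS hhH) (conj_KS hn hx (hb k))
    let b' : ℕ → GA p F := fun k => (if k < j + 1 then b k - s k else 0) +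
      (match k with
        | 0 => 0
        | k + 1 => - s k)
    refine ⟨h * (x * u * x⁻¹), H.mul_mem hhH (hn x hx u hu), b', ?_, ?_, ?_⟩
    · intro k
      refine (KS p H).add_mem ?_ ?_
      · split_ifs
        · exact (KS p H).sub_mem (hb k) (hs k)
        · exact (KS p H).zero_mem
      · cases k with
        | zero => exact (KS p H).zero_mem
        | succ k => exact (KS p H).neg_mem (hs k)
    · have e1 : b' (j + 1) = - s j := by
        simp [b']
      rw [e1]
      simp only [s]
      rw [hbj, el_mul, el_mul, el_mul]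
      have hc : ∀ a : GA p F, a * (-1) ^ j = (-1) ^ j * a := fun a =>
        ((Commute.neg_one_left a).pow_left j).eq.symm
      rw [pow_succ]
      have e2 : el p x * ((-1) ^ j * el p u) * el p x⁻¹ = (-1) ^ j * (el p x * el p u * el p x⁻¹) := by
        rw [← mul_assoc (el p x), hc (el p x)]
        simp only [mul_assoc]
      rw [e2, ← mul_assoc (el p h), hc (el p h)]
      simp only [mul_assoc, mul_neg, mul_one, neg_mul]
    · have e3 : ∀ k, (1 - el p h * el p x) * (b k * (el p x - 1) ^ k) =
          (b k - s k) * (el p x - 1) ^ k + (- s k) * (el p x - 1) ^ (k + 1) := by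
        intro k
        have e4 : s k * el p x = el p h * el p x * b k := by
          simp only [s]
          rw [mul_assoc, mul_assoc (el p x * b k), el_inv_mul, mul_one, mul_assoc]
        have e5 : (- s k) * (el p x - 1) ^ (k + 1) = - (s k * el p x) * (el p x - 1) ^ k +
            s k * (el p x - 1) ^ k := by
          rw [pow_succ']
          noncomm_ring
        rw [e5, e4]
        noncomm_ring
      show (1 - el p h * el p x) * dd p x y j = _
      rw [hd, Finset.mul_sum, Finset.sum_congr rfl (fun k _ => e3 k), Finset.sum_add_distrib]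
      have e6 : ∀ k, b' k * (el p x - 1) ^ k = (if k < j + 1 then b k - s k else 0) * (el p x - 1) ^ k +
          (match k with
            | 0 => 0
            | k + 1 => - s k) * (el p x - 1) ^ k := fun k => add_mul _ _ _
      rw [Finset.sum_congr rfl (fun k _ => e6 k), Finset.sum_add_distrib]
      congr 1
      · rw [Finset.sum_range_succ _ (j + 1), if_neg (lt_irrefl _), zero_mul, add_zero]
        refine Finset.sum_congr rfl (fun k hk => ?_)
        rw [if_pos (Finset.mem_range.mp hk)]
      · rw [Finset.sum_range_succ' _ (j + 1)]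
        simp

theorem sum_top {M H : Subgroup F} (hHM : H ≤ M) (hn : ∀ b ∈ M, ∀ h ∈ H, b * h * b⁻¹ ∈ H) {x y : F}
    (hx : x ∈ M) (hy : y ∈ H) (a : ℕ → GA p F) (ha : ∀ j, a j ∈ KS p H) (m : ℕ) :
    ∃ C : ℕ → GA p F, (∀ k, C k ∈ KS p H) ∧
      ∑ j ∈ Finset.range (m + 1), a j * dd p x y j = ∑ k ∈ Finset.range (m + 1), C k * (el p x - 1) ^ k ∧
      ∃ u ∈ H, C m = a m * ((-1) ^ m * el p u) := by
  have key : ∀ m, ∃ C : ℕ → GA p F, (∀ k, C k ∈ KS p H) ∧
      ∑ j ∈ Finset.range m, a j * dd p x y j = ∑ k ∈ Finset.range m, C k * (el p x - 1) ^ k := by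
    intro m
    induction m with
    | zero => exact ⟨fun _ => 0, fun _ => (KS p H).zero_mem, by simp⟩
    | succ m ih =>
      obtain ⟨C, hC, hC2⟩ := ih
      obtain ⟨u, hu, b, hb, hbm, hd⟩ := dd_top (p := p) hHM hn hx hy m
      refine ⟨fun k => (if k < m then C k else 0) + a m * b k, fun k => (KS p H).add_mem ?_
        (KS_mul_mem (ha m) (hb k)), ?_⟩
      · split_ifs
        · exact hC k
        · exact (KS p H).zero_mem
      · rw [Finset.sum_range_succ, hC2, hd, Finset.mul_sum]
        simp only [add_mul, Finset.sum_add_distrib]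
        congr 1
        · rw [Finset.sum_range_succ _ m, if_neg (lt_irrefl _), zero_mul, add_zero]
          refine Finset.sum_congr rfl (fun k hk => ?_)
          rw [if_pos (Finset.mem_range.mp hk)]
        · refine Finset.sum_congr rfl (fun k _ => ?_)
          rw [mul_assoc]
  obtain ⟨C, hC, hC2⟩ := key m
  obtain ⟨u, hu, b, hb, hbm, hd⟩ := dd_top (p := p) hHM hn hx hy m
  refine ⟨fun k => (if k < m then C k else 0) + a m * b k, fun k => (KS p H).add_mem ?_
    (KS_mul_mem (ha m) (hb k)), ?_, u, hu, ?_⟩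
  · split_ifs
    · exact hC k
    · exact (KS p H).zero_mem
  · rw [Finset.sum_range_succ, hC2, hd, Finset.mul_sum]
    simp only [add_mul, Finset.sum_add_distrib]
    congr 1
    · rw [Finset.sum_range_succ _ m, if_neg (lt_irrefl _), zero_mul, add_zero]
      refine Finset.sum_congr rfl (fun k hk => ?_)
      rw [if_pos (Finset.mem_range.mp hk)]
    · refine Finset.sum_congr rfl (fun k _ => ?_)
      rw [mul_assoc]
  · simp [hbm]

/-! ### Degrees -/

section deg

variable {M : Subgroup F} {ι : Type} [Fintype ι] {y : ι → F} {n : ι → ℕ}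
  {J : ℕ → Submodule (ZMod p) (GA p F)}

theorem z_deg (hW : WFS p M y n J) {x v : F} {n₀ nv : ℕ} (hxM : x ∈ M) (hvM : v ∈ M)
    (hx : el p x - 1 ∈ J n₀) (hv : el p v - 1 ∈ J nv) (j : ℕ) :
    icomm x j v ∈ M ∧ el p (icomm x j v) - 1 ∈ J (nv + j * n₀) := by
  induction j with
  | zero =>
    refine ⟨hvM, ?_⟩
    rw [Nat.zero_mul, Nat.add_zero]
    exact hv
  | succ j ih =>
    obtain ⟨h1, h2⟩ := ih
    set z := icomm x j v with hz
    refine ⟨M.mul_mem (M.mul_mem (M.mul_mem h1 hxM) (M.inv_mem h1)) (M.inv_mem hxM), ?_⟩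
    have e : el p (icomm x (j + 1) v) - 1 =
        ((el p z - 1) * (el p x - 1) - (el p x - 1) * (el p z - 1)) * (el p z⁻¹ * el p x⁻¹) := by
      have e1 : ((el p z - 1) * (el p x - 1) - (el p x - 1) * (el p z - 1)) =
          el p z * el p x - el p x * el p z := by noncomm_ring
      have e2 : el p x * el p z * (el p z⁻¹ * el p x⁻¹) = 1 := by
        rw [← el_mul, ← el_mul, ← el_mul]
        have : x * z * (z⁻¹ * x⁻¹) = 1 := by group
        rw [this, el_one]
      rw [e1, sub_mul, e2, icomm_succ, el_mul, el_mul, el_mul]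
      simp only [mul_assoc]
      rfl
    rw [e]
    refine hW.right_mul ?_ (KS_mul_mem (el_mem_KS (M.inv_mem h1)) (el_mem_KS (M.inv_mem hxM)))
    have e3 : nv + (j + 1) * n₀ = (nv + j * n₀) + n₀ := by ring
    have e4 : nv + (j + 1) * n₀ = n₀ + (nv + j * n₀) := by ring
    refine (J _).sub_mem ?_ ?_
    · rw [e3]; exact hW.mul _ _ _ _ h2 hx
    · rw [e4]; exact hW.mul _ _ _ _ hx h2

theorem c_deg (hW : WFS p M y n J) {x v : F} {n₀ : ℕ} (_hxM : x ∈ M) (_hvM : v ∈ M)
    (hx : el p x - 1 ∈ J n₀) (hzM : ∀ j, icomm x j v ∈ M) (j : ℕ) :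
    1 - el p (icomm x (j + 1) v) * el p x ∈ J n₀ := by
  set z := icomm x j v with hz
  have e : 1 - el p (icomm x (j + 1) v) * el p x = -(el p z * (el p x - 1) * el p z⁻¹) := by
    have e1 : el p (icomm x (j + 1) v) * el p x = el p z * el p x * el p z⁻¹ := by
      rw [← el_mul, ← el_mul, ← el_mul]
      congr 1
      rw [icomm_succ]
      group
      rfl
    rw [e1, mul_sub, sub_mul, mul_one, el_mul_inv]
    abel
  rw [e]
  exact (J _).neg_mem (hW.right_mul (hW.left_mul (el_mem_KS (hzM j)) hx) (el_mem_KS (M.inv_mem (hzM j))))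

theorem dd_deg (hW : WFS p M y n J) {x v : F} {n₀ : ℕ} (hxM : x ∈ M) (hvM : v ∈ M)
    (hx : el p x - 1 ∈ J n₀) (hzM : ∀ j, icomm x j v ∈ M) (j : ℕ) : dd p x v j ∈ J (j * n₀) := by
  induction j with
  | zero =>
    rw [Nat.zero_mul, hW.zero]
    exact one_mem_KS M
  | succ j ih =>
    have e : (j + 1) * n₀ = n₀ + j * n₀ := by ring
    rw [e]
    exact hW.mul _ _ _ _ (c_deg hW hxM hvM hx hzM j) ih

theorem ee_mem {x v : F} (hxM : x ∈ M) (hzM : ∀ j, icomm x j v ∈ M) (j : ℕ) :
    ee p x v j ∈ KS p M := by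
  induction j with
  | zero => exact (KS p M).zero_mem
  | succ j ih =>
    refine (KS p M).add_mem (KS_mul_mem ((KS p M).sub_mem (one_mem_KS M)
      (KS_mul_mem (el_mem_KS (hzM (j + 1))) (el_mem_KS hxM))) ih) ?_
    exact (KS p M).sub_mem (el_mem_KS (hzM j)) (el_mem_KS (hzM (j + 1)))

end deg

/-! ### The coefficients -/

section coef

variable {M H : Subgroup F} {ι : Type} [Fintype ι] {y : ι → F} {n : ι → ℕ}
  {J : ℕ → Submodule (ZMod p) (GA p F)}

theorem unit_zero {a : GA p F} {m : ℕ} {u : F} (h : a * ((-1) ^ m * el p u) = 0) : a = 0 := by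
  have e : a = a * ((-1) ^ m * el p u) * (el p u⁻¹ * (-1) ^ m) := by
    have e1 : ((-1) ^ m * el p u) * (el p u⁻¹ * (-1) ^ m) = (1 : GA p F) := by
      rw [mul_assoc, ← mul_assoc (el p u), el_mul_inv, one_mul, ← pow_add, ← two_mul, pow_mul]
      simp
    rw [mul_assoc, e1, mul_one]
  rw [e, h, zero_mul]

theorem unit_mem (hW : WFS p M y n J) {a : GA p F} {m k : ℕ} {u : F} (hu : u ∈ M)
    (h : a * ((-1) ^ m * el p u) ∈ J k) : a ∈ J k := by
  have e : a = a * ((-1) ^ m * el p u) * (el p u⁻¹ * (-1) ^ m) := by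
    have e1 : ((-1) ^ m * el p u) * (el p u⁻¹ * (-1) ^ m) = (1 : GA p F) := by
      rw [mul_assoc, ← mul_assoc (el p u), el_mul_inv, one_mul, ← pow_add, ← two_mul, pow_mul]
      simp
    rw [mul_assoc, e1, mul_one]
  rw [e]
  refine hW.right_mul h (KS_mul_mem (el_mem_KS (M.inv_mem hu)) ?_)
  rcases Nat.even_or_odd m with hm | hm
  · rw [hm.neg_one_pow]; exact one_mem_KS M
  · rw [hm.neg_one_pow]; exact (KS p M).neg_mem (one_mem_KS M)

theorem zero_of_sum [Fact p.Prime] (hHM : H ≤ M) (hn : ∀ b ∈ M, ∀ h ∈ H, b * h * b⁻¹ ∈ H) {x v : F}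
    (hx : x ∈ M) (hv : v ∈ H)
    (ho : ∀ b : ℕ → GA p F, (∀ k, b k ∈ KS p H) →
        ∑ k ∈ Finset.range p, b k * (el p x - 1) ^ k = 0 → ∀ k < p, b k = 0)
    (a : ℕ → GA p F) (ha : ∀ j, a j ∈ KS p H) : ∀ m ≤ p,
      ∑ j ∈ Finset.range m, a j * dd p x v j = 0 → ∀ j < m, a j = 0 := by
  intro m
  induction m with
  | zero => intro _ _ j hj; omega
  | succ m ih =>
    intro hm h0
    obtain ⟨C, hC, hC2, u, hu, hCm⟩ := sum_top (p := p) hHM hn hx hv a ha m
    have h1 := ho (fun k => if k < m + 1 then C k else 0) (fun k => by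
      show (if k < m + 1 then C k else 0) ∈ KS p H
      split_ifs
      · exact hC k
      · exact (KS p H).zero_mem) (by
      rw [← Finset.sum_subset (Finset.range_subset_range.mpr hm)
        (fun k _ hk => by
          rw [Finset.mem_range] at hk
          rw [if_neg hk, zero_mul])]
      rw [← h0, hC2]
      refine Finset.sum_congr rfl (fun k hk => ?_)
      rw [if_pos (Finset.mem_range.mp hk)]) m (by omega)
    rw [if_pos (Nat.lt_succ_self m), hCm] at h1
    have h2 : a m = 0 := unit_zero h1
    rw [Finset.sum_range_succ, h2, zero_mul, add_zero] at h0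
    intro j hj
    rcases Nat.lt_succ_iff_lt_or_eq.mp hj with h3 | h3
    · exact ih (by omega) h0 j h3
    · rw [h3]; exact h2

theorem mem_of_sum [Fact p.Prime] (hW : WFS p M y n J) (hHM : H ≤ M)
    (hn : ∀ b ∈ M, ∀ h ∈ H, b * h * b⁻¹ ∈ H) {x v : F}
    (hx : x ∈ M) (hv : v ∈ H) {n₀ k' : ℕ} (hx1 : el p x - 1 ∈ J n₀)
    (ho : ∀ (b : ℕ → GA p F) (m : ℕ), (∀ k, b k ∈ KS p H) →
        ∑ k ∈ Finset.range p, b k * (el p x - 1) ^ k ∈ J m →
        ∀ k < p, b k ∈ J (m - k * n₀))
    (a : ℕ → GA p F) (ha : ∀ j, a j ∈ KS p H) : ∀ m ≤ p,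
      ∑ j ∈ Finset.range m, a j * dd p x v j ∈ J k' → ∀ j < m, a j ∈ J (k' - j * n₀) := by
  intro m
  induction m with
  | zero => intro _ _ j hj; omega
  | succ m ih =>
    intro hm h0
    obtain ⟨C, hC, hC2, u, hu, hCm⟩ := sum_top (p := p) hHM hn hx hv a ha m
    have h1 := ho (fun k => if k < m + 1 then C k else 0) k' (fun k => by
      show (if k < m + 1 then C k else 0) ∈ KS p H
      split_ifs
      · exact hC k
      · exact (KS p H).zero_mem) (by
      rw [← Finset.sum_subset (Finset.range_subset_range.mpr hm)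
        (fun k _ hk => by
          rw [Finset.mem_range] at hk
          rw [if_neg hk, zero_mul])]
      have e : ∑ k ∈ Finset.range (m + 1), (if k < m + 1 then C k else 0) * (el p x - 1) ^ k =
          ∑ j ∈ Finset.range (m + 1), a j * dd p x v j := by
        rw [hC2]
        refine Finset.sum_congr rfl (fun k hk => ?_)
        rw [if_pos (Finset.mem_range.mp hk)]
      rw [e]
      exact h0) m (by omega)
    rw [if_pos (Nat.lt_succ_self m), hCm] at h1
    have h2 : a m ∈ J (k' - m * n₀) := unit_mem hW (hHM hu) h1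
    have hzM : ∀ j, icomm x j v ∈ M := fun j => hHM (icomm_mem hHM hn hx hv j)
    have h3 : a m * dd p x v m ∈ J k' := by
      have h4 := hW.mul _ _ _ _ h2 (dd_deg hW hx (hHM hv) hx1 hzM m)
      exact hW.anti (by omega) h4
    have h5 : ∑ j ∈ Finset.range m, a j * dd p x v j ∈ J k' := by
      have h6 := (J k').sub_mem h0 h3
      rw [Finset.sum_range_succ, add_sub_cancel_right] at h6
      exact h6
    intro j hj
    rcases Nat.lt_succ_iff_lt_or_eq.mp hj with h7 | h7
    · exact ih (by omega) h5 j h7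
    · rw [h7]; exact h2

end coef

theorem pow_p [hp : Fact p.Prime] (x : F) : el p (x ^ p) - 1 = (el p x - 1) ^ p := by
  have e1 : el p (x ^ p) = (el p x) ^ p := by
    unfold el
    exact map_pow _ x p
  have : CharP (GA p F) p := by
    refine charP_of_injective_algebraMap (R := ZMod p) ?_ p
    exact (algebraMap (ZMod p) (GA p F)).injective
  rw [e1, sub_pow_char_of_commute p (Commute.one_right (el p x)), one_pow]

theorem main (ho : S_orth) (hg : S_gen) : S_elim := by
  classical
  intro p hp F _ M H ι _ _ y n J hW i0 hHM hn hidx hy0 hyH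
  set x := y i0 with hxdef
  set n₀ := n i0 with hn0
  obtain ⟨ho1, ho2, -⟩ := ho p F M H ι y n J hW i0 hHM hn hidx hy0 hyH
  have hxM : x ∈ M := hW.memM i0
  have hx1 : el p x - 1 ∈ J n₀ := hW.geny i0
  -- generators
  have hgen : Subgroup.closure (Set.range (elimY p y i0)) = H := by
    have h1 := hg p F M H x {g | ∃ i, i ≠ i0 ∧ g = y i} ?_ hHM hn hidx hy0 ?_
    · rw [← h1]
      congr 1
      ext g
      constructor
      · rintro ⟨o, rfl⟩
        cases o with
        | none => exact Or.inl rfl
        | some q =>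
          right
          exact ⟨y q.1, ⟨q.1, q.1.2, rfl⟩, q.2, q.2.2, rfl⟩
      · rintro (rfl | ⟨v, ⟨i, hi, rfl⟩, j, hj, rfl⟩)
        · exact ⟨none, rfl⟩
        · exact ⟨some (⟨i, hi⟩, ⟨j, hj⟩), rfl⟩
    · rw [← hW.gen]
      congr 1
      ext g
      constructor
      · rintro (rfl | ⟨i, _, rfl⟩)
        · exact ⟨i0, rfl⟩
        · exact ⟨i, rfl⟩
      · rintro ⟨i, rfl⟩
        by_cases hi : i = i0
        · left; rw [hi]
        · right; exact ⟨i, hi, rfl⟩
    · rintro g ⟨i, hi, rfl⟩
      exact hyH i hi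
  have hmemH : ∀ o, elimY p y i0 o ∈ H := fun o => hgen ▸ Subgroup.subset_closure ⟨o, rfl⟩
  have hzH : ∀ i, i ≠ i0 → ∀ j, icomm x j (y i) ∈ H := fun i hi j =>
    icomm_mem hHM hn hxM (hyH i hi) j
  have hzM : ∀ i, i ≠ i0 → ∀ j, icomm x j (y i) ∈ M := fun i hi j => hHM (hzH i hi j)
  have hzdeg : ∀ i, i ≠ i0 → ∀ j, el p (icomm x j (y i)) - 1 ∈ J (n i + j * n₀) := fun i hi j =>
    (z_deg hW hxM (hW.memM i) hx1 (hW.geny i) j).2
  -- the coefficients of an element in the basis of `M`
  have hexp : ∀ a : Option ({i : ι // i ≠ i0} × Fin p) → GA p F,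
      ∃ A : ι → GA p F, (∀ i (hi : i ≠ i0), A i = ∑ j : Fin p, a (some (⟨i, hi⟩, j)) * dd p x (y i) j) ∧
        A i0 = a none * (el p x - 1) ^ (p - 1) +
          ∑ i : {i : ι // i ≠ i0}, ∑ j : Fin p, a (some (i, j)) * ee p x (y i) j ∧
        ∑ o, a o * (el p (elimY p y i0 o) - 1) = ∑ i, A i * (el p (y i) - 1) := by
    intro a
    refine ⟨fun i => if hi : i = i0 then a none * (el p x - 1) ^ (p - 1) +
          ∑ i : {i : ι // i ≠ i0}, ∑ j : Fin p, a (some (i, j)) * ee p x (y i) j
        else ∑ j : Fin p, a (some (⟨i, hi⟩, j)) * dd p x (y i) j, ?_, ?_, ?_⟩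
    · intro i hi
      exact dif_neg hi
    · exact dif_pos rfl
    · rw [Fintype.sum_option, Fintype.sum_prod_type,
        Fintype.sum_eq_add_sum_subtype_ne (fun i => (if hi : i = i0 then a none * (el p x - 1) ^ (p - 1) +
          ∑ i : {i : ι // i ≠ i0}, ∑ j : Fin p, a (some (i, j)) * ee p x (y i) j
        else ∑ j : Fin p, a (some (⟨i, hi⟩, j)) * dd p x (y i) j) * (el p (y i) - 1)) i0]
      rw [dif_pos rfl]
      have e1 : ∀ i : {i : ι // i ≠ i0}, ∑ j : Fin p, a (some (i, j)) * (el p (elimY p y i0 (some (i, j))) - 1) =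
          (∑ j : Fin p, a (some (i, j)) * dd p x (y i) j) * (el p (y i) - 1) +
          (∑ j : Fin p, a (some (i, j)) * ee p x (y i) j) * (el p x - 1) := by
        intro i
        rw [Finset.sum_mul, Finset.sum_mul, ← Finset.sum_add_distrib]
        refine Finset.sum_congr rfl (fun j _ => ?_)
        have e2 : el p (elimY p y i0 (some (i, j))) - 1 =
            dd p x (y i) j * (el p (y i) - 1) + ee p x (y i) j * (el p x - 1) := el_z x (y i) j
        rw [e2]
        noncomm_ring
      have e3 : a none * (el p (elimY p y i0 none) - 1) =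
          a none * (el p x - 1) ^ (p - 1) * (el p x - 1) := by
        have e4 : el p (elimY p y i0 none) - 1 = (el p x - 1) ^ p := pow_p x
        have e5 : (el p x - 1) ^ p = (el p x - 1) ^ (p - 1) * (el p x - 1) := by
          rw [← pow_succ]
          congr 1
          have := hp.out.pos
          omega
        rw [e4, e5, mul_assoc]
      rw [e3, Finset.sum_congr rfl (fun i _ => e1 i), Finset.sum_add_distrib, ← Finset.sum_mul, add_mul]
      have e6 : ∀ i : {i : ι // i ≠ i0}, (if hi : (i : ι) = i0 then a none * (el p x - 1) ^ (p - 1) +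
          ∑ i : {i : ι // i ≠ i0}, ∑ j : Fin p, a (some (i, j)) * ee p x (y i) j
        else ∑ j : Fin p, a (some (⟨i, hi⟩, j)) * dd p x (y i) j) * (el p (y i) - 1) =
        (∑ j : Fin p, a (some (i, j)) * dd p x (y i) j) * (el p (y i) - 1) := by
        intro i
        rw [dif_neg i.2]
      rw [Finset.sum_congr rfl (fun i _ => e6 i)]
      abel
  have hAKS : ∀ (a : Option ({i : ι // i ≠ i0} × Fin p) → GA p F), (∀ o, a o ∈ KS p H) →
      ∀ A : ι → GA p F, (∀ i (hi : i ≠ i0), A i = ∑ j : Fin p, a (some (⟨i, hi⟩, j)) * dd p x (y i) j) →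
        A i0 = a none * (el p x - 1) ^ (p - 1) +
          ∑ i : {i : ι // i ≠ i0}, ∑ j : Fin p, a (some (i, j)) * ee p x (y i) j →
        ∀ i, A i ∈ KS p M := by
    intro a ha A hA1 hA2 i
    by_cases hi : i = i0
    · rw [hi, hA2]
      refine (KS p M).add_mem (KS_mul_mem (KS_mono hHM (ha _)) ?_) ?_
      · have h0 : (el p x - 1) ^ (p - 1) ∈ J 0 := by
          have key : ∀ k : ℕ, (el p x - 1) ^ k ∈ KS p M := by
            intro k
            induction k with
            | zero => simpa using one_mem_KS M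
            | succ k ih =>
              rw [pow_succ]
              exact KS_mul_mem ih (el_sub_one_mem_KS hxM)
          rw [hW.zero]
          exact key _
        rw [hW.zero] at h0
        exact h0
      · refine Submodule.sum_mem _ (fun i _ => Submodule.sum_mem _ (fun j _ => ?_))
        exact KS_mul_mem (KS_mono hHM (ha _)) (ee_mem hxM (hzM i i.2) j)
    · rw [hA1 i hi]
      refine Submodule.sum_mem _ (fun j _ => ?_)
      refine KS_mul_mem (KS_mono hHM (ha _)) ?_
      exact hW.le_KS _ (dd_deg hW hxM (hW.memM i) hx1 (hzM i hi) j)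
  -- sums over `Fin p` and over `range p`
  have hfin : ∀ (f : Fin p → GA p F) (g : ℕ → GA p F), ∑ j : Fin p, f j * g j =
      ∑ j ∈ Finset.range p, (if hj : j < p then f ⟨j, hj⟩ else 0) * g j := by
    intro f g
    rw [Finset.sum_range]
    refine Finset.sum_congr rfl (fun j _ => ?_)
    rw [dif_pos j.2]
  have hp1 : p - 1 < p := by have := hp.out.pos; omega
  have hsingle : ∀ c : GA p F, ∑ k ∈ Finset.range p, (if k = p - 1 then c else 0) * (el p x - 1) ^ k =
      c * (el p x - 1) ^ (p - 1) := by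
    intro c
    rw [Finset.sum_eq_single (p - 1)]
    · rw [if_pos rfl]
    · intro k _ hk
      rw [if_neg hk, zero_mul]
    · intro h
      exact absurd (Finset.mem_range.mpr hp1) h
  have hif : ∀ c : GA p F, c ∈ KS p H → ∀ k, (if k = p - 1 then c else 0) ∈ KS p H := by
    intro c hc k
    split_ifs
    · exact hc
    · exact (KS p H).zero_mem
  refine
    { pos := ?_, gen := hgen, indep := ?_, zero := ?_, anti := ?_, mul := ?_, aug1 := ?_, geny := ?_,
      split := ?_ }
  · -- pos
    intro o
    have h1 := hW.pos i0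
    have h2 := hp.out.pos
    cases o with
    | none => exact Nat.mul_pos h2 h1
    | some q =>
      have h3 := hW.pos q.1
      show 1 ≤ n q.1 + q.2 * n i0
      omega
  · -- indep
    intro a ha h0
    obtain ⟨A, hA1, hA2, hA3⟩ := hexp a
    rw [hA3] at h0
    have hA0 := hW.indep A (hAKS a ha A hA1 hA2) h0
    have hsome : ∀ (i : {i : ι // i ≠ i0}) (j : Fin p), a (some (i, j)) = 0 := by
      intro i j
      have h1 := hA0 i
      rw [hA1 i i.2, hfin (fun j => a (some (⟨i, i.2⟩, j))) (dd p x (y i))] at h1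
      have h2 := zero_of_sum hHM hn hxM (hyH i i.2) ho2
        (fun j => if hj : j < p then a (some (⟨i, i.2⟩, ⟨j, hj⟩)) else 0) (fun j => by
          show (if hj : j < p then a (some (⟨i, i.2⟩, ⟨j, hj⟩)) else 0) ∈ KS p H
          split_ifs
          · exact ha _
          · exact (KS p H).zero_mem) p le_rfl h1 j j.2
      rw [dif_pos j.2] at h2
      exact h2
    have hnone : a none = 0 := by
      have h1 := hA0 i0
      rw [hA2, Finset.sum_eq_zero (fun i _ => Finset.sum_eq_zero (fun j _ => by
        rw [hsome i j, zero_mul])), add_zero, ← hsingle] at h1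
      have h2 := ho2 _ (hif _ (ha none)) h1 (p - 1) hp1
      rw [if_pos rfl] at h2
      exact h2
    intro o
    cases o with
    | none => exact hnone
    | some q => exact hsome q.1 q.2
  · -- zero
    show J 0 ⊓ KS p H = KS p H
    rw [hW.zero]
    exact inf_eq_right.mpr (KS_mono hHM)
  · -- anti
    intro k l hkl
    exact inf_le_inf_right _ (hW.anti hkl)
  · -- mul
    rintro k l a b ⟨ha1, ha2⟩ ⟨hb1, hb2⟩
    exact ⟨hW.mul k l a b ha1 hb1, KS_mul_mem ha2 hb2⟩
  · -- aug1
    rintro a ⟨ha, -⟩
    exact hW.aug1 a ha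
  · -- geny
    intro o
    refine ⟨?_, el_sub_one_mem_KS (hmemH o)⟩
    cases o with
    | none =>
      have e4 : el p (elimY p y i0 none) - 1 = (el p x - 1) ^ p := pow_p x
      rw [e4]
      have key : ∀ k : ℕ, (el p x - 1) ^ k ∈ J (k * n₀) := by
        intro k
        induction k with
        | zero =>
          rw [pow_zero, Nat.zero_mul, hW.zero]
          exact one_mem_KS M
        | succ k ih =>
          have e : (k + 1) * n₀ = k * n₀ + n₀ := by ring
          rw [pow_succ, e]
          exact hW.mul _ _ _ _ ih hx1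
      exact key p
    | some q => exact hzdeg q.1 q.1.2 q.2
  · -- split
    intro m a ha hm
    obtain ⟨A, hA1, hA2, hA3⟩ := hexp a
    rw [hA3] at hm
    have hAm := hW.split m A (hAKS a ha A hA1 hA2) hm.1
    have hsome : ∀ (i : {i : ι // i ≠ i0}) (j : Fin p), a (some (i, j)) ∈ J (m - n i - j * n₀) := by
      intro i j
      have h1 := hAm i
      rw [hA1 i i.2, hfin (fun j => a (some (⟨i, i.2⟩, j))) (dd p x (y i))] at h1
      have h2 := mem_of_sum hW hHM hn hxM (hyH i i.2) hx1 ho1
        (fun j => if hj : j < p then a (some (⟨i, i.2⟩, ⟨j, hj⟩)) else 0) (fun j => by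
          show (if hj : j < p then a (some (⟨i, i.2⟩, ⟨j, hj⟩)) else 0) ∈ KS p H
          split_ifs
          · exact ha _
          · exact (KS p H).zero_mem) p le_rfl h1 j j.2
      rw [dif_pos j.2] at h2
      exact h2
    have hee : ∀ (i : {i : ι // i ≠ i0}) (j : ℕ), ee p x (y i) j ∈ J (n i + j * n₀ - n₀) := by
      intro i j
      have h1 := hzdeg i i.2 j
      rw [el_z] at h1
      let A' : ι → GA p F := fun k => if k = i0 then ee p x (y i) j else
        if k = i then dd p x (y i) j else 0
      have hA' : ∑ k, A' k * (el p (y k) - 1) = dd p x (y i) j * (el p (y i) - 1) +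
          ee p x (y i) j * (el p x - 1) := by
        have e1 : ∀ k, A' k * (el p (y k) - 1) =
            (if k = i0 then ee p x (y i) j * (el p (y k) - 1) else 0) +
            (if k = i then dd p x (y i) j * (el p (y k) - 1) else 0) := by
          intro k
          simp only [A']
          by_cases h1 : k = i0
          · rw [if_pos h1, if_pos h1, if_neg (fun h2 => i.2 (h2.symm.trans h1)), add_zero]
          · rw [if_neg h1, if_neg h1, zero_add]
            split_ifs
            · rfl
            · rw [zero_mul]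
        rw [Finset.sum_congr rfl (fun k _ => e1 k), Finset.sum_add_distrib, Finset.sum_ite_eq',
          Finset.sum_ite_eq', if_pos (Finset.mem_univ _), if_pos (Finset.mem_univ _), add_comm]
      rw [← hA'] at h1
      have h2 := hW.split _ A' (fun k => by
        simp only [A']
        split_ifs
        · exact ee_mem hxM (hzM i i.2) j
        · exact hW.le_KS _ (dd_deg hW hxM (hW.memM i) hx1 (hzM i i.2) j)
        · exact (KS p M).zero_mem) h1 i0
      simp only [A', if_pos] at h2
      exact h2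
    have hnone : a none ∈ J (m - p * n₀) := by
      have h1 := hAm i0
      rw [hA2] at h1
      have h2 : ∑ i : {i : ι // i ≠ i0}, ∑ j : Fin p, a (some (i, j)) * ee p x (y i) j ∈ J (m - n₀) := by
        refine Submodule.sum_mem _ (fun i _ => Submodule.sum_mem _ (fun j _ => ?_))
        obtain ⟨j, hj⟩ := j
        cases j with
        | zero =>
          show a (some (i, ⟨0, hj⟩)) * (0 : GA p F) ∈ _
          rw [mul_zero]
          exact (J _).zero_mem
        | succ j =>
          have h3 := hW.mul _ _ _ _ (hsome i ⟨j + 1, hj⟩) (hee i (j + 1))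
          refine hW.anti ?_ h3
          have e : (j + 1) * n₀ = j * n₀ + n₀ := by ring
          show m - n₀ ≤ m - n i - (j + 1) * n₀ + (n i + (j + 1) * n₀ - n₀)
          rw [e]
          omega
      have h3 : a none * (el p x - 1) ^ (p - 1) ∈ J (m - n₀) := by
        have h4 := (J _).sub_mem h1 h2
        rw [add_sub_cancel_right] at h4
        exact h4
      rw [← hsingle] at h3
      have h4 := ho1 _ _ (hif _ (ha none)) h3 (p - 1) hp1
      rw [if_pos rfl] at h4
      have e : m - p * n₀ = m - n₀ - (p - 1) * n₀ := by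
        obtain ⟨q, hq⟩ : ∃ q, p = q + 1 := ⟨p - 1, by have := hp.out.pos; omega⟩
        rw [hq, Nat.add_sub_cancel]
        have : (q + 1) * n₀ = q * n₀ + n₀ := by ring
        rw [this]
        omega
      rw [e]
      exact h4
    intro o
    refine ⟨?_, ha o⟩
    cases o with
    | none => exact hnone
    | some q =>
      have h1 := hsome q.1 q.2
      rw [Nat.sub_sub] at h1
      exact h1

end Pool.Agent.H656.DC.Elim
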