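import Pool.Agent.H656.DC.GDefs

/-!
# Statements (with proofs on paper) of the Golod–Shafarevich part for S14648

Each `S_x : Prop` below is to be proved as `theorem x : S_x`.  Notation of the paper proofs:
`K = 𝔽_p`, `K[M] = KS p M`, `y - 1` means `el p y - 1`, `ε = aug p`, `σ = Σ t^(n i)`,
`κ(v) = 1+v+…+v^{p-1} = kap p v`.
-/

set_option autoImplicit false

open scoped commutatorElement

namespace Pool.Agent.H656.DC

/-- iterated commutator `[y, x, x, …, x]` (`j` times), with Mathlib's `⁅a,b⁆ = a b a⁻¹ b⁻¹` -/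
def icomm {G : Type} [Group G] (x : G) : ℕ → G → G
  | 0, y => y
  | j + 1, y => ⁅icomm x j y, x⁆

/-- **Fox calculus.** The augmentation ideal of `𝔽_p[F]`, `F` free on `ι`, is a free left module
on the `x_i - 1`.

Proof: for fixed `i` let `φ : FreeGroup ι →* Equiv.Perm (GA p F)` be the lift of
`x_j ↦ (v ↦ el x_j * v + (if j = i then 1 else 0))`. By induction (`FreeGroup.induction_on` or
`map_mul`) `φ g v = el g * v + d g` with `d g := φ g 0` and `d (g h) = el g * d h + d g`. Extend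
`d` linearly to `D : GA p F →ₗ GA p F` (`D (el g) = d g`). Then
`D (a * b) = a * D b + ε b • D a` (check on group elements, both sides bilinear). So
`D (a_j * (x_j - 1)) = a_j * D (x_j - 1) + 0 = if j = i then a_i else 0` (`D 1 = d 1 = 0`,
`ε (x_j - 1) = 0`). Apply `D` to the relation to get `a_i = 0`. -/
def S_foxFree : Prop :=
  ∀ (p : ℕ) [Fact p.Prime] (ι : Type) [Fintype ι] (a : ι → GA p (FreeGroup ι)),
    ∑ i, a i * (el p (FreeGroup.of i) - 1) = 0 → ∀ i, a i = 0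

/-- **Construction of the Magnus filtration** from freeness of the augmentation ideal.

Proof: by `exists_decomp_zero` and `indep`, each `a ∈ K[M]` has unique `∂_i a ∈ K[M]` with
`a = ε(a)·1 + Σ ∂_i a (y_i - 1)`. `∂_i` is linear on `K[M]` and
`∂_i (a b) = a ∂_i b + ε(b) ∂_i a` for `a, b ∈ K[M]` (uniqueness). Define by strong recursion on
`k` (recall `n i ≥ 1`): `J 0 = K[M]`, `J k = {a ∈ K[M] : ε a = 0 ∧ ∀ i, ∂_i a ∈ J (k - n i)}` for
`k ≥ 1` (equivalently: `ε a = 0` and there are `b_i ∈ J (k - n i)` with `a = Σ b_i (y_i - 1)`).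
`geny`: `∂_j (y_i - 1) = δ_ij ∈ K[M] = J 0 = J (n i - n i)`, for `j ≠ i` it is `0`.
`anti`: strong induction. `split`: by uniqueness. `aug1`: by definition.
`mul`: first `J m * K[M] ⊆ J m` by strong induction on `m`: for `a ∈ J m`, `b ∈ K[M]`,
`∂_i (a b) = a ∂_i b + ε(b) ∂_i a`; `∂_i a ∈ J (m - n i)` and `a ∂_i b ∈ J (m - n i)` by
induction as `a ∈ J m ⊆ J (m - n i)`. Then `J m * J k ⊆ J (m + k)` by strong induction on `k`:
for `k ≥ 1`, `b ∈ J k` has `ε b = 0`, `∂_i (a b) = a ∂_i b ∈ J (m + (k - n i)) ⊆ J (m + k - n i)`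
(for `k - n i = 0` this is the first case). -/
def S_construct : Prop :=
  ∀ (p : ℕ) [Fact p.Prime] (F : Type) [Group F] (M : Subgroup F) (ι : Type) [Fintype ι]
    (y : ι → F) (n : ι → ℕ), (∀ i, 1 ≤ n i) → Subgroup.closure (Set.range y) = M →
    (∀ a : ι → GA p F, (∀ i, a i ∈ KS p M) → ∑ i, a i * (el p (y i) - 1) = 0 → ∀ i, a i = 0) →
    ∃ J : ℕ → Submodule (ZMod p) (GA p F), WFS p M y n J

/-- **Rescaling the degrees**: `n i ↦ k * n i + m`.

Proof (uses `construct`, take `hc : S_construct` as hypothesis): get `J'` from `S_construct` for the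
degrees `k * n i + m` (`≥ 1`). First `J j ⊆ J' (k j)` by strong induction on `j`: `j = 0` clear;
for `a ∈ J j`, `j ≥ 1`: `a = Σ b_i (y_i - 1)` with `b_i ∈ J (j - n i) ⊆ J' (k (j - n i))`, and
`y_i - 1 ∈ J' (k n_i + m)`, so `b_i (y_i - 1) ∈ J' (k (j - n i) + k n_i + m) ⊆ J' (k j + m)`. This
proves both `J j ⊆ J' (k j)` and the second claim (for `j ≥ 1`).
Invariance: let `g : F`, conjugation `α` by `g`; show by strong induction on `j` that
`a ∈ J' j → α a ∈ J' j`. `j = 0`: `J' 0 = K[M]`, `M` normal. `j ≥ 1`: `a = Σ b_i (y_i - 1)`, with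
`b_i ∈ J' (j - n'_i)`, `α a = Σ α(b_i) (α(y_i) - 1)`, `α(b_i) ∈ J' (j - n'_i)` by induction and
`α(y_i) - 1 ∈ J (n i)` by invariance of `J`, hence in `J' (k n_i + m) = J' (n'_i)`. -/
def S_rescale : Prop :=
  ∀ (p : ℕ) [Fact p.Prime] (F : Type) [Group F] (M : Subgroup F) (ι : Type) [Fintype ι]
    (y : ι → F) (n : ι → ℕ) (J : ℕ → Submodule (ZMod p) (GA p F)), WFS p M y n J →
    ∀ k m : ℕ, 1 ≤ k → ∃ J' : ℕ → Submodule (ZMod p) (GA p F),
      WFS p M y (fun i => k * n i + m) J' ∧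
      (∀ (j : ℕ) (a : GA p F), 1 ≤ j → a ∈ J j → a ∈ J' (k * j + m)) ∧
      (Inv p J → M.Normal → Inv p J')

/-- **Generators of a normal subgroup of index `p`.**

Let `B` be generated by `x` and a set `T ⊆ H`, `H ≤ B` normalised by `B`, of index `p` in `B`,
`x ∉ H`. Then `H` is generated by `x^p` and the `[y, x, …, x]` (`j < p` times), `y ∈ T`.

Proof: let `T'` be the subgroup generated by these elements; `T' ≤ H` is clear (`x^p ∈ H` since
`B/H` has order `p`; commutators of elements of `H` with elements of `B` are in `H`). Let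
`σ(a) = x a x⁻¹`. With `z_j = icomm x j y` we have `z_{j+1} = z_j σ(z_j)⁻¹`, so
`σ(z_j) = z_{j+1}⁻¹ z_j`. So `σ(z_j) ∈ T'` for `j + 1 < p`. Claim `z_p ∈ T'`: for `i + k ≤ p - 1`,
`σ^k(z_i) ∈ T'` by induction on `k` (`σ^k(z_i) = σ^{k-1}(z_{i+1})⁻¹ σ^{k-1}(z_i)`); for
`i + k = p`, `k ≥ 1`: `σ^k(z_i) = σ^{k-1}(z_{i+1})⁻¹ · σ^{k-1}(z_i)` with the second factor in `T'`,
so `σ^k(z_i) ∈ T' ↔ σ^{k-1}(z_{i+1}) ∈ T'`. As `σ^p(z_0) = x^p y x^{-p} ∈ T'` we get `z_p ∈ T'`.
So `σ(T') ⊆ T'`, and `σ^p(T') = T'` as `x^p ∈ T'`, so `σ^{-1}(T') ⊆ T'` too: `x` normalises `T'`.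
Then `{x^i t : t ∈ T'}` is a subgroup containing `x` and `T`, so it is `B`; so if `h ∈ H`,
`h = x^i t`, `x^i ∈ H`, hence `p ∣ i` (`x ∉ H`, `p` prime, `x^p ∈ H`) and `h ∈ T'`. -/
def S_gen : Prop :=
  ∀ (p : ℕ) [Fact p.Prime] (G : Type) [Group G] (B H : Subgroup G) (x : G) (T : Set G),
    Subgroup.closure (insert x T) = B → H ≤ B → (∀ b ∈ B, ∀ h ∈ H, b * h * b⁻¹ ∈ H) →
    H.relIndex B = p → x ∉ H → T ⊆ H →
    Subgroup.closure (insert (x ^ p) {g | ∃ y ∈ T, ∃ j < p, g = icomm x j y}) = H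

/-- The same for normal generation: if `R` is the normal closure in `M` of the family `r`
(`r k ∈ H`), `H` normal in `M` of index `p`, `x ∈ M`, `x ∉ H`, then `R` is the normal closure in
`H` of the `[r_k, x, …, x]` (`j < p` times).

Proof: let `T'` be the normal closure in `H` of the family `icomm x j (r k)`, `j < p`. As in
`S_gen`, `σ(icomm x j (r k)) ∈ T'` for `j + 1 < p`, and `icomm x p (r k) ∈ T'` since
`σ^p (r k) = x^p (r k) x^{-p} ∈ T'` (`x^p ∈ H`, and `T'` is normalised by `H`). Since `x`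
normalises `H`, `σ(T')` is the normal closure in `H` of the `σ(icomm x j (r k))`, so
`σ(T') ⊆ T'`; `σ^p (T') = T'`, so `x` normalises `T'`; `H` and `x` generate `M` (index `p` prime),
so `T'` is normalised by `M` and contains the `r k` (`j = 0`), so `R ≤ T'`. Conversely
`icomm x j (r k) ∈ R` since `R` is normalised by `M`. -/
def S_relgen : Prop :=
  ∀ (p : ℕ) [Fact p.Prime] (G : Type) [Group G] (M H R : Subgroup G) (x : G) (κ : Type)
    (r : κ → G), H ≤ M → (∀ b ∈ M, ∀ h ∈ H, b * h * b⁻¹ ∈ H) → H.relIndex M = p → x ∈ M → x ∉ H →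
    (∀ k, r k ∈ H) → RelGen M r R →
    RelGen H (fun q : κ × Fin p => icomm x q.2 (r q.1)) R

/-- **Change of basis**: replace `y i` by `y i * (y i₀)^(k i)`, allowed when `n i ≤ n i₀`.

Proof: `gen`: clear since `k i₀ = 0`. Write `x = y i₀`. For `i` with `k i ≠ 0`,
`y_i x^k - 1 = (y_i - 1) + y_i (x^k - 1)` and `x^k - 1 = e (x - 1)` with `e ∈ K[M]` (for `k ≥ 0`
`e = Σ_{j<k} x^j`; for `k < 0`, `x^k - 1 = -x^k (x^{-k} - 1)`). So with `e_i = y_i e ∈ K[M]`
(`e_i = 0` if `k i = 0`): `Σ a_i (y'_i - 1) = Σ_{i ≠ i₀} a_i (y_i - 1) + (a_{i₀} + Σ_{i≠i₀} a_i e_i)(x - 1)`.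
`indep`: so `a_i = 0` for `i ≠ i₀`, then `a_{i₀} = 0`. `geny`: `y_i - 1 ∈ J (n i)` and
`e_i (x - 1) ∈ J (n i₀) ⊆ J (n i)`. `split`: `a_i ∈ J (k - n i)` for `i ≠ i₀`, and
`a_{i₀} + Σ a_i e_i ∈ J (k - n i₀)` where `a_i e_i ∈ J (k - n i) ⊆ J (k - n i₀)` when `e_i ≠ 0`
(as `n i ≤ n i₀`, so `k - n i₀ ≤ k - n i`). The other fields do not involve `y`. -/
def S_bc : Prop :=
  ∀ (p : ℕ) [Fact p.Prime] (F : Type) [Group F] (M : Subgroup F) (ι : Type) [Fintype ι]
    (y : ι → F) (n : ι → ℕ) (J : ℕ → Submodule (ZMod p) (GA p F)), WFS p M y n J →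
    ∀ (i0 : ι) (k : ι → ℤ), k i0 = 0 → (∀ i, k i ≠ 0 → n i ≤ n i0) →
      WFS p M (fun i => y i * y i0 ^ k i) n J

/-- **Elimination (orthogonality of powers).** `H` normal of index `p` in `M`, `x = y i₀ ∉ H`, all
other `y i ∈ H`. If `b_k ∈ K[H]` and `Σ_{k<p} b_k (x-1)^k ∈ J m` then `b_k ∈ J (m - k n_{i₀})`.
Also every element of `K[M]` is of the form `Σ_{k<p} b_k (x-1)^k`, and the `b_k` are unique.

Proof: Let `χ : M → ℤ/p` be the homomorphism with kernel `H` and `χ(x) = 1` (every `g ∈ M` is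
`h x^j`, `h ∈ H`, with `j` unique mod `p`; `χ(g) = j`). Let `D : K[M] → K[M]` be linear with
`D(g) = χ(g) g`; it is a derivation: `D(ab) = D(a) b + a D(b)`, and `D = 0` on `K[H]`.
Claim: `D(J m) ⊆ J (m - n_{i₀})`. Strong induction on `m`: `m = 0` clear. For `a ∈ J m`, `m ≥ 1`,
`a = Σ a_i (y_i - 1)`, `a_i ∈ J (m - n_i)`;
`D(a) = Σ D(a_i)(y_i - 1) + a_{i₀} x` since `D(y_i - 1) = χ(y_i) y_i`. By induction
`D(a_i) ∈ J (m - n_i - n_{i₀})`, so `D(a_i)(y_i - 1) ∈ J (m - n_{i₀})` (truncated subtraction: if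
`m - n_i - n_{i₀} = 0` use `J 0 * J (n_i) ⊆ J(n_i)` and `n_i ≥ m - n_{i₀}`), and
`a_{i₀} x ∈ J (m - n_{i₀})`.
Let `D'(a) = D(a) x⁻¹`. For `b ∈ K[H]`: `D((x-1)^k) = k (x-1)^{k-1} x` (`x` commutes with `x-1`),
so `D'(b (x-1)^k) = k b (x-1)^{k-1}`, and `D'(J m) ⊆ J(m - n_{i₀})`. Apply `D'` `(p-1)` times to
`a = Σ b_k (x-1)^k ∈ J m`: `(p-1)! b_{p-1} ∈ J(m - (p-1) n_{i₀})`, and `(p-1)!` is invertible; now
subtract `b_{p-1} (x-1)^{p-1} ∈ J m` (as `J (m - (p-1) n) * J ((p-1) n) ⊆ J m`) and induct downwards.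
Uniqueness/existence: `K[M] = ⊕_{j<p} K[H] x^j` and `(x-1)^k` is unitriangular in the `x^j`
(existence: by induction `x^j ∈ Σ_{k≤j} K (x-1)^k`; uniqueness: apply the same `D'` argument, or
compare the components on the cosets `H x^j`). -/
def S_orth : Prop :=
  ∀ (p : ℕ) [Fact p.Prime] (F : Type) [Group F] (M H : Subgroup F) (ι : Type) [Fintype ι]
    (y : ι → F) (n : ι → ℕ) (J : ℕ → Submodule (ZMod p) (GA p F)), WFS p M y n J →
    ∀ i0 : ι, H ≤ M → (∀ b ∈ M, ∀ h ∈ H, b * h * b⁻¹ ∈ H) → H.relIndex M = p → y i0 ∉ H →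
      (∀ i, i ≠ i0 → y i ∈ H) →
      (∀ (b : ℕ → GA p F) (m : ℕ), (∀ k, b k ∈ KS p H) →
        ∑ k ∈ Finset.range p, b k * (el p (y i0) - 1) ^ k ∈ J m →
        ∀ k < p, b k ∈ J (m - k * n i0)) ∧
      (∀ b : ℕ → GA p F, (∀ k, b k ∈ KS p H) →
        ∑ k ∈ Finset.range p, b k * (el p (y i0) - 1) ^ k = 0 → ∀ k < p, b k = 0) ∧
      (∀ a ∈ KS p M, ∃ b : ℕ → GA p F, (∀ k, b k ∈ KS p H) ∧
        a = ∑ k ∈ Finset.range p, b k * (el p (y i0) - 1) ^ k)

/-- new basis of the index-`p` subgroup: `x^p` and `[y_i, x, …, x]`, `j < p`, `i ≠ i₀` -/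
def elimY {ι : Type} {F : Type} [Group F] (p : ℕ) (y : ι → F) (i0 : ι) :
    Option ({i : ι // i ≠ i0} × Fin p) → F
  | none => y i0 ^ p
  | some q => icomm (y i0) q.2 (y q.1)

/-- degrees of the new basis -/
def elimN {ι : Type} (p : ℕ) (n : ι → ℕ) (i0 : ι) : Option ({i : ι // i ≠ i0} × Fin p) → ℕ
  | none => p * n i0
  | some q => n q.1 + q.2 * n i0

/-- **Elimination**: the index-`p` subgroup `H` is again weighted free for the restricted
filtration, with basis `elimY`.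

Proof (use `S_orth` and `S_gen` as hypotheses): write `x = y i₀`, `n₀ = n i₀`.
(1) `gen` is `S_gen` with `T = {y_i : i ≠ i₀}`.
(2) For `y = y_i`, `i ≠ i₀`, `z_j = icomm x j y`: `z_j - 1 = d_j (y - 1) + e_j (x - 1)` with
`d_0 = 1, e_0 = 0`, `d_{j+1} = (1 - c_j) d_j`, `e_{j+1} = (1 - c_j) e_j + (z_j - z_{j+1})`,
`c_j = z_j x z_j⁻¹` (check: `z_{j+1} - 1 = (1 - c_j)(z_j - 1) + (z_j - z_{j+1})(x - 1)`, using
`c_j z_j = z_j x` and `z_{j+1} x = c_j`). Degrees: `z_j - 1 ∈ J (n_i + j n₀)` by induction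
(`z_{j+1} - 1 = ((z_j - 1)(x - 1) - (x - 1)(z_j - 1)) z_j⁻¹ x⁻¹`), hence
`x - c_j = (x z_j - z_j x) z_j⁻¹ ∈ J (n_i + (j+1) n₀) ⊆ J (n₀ + 1)`, and
`d_j - (-1)^j (x-1)^j ∈ J (j n₀ + 1)` by induction (`1 - c_j = -(x - 1) + (x - c_j)`).
`e_j ∈ J (n_i + j n₀ - n₀)` by `split` applied to `z_j - 1 ∈ J(n_i + j n₀)`.
This gives `geny` for `some q`; for `none`: `x^p - 1 = (x - 1)^p ∈ J (p n₀)` (char `p`).
(3) `split`: let `a : Option _ → K[H]` with `w = Σ_z a_z (z - 1) ∈ J m`. In terms of the basis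
`y_i - 1` of `M`: coefficient of `y_i - 1` (`i ≠ i₀`): `Σ_j a_{i,j} d_{i,j} ∈ J (m - n_i)`;
coefficient of `x - 1`: `Σ_{i,j} a_{i,j} e_{i,j} + a_none (1 + x + … + x^{p-1}) ∈ J (m - n₀)`, where
`1 + x + … + x^{p-1} = (x-1)^{p-1}` in char `p`.
Claim `a_{i,j} ∈ J (m - n_i - j n₀)` for all `j < p` — put `m' = m - n_i` and show by induction on
`l` that for all `j`: `a_{i,j} ∈ J (min (l, m' - j n₀))`-type statement: precisely, for every
`l ≤ m'` and all `j < p`, `a_{i,j} ∈ J (l - j n₀)`. Step `l → l + 1 ≤ m'`: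
`Σ_j a_{i,j} (-1)^j (x-1)^j = Σ_j a_{i,j} d_j - Σ_j a_{i,j} (d_j - (-1)^j (x-1)^j)`, the first sum in
`J m' ⊆ J (l+1)`, the second in `J ((l - j n₀) + j n₀ + 1) ⊆ J (l+1)`. By `S_orth`,
`a_{i,j} ∈ J (l + 1 - j n₀)`.
Then `Σ a_{i,j} e_{i,j} ∈ J (m - n₀)` (`a_{i,j} ∈ J (m - n_i - j n₀)`, `e_{i,j} ∈ J (n_i + j n₀ - n₀)`,
`e_{i,0} = 0`; for `j ≥ 1` the degrees add up to at least `m - n₀`), so
`a_none (x-1)^{p-1} ∈ J (m - n₀)` and by `S_orth` (single term) `a_none ∈ J (m - n₀ - (p-1) n₀)`.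
(4) `indep`: the same with `0` in place of `J m`: `Σ_j a_{i,j} d_{i,j} = 0`. `d_j` is, in the
decomposition `K[M] = ⊕_{l<p} K[H] x^l`, supported on `l ≤ j` with `l = j` component
`(-1)^j h x^j`, `h ∈ H` (as `1 - c`, `c ∈ H x`). Looking at the top `j` with `a_{i,j} ≠ 0` the
component at `H x^j` is `± a_{i,j} h x^j ≠ 0` (a unit times), a contradiction. So `a_{i,j} = 0`, then
`a_none (1 + x + … + x^{p-1}) = 0` and the component at `H` gives `a_none = 0`.
(`c_j ∈ x H`: `z_j x z_j⁻¹ = x · [..] ` with `z_j ∈ H`.) -/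
def S_elim : Prop :=
  ∀ (p : ℕ) [Fact p.Prime] (F : Type) [Group F] (M H : Subgroup F) (ι : Type) [Fintype ι]
    [DecidableEq ι] (y : ι → F) (n : ι → ℕ) (J : ℕ → Submodule (ZMod p) (GA p F)),
    WFS p M y n J →
    ∀ i0 : ι, H ≤ M → (∀ b ∈ M, ∀ h ∈ H, b * h * b⁻¹ ∈ H) → H.relIndex M = p → y i0 ∉ H →
      (∀ i, i ≠ i0 → y i ∈ H) →
      WFS p H (elimY p y i0) (elimN p n i0) (Jr p J H)

/-- **One step down, generators.**

Proof (from `S_bc`, `S_elim`): Let `χ : M → ℤ/p` have kernel `H`. Extend linearly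
`χ̃ : K[M] → K`, `χ̃(g) = χ(g)`; `χ̃(a b) = χ̃(a) ε(b) + ε(a) χ̃(b)`. Take `g ∈ M \ H`,
`g - 1 ∈ J u`, write `g - 1 = Σ a_i (y_i - 1)` with `a_i ∈ J (u - n_i)`; `0 ≠ χ(g) = Σ ε(a_i) χ(y_i)`,
so for some `i`, `ε(a_i) ≠ 0` and `χ(y_i) ≠ 0`; `a_i ∉ J 1` so `u - n_i = 0`, `u ≤ n_i`. For every
`i` with `y_i ∉ H` the lower bound gives `y_i - 1 ∉ J (u+1)`, so `n_i ≤ u`. So there is `i₀` with
`y_{i₀} ∉ H`, `n_{i₀} = u`, and `n_i ≤ u` for all `i` with `y_i ∉ H`. Apply `S_bc` with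
`k i` chosen such that `y_i y_{i₀}^{k i} ∈ H` (and `k i = 0` if `y_i ∈ H`), then `S_elim`.
Weights: `t^{p u} + Σ_{i≠i₀} Σ_{j<p} t^{n_i + j u} = (t^u)^p + (σ - t^u) κ(t^u) = 1 + κ(t^u)(σ - 1)`
since `(1 - v) κ(v) = 1 - v^p`. -/
def S_step : Prop :=
  ∀ (p : ℕ) [Fact p.Prime] (F : Type) [Group F] (M H : Subgroup F)
    (J : ℕ → Submodule (ZMod p) (GA p F)) (t σ : ℝ) (u : ℕ), 0 < t → t < 1 →
    HasW p M J t σ → H ≤ M → (∀ b ∈ M, ∀ h ∈ H, b * h * b⁻¹ ∈ H) → H.relIndex M = p →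
    (∀ g ∈ M, el p g - 1 ∈ J (u + 1) → g ∈ H) → (∃ g ∈ M, g ∉ H ∧ el p g - 1 ∈ J u) →
    HasW p H (Jr p J H) t (1 + kap p (t ^ u) * (σ - 1))

/-- **One step down, relators.**

Proof: by `S_relgen` the family `icomm x j (r k)` normally generates `R` in `H`; its degrees are
`d k + j u` since `[a, x] - 1 = ((a-1)(x-1) - (x-1)(a-1)) a⁻¹ x⁻¹` lies in `J (deg a + u)`; they lie
in `H` (even in `R`). `Σ_k Σ_{j<p} t^{d k + j u} = κ(t^u) Σ_k t^{d k}`. -/
def S_relstep : Prop :=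
  ∀ (p : ℕ) [Fact p.Prime] (F : Type) [Group F] (M H R : Subgroup F)
    (J : ℕ → Submodule (ZMod p) (GA p F)) (t σ ρ : ℝ) (u : ℕ), 0 < t → t < 1 →
    HasW p M J t σ → H ≤ M → (∀ b ∈ M, ∀ h ∈ H, b * h * b⁻¹ ∈ H) → H.relIndex M = p →
    (∃ x ∈ M, x ∉ H ∧ el p x - 1 ∈ J u) → R ≤ H → HasR p M J t R ρ →
    HasR p H (Jr p J H) t R (kap p (t ^ u) * ρ)

/-- **One step down, generators of a subgroup `B`.**

Proof: let `s k, e k` be the given family. If `B ≤ H` the same family works. If not, some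
`s k₀ ∉ H` (as `R ≤ H`). Replace `s k₀` by `x = s k₀ * r`, `r ∈ R`, with `x - 1 ∈ J u` (upper bound);
still `x ∈ B \ H`, and `closure ⊔ R` is unchanged. For every `k` with `s k ∉ H` the lower bound gives
`e k ≤ u` (else `s k - 1 ∈ J (u+1)`, `s k ∈ H`). For `k ≠ k₀` let `s' k = s k * x^{c k} ∈ H`
(`c k = 0` if `s k ∈ H`), `s' k - 1 ∈ J (e k)` (as `e k ≤ u` when `c k ≠ 0`). Now
`B = closure({x} ∪ {s' k} ∪ R)`, `B ⊓ H` is normal in `B` of index `p`, so by `S_gen` with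
`T = {s' k : k ≠ k₀} ∪ R`, `B ⊓ H` is generated by `x^p`, the `icomm x j (s' k)` (`j < p`) and `R`
(`icomm x j r ∈ R`). Degrees `p u`, `e k + j u`, total weight
`t^{p u} + κ(t^u) Σ_{k≠k₀} t^{e k} ≤ (t^u)^p + κ(t^u)(ρ - t^{u})` (`t^{e k₀} ≥ t^u`)
`= 1 + κ(t^u)(ρ - 1)`. (`1 ≤ u`: as `x ∈ M \ H` with `x - 1 ∈ J 1` always, the lower bound
for `u = 0` would put `x` in `H`.) -/
def S_genstep : Prop :=
  ∀ (p : ℕ) [Fact p.Prime] (F : Type) [Group F] (M H R B : Subgroup F)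
    (J : ℕ → Submodule (ZMod p) (GA p F)) (t σ ρ : ℝ) (u : ℕ), 0 < t → t < 1 →
    HasW p M J t σ → H ≤ M → (∀ b ∈ M, ∀ h ∈ H, b * h * b⁻¹ ∈ H) → H.relIndex M = p →
    (∀ g ∈ M, el p g - 1 ∈ J (u + 1) → g ∈ H) → (∀ g ∈ M, ∃ r ∈ R, el p (g * r) - 1 ∈ J u) →
    R.Normal → R ≤ H → B ≤ M → HasG p J t R B ρ →
    (¬ B ≤ H → HasG p (Jr p J H) t R (B ⊓ H) (1 + kap p (t ^ u) * (ρ - 1))) ∧
    (B ≤ H → HasG p (Jr p J H) t R B ρ)

/-- **Golod–Shafarevich** (Vinberg's argument, integer degrees).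

Let `P = K[M]`, `I` the two-sided ideal of `P` generated by the `r_k - 1`,
`a(m) = dim P / (I + J m)` (`m : ℕ`; `a(0) = 0`; for integer `m < 0` put `a(m) = 0`, consistent with
`J (m - n)` truncated being `J 0 = P`). Finite: by iterating `split`/`exists_decomp`, `P / J m` is
spanned by the monomials in the `y_i - 1` of length `< m`.
Exactness: `⊕_k P/(I + J (m - d_k)) → ⊕_i P/(I + J (m - n_i)) → P/(I + J m) → K → 0` for `m ≥ 1`,
maps `(b_k) ↦ (Σ_k b_k r_{k,i})_i` where `r_k - 1 = Σ_i r_{k,i} (y_i - 1)`,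
`r_{k,i} ∈ J (d_k - n_i)`, and `(a_i) ↦ Σ a_i (y_i - 1)`. Kernel of the second map: if
`Σ a_i (y_i - 1) ∈ I + J m`, use `I = Σ_k P (r_k - 1) + Σ_i I (y_i - 1)` (as
`P = K·1 + Σ P (y_i - 1)`, so `P (r_k-1) P ⊆ P (r_k - 1) + Σ_i P(r_k - 1)P (y_i - 1)`) and
`J m = {Σ j_i (y_i - 1) : j_i ∈ J (m - n_i)}` (`m ≥ 1`) and freeness to get
`a_i = Σ_k b_k r_{k,i} + (elt of I) + (elt of J (m - n_i))`. Only the `k` with `d_k < m` matter
(`r_{k,i} ∈ J(d_k - n_i) ⊆ J (m - n_i)` otherwise), finitely many by summability. Hence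
`Σ_i a(m - n_i) ≤ Σ_{k : d_k < m} a(m - d_k) + a(m) - 1` for `m ≥ 1` (truncated subtraction,
`a(0) = 0`).
Suppose `a` is bounded. Multiply by `t^m` and sum over `m ≥ 1`: with `A = Σ_m a(m) t^m < ∞`,
`(Σ_i t^{n_i}) A ≤ (Σ_k t^{d_k}) A + A - Σ_{m≥1} t^m`, so `(σ - 1 - ρ) A < 0`, contradicting
`ρ < σ - 1`, `A ≥ 0`. So `a` is unbounded.
Finally `a(m) ≤ [M : D_m R]`: the image of `M` in `P/(I + J m)` spans it and `D_m R` acts trivially:
for `g ∈ M`, `h ∈ D_m ⊔ R`: `g h ≡ g` mod `I + J m` (`{h ∈ M : h - 1 ∈ I + J m}` is a subgroup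
containing `D_m` and the `M`-conjugates of the `r_k`). So it is spanned by
`[M : D_m R]` elements. (`a(m) ≤ relIndex` needs `relIndex ≠ 0`, i.e. finiteness, which is part of
`S_Dsub`; take `hD : S_Dsub` as hypothesis or prove finiteness directly: `P/J m` is a finite ring,
and `g ↦ g` is injective on `M/D_m`.) -/
def S_GS : Prop :=
  ∀ (p : ℕ) [Fact p.Prime] (F : Type) [Group F] (M R : Subgroup F)
    (J : ℕ → Submodule (ZMod p) (GA p F)) (t σ ρ : ℝ), 0 < t → t < 1 →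
    HasW p M J t σ → HasR p M J t R ρ → ρ < σ - 1 →
    ∀ B : ℕ, ∃ m, B ≤ (Dsub p J m ⊔ R).relIndex M

/-- **Dimension subgroups.**

Proof (`mem_Dsub` is in `GDefs`): commutators: `[g,h] - 1 = ((g-1)(h-1) - (h-1)(g-1)) g⁻¹ h⁻¹`.
`p`-th powers: `g^p - 1 = (g - 1)^p` in characteristic `p` (`g` commutes with `1`; use
`sub_pow_char`-type lemma for commuting elements: `Commute.add_pow_prime`... or
`sub_pow_char_of_commute`). Index: `D_0 = M`(for `m = 0` and `m = 1`), `D_{m+1}` is normal in `M`,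
`D_m / D_{m+1}` has exponent `p` (for `m ≥ 1`, `p m ≥ m + 1`) and is abelian; finite because
`K[M]/J m` is finite (spanned by monomials in `y_i - 1` of length `< m`) and `g ↦ g mod J m` is
injective on `M/D_m`. So `M/D_m` is a finite `p`-group (each element has order a power of `p`:
`g^{p^k} - 1 = (g-1)^{p^k} ∈ J (p^k)`): use `IsPGroup` and `Finite`. -/
def S_Dsub : Prop :=
  ∀ (p : ℕ) [Fact p.Prime] (F : Type) [Group F] (M : Subgroup F) (ι : Type) [Fintype ι]
    (y : ι → F) (n : ι → ℕ) (J : ℕ → Submodule (ZMod p) (GA p F)), WFS p M y n J →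
    (∀ m, ∃ k, (Dsub p J m).relIndex M = p ^ k) ∧
    (∀ m, ∀ b ∈ M, ∀ g ∈ Dsub p J m, b * g * b⁻¹ ∈ Dsub p J m) ∧
    (∀ a b g h, g ∈ Dsub p J a → h ∈ Dsub p J b → ⁅g, h⁆ ∈ Dsub p J (a + b)) ∧
    (∀ a g, g ∈ Dsub p J a → g ^ p ∈ Dsub p J (p * a)) ∧
    (Inv p J → ∀ m, (Dsub p J m).Normal)

/-- **The chain.** `H 0 = M > H 1 > …`, normal in `F`, each of index `p` in the previous one,
refining the filtration modulo `R`.

Proof: Invariant for a subgroup `H`: `H` normal in `F`, `R ≤ H ≤ M`, finite index in `M`, and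
`D_{m} ≤ H` implies nothing more is needed: given such `H`, let `u` be the largest `m` with
`H ≤ D_m ⊔ R`; it exists: `m = 0` works, and by `unb` the index of `D_m ⊔ R` in `M` is unbounded
(and nonzero), so `H ≤ D_m ⊔ R` fails for large `m` (`D` is antitone, so the set of such `m` is an
initial segment). Suppose the invariant `D_{u+1} ⊔ R ≤ H` where `u = u(H)`. Then
`H ≠ D_{u+1} ⊔ R`, and in the finite `p`-group `F/(D_{u+1} ⊔ R)` (order
`[F:M][M : D_{u+1} R]`, a power of `p`) the normal subgroup `H/(D_{u+1} ⊔ R) ≠ 1` has a subgroup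
`H'/(D_{u+1} ⊔ R)` normal in `F/(…)` and of index `p` in it (standard: take a maximal proper
`F`-normal subgroup `H'` of `H` containing `D_{u+1} ⊔ R`; `H/H'` is a minimal normal subgroup of the
`p`-group `F/H'`, meets the centre, so is central of order `p`). Then `H'` satisfies the invariants:
`u(H') ≥ u(H)` and `D_{u(H')+1} ⊔ R ≤ D_{u+1} ⊔ R ≤ H'`. Start with `M`: `u(M)`: `M = D_1` always (`el_sub_one_mem_one`),
and need `D_{u(M)+1} ⊔ R ≤ M`: true. Define `H (i+1) = (H i)'` and `u i = u(H i)`.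
(lower): `g - 1 ∈ J (u i + 1)` → `g ∈ D_{u_i+1} ≤ H (i+1)`. (upper): `g ∈ H i ≤ D_{u_i} ⊔ R`, `R`
normal so `g = d r`, `g r⁻¹ = d`. `u i → ∞`: `u` is monotone; `[M : H i] = p^i → ∞` while
`[M : H i] ≤ [M : D_{u_i + 1}] < ∞`, so `u` is unbounded. -/
def S_chain : Prop :=
  ∀ (p : ℕ) [Fact p.Prime] (F : Type) [Group F] (M R : Subgroup F)
    (J : ℕ → Submodule (ZMod p) (GA p F)) (t σ : ℝ),
    M.Normal → (∃ k : ℕ, M.index = p ^ k) → HasW p M J t σ → Inv p J → R.Normal → R ≤ M →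
    (∀ B : ℕ, ∃ m, B ≤ (Dsub p J m ⊔ R).relIndex M) →
    ∃ (H : ℕ → Subgroup F) (u : ℕ → ℕ), H 0 = M ∧ (∀ i, (H i).Normal) ∧ (∀ i, R ≤ H i) ∧
      (∀ i, H (i + 1) ≤ H i ∧ (H (i + 1)).relIndex (H i) = p) ∧
      (∀ i, ∀ g ∈ H i, el p g - 1 ∈ J (u i + 1) → g ∈ H (i + 1)) ∧
      (∀ i, ∀ g ∈ H i, ∃ r ∈ R, el p (g * r) - 1 ∈ J (u i)) ∧
      Filter.Tendsto u Filter.atTop Filter.atTop

/-- **Adding relators.**

Proof: new `R' = normalClosure (R ∪ range q)`; `R' ≤ M` since `M` is normal and contains them.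
Choose a transversal `T` of `M` in `F` (`Finite (F ⧸ M)`), `|T| = M.index`. `R'` is the
normal closure in `M` of the old `r k` and the `τ (q l) τ⁻¹`, `τ ∈ T`: the subgroup `X` generated by
the `M`-conjugates of these is normal in `F`: it is `R ⊔ (subgroup generated by all F-conjugates of
the q l)`, as every `g ∈ F` is `m τ`. The conjugates `τ q τ⁻¹` are in `M` and
`τ q τ⁻¹ - 1 ∈ J (e l)` by `Inv`. Total weight `≤ ρ + M.index * Σ t^{e l}`. -/
def S_add : Prop :=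
  ∀ (p : ℕ) [Fact p.Prime] (F : Type) [Group F] (M R : Subgroup F)
    (J : ℕ → Submodule (ZMod p) (GA p F)) (t σ ρ η : ℝ), StgD p M J t σ ρ R →
    ∀ (κ : Type) [Countable κ] (q : κ → F) (e : κ → ℕ),
      (∀ k, q k ∈ M ∧ 1 ≤ e k ∧ el p (q k) - 1 ∈ J (e k)) →
      Summable (fun k => t ^ e k) → (M.index : ℝ) * ∑' k, t ^ e k ≤ η → ρ + η < σ - 1 →
      StgD p M J t σ (ρ + η) (Subgroup.normalClosure ((R : Set F) ∪ Set.range q))

/-- **A light subgroup has light finite-index subgroups.**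

Proof: (one elimination) for a finite family `s : κ → F` and `k₀ : κ` the family `x^p`,
`icomm x j (s k)` (`k ≠ k₀`, `j < p`), `x = s k₀`, generates a subgroup of `closure (range s)` of
finite index (`≤ p`): it is the image under `FreeGroup κ → F` of the kernel of
`χ : FreeGroup κ → ℤ/p`, `χ(k₀) = 1`, `χ(k) = 0` (`S_gen` for `G = FreeGroup κ`, `B = ⊤`).
Its degrees: `p e(k₀)`, `e k + j e(k₀)`, total weight `1 - κ(v)(1 - ρ)`, `v = t^{e k₀}`.
(one round) eliminate successively all the original members of the family (they remain in the new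
family as the `j = 0` members); since `κ(v) ≥ 1 + v`, after the round the total weight `ρ'` satisfies
`1 - ρ' ≥ (1 - ρ) ∏ (1 + v_k) ≥ (1 - ρ)(1 + ρ)`, so `ρ' ≤ ρ²`. Formally: for lists/finite families
`T ++ L`, by induction on `|T|`: there is a new family, generating a finite-index subgroup of
`closure`, with `1 - ρ' ≥ (1 - ρ) ∏_{k ∈ T} (1 + v_k)`. (rounds) `ρ < 1`, after `k` rounds
`ρ_k ≤ ρ^{2^k} → 0`. (If `κ` is empty there is nothing to do.) -/
def S_small : Prop :=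
  ∀ (p : ℕ) [Fact p.Prime] (F : Type) [Group F] (M : Subgroup F)
    (J : ℕ → Submodule (ZMod p) (GA p F)) (t σ : ℝ), 0 < t → t < 1 → HasW p M J t σ →
    ∀ (κ : Type) [Fintype κ] (s : κ → F) (e : κ → ℕ),
      (∀ k, s k ∈ M ∧ 1 ≤ e k ∧ el p (s k) - 1 ∈ J (e k)) → ∑ k, t ^ e k < 1 →
      ∀ ε : ℝ, 0 < ε → ∃ (κ' : Type) (_ : Fintype κ') (v : κ' → F) (e' : κ' → ℕ),
        (∀ k, v k ∈ Subgroup.closure (Set.range s) ∧ 1 ≤ e' k ∧ el p (v k) - 1 ∈ J (e' k)) ∧
        ∑ k, t ^ e' k < ε ∧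
        (Subgroup.closure (Set.range v)).relIndex (Subgroup.closure (Set.range s)) ≠ 0

/-- **Case 1**: if `A` is light relative to the deficiency, it can be made finite.

Proof: `r < σ - ρ`. Choose a rational exponent: `c = t^{m/k} ∈ (0,1]` with `c (σ - ρ) > 1` and
`c r < 1` (possible since `r < σ - ρ` and `1 < σ - ρ`: the numbers `t^{m/k}`, `m ≥ 0`, `k ≥ 1`, are dense
in `(0,1]`; if `r ≤ 1`... choose `c` slightly less than or equal to 1). Put `t' = t^{1/k}` (real, `t'^k = t`), `J'` from `S_rescale`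
with `(k, m)`. New weights: generators `t'^{k n_i + m} = c t^{n_i}`, relators `r_l` have
`r_l - 1 ∈ J (d_l)`, `d_l ≥ 1`, so `r_l - 1 ∈ J' (k d_l + m)`, weight `c t^{d_l}`. So `StgD` holds with
`(J', t', c σ, c ρ)`: `c ρ < c σ - 1`. `A ⊓ …`: the family `s` generating `(A ⊔ R) ⊓ M` mod `R` has
weights `c t^{e}`, total `≤ c r < 1`. `S_small` with
`ε` such that `M.index * ε < c σ - 1 - c ρ` gives the family `v`, then `S_add` with `q = v`:
`R' = normalClosure (R ∪ range v)` is a Stage. Finiteness: `(A ⊔ R') ⊓ M`... : `R'` contains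
`R` and `closure(range v)`, which has finite index in `closure (range s)`, so `R'` has finite relative
index in `closure(range s) ⊔ R' = ((A ⊔ R) ⊓ M) ⊔ R'`; and `(A ⊔ R) ⊓ M` has finite index in
`A ⊔ R` (`M` has finite index in `F`), so `R'.relIndex (A ⊔ R') ≠ 0`. -/
def S_case1 : Prop :=
  ∀ (p : ℕ) [Fact p.Prime] (F : Type) [Group F] (M R : Subgroup F)
    (J : ℕ → Submodule (ZMod p) (GA p F)) (t σ ρ r : ℝ), StgD p M J t σ ρ R →
    ∀ A : Subgroup F, HasG p J t R ((A ⊔ R) ⊓ M) r → r < σ - ρ →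
      ∃ R' : Subgroup F, R ≤ R' ∧ Stage p R' ∧ R'.relIndex (A ⊔ R') ≠ 0

/-- **Case 2**: if `A` is dense enough along the chain, it can be made of finite index.

Here `H, u` is a chain as in `S_chain` and `I = {i : (A ⊔ R) ⊓ H i ≤ H (i+1)}` is the set of steps
not seen by `A`.
Proof: let `δ = (σ - 1 - ρ) / 4 > 0` and `N = M.index`. Choose `i₀` with
`N Σ_{i ∈ I, i ≥ i₀} t^{u i} ≤ δ` and `u i ≥ 1` for `i ≥ i₀`. For `i ∈ I, i ≥ i₀` choose
`h_i ∈ H i \ H (i+1)` with `h_i - 1 ∈ J (u i)` (upper bound and `R ≤ H (i+1)`, relIndex `p ≠ 1`).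
`S_add` gives `StgD` for `R₁ = normalClosure (R ∪ {h_i})`. Claim: for `j ≥ i₀`,
`H j ≤ A ⊔ R₁ ⊔ H (j+1)`: if `j ∈ I`, `h_j ∈ R₁`, and `H j = ⟨h_j⟩ H (j+1)` (index `p` prime, so no
intermediate subgroup); if `j ∉ I` there is `b ∈ (A ⊔ R) ⊓ H j`, `b ∉ H (j+1)`, same. By
induction `H i₀ ≤ A ⊔ R₁ ⊔ H j` for all `j ≥ i₀`, and `H j ≤ D_{u j} ⊔ R` (upper bound), so
`H i₀ ≤ (A ⊔ R₁) ⊔ Dsub p J (u j)`, `Dsub p J _` normal in `F` (`S_Dsub`). `H i₀` has finite index in
`F` which is finitely generated, so `H i₀` is generated by finitely many `y_1..y_c`;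
`y_k = a_k d_k`, `a_k ∈ A ⊔ R₁`, `d_k ∈ Dsub p J (u j)`, with `j` so large that `N c t^{u j} ≤ δ` and
`u j ≥ 1`. `S_add` again with the `d_k`: `R' = normalClosure (R₁ ∪ {d_k})` is a Stage and
`H i₀ ≤ A ⊔ R'`, so `(A ⊔ R').index ≠ 0`. -/
def S_case2 : Prop :=
  ∀ (p : ℕ) [Fact p.Prime] (F : Type) [Group F] (M R : Subgroup F)
    (J : ℕ → Submodule (ZMod p) (GA p F)) (t σ ρ : ℝ), Group.FG F → StgD p M J t σ ρ R →
    ∀ (A : Subgroup F) (H : ℕ → Subgroup F) (u : ℕ → ℕ), H 0 = M → (∀ i, (H i).Normal) →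
      (∀ i, R ≤ H i) → (∀ i, H (i + 1) ≤ H i ∧ (H (i + 1)).relIndex (H i) = p) →
      (∀ i, ∀ g ∈ H i, el p g - 1 ∈ J (u i + 1) → g ∈ H (i + 1)) →
      (∀ i, ∀ g ∈ H i, ∃ r ∈ R, el p (g * r) - 1 ∈ J (u i)) →
      Filter.Tendsto u Filter.atTop Filter.atTop →
      Summable (fun i : {i : ℕ // (A ⊔ R) ⊓ H i ≤ H (i + 1)} => t ^ u i) →
      ∃ R' : Subgroup F, R ≤ R' ∧ Stage p R' ∧ (A ⊔ R').index ≠ 0

/-- `F/R` has arbitrarily large finite `p`-quotients -/
def Unb (p : ℕ) {F : Type} [Group F] (R : Subgroup F) : Prop :=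
  ∀ B : ℕ, ∃ K : Subgroup F, K.Normal ∧ R ≤ K ∧ (∃ k, K.index = p ^ k) ∧ B ≤ K.index

/-- **One extension step** (assembled from the above): any finitely generated `A` can be made finite
or of finite index. -/
def S_stepAll : Prop :=
  ∀ (p : ℕ) [Fact p.Prime] (F : Type) [Group F], Group.FG F →
    ∀ R : Subgroup F, Stage p R → ∀ A : Subgroup F, A.FG →
      ∃ R' : Subgroup F, R ≤ R' ∧ Stage p R' ∧
        (R'.relIndex (A ⊔ R') ≠ 0 ∨ (A ⊔ R').index ≠ 0)

/-- **Unions of chains keep unbounded `p`-quotients** (`F` finitely generated).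

Proof: suppose `Unb p (sSup c)` fails. Then the indices of normal subgroups `K ≥ U := sSup c` of
`p`-power index are bounded; take such a `K₀` of maximal index. For any other such `K`,
`K ⊓ K₀` is again such (`F/(K ⊓ K₀)` embeds in `F/K × F/K₀`, so is a `p`-group), so by maximality
`K₀ ≤ K`. Let `K₁ ≤ K₀` be the subgroup generated by commutators and `p`-th powers of elements of
`K₀`: normal in `F`, and `K₀/K₁` is finitely generated (finite index in f.g.) abelian of exponent `p`,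
so finite of `p`-power order: `K₁` has `p`-power index. `U ⊔ K₁` is normal of `p`-power index and
contains `U`, so `K₀ ≤ U ⊔ K₁`, so `K₀ = U ⊔ K₁`. As `K₀/K₁` is finite and `c` is a chain (nonempty),
`K₀ = R ⊔ K₁` for some `R ∈ c`. By `Unb p R` there is a normal `K ≥ R` of `p`-power index
`> K₀.index`; put `L = K ⊓ K₀` (normal, `p`-power index, `≥ R`, `L < K₀` strictly). In the finite
`p`-group `K₀/L ≠ 1` take a maximal subgroup: a subgroup `L ≤ X < K₀` maximal; it is normal in `K₀` of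
index `p` (maximal subgroups of finite `p`-groups), so contains `K₁`; hence `X ≥ L ⊔ K₁ ≥ R ⊔ K₁ = K₀`,
a contradiction. -/
def S_chainUnb : Prop :=
  ∀ (p : ℕ) [Fact p.Prime] (F : Type) [Group F], Group.FG F →
    ∀ c : Set (Subgroup F), c.Nonempty → IsChain (· ≤ ·) c → (∀ N ∈ c, N.Normal ∧ Unb p N) →
      Unb p (sSup c)

/-- **Burnside basis lemma for `p`-power index subgroups.** `F` f.g., `L ≤ U`, where `U ≥ K₀`,
`K₀` normal of `p`-power index, and `U ≤ L ⊔ K` for every normal `K` of `p`-power index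
(density). Then some finitely generated `A ≤ L` satisfies `U ≤ A ⊔ K` for all normal `K` of `p`-power
index.

Proof: let `U₁ ≤ U` be generated by commutators and `p`-th powers of elements of `U`; `U/U₁` is a
f.g. abelian group of exponent `p`, finite. `U₁ ≥ K₀' :=` the subgroup generated by commutators and
`p`-th powers of `K₀`, which is normal of `p`-power index in `F`. So `U ≤ L ⊔ K₀'`, and since
`L ≤ U`, `U = L ⊔ (K₀' ...) ≤ L ⊔ U₁`. Choose finitely many elements of `L` representing `U/U₁`; let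
`A` be generated by them: `A ⊔ U₁ = U`. Let `K` be normal of `p`-power index; `K' = K ⊓ K₀` is normal
of `p`-power index and `≤ U`. If `A ⊔ K' ≠ U`, then in the finite `p`-group `U/K'` (a subgroup of
`F/K'`) the proper subgroup `(A ⊔ K')/K'` is contained in a maximal one, which is normal of index
`p` in `U`, so contains `U₁`, so contains `A ⊔ U₁ = U`, a contradiction. -/
def S_burnside : Prop :=
  ∀ (p : ℕ) [Fact p.Prime] (F : Type) [Group F], Group.FG F →
    ∀ L U K0 : Subgroup F, L ≤ U → K0 ≤ U → K0.Normal → (∃ k, K0.index = p ^ k) →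
      (∀ K : Subgroup F, K.Normal → (∃ k, K.index = p ^ k) → U ≤ L ⊔ K) →
      ∃ A : Subgroup F, A.FG ∧ A ≤ L ∧
        ∀ K : Subgroup F, K.Normal → (∃ k, K.index = p ^ k) → U ≤ A ⊔ K

/-- every finitely generated subgroup is finite or of finite index, modulo `R` -/
def FinOr {F : Type} [Group F] (R : Subgroup F) : Prop :=
  ∀ A : Subgroup F, A.FG → R.relIndex (A ⊔ R) ≠ 0 ∨ (A ⊔ R).index ≠ 0

/-- `N` is an intersection of normal subgroups of `p`-power index -/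
def PClosed (p : ℕ) {F : Type} [Group F] (N : Subgroup F) : Prop :=
  ∀ g : F, (∀ K : Subgroup F, K.Normal → (∃ k, K.index = p ^ k) → N ≤ K → g ∈ K) → g ∈ N

/-- **Just infinite quotient.**

Proof: Zorn (`zorn_le₀` or similar) on `𝒩 = {N : N normal, R ≤ N, PClosed p N, Unb p N}`. Nonempty:
the `p`-closure `cl R := ⨅ {K normal of p-power index, R ≤ K}` (`Unb` passes to `cl R` because the
same `K` work; `cl R` is normal). Chains: for a nonempty chain `c ⊆ 𝒩`, `cl (sSup c)` is an upper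
bound, `Unb` by `S_chainUnb`. Let `N` be maximal in `𝒩`.
(just infinite) let `N < N'`, `N'` normal; claim `N'.index ≠ 0`. Suppose `N'.index = 0`. By
maximality `cl N'` is not `Unb` (it is normal, closed, `≥ N' > N`), so as in `S_chainUnb` there is a
smallest normal `K₀ ≥ N'` of `p`-power index (all others contain it), `K₀ = cl N'`. For every
normal `K` of `p`-power index, `N' ⊔ K` is normal of `p`-power index, `≥ N'`, so `K₀ ≤ N' ⊔ K`. By
`S_burnside` (`L = N'`, `U = K₀`) there is a f.g. `A ≤ N'` with `K₀ ≤ A ⊔ K` for all normal `K` of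
`p`-power index. By `FinOr R` either `(A ⊔ R).index ≠ 0`, then as `A ⊔ R ≤ N'` also `N'.index ≠ 0`,
contradiction; or `R.relIndex (A ⊔ R) ≠ 0 =: b`. By `Unb p N` choose normal `K ≥ N ≥ R` of
`p`-power index `> b * K₀.index`; `K ⊓ K₀ =: L`, then `K₀ ≤ A ⊔ K`; `K₀/(K₀ ⊓ K)` has at most
`[A ⊔ K : K] ≤ [A ⊔ R : R] = b` elements, but `[F : K] ≤ [F:K₀][K₀ : K ⊓ K₀] ≤ K₀.index * b`, a
contradiction. -/
def S_zorn : Prop :=
  ∀ (p : ℕ) [Fact p.Prime] (F : Type) [Group F], Group.FG F →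
    ∀ R : Subgroup F, R.Normal → Unb p R → FinOr R →
      ∃ N : Subgroup F, N.Normal ∧ R ≤ N ∧ PClosed p N ∧ Unb p N ∧
        ∀ N' : Subgroup F, N'.Normal → N < N' → N'.index ≠ 0

/-- **The base group.** `F` free on 9 generators, relators `x_i^67`, `[x_i, x_j, x_j]` (`i ≠ j`).

Proof (from `S_foxFree`, `S_construct`): `M = ⊤`, degrees `1`, `t = 1/5`, `σ = 9/5`. `Inv`:
`J k` is a two-sided ideal of `K[F] = K[⊤]`. Relators: `x_i^67 - 1 = (x_i - 1)^67 ∈ J 67`,
`[x_i,x_j,x_j] - 1 ∈ J 3`; total weight `9 t^67 + 72 t^3 = 9/5^67 + 72/125 < 4/5`. -/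
def S_base : Prop :=
  Stage 67 (Subgroup.normalClosure
    {g : FreeGroup (Fin 9) | (∃ i, g = FreeGroup.of i ^ 67) ∨
      ∃ i j, i ≠ j ∧ g = ⁅⁅FreeGroup.of i, FreeGroup.of j⁆, FreeGroup.of j⁆})

/-! ### From `F/N` to the final group -/

/-- hypotheses on the final group `G = F/N` -/
structure RTM (p : ℕ) (G : Type) [Group G] : Prop where
  odd : p ≠ 2
  fg : Group.FG G
  inf : Infinite G
  resp : ∀ g : G, g ≠ 1 → ∃ K : Subgroup G, K.Normal ∧ (∃ k, K.index = p ^ k) ∧ g ∉ K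
  fin_or : ∀ A : Subgroup G, A.FG → Finite A ∨ A.index ≠ 0
  ji : ∀ N : Subgroup G, N.Normal → N ≠ ⊥ → N.index ≠ 0
  gen : Subgroup.closure {g : G | g ^ p = 1} = ⊤

/-- all finitely generated subgroups of `L` are finite -/
def LocFin {G : Type} [Group G] (L : Subgroup G) : Prop :=
  ∀ A : Subgroup G, A.FG → A ≤ L → Finite A

/-- **Cofinal sequence.** Proof: finite-index subgroups of a f.g. group are f.g.
(`Subgroup.fg_of_index_ne_zero`), so there are countably many normal subgroups of `p`-power index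
(`G` is countable as it is f.g.); enumerate them as `K' n` (`⊤` is one) and put
`K n = ⨅_{i ≤ n} K' i` (index of a finite intersection of normal subgroups of `p`-power index is a
`p`-power: `G/(A ⊓ B)` embeds in `G/A × G/B`). -/
def S_seq : Prop :=
  ∀ (p : ℕ) [Fact p.Prime] (G : Type) [Group G], Group.FG G →
    ∃ K : ℕ → Subgroup G, Antitone K ∧ (∀ n, (K n).Normal ∧ ∃ k, (K n).index = p ^ k) ∧
      ∀ K' : Subgroup G, K'.Normal → (∃ k, K'.index = p ^ k) → ∃ n, K n ≤ K'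

/-- **Locally finite subgroups are not dense in a finite-index subgroup.**

Proof: let `U = ⨅ n, L ⊔ K n`, suppose `U.index ≠ 0`. The `L ⊔ K n` are decreasing with intersection
of finite index, so `U = L ⊔ K n₀` for some `n₀` (indices are bounded by `U.index`, hence
eventually constant). So `K₀ := K n₀ ≤ U`, and `U ≤ L ⊔ K` for every normal `K` of `p`-power index
(cofinality). By `S_burnside` there is a f.g. `A ≤ L` with `U ≤ A ⊔ K` for all such `K`. `A` is
finite. Then `U.relIndex`: for each `K ≤ K n₀` normal of `p`-power index,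
`K.index = U.index * K.relIndex U ≤ U.index * |A|` (`U = A ⊔ K`). But `p`-power indices are
unbounded: `G` is infinite and residually-`p` (`resp`: for distinct `g_1..g_r` intersect the `K`'s
separating the `g_i⁻¹ g_j`). Contradiction. -/
def S_dense : Prop :=
  ∀ (p : ℕ) [Fact p.Prime] (G : Type) [Group G], RTM p G → ∀ K : ℕ → Subgroup G,
    Antitone K → (∀ n, (K n).Normal ∧ ∃ k, (K n).index = p ^ k) →
    (∀ K' : Subgroup G, K'.Normal → (∃ k, K'.index = p ^ k) → ∃ n, K n ≤ K') →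
    ∀ L : Subgroup G, LocFin L → (⨅ n, L ⊔ K n).index = 0

/-- **Torsion.** Proof: suppose `g` has infinite order; `⟨g⟩` (`Subgroup.zpowers g`, f.g., infinite) has
finite index by `fin_or`. Its normal core `C` has finite index, is cyclic and infinite, `C = ⟨c⟩`. For
`x ∈ G`, `x c x⁻¹ = c` or `c⁻¹` (generators of `C`). The `x` with `x c x⁻¹ = c` form a subgroup `Z`
and if `x^p = 1`, `p` odd, then `x ∈ Z` (if `x c x⁻¹ = c⁻¹` then `x^p c x^{-p} = c^{-1} ≠ c`). By `gen`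
`Z = ⊤`, so `C ≤ center G`, the centre has finite index, so the commutator subgroup is finite
(Schur: Mathlib has an instance `Finite (commutator G)` from `Finite (G ⧸ center G)`/`FiniteIndex`,
see `Mathlib/GroupTheory/Commutator/Finite` and `…/Abelianization/Finite`). The abelianization is
f.g. abelian generated by elements of order dividing `p`, so finite. So `G` is finite,
contradiction. -/
def S_torsion : Prop :=
  ∀ (p : ℕ) [Fact p.Prime] (G : Type) [Group G], RTM p G → ∀ g : G, IsOfFinOrder g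

/-- **Normalisers of nontrivial locally finite subgroups have infinite index.**

Proof (take `hT : S_torsion`): Let `W ≠ ⊥` be locally finite, suppose its normaliser has finite
index. Let `Mc = (normalizer W).normalCore`, normal of finite index, normalises all conjugates of
`W`. There are finitely many conjugates `W_1..W_k` of `W`. `W_i ⊓ Mc` is normal in `Mc`, locally
finite. Let `P = ⨆ (W_i ⊓ Mc)`; it is normal in `G` (conjugation permutes the `W_i`), contained in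
`Mc`. A product of two locally finite subgroups `X, Y` normalised by each other is locally finite:
let `A ≤ X ⊔ Y` f.g.; `A/(A ⊓ X) ≅ AX/X ≤ XY/X ≅ Y/(X ⊓ Y)` is f.g. and locally finite so finite; so
`A ⊓ X` has finite index in the f.g. `A`, so is f.g. and `≤ X`, so finite; so `A` is finite.
By induction `P` is locally finite. If `P ≠ ⊥`, `P` has finite index (`ji`), so is f.g., hence
finite, so `G` is finite, contradiction. If `P = ⊥` then `W ⊓ Mc = ⊥`, so `W` embeds in the finite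
`G/Mc`: `W` is finite. Take `1 ≠ w ∈ W`: its conjugacy class is finite (the normaliser has finite
index and permutes the finite set `W`), so its centraliser has finite index. Let `V` be the normal
closure of `w`; it is generated by the finitely many conjugates of `w`; `V ≠ ⊥` so `V` has finite
index; `C = ⨅ centralizer(w')` over the conjugates `w'` has finite index and centralises `V`;
`Z = V ⊓ C` is abelian of finite index in the f.g. `G`, so f.g.; and torsion by `hT`; a f.g. abelian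
torsion group is finite (`CommGroup.finite_of_fg_torsion`), so `G` is finite, contradiction. -/
def S_norm : Prop :=
  ∀ (p : ℕ) [Fact p.Prime] (G : Type) [Group G], RTM p G →
    ∀ W : Subgroup G, W ≠ ⊥ → LocFin W → (Subgroup.normalizer (W : Set G)).index = 0

end Pool.Agent.H656.DC
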