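import Pool.Agent.H656.DC.SR
import Pool.Agent.H656.DC.GStmts

/-!
# Lemmas for the final assembly
-/

set_option autoImplicit false

open MeasureTheory Filter Topology

namespace Pool.Agent.H656.DC.Fin

/-- measurable selection from a countable type -/
lemma exists_sel {X L : Type} [MeasurableSpace X] [Countable L] (P : L → X → Prop)
    (hP : ∀ l, MeasurableSet {x | P l x}) (h : ∀ x, ∃ l, P l x) :
    ∃ s : X → L, (∀ x, P (s x) x) ∧ ∀ l, MeasurableSet {x | s x = l} := by
  classical
  obtain ⟨e, he⟩ := exists_injective_nat L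
  have h' : ∀ x, ∃ n, ∃ l, e l = n ∧ P l x := fun x => by
    obtain ⟨l, hl⟩ := h x
    exact ⟨e l, l, rfl, hl⟩
  choose s hs1 hs2 using fun x => Nat.find_spec (h' x)
  refine ⟨s, hs2, fun l => ?_⟩
  have : {x | s x = l} = {x | P l x} ∩ ⋂ (k : L) (_ : e k < e l), {x | P k x}ᶜ := by
    ext x
    simp only [Set.mem_ofPred_eq, Set.mem_inter_iff, Set.mem_iInter, Set.mem_compl_iff]
    constructor
    · rintro rfl
      refine ⟨hs2 x, fun k hk hk' => ?_⟩
      rw [hs1 x] at hk
      exact Nat.find_min (h' x) hk ⟨k, rfl, hk'⟩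
    · rintro ⟨h1, h2⟩
      apply he
      rw [hs1 x]
      apply le_antisymm
      · exact Nat.find_min' (h' x) ⟨l, rfl, h1⟩
      · by_contra hlt
        push Not at hlt
        obtain ⟨k, hk, hk'⟩ := Nat.find_spec (h' x)
        exact h2 k (hk ▸ hlt) hk'
  rw [this]
  exact (hP l).inter (MeasurableSet.iInter fun k => MeasurableSet.iInter fun _ => (hP k).compl)

/-- no finite invariant measure on a compressible action -/
lemma no_inv {G Y : Type} [Group G] [Countable G] [MeasurableSpace Y] [StandardBorelSpace Y]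
    [MulAction G Y] (hm : ∀ g : G, Measurable (fun y : Y => g • y)) (ν : Measure Y)
    [IsFiniteMeasure ν] (hν : ∀ g : G, ν.map (fun y => g • y) = ν) (c : Y → Y)
    (hc : Measurable c) (hi : Function.Injective c) (ho : ∀ y, c y ∈ MulAction.orbit G y)
    (hz : ∀ y : Y, ∃ z ∈ MulAction.orbit G y, ∀ w, c w ≠ z) : ν = 0 := by
  obtain ⟨s, hs1, hs2⟩ := exists_sel (fun (g : G) (y : Y) => g • y = c y)
    (fun g => measurableSet_eq_fun (hm g) hc) (fun y => by
      obtain ⟨g, hg⟩ := ho y
      exact ⟨g, hg⟩)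
  have himg : ∀ g : G, c '' {y | s y = g} = (fun y => g⁻¹ • y) ⁻¹' {y | s y = g} := by
    intro g
    ext z
    simp only [Set.mem_image, Set.mem_ofPred_eq, Set.mem_preimage]
    constructor
    · rintro ⟨y, hy, rfl⟩
      rw [← hs1 y, hy, inv_smul_smul]
      exact hy
    · intro h
      refine ⟨g⁻¹ • z, h, ?_⟩
      rw [← hs1, h, smul_inv_smul]
  have hmeas : ∀ g : G, ν (c '' {y | s y = g}) = ν {y | s y = g} := by
    intro g
    rw [himg g, ← Measure.map_apply (hm g⁻¹) (hs2 g), hν]
  have hmeas' : ∀ g : G, MeasurableSet (c '' {y | s y = g}) := by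
    intro g
    rw [himg g]
    exact hm g⁻¹ (hs2 g)
  have hU : (⋃ g : G, {y | s y = g}) = Set.univ := by
    ext y; simp
  have hR : (⋃ g : G, c '' {y | s y = g}) = Set.range c := by
    rw [← Set.image_iUnion, hU, Set.image_univ]
  have hd : Pairwise (Function.onFun Disjoint fun g : G => {y | s y = g}) := by
    intro g h hgh
    rw [Function.onFun, Set.disjoint_left]
    intro y hy hy'
    exact hgh (hy.symm.trans hy')
  have hd' : Pairwise (Function.onFun Disjoint fun g : G => c '' {y | s y = g}) := by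
    intro g h hgh
    exact (Set.disjoint_image_iff hi).2 (hd hgh)
  have h1 : ν (Set.range c) = ν Set.univ := by
    rw [← hR, measure_iUnion hd' hmeas', ← hU, measure_iUnion hd hs2]
    exact tsum_congr hmeas
  have hRm : MeasurableSet (Set.range c) := by
    rw [← hR]; exact MeasurableSet.iUnion hmeas'
  have h2 : ν (Set.range c)ᶜ = 0 := by
    rw [measure_compl hRm (measure_ne_top ν _), h1, tsub_self]
  have h3 : (Set.univ : Set Y) = ⋃ g : G, (fun y => g • y) ⁻¹' (Set.range c)ᶜ := by
    ext y
    simp only [Set.mem_univ, Set.mem_iUnion, Set.mem_preimage, Set.mem_compl_iff, Set.mem_range,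
      not_exists, true_iff]
    obtain ⟨z, ⟨g, hg⟩, hz'⟩ := hz y
    refine ⟨g, fun w hw => hz' w ?_⟩
    rw [hw]; exact hg
  rw [← Measure.measure_univ_eq_zero, h3, measure_iUnion_null_iff]
  intro g
  rw [← Measure.map_apply (hm g) hRm.compl, hν, h2]

/-- averaging over a finite-index subgroup -/
lemma exists_inv {G Y : Type} [Group G] [MeasurableSpace Y]
    [MulAction G Y] (hm : ∀ g : G, Measurable (fun y : Y => g • y)) (H : Subgroup G)
    (hH : H.index ≠ 0) (ν : Measure Y) [IsProbabilityMeasure ν]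
    (hν : ∀ h ∈ H, ν.map (fun y => h • y) = ν) :
    ∃ ν' : Measure Y, IsFiniteMeasure ν' ∧ ν' ≠ 0 ∧ ∀ g : G, ν'.map (fun y => g • y) = ν' := by
  classical
  have : H.FiniteIndex := ⟨hH⟩
  have : Fintype (G ⧸ H) := Fintype.ofFinite _
  let ν' : Measure Y := ∑ q : G ⧸ H, ν.map (fun y => q.out • y)
  have happ : ∀ B : Set Y, MeasurableSet B → ν' B = ∑ q : G ⧸ H, ν ((fun y => q.out • y) ⁻¹' B) := by
    intro B hB
    rw [Measure.finsetSum_apply]
    exact Finset.sum_congr rfl fun q _ => Measure.map_apply (hm _) hB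
  have hout : ∀ (g : G) (B : Set Y), MeasurableSet B → ν ((fun y => g • y) ⁻¹' B) =
      ν ((fun y => ((g : G) : G ⧸ H).out • y) ⁻¹' B) := by
    intro g B hB
    obtain ⟨h, hh⟩ := QuotientGroup.mk_out_eq_mul H g
    rw [hh]
    have e1 : (fun y : Y => (g * (h : G)) • y) ⁻¹' B =
        (fun y => (h : G) • y) ⁻¹' ((fun y => g • y) ⁻¹' B) := by
      ext y
      simp [mul_smul]
    rw [e1, ← Measure.map_apply (hm _) (hm g hB), hν _ h.2]
  refine ⟨ν', ?_, ?_, ?_⟩
  · refine ⟨?_⟩
    rw [happ _ MeasurableSet.univ]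
    simp only [Set.preimage_univ, measure_univ, Finset.sum_const, nsmul_eq_mul, mul_one]
    exact ENNReal.natCast_lt_top _
  · intro h0
    have h1 := happ _ MeasurableSet.univ
    rw [h0] at h1
    simp only [Measure.coe_zero, Pi.zero_apply, Set.preimage_univ, measure_univ,
      Finset.sum_const, nsmul_eq_mul, mul_one, Finset.card_univ] at h1
    exact Fintype.card_ne_zero (α := G ⧸ H) (by exact_mod_cast h1.symm)
  · intro g
    ext B hB
    rw [Measure.map_apply (hm g) hB, happ _ (hm g hB), happ _ hB]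
    refine Fintype.sum_equiv (MulAction.toPerm g) _ _ fun q => ?_
    have e1 : (fun y : Y => q.out • y) ⁻¹' ((fun y => g • y) ⁻¹' B) =
        (fun y => (g * q.out) • y) ⁻¹' B := by
      ext y
      simp [mul_smul]
    rw [e1, hout _ _ hB]
    congr 2
    funext y
    congr 2
    rw [MulAction.toPerm_apply]
    conv_rhs => rw [← QuotientGroup.out_eq' q]
    rfl

/-- a measurable map into a standard Borel space all of whose level events are trivial is a.e.
constant -/
lemma const_of_01 {X Y : Type} [MeasurableSpace X] [MeasurableSpace Y] [StandardBorelSpace Y]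
    [Nonempty Y] (μ : Measure X) (f : X → Y)
    (h : ∀ B : Set Y, MeasurableSet B → μ (f ⁻¹' B) = 0 ∨ μ (f ⁻¹' B)ᶜ = 0) :
    ∃ y, ∀ᵐ x ∂μ, f x = y := by
  have h1 := exists_eventuallyEq_const_of_forall_separating (l := ae μ) (f := f)
    (MeasurableSet : Set Y → Prop) (fun U hU => by
      rcases h U hU with h0 | h0
      · right
        rw [ae_iff]
        have e : {a | ¬ f a ∉ U} = f ⁻¹' U := by
          ext a
          simp
        rw [e]; exact h0
      · left
        rw [ae_iff]
        exact h0)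
  obtain ⟨y, hy⟩ := h1
  exact ⟨y, hy⟩

/-- sets invariant under an infinite set of group elements of a mixing action -/
lemma mix_inf {G X : Type} [Group G] [MeasurableSpace X] (μ : Measure X)
    [IsProbabilityMeasure μ] (act : G → X → X) (hmix : Mixing G μ act) (K : Set G)
    (hK : K.Infinite) (A : Set X) (hA : MeasurableSet A)
    (hinv : ∀ k ∈ K, act k ⁻¹' A =ᵐ[μ] A) : μ A = 0 ∨ μ Aᶜ = 0 := by
  have h1 := hmix A A hA hA
  have h2 : ∃ᶠ g in cofinite, μ.real (A ∩ act g ⁻¹' A) ∈ ({μ.real A} : Set ℝ) := by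
    rw [Filter.frequently_cofinite_iff_infinite]
    refine hK.mono fun k hk => ?_
    show μ.real (A ∩ act k ⁻¹' A) = μ.real A
    have h3 : (A ∩ act k ⁻¹' A : Set X) =ᵐ[μ] A := by
      have := (EventuallyEq.refl (ae μ) A).inter (hinv k hk)
      simpa using this
    simp only [Measure.real]
    rw [measure_congr h3]
  have h3 := isClosed_singleton.mem_of_frequently_of_tendsto h2 h1
  have h4 : μ.real A * μ.real A = μ.real A := h3
  have h5 : μ.real A = 0 ∨ μ.real A = 1 := by
    rcases eq_or_ne (μ.real A) 0 with h | h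
    · exact Or.inl h
    · right
      exact mul_left_cancel₀ h (by rw [h4, mul_one])
  rcases h5 with h | h
  · left
    rwa [measureReal_eq_zero_iff] at h
  · right
    rw [prob_compl_eq_zero_iff hA]
    rw [Measure.real] at h
    have := (ENNReal.toReal_eq_one_iff _).1 h
    exact this

end Pool.Agent.H656.DC.Fin
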