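import Pool.Agent.H656.DC.GStmts

/-!
# Fox calculus for free groups
-/

set_option autoImplicit false

namespace Pool.Agent.H656.DC.Fox

open Pool.Agent.H656.DC

variable {p : ℕ} {ι : Type}

/-- affine permutation `v ↦ g v + [j = i]` -/
noncomputable def aff [DecidableEq ι] (i j : ι) : Equiv.Perm (GA p (FreeGroup ι)) where
  toFun v := el p (FreeGroup.of j) * v + (if j = i then 1 else 0)
  invFun v := el p (FreeGroup.of j)⁻¹ * (v - (if j = i then 1 else 0))
  left_inv v := by
    simp only [add_sub_cancel_right]
    rw [← mul_assoc, el_inv_mul, one_mul]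
  right_inv v := by
    simp only []
    rw [← mul_assoc, el_mul_inv, one_mul, sub_add_cancel]

/-- the affine action of the free group -/
noncomputable def phi [DecidableEq ι] (i : ι) :
    FreeGroup ι →* Equiv.Perm (GA p (FreeGroup ι)) :=
  FreeGroup.lift (aff i)

/-- Fox derivative on group elements -/
noncomputable def dd [DecidableEq ι] (p : ℕ) (i : ι) (g : FreeGroup ι) : GA p (FreeGroup ι) :=
  phi i g 0

lemma phi_apply [DecidableEq ι] (i : ι) (g : FreeGroup ι) :
    ∀ v : GA p (FreeGroup ι), phi i g v = el p g * v + dd p i g := by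
  induction g using FreeGroup.induction_on with
  | C1 => intro v; simp [dd]
  | of j =>
    intro v
    simp [dd, phi, aff]
  | inv_of j _ =>
    intro v
    have h : ∀ w : GA p (FreeGroup ι), phi i (FreeGroup.of j)⁻¹ w =
        el p (FreeGroup.of j)⁻¹ * (w - (if j = i then 1 else 0)) := by
      intro w
      rw [map_inv]
      simp only [phi, FreeGroup.lift_apply_of]
      rfl
    simp only [dd, h]
    rw [zero_sub, mul_sub, mul_neg, sub_eq_add_neg]
  | mul a b ha hb =>
    intro v
    have e1 : dd p i (a * b) = el p a * dd p i b + dd p i a := by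
      simp only [dd, map_mul, Equiv.Perm.mul_apply]
      rw [ha]
      rfl
    rw [map_mul, Equiv.Perm.mul_apply, hb, ha, e1, el_mul, mul_add, mul_assoc, add_assoc]

lemma dd_mul [DecidableEq ι] (i : ι) (a b : FreeGroup ι) :
    dd p i (a * b) = el p a * dd p i b + dd p i a := by
  have : phi (p := p) i (a * b) 0 = phi i a (phi i b 0) := by rw [map_mul]; rfl
  rw [dd, this, phi_apply]
  rfl

lemma dd_of [DecidableEq ι] (i j : ι) : dd p i (FreeGroup.of j) = if j = i then 1 else 0 := by
  simp [dd, phi, aff]

/-- the linear extension of the Fox derivative -/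
noncomputable def DD [DecidableEq ι] (p : ℕ) (i : ι) :
    GA p (FreeGroup ι) →ₗ[ZMod p] GA p (FreeGroup ι) :=
  (Finsupp.lsum (ZMod p) (fun g => LinearMap.toSpanSingleton (ZMod p) _ (dd p i g))).comp
    (MonoidAlgebra.coeffLinearEquiv (ZMod p)).toLinearMap

lemma DD_el [DecidableEq ι] (i : ι) (g : FreeGroup ι) : DD p i (el p g) = dd p i g := by
  simp [DD, el]

theorem main : S_foxFree := by
  classical
  intro p hp ι _ a ha i
  have hmul : ∀ a b : GA p (FreeGroup ι), DD p i (a * b) = a * DD p i b + aug p b • DD p i a := by
    intro a b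
    have haT : a ∈ KS p (⊤ : Subgroup (FreeGroup ι)) := fun g hg => absurd (Subgroup.mem_top g) hg
    have hbT : b ∈ KS p (⊤ : Subgroup (FreeGroup ι)) := fun g hg => absurd (Subgroup.mem_top g) hg
    refine KS_induction (P := fun a => DD p i (a * b) = a * DD p i b + aug p b • DD p i a)
      (by simp) ?_ ?_ ?_ haT
    · intro g _
      refine KS_induction (P := fun b => DD p i (el p g * b) =
        el p g * DD p i b + aug p b • DD p i (el p g)) (by simp) ?_ ?_ ?_ hbT
      · intro h _
        rw [← el_mul, DD_el, DD_el, DD_el, dd_mul, aug_el, one_smul]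
      · intro x y _ _ hx hy
        rw [mul_add, map_add, hx, hy, map_add, map_add, mul_add, add_smul]
        abel
      · intro c x _ hx
        rw [mul_smul_comm, map_smul, hx, map_smul, map_smul, mul_smul_comm, smul_add, smul_eq_mul,
          mul_smul]
    · intro x y _ _ hx hy
      rw [add_mul, map_add, hx, hy, map_add, add_mul, smul_add]
      abel
    · intro c x _ hx
      rw [smul_mul_assoc, map_smul, hx, map_smul, smul_mul_assoc, smul_add, smul_comm c]
  have h1 : ∀ j, DD p i (a j * (el p (FreeGroup.of j) - 1)) = if j = i then a j else 0 := by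
    intro j
    have e1 : DD p i (1 : GA p (FreeGroup ι)) = 0 := by
      rw [← el_one, DD_el]
      have := dd_mul (p := p) i (1 : FreeGroup ι) 1
      rw [mul_one, el_one, one_mul] at this
      simpa using this
    rw [hmul, map_sub, DD_el, e1, dd_of, map_sub, aug_el, map_one, sub_self, zero_smul, add_zero,
      sub_zero]
    split_ifs <;> simp
  have h2 := congrArg (DD p i) ha
  rw [map_sum, map_zero] at h2
  simp only [h1] at h2
  rw [Finset.sum_ite_eq' Finset.univ i a, if_pos (Finset.mem_univ i)] at h2
  exact h2

end Pool.Agent.H656.DC.Fox
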