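import Pool.Agent.H656.DC.EStmts

/-!
# Leaf Free: the Bernoulli measure over `[0,1]` is atomless and essentially free
-/

set_option autoImplicit false

open MeasureTheory Filter Topology

namespace Pool.Agent.H656.DC.Free

instance : NullSingletonClass nu0 := by unfold nu0; infer_instance

theorem diag_null : (nu0.prod nu0) {p : ℝ × ℝ | p.1 = p.2} = 0 := by
  rw [Measure.measure_prod_null (measurableSet_eq_fun measurable_fst measurable_snd)]
  refine Eventually.of_forall fun a => ?_
  show nu0 (Prod.mk a ⁻¹' {p : ℝ × ℝ | p.1 = p.2}) = 0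
  have : Prod.mk a ⁻¹' {p : ℝ × ℝ | p.1 = p.2} = {a} := by
    ext b
    simp only [Set.mem_preimage, Set.mem_ofPred_eq, Set.mem_singleton_iff]
    exact eq_comm
  rw [this, measure_singleton]

theorem main : S_free := by
  intro G _ _
  constructor
  · intro x
    have h1 : (bern G nu0).map (fun y : G → ℝ => y 1) = nu0 := by
      unfold bern
      exact Measure.infinitePi_map_eval (fun _ : G => nu0) 1
    have h2 : bern G nu0 {x} ≤ bern G nu0 ((fun y : G → ℝ => y 1) ⁻¹' {x 1}) := by
      apply measure_mono
      rintro y rfl
      rfl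
    rw [← Measure.map_apply (measurable_pi_apply 1) (measurableSet_singleton _), h1,
      measure_singleton (μ := nu0)] at h2
    exact le_antisymm h2 bot_le
  · intro g hg
    have hne : g⁻¹ ≠ 1 := fun h => hg (inv_eq_one.1 h)
    have h1 : (bern G nu0).map (fun y : G → ℝ => (y g⁻¹, y 1)) = nu0.prod nu0 := by
      unfold bern
      exact Measure.infinitePi_map_eval_prod (P := fun _ : G => nu0) hne
    have h2 : bern G nu0 ((fun y : G → ℝ => (y g⁻¹, y 1)) ⁻¹' {p : ℝ × ℝ | p.1 = p.2}) = 0 := by
      rw [← Measure.map_apply (by fun_prop) (measurableSet_eq_fun measurable_fst measurable_snd),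
        h1]
      exact diag_null
    rw [ae_iff]
    refine measure_mono_null ?_ h2
    intro x hx
    simp only [Set.mem_ofPred_eq, not_not] at hx
    show x g⁻¹ = x 1
    have h3 := congrFun hx 1
    rw [shift_apply, mul_one] at h3
    exact h3

end Pool.Agent.H656.DC.Free
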