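import Mathlib

/-!
# Definitions for the Golod–Shafarevich part of the proof of S14648 (MP_45e9b0_lc)

Everything lives in the group algebra `GA p F = 𝔽_p[F]` of one ambient group `F`.
For a subgroup `M ≤ F`, `KS p M` is `𝔽_p[M] ⊆ 𝔽_p[F]`.
-/

set_option autoImplicit false

namespace Pool.Agent.H656.DC

/-- the group algebra `𝔽_p[F]` -/
abbrev GA (p : ℕ) (F : Type) [Group F] : Type := MonoidAlgebra (ZMod p) F

variable (p : ℕ) {F : Type} [Group F]

/-- a group element as an element of the group algebra -/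
noncomputable def el (g : F) : GA p F := MonoidAlgebra.of (ZMod p) F g

/-- the augmentation `𝔽_p[F] → 𝔽_p` -/
noncomputable def aug : GA p F →ₐ[ZMod p] ZMod p :=
  MonoidAlgebra.lift (ZMod p) (ZMod p) F (1 : F →* ZMod p)

/-- `𝔽_p[M] ⊆ 𝔽_p[F]` for a subgroup `M` of `F`: the elements supported on `M` -/
noncomputable def KS (M : Subgroup F) : Submodule (ZMod p) (GA p F) where
  carrier := {a | ∀ g, g ∉ M → a.coeff g = 0}
  add_mem' := by
    intro a b ha hb g hg
    simp [ha g hg, hb g hg]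
  zero_mem' := by
    intro g _
    simp
  smul_mem' := by
    intro c a ha g hg
    simp [ha g hg]

/-- **Weighted free filtration.** `M ≤ F` is a subgroup with a finite family of generators `y i`
of degrees `n i ≥ 1`; `J k` is the `k`-th piece of the filtration of `𝔽_p[M]` with
`∑ a_i (y_i - 1) ∈ J k ↔ ∀ i, a_i ∈ J (k - n_i)` (this is the Magnus filtration for the free
group `M` with basis `y`). -/
structure WFS (M : Subgroup F) {ι : Type} [Fintype ι] (y : ι → F) (n : ι → ℕ)
    (J : ℕ → Submodule (ZMod p) (GA p F)) : Prop where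
  /-- degrees are positive -/
  pos : ∀ i, 1 ≤ n i
  /-- the `y i` generate `M` -/
  gen : Subgroup.closure (Set.range y) = M
  /-- the augmentation ideal of `𝔽_p[M]` is a free left module on the `y i - 1` -/
  indep : ∀ a : ι → GA p F, (∀ i, a i ∈ KS p M) → ∑ i, a i * (el p (y i) - 1) = 0 → ∀ i, a i = 0
  zero : J 0 = KS p M
  anti : Antitone J
  mul : ∀ k l a b, a ∈ J k → b ∈ J l → a * b ∈ J (k + l)
  aug1 : ∀ a ∈ J 1, aug p a = 0
  geny : ∀ i, el p (y i) - 1 ∈ J (n i)
  split : ∀ k (a : ι → GA p F), (∀ i, a i ∈ KS p M) → ∑ i, a i * (el p (y i) - 1) ∈ J k →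
    ∀ i, a i ∈ J (k - n i)

/-- dimension subgroups `D_m = {g : g - 1 ∈ J m}` (see `mem_Dsub`) -/
def Dsub (J : ℕ → Submodule (ZMod p) (GA p F)) (m : ℕ) : Subgroup F :=
  Subgroup.closure {g | el p g - 1 ∈ J m}

/-- restriction of a filtration to `𝔽_p[H]` -/
noncomputable def Jr (J : ℕ → Submodule (ZMod p) (GA p F)) (H : Subgroup F) :
    ℕ → Submodule (ZMod p) (GA p F) := fun k => J k ⊓ KS p H

/-- conjugation invariance of a filtration under the whole ambient group -/
def Inv (J : ℕ → Submodule (ZMod p) (GA p F)) : Prop :=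
  ∀ (g : F) (k : ℕ) (a : GA p F), a ∈ J k → el p g * a * el p g⁻¹ ∈ J k

/-- `κ(v) = 1 + v + ... + v^(p-1)` -/
noncomputable def kap (v : ℝ) : ℝ := ∑ j ∈ Finset.range p, v ^ j

/-- `M` with filtration `J` is weighted free with total weight `σ = ∑ t^(n i)`. -/
def HasW (M : Subgroup F) (J : ℕ → Submodule (ZMod p) (GA p F)) (t σ : ℝ) : Prop :=
  ∃ (ι : Type) (_ : Fintype ι) (y : ι → F) (n : ι → ℕ), WFS p M y n J ∧ ∑ i, t ^ n i = σ

/-- `R` is the normal closure in `M` of the family `r` -/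
def RelGen {κ : Type} (M : Subgroup F) (r : κ → F) (R : Subgroup F) : Prop :=
  R = Subgroup.closure {g | ∃ m ∈ M, ∃ k, g = m * r k * m⁻¹}

/-- `R` is the normal closure in `M` of a countable family of elements of `M` of positive degrees
with total weight at most `ρ`. -/
def HasR (M : Subgroup F) (J : ℕ → Submodule (ZMod p) (GA p F)) (t : ℝ) (R : Subgroup F)
    (ρ : ℝ) : Prop :=
  ∃ (κ : Type) (_ : Countable κ) (r : κ → F) (d : κ → ℕ),
    (∀ k, r k ∈ M ∧ 1 ≤ d k ∧ el p (r k) - 1 ∈ J (d k)) ∧ RelGen M r R ∧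
    Summable (fun k => t ^ d k) ∧ ∑' k, t ^ d k ≤ ρ

/-- `B` is generated modulo `R` by a finite family of elements of `B` of positive degrees with
total weight at most `ρ`. -/
def HasG (J : ℕ → Submodule (ZMod p) (GA p F)) (t : ℝ) (R B : Subgroup F) (ρ : ℝ) : Prop :=
  ∃ (κ : Type) (_ : Fintype κ) (s : κ → F) (e : κ → ℕ),
    (∀ k, s k ∈ B ∧ 1 ≤ e k ∧ el p (s k) - 1 ∈ J (e k)) ∧
    Subgroup.closure (Set.range s) ⊔ R = B ∧ ∑ k, t ^ e k ≤ ρ

/-- **Stage data**: `M` is a normal subgroup of `F` of `p`-power index, weighted free with total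
weight `σ`, the filtration is `F`-invariant, and `R ≤ M` is the normal closure in `M` of a
countable family of relators of total weight at most `ρ`, with `ρ < σ - 1`
(positive weighted deficiency). -/
structure StgD (M : Subgroup F) (J : ℕ → Submodule (ZMod p) (GA p F)) (t σ ρ : ℝ)
    (R : Subgroup F) : Prop where
  nM : M.Normal
  ind : ∃ k : ℕ, M.index = p ^ k
  t0 : 0 < t
  t1 : t < 1
  W : HasW p M J t σ
  inv : Inv p J
  nR : R.Normal
  rel : HasR p M J t R ρ
  defi : ρ < σ - 1

/-- `R` is a normal subgroup of `F` such that `F/R` has a normal subgroup of `p`-power index with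
a presentation of positive weighted deficiency (with invariant filtration). -/
def Stage (R : Subgroup F) : Prop :=
  ∃ (M : Subgroup F) (J : ℕ → Submodule (ZMod p) (GA p F)) (t σ ρ : ℝ), StgD p M J t σ ρ R

/-! ### basic lemmas -/

section basic
variable {p}

lemma mem_KS {M : Subgroup F} {a : GA p F} : a ∈ KS p M ↔ ∀ g, g ∉ M → a.coeff g = 0 := Iff.rfl

lemma el_mul (g h : F) : el p (g * h) = el p g * el p h := by
  simp [el, MonoidAlgebra.single_mul_single]

@[simp] lemma el_one : el p (1 : F) = 1 := by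
  simp [el, MonoidAlgebra.one_def]

lemma el_coeff [DecidableEq F] (g h : F) : (el p g).coeff h = if g = h then 1 else 0 := by
  simp [el, Finsupp.single_apply]

@[simp] lemma aug_el (g : F) : aug p (el p g) = 1 := by
  simp [aug, el]

lemma el_inv_mul (g : F) : el p g⁻¹ * el p g = 1 := by
  rw [← el_mul]; simp

lemma el_mul_inv (g : F) : el p g * el p g⁻¹ = 1 := by
  rw [← el_mul]; simp

lemma el_mem_KS {M : Subgroup F} {g : F} (hg : g ∈ M) : el p g ∈ KS p M := by
  classical
  intro h hh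
  rw [el_coeff, if_neg]
  rintro rfl
  exact hh hg

lemma one_mem_KS (M : Subgroup F) : (1 : GA p F) ∈ KS p M := by
  rw [← el_one (p := p)]; exact el_mem_KS M.one_mem

lemma el_sub_one_mem_KS {M : Subgroup F} {g : F} (hg : g ∈ M) : el p g - 1 ∈ KS p M :=
  (KS p M).sub_mem (el_mem_KS hg) (one_mem_KS M)

lemma mem_of_el_mem_KS (hp : p ≠ 1) {M : Subgroup F} {g : F} (hg : el p g ∈ KS p M) : g ∈ M := by
  classical
  by_contra h
  have := hg g h
  rw [el_coeff, if_pos rfl] at this
  have : Nontrivial (ZMod p) := ZMod.nontrivial_iff.2 hp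
  simp_all

lemma mem_of_el_sub_one_mem_KS (hp : p ≠ 1) {M : Subgroup F} {g : F}
    (hg : el p g - 1 ∈ KS p M) : g ∈ M := by
  apply mem_of_el_mem_KS hp
  have := (KS p M).add_mem hg (one_mem_KS M)
  simpa using this

/-- `𝔽_p[M]` is spanned by `M`. -/
lemma KS_eq_span (M : Subgroup F) :
    KS p M = Submodule.span (ZMod p) (el p '' (M : Set F)) := by
  apply le_antisymm
  · intro a ha
    have h1 : a = ∑ g ∈ a.coeff.support, a.coeff g • el p g := by
      apply MonoidAlgebra.ext
      classical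
      ext h
      rw [MonoidAlgebra.coeff_sum, Finsupp.finsetSum_apply]
      simp only [MonoidAlgebra.coeff_smul, Finsupp.smul_apply, el_coeff, smul_eq_mul, mul_ite,
        mul_one, mul_zero]
      rw [Finset.sum_ite_eq']
      split_ifs with h2
      · rfl
      · simpa using h2
    rw [h1]
    apply Submodule.sum_mem
    intro g hg
    apply Submodule.smul_mem
    apply Submodule.subset_span
    refine ⟨g, ?_, rfl⟩
    by_contra hgM
    exact (Finsupp.mem_support_iff.1 hg) (ha g hgM)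
  · rw [Submodule.span_le]
    rintro _ ⟨g, hg, rfl⟩
    exact el_mem_KS hg

lemma KS_induction {M : Subgroup F} {P : GA p F → Prop} (h0 : P 0)
    (hel : ∀ g ∈ M, P (el p g)) (hadd : ∀ a b, a ∈ KS p M → b ∈ KS p M → P a → P b → P (a + b))
    (hsmul : ∀ (c : ZMod p) a, a ∈ KS p M → P a → P (c • a)) {a : GA p F} (ha : a ∈ KS p M) :
    P a := by
  have ha' := ha
  rw [KS_eq_span] at ha'
  refine Submodule.span_induction (p := fun x _ => P x) ?_ h0 ?_ ?_ ha'
  · rintro _ ⟨g, hg, rfl⟩
    exact hel g hg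
  · intro x y hx hy hx' hy'
    rw [← KS_eq_span] at hx hy
    exact hadd x y hx hy hx' hy'
  · intro c x hx hx'
    rw [← KS_eq_span] at hx
    exact hsmul c x hx hx'

lemma KS_mul_mem {M : Subgroup F} {a b : GA p F} (ha : a ∈ KS p M) (hb : b ∈ KS p M) :
    a * b ∈ KS p M := by
  refine KS_induction (P := fun a => a * b ∈ KS p M) (by simp) ?_ ?_ ?_ ha
  · intro g hg
    refine KS_induction (P := fun b => el p g * b ∈ KS p M) (by simp) ?_ ?_ ?_ hb
    · intro h hh
      rw [← el_mul]
      exact el_mem_KS (M.mul_mem hg hh)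
    · intro x y _ _ hx hy
      rw [mul_add]
      exact (KS p M).add_mem hx hy
    · intro c x _ hx
      rw [mul_smul_comm]
      exact (KS p M).smul_mem c hx
  · intro x y _ _ hx hy
    rw [add_mul]
    exact (KS p M).add_mem hx hy
  · intro c x _ hx
    rw [smul_mul_assoc]
    exact (KS p M).smul_mem c hx

lemma KS_mono {M N : Subgroup F} (h : M ≤ N) : KS p M ≤ KS p N :=
  fun _ ha g hg => ha g (fun hgM => hg (h hgM))

/-- decomposition of group elements minus one along generators -/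
lemma exists_decomp_el {M : Subgroup F} {ι : Type} [Fintype ι] {y : ι → F}
    (hy : Subgroup.closure (Set.range y) = M) {g : F} (hg : g ∈ M) :
    ∃ b : ι → GA p F, (∀ i, b i ∈ KS p M) ∧ el p g - 1 = ∑ i, b i * (el p (y i) - 1) := by
  classical
  have hyM : ∀ i, y i ∈ M := fun i => hy ▸ Subgroup.subset_closure ⟨i, rfl⟩
  rw [← hy] at hg
  refine Subgroup.closure_induction (p := fun g _ => ∃ b : ι → GA p F,
    (∀ i, b i ∈ KS p M) ∧ el p g - 1 = ∑ i, b i * (el p (y i) - 1)) ?_ ?_ ?_ ?_ hg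
  · rintro _ ⟨i, rfl⟩
    refine ⟨fun j => if j = i then 1 else 0, ?_, ?_⟩
    · intro j
      simp only []
      split_ifs
      · exact one_mem_KS M
      · exact (KS p M).zero_mem
    · simp
  · exact ⟨0, fun i => (KS p M).zero_mem, by simp⟩
  · rintro a b ha hb ⟨u, hu, hu'⟩ ⟨v, hv, hv'⟩
    rw [hy] at ha hb
    refine ⟨fun i => el p a * v i + u i, fun i => (KS p M).add_mem
      (KS_mul_mem (el_mem_KS ha) (hv i)) (hu i), ?_⟩
    have : el p (a * b) - 1 = el p a * (el p b - 1) + (el p a - 1) := by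
      rw [el_mul]; noncomm_ring
    rw [this, hu', hv', Finset.mul_sum, ← Finset.sum_add_distrib]
    refine Finset.sum_congr rfl fun i _ => ?_
    rw [add_mul, mul_assoc]
  · rintro a ha ⟨u, hu, hu'⟩
    rw [hy] at ha
    refine ⟨fun i => -(el p a⁻¹ * u i), fun i => (KS p M).neg_mem
      (KS_mul_mem (el_mem_KS (M.inv_mem ha)) (hu i)), ?_⟩
    have : el p a⁻¹ - 1 = -(el p a⁻¹ * (el p a - 1)) := by
      rw [mul_sub, el_inv_mul]; simp
    rw [this, hu', Finset.mul_sum, ← Finset.sum_neg_distrib]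
    refine Finset.sum_congr rfl fun i _ => ?_
    rw [neg_mul, mul_assoc]

/-- every element of `𝔽_p[M]` is `aug a • 1 + ∑ b_i (y_i - 1)` -/
lemma exists_decomp {M : Subgroup F} {ι : Type} [Fintype ι] {y : ι → F}
    (hy : Subgroup.closure (Set.range y) = M) {a : GA p F} (ha : a ∈ KS p M) :
    ∃ b : ι → GA p F, (∀ i, b i ∈ KS p M) ∧
      a = aug p a • (1 : GA p F) + ∑ i, b i * (el p (y i) - 1) := by
  refine KS_induction (P := fun a => ∃ b : ι → GA p F, (∀ i, b i ∈ KS p M) ∧
      a = aug p a • (1 : GA p F) + ∑ i, b i * (el p (y i) - 1)) ?_ ?_ ?_ ?_ ha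
  · exact ⟨0, fun i => (KS p M).zero_mem, by simp⟩
  · intro g hg
    obtain ⟨b, hb, hb'⟩ := exists_decomp_el (p := p) hy hg
    refine ⟨b, hb, ?_⟩
    rw [← hb']
    simp
  · rintro a b _ _ ⟨u, hu, hu'⟩ ⟨v, hv, hv'⟩
    refine ⟨u + v, fun i => (KS p M).add_mem (hu i) (hv i), ?_⟩
    conv_lhs => rw [hu', hv']
    simp only [map_add, add_smul, Pi.add_apply, add_mul, Finset.sum_add_distrib]
    abel
  · rintro c a _ ⟨u, hu, hu'⟩
    refine ⟨c • u, fun i => (KS p M).smul_mem c (hu i), ?_⟩
    conv_lhs => rw [hu']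
    simp only [map_smul, smul_add, Pi.smul_apply, smul_mul_assoc, Finset.smul_sum, smul_smul,
      smul_eq_mul]

lemma exists_decomp_zero {M : Subgroup F} {ι : Type} [Fintype ι] {y : ι → F}
    (hy : Subgroup.closure (Set.range y) = M) {a : GA p F} (ha : a ∈ KS p M)
    (ha0 : aug p a = 0) :
    ∃ b : ι → GA p F, (∀ i, b i ∈ KS p M) ∧ a = ∑ i, b i * (el p (y i) - 1) := by
  obtain ⟨b, hb, hb'⟩ := exists_decomp hy ha
  exact ⟨b, hb, by rw [hb', ha0]; simp⟩

end basic

namespace WFS
variable {p} {M : Subgroup F} {ι : Type} [Fintype ι] {y : ι → F} {n : ι → ℕ}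
  {J : ℕ → Submodule (ZMod p) (GA p F)}

lemma memM (h : WFS p M y n J) (i : ι) : y i ∈ M := h.gen ▸ Subgroup.subset_closure ⟨i, rfl⟩

lemma le_KS (h : WFS p M y n J) (k : ℕ) : J k ≤ KS p M := h.zero ▸ h.anti (Nat.zero_le k)

/-- every augmentation-zero element of `𝔽_p[M]` lies in `J 1` -/
lemma mem_one (h : WFS p M y n J) {a : GA p F} (ha : a ∈ KS p M) (ha0 : aug p a = 0) :
    a ∈ J 1 := by
  obtain ⟨b, hb, hb'⟩ := exists_decomp_zero h.gen ha ha0
  rw [hb']
  apply Submodule.sum_mem
  intro i _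
  have h1 : b i ∈ J 0 := h.zero ▸ hb i
  have h2 := h.mul 0 (n i) _ _ h1 (h.geny i)
  exact h.anti (by have := h.pos i; omega) h2

lemma el_sub_one_mem_one (h : WFS p M y n J) {g : F} (hg : g ∈ M) : el p g - 1 ∈ J 1 :=
  h.mem_one (el_sub_one_mem_KS hg) (by simp)

lemma left_mul (h : WFS p M y n J) {k : ℕ} {a b : GA p F} (ha : a ∈ KS p M) (hb : b ∈ J k) :
    a * b ∈ J k := by
  have := h.mul 0 k a b (h.zero ▸ ha) hb
  simpa using this

lemma right_mul (h : WFS p M y n J) {k : ℕ} {a b : GA p F} (ha : a ∈ J k) (hb : b ∈ KS p M) :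
    a * b ∈ J k := by
  have := h.mul k 0 a b ha (h.zero ▸ hb)
  simpa using this

/-- membership in `Dsub` is what it should be -/
lemma mem_Dsub (h : WFS p M y n J) (hp : p ≠ 1) {m : ℕ} {g : F} :
    g ∈ Dsub p J m ↔ el p g - 1 ∈ J m := by
  constructor
  · intro hg
    refine Subgroup.closure_induction (p := fun g _ => el p g - 1 ∈ J m) ?_ ?_ ?_ ?_ hg
    · intro x hx; exact hx
    · simp
    · intro a b _ _ ha hb
      have haM : el p a ∈ KS p M := by
        have := (KS p M).add_mem (h.le_KS m ha) (one_mem_KS M)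
        simpa using this
      have : el p (a * b) - 1 = el p a * (el p b - 1) + (el p a - 1) := by
        rw [el_mul]; noncomm_ring
      rw [this]
      exact (J m).add_mem (h.left_mul haM hb) ha
    · intro a _ ha
      have haM : a ∈ M := mem_of_el_sub_one_mem_KS hp (h.le_KS m ha)
      have : el p a⁻¹ - 1 = -(el p a⁻¹ * (el p a - 1)) := by
        rw [mul_sub, el_inv_mul]; simp
      rw [this]
      exact (J m).neg_mem (h.left_mul (el_mem_KS (M.inv_mem haM)) ha)
  · intro hg
    exact Subgroup.subset_closure hg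

/-- the filtration is the smallest multiplicative filtration with `y i - 1` in degree `n i` -/
lemma min (h : WFS p M y n J) {J' : ℕ → Submodule (ZMod p) (GA p F)} (h0 : KS p M ≤ J' 0)
    (hanti : Antitone J') (hmul : ∀ k l a b, a ∈ J' k → b ∈ J' l → a * b ∈ J' (k + l))
    (hgen : ∀ i, el p (y i) - 1 ∈ J' (n i)) (k : ℕ) : J k ≤ J' k := by
  induction k using Nat.strong_induction_on with
  | _ k ih =>
    rcases Nat.eq_zero_or_pos k with rfl | hk
    · rw [h.zero]; exact h0
    · intro a ha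
      have ha1 : a ∈ J 1 := h.anti hk ha
      obtain ⟨b, hb, rfl⟩ := exists_decomp_zero h.gen (h.le_KS k ha) (h.aug1 a ha1)
      have hs := h.split k b hb ha
      apply Submodule.sum_mem
      intro i _
      have h1 := ih (k - n i) (by have := h.pos i; omega) (hs i)
      exact hanti (by omega) (hmul _ _ _ _ h1 (hgen i))

lemma Dsub_le (h : WFS p M y n J) (hp : p ≠ 1) (m : ℕ) : Dsub p J m ≤ M := fun _ hg =>
  mem_of_el_sub_one_mem_KS hp (h.le_KS m ((h.mem_Dsub hp).1 hg))

end WFS

end Pool.Agent.H656.DC
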