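import Pool.Agent.H656.DC.GStmts

/-!
# The Golod–Shafarevich inequality (leaf `GS`)
-/

set_option autoImplicit false

namespace Pool.Agent.H656.DC.GS

open Module Finset

/-! ## Linear algebra -/

theorem count {K U V W : Type*} [Field K] [AddCommGroup U] [Module K U] [AddCommGroup V]
    [Module K V] [AddCommGroup W] [Module K W] (g : U →ₗ[K] V) (f : V →ₗ[K] W)
    (SU : Submodule K U) (SV : Submodule K V) (SW : Submodule K W)
    [FiniteDimensional K (U ⧸ SU)] [FiniteDimensional K (V ⧸ SV)] [FiniteDimensional K (W ⧸ SW)]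
    (hg : SU ≤ SV.comap g) (hf : SV ≤ SW.comap f)
    (hex : ∀ v, f v ∈ SW → ∃ u, v - g u ∈ SV) (w : W) (hw : ∀ v, w - f v ∉ SW) :
    finrank K (V ⧸ SV) + 1 ≤ finrank K (U ⧸ SU) + finrank K (W ⧸ SW) := by
  set f' := SV.mapQ SW f hf with hf'
  set g' := SU.mapQ SV g hg with hg'
  have h1 := LinearMap.finrank_range_add_finrank_ker f'
  have h2 : LinearMap.ker f' ≤ LinearMap.range g' := by
    intro x hx
    obtain ⟨v, rfl⟩ := Submodule.Quotient.mk_surjective _ x
    rw [LinearMap.mem_ker, hf', Submodule.mapQ_apply, Submodule.Quotient.mk_eq_zero] at hx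
    obtain ⟨u, hu⟩ := hex v hx
    refine ⟨Submodule.Quotient.mk u, ?_⟩
    rw [hg', Submodule.mapQ_apply, eq_comm, Submodule.Quotient.eq]
    exact hu
  have h3 : finrank K (LinearMap.ker f') ≤ finrank K (LinearMap.range g') :=
    Submodule.finrank_mono h2
  have h4 : finrank K (LinearMap.range g') ≤ finrank K (U ⧸ SU) := LinearMap.finrank_range_le g'
  have h5 : LinearMap.range f' ≠ ⊤ := by
    intro h
    have h6 : (Submodule.Quotient.mk w : W ⧸ SW) ∈ LinearMap.range f' := by
      rw [h]; exact Submodule.mem_top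
    obtain ⟨x, hx⟩ := h6
    obtain ⟨v, rfl⟩ := Submodule.Quotient.mk_surjective _ x
    rw [hf', Submodule.mapQ_apply, eq_comm, Submodule.Quotient.eq] at hx
    exact hw v hx
  have h6 := Submodule.finrank_lt h5
  omega

/-! ## The power series argument -/

theorem shift_sum (a : ℕ → ℕ) (ha0 : a 0 = 0) (t : ℝ) (q N : ℕ) :
    ∑ m ∈ range N, (a (m - q) : ℝ) * t ^ m = t ^ q * ∑ m ∈ range (N - q), (a m : ℝ) * t ^ m := by
  induction N with
  | zero => simp
  | succ N ih =>
    rw [sum_range_succ, ih]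
    by_cases h : N < q
    · have h1 : N - q = 0 := by omega
      have h2 : N + 1 - q = 0 := by omega
      rw [h1, h2, ha0]
      simp
    · have h2 : N + 1 - q = (N - q) + 1 := by omega
      rw [h2, sum_range_succ, mul_add]
      congr 1
      have h3 : t ^ N = t ^ q * t ^ (N - q) := by
        rw [← pow_add]; congr 1; omega
      rw [h3]; ring

theorem series {ι κ : Type} [Fintype ι] (n : ι → ℕ) (d : κ → ℕ) (t ρ : ℝ) (ht0 : 0 < t)
    (ht1 : t < 1) (a : ℕ → ℕ) (C : ℕ) (hC : ∀ m, a m ≤ C) (ha0 : a 0 = 0)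
    (hsum : Summable fun k => t ^ d k) (hρ : ∑' k, t ^ d k ≤ ρ) (F : ℕ → Finset κ)
    (hF : ∀ m k, k ∈ F m ↔ d k < m)
    (hineq : ∀ m, 1 ≤ m → ∑ i, a (m - n i) + 1 ≤ ∑ k ∈ F m, a (m - d k) + a m)
    (hρ' : ρ < ∑ i, t ^ n i - 1) : False := by
  have hs : Summable fun m : ℕ => (a m : ℝ) * t ^ m := by
    refine Summable.of_nonneg_of_le (fun m => by positivity) (fun m => ?_)
      ((summable_geometric_of_lt_one ht0.le ht1).mul_left (C : ℝ))
    have : (a m : ℝ) ≤ C := by exact_mod_cast hC m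
    exact mul_le_mul_of_nonneg_right this (by positivity)
  set A : ℕ → ℝ := fun N => ∑ m ∈ range N, (a m : ℝ) * t ^ m with hA
  set S : ℝ := ∑' m : ℕ, (a m : ℝ) * t ^ m with hS
  have hlim : Filter.Tendsto A Filter.atTop (nhds S) := hs.hasSum.tendsto_sum_nat
  have hS0 : 0 ≤ S := tsum_nonneg fun m => by positivity
  have hA0 : ∀ N, 0 ≤ A N := fun N => sum_nonneg fun m _ => by positivity
  have hAmono : Monotone A := by
    intro N N' h
    exact sum_le_sum_of_subset_of_nonneg (range_mono h) fun m _ _ => by positivity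
  have key : ∀ N : ℕ, 2 ≤ N → ∑ i, t ^ n i * A (N - n i) + t ≤ ρ * A N + A N := by
    intro N hN
    have h1 : ∀ m : ℕ, ((∑ i, a (m - n i) + (if m = 0 then 0 else 1) : ℕ) : ℝ) * t ^ m ≤
        ((∑ k ∈ F m, a (m - d k) + a m : ℕ) : ℝ) * t ^ m := by
      intro m
      refine mul_le_mul_of_nonneg_right ?_ (by positivity)
      rcases Nat.eq_zero_or_pos m with h | h
      · subst h
        simp [ha0]
      · have h2 := hineq m h
        rw [if_neg (by omega)]
        exact_mod_cast h2
    have h2 : ∑ m ∈ range N, ((∑ i, a (m - n i) + (if m = 0 then 0 else 1) : ℕ) : ℝ) * t ^ m ≤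
        ∑ m ∈ range N, ((∑ k ∈ F m, a (m - d k) + a m : ℕ) : ℝ) * t ^ m :=
      sum_le_sum fun m _ => h1 m
    have h3 : ∑ m ∈ range N, ((∑ i, a (m - n i) + (if m = 0 then 0 else 1) : ℕ) : ℝ) * t ^ m =
        ∑ i, t ^ n i * A (N - n i) + ∑ m ∈ range N, (if m = 0 then (0 : ℝ) else 1) * t ^ m := by
      push_cast
      simp only [add_mul, sum_add_distrib, sum_mul]
      congr 1
      rw [sum_comm]
      refine sum_congr rfl fun i _ => ?_
      rw [shift_sum a ha0 t (n i) N]
    have h4 : t ≤ ∑ m ∈ range N, (if m = 0 then (0 : ℝ) else 1) * t ^ m := by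
      have h5 : (if (1 : ℕ) = 0 then (0 : ℝ) else 1) * t ^ 1 = t := by norm_num
      refine h5.symm.le.trans ?_
      exact single_le_sum (f := fun m : ℕ => (if m = 0 then (0 : ℝ) else 1) * t ^ m)
        (fun m _ => by split_ifs <;> positivity) (mem_range.2 (show 1 < N by omega))
    have h6 : ∑ m ∈ range N, ((∑ k ∈ F m, a (m - d k) + a m : ℕ) : ℝ) * t ^ m ≤
        ρ * A N + A N := by
      push_cast
      simp only [add_mul, sum_add_distrib]
      refine add_le_add ?_ le_rfl
      calc ∑ m ∈ range N, (∑ k ∈ F m, (a (m - d k) : ℝ)) * t ^ m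
          ≤ ∑ m ∈ range N, (∑ k ∈ F N, (a (m - d k) : ℝ)) * t ^ m := by
            refine sum_le_sum fun m hm => mul_le_mul_of_nonneg_right ?_ (by positivity)
            refine sum_le_sum_of_subset_of_nonneg ?_ fun k _ _ => by positivity
            intro k hk
            rw [hF] at hk ⊢
            have := mem_range.1 hm
            omega
        _ = ∑ k ∈ F N, t ^ d k * A (N - d k) := by
            simp only [sum_mul]
            rw [sum_comm]
            refine sum_congr rfl fun k _ => ?_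
            rw [shift_sum a ha0 t (d k) N]
        _ ≤ ∑ k ∈ F N, t ^ d k * A N := by
            refine sum_le_sum fun k _ => mul_le_mul_of_nonneg_left ?_ (by positivity)
            exact hAmono (Nat.sub_le _ _)
        _ = (∑ k ∈ F N, t ^ d k) * A N := by rw [sum_mul]
        _ ≤ ρ * A N := by
            refine mul_le_mul_of_nonneg_right ?_ (hA0 N)
            exact (hsum.sum_le_tsum _ fun k _ => by positivity).trans hρ
    rw [h3] at h2
    linarith
  have hlimi : ∀ q : ℕ, Filter.Tendsto (fun N => A (N - q)) Filter.atTop (nhds S) := fun q =>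
    hlim.comp (Filter.tendsto_sub_atTop_nat q)
  have hL : Filter.Tendsto (fun N => ∑ i, t ^ n i * A (N - n i) + t) Filter.atTop
      (nhds (∑ i, t ^ n i * S + t)) := by
    refine Filter.Tendsto.add ?_ tendsto_const_nhds
    exact tendsto_finsetSum _ fun i _ => (hlimi (n i)).const_mul _
  have hR : Filter.Tendsto (fun N => ρ * A N + A N) Filter.atTop (nhds (ρ * S + S)) :=
    (hlim.const_mul _).add hlim
  have hfin : ∑ i, t ^ n i * S + t ≤ ρ * S + S := by
    refine le_of_tendsto_of_tendsto hL hR ?_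
    filter_upwards [Filter.eventually_ge_atTop 2] with N hN
    exact key N hN
  rw [← sum_mul] at hfin
  nlinarith [mul_nonneg (sub_nonneg.2 hρ'.le) hS0]

/-! ## The ideal of the relators -/

section alg

variable {p : ℕ} {F : Type} [Group F] {M : Subgroup F} {ι κ : Type} [Fintype ι]
  {y : ι → F} {n : ι → ℕ} {J : ℕ → Submodule (ZMod p) (GA p F)} {r : κ → F} {d : κ → ℕ}

/-- the two-sided ideal of `𝔽_p[M]` generated by the relators -/
noncomputable def Id (p : ℕ) (M : Subgroup F) (r : κ → F) : Submodule (ZMod p) (GA p F) :=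
  Submodule.span (ZMod p) {x | ∃ k, ∃ g ∈ M, ∃ h ∈ M, x = el p g * (el p (r k) - 1) * el p h}

theorem Id_le (hr : ∀ k, r k ∈ M) : Id p M r ≤ KS p M := by
  unfold Id
  rw [Submodule.span_le]
  rintro _ ⟨k, g, hg, h, hh, rfl⟩
  exact KS_mul_mem (KS_mul_mem (el_mem_KS hg) (el_sub_one_mem_KS (hr k))) (el_mem_KS hh)

theorem Id_left {a x : GA p F} (ha : a ∈ KS p M) (hx : x ∈ Id p M r) : a * x ∈ Id p M r := by
  refine KS_induction (P := fun a => a * x ∈ Id p M r) (by simp) ?_ ?_ ?_ ha
  · intro g hg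
    unfold Id at hx
    refine Submodule.span_induction (p := fun x _ => el p g * x ∈ Id p M r) ?_ (by simp) ?_ ?_ hx
    · rintro _ ⟨k, g', hg', h, hh, rfl⟩
      refine Submodule.subset_span ⟨k, g * g', M.mul_mem hg hg', h, hh, ?_⟩
      rw [el_mul]; simp only [mul_assoc]
    · intro x z _ _ hx hz
      rw [mul_add]; exact (Id p M r).add_mem hx hz
    · intro c x _ hx
      rw [mul_smul_comm]; exact (Id p M r).smul_mem c hx
  · intro u v _ _ hu hv
    rw [add_mul]; exact (Id p M r).add_mem hu hv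
  · intro c u _ hu
    rw [smul_mul_assoc]; exact (Id p M r).smul_mem c hu

theorem Id_right {a x : GA p F} (ha : a ∈ KS p M) (hx : x ∈ Id p M r) : x * a ∈ Id p M r := by
  refine KS_induction (P := fun a => x * a ∈ Id p M r) (by simp) ?_ ?_ ?_ ha
  · intro g hg
    unfold Id at hx
    refine Submodule.span_induction (p := fun x _ => x * el p g ∈ Id p M r) ?_ (by simp) ?_ ?_ hx
    · rintro _ ⟨k, g', hg', h, hh, rfl⟩
      refine Submodule.subset_span ⟨k, g', hg', h * g, M.mul_mem hh hg, ?_⟩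
      rw [el_mul]; simp only [mul_assoc]
    · intro x z _ _ hx hz
      rw [add_mul]; exact (Id p M r).add_mem hx hz
    · intro c x _ hx
      rw [smul_mul_assoc]; exact (Id p M r).smul_mem c hx
  · intro u v _ _ hu hv
    rw [mul_add]; exact (Id p M r).add_mem hu hv
  · intro c u _ hu
    rw [mul_smul_comm]; exact (Id p M r).smul_mem c hu

theorem Id_aug {x : GA p F} (hx : x ∈ Id p M r) : aug p x = 0 := by
  unfold Id at hx
  refine Submodule.span_induction (p := fun x _ => aug p x = 0) ?_ (by simp) ?_ ?_ hx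
  · rintro _ ⟨k, g', hg', h, hh, rfl⟩
    simp
  · intro x z _ _ hx hz
    rw [map_add, hx, hz, add_zero]
  · intro c x _ hx
    rw [map_smul, hx, smul_zero]

theorem rel_mem_Id (k : κ) : el p (r k) - 1 ∈ Id p M r := by
  refine Submodule.subset_span ⟨k, 1, M.one_mem, 1, M.one_mem, ?_⟩
  simp

theorem Id_decomp (W : WFS p M y n J) {x : GA p F} (hx : x ∈ Id p M r) :
    ∃ (T : Finset κ) (b : κ → GA p F) (u : ι → GA p F), (∀ k, b k ∈ KS p M) ∧
      (∀ k, k ∉ T → b k = 0) ∧ (∀ i, u i ∈ Id p M r) ∧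
      x = ∑ k ∈ T, b k * (el p (r k) - 1) + ∑ i, u i * (el p (y i) - 1) := by
  classical
  unfold Id at hx
  refine Submodule.span_induction (p := fun x _ => ∃ (T : Finset κ) (b : κ → GA p F)
    (u : ι → GA p F), (∀ k, b k ∈ KS p M) ∧ (∀ k, k ∉ T → b k = 0) ∧ (∀ i, u i ∈ Id p M r) ∧
      x = ∑ k ∈ T, b k * (el p (r k) - 1) + ∑ i, u i * (el p (y i) - 1)) ?_ ?_ ?_ ?_ hx
  · rintro _ ⟨k, g, hg, h, hh, rfl⟩
    obtain ⟨c, hc, hc'⟩ := exists_decomp_el (p := p) W.gen hh
    have hgr : el p g * (el p (r k) - 1) ∈ Id p M r := Id_left (el_mem_KS hg) (rel_mem_Id k)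
    refine ⟨{k}, fun k' => if k' = k then el p g else 0,
      fun i => el p g * (el p (r k) - 1) * c i, ?_, ?_, ?_, ?_⟩
    · intro k'
      show (if k' = k then el p g else 0) ∈ KS p M
      split_ifs
      · exact el_mem_KS hg
      · exact (KS p M).zero_mem
    · intro k' hk'
      rw [Finset.mem_singleton] at hk'
      exact if_neg hk'
    · intro i
      exact Id_right (hc i) hgr
    · rw [Finset.sum_singleton]
      show el p g * (el p (r k) - 1) * el p h = (if k = k then el p g else 0) * (el p (r k) - 1) +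
        ∑ i, el p g * (el p (r k) - 1) * c i * (el p (y i) - 1)
      rw [if_pos rfl]
      have h1 : ∑ i, el p g * (el p (r k) - 1) * c i * (el p (y i) - 1) =
          el p g * (el p (r k) - 1) * (el p h - 1) := by
        rw [hc', Finset.mul_sum]
        exact Finset.sum_congr rfl fun i _ => by rw [mul_assoc]
      rw [h1]
      noncomm_ring
  · refine ⟨∅, 0, 0, fun k => (KS p M).zero_mem, fun k _ => rfl, fun i => (Id p M r).zero_mem, ?_⟩
    simp
  · rintro x z _ _ ⟨T, b, u, h1, h2, h3, h4⟩ ⟨T', b', u', h1', h2', h3', h4'⟩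
    refine ⟨T ∪ T', b + b', u + u', fun k => (KS p M).add_mem (h1 k) (h1' k), ?_,
      fun i => (Id p M r).add_mem (h3 i) (h3' i), ?_⟩
    · intro k hk
      rw [Finset.mem_union, not_or] at hk
      rw [Pi.add_apply, h2 k hk.1, h2' k hk.2, add_zero]
    · have e1 : ∑ k ∈ T ∪ T', b k * (el p (r k) - 1) = ∑ k ∈ T, b k * (el p (r k) - 1) := by
        symm
        refine Finset.sum_subset Finset.subset_union_left ?_
        intro k _ hk
        rw [h2 k hk, zero_mul]
      have e2 : ∑ k ∈ T ∪ T', b' k * (el p (r k) - 1) = ∑ k ∈ T', b' k * (el p (r k) - 1) := by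
        symm
        refine Finset.sum_subset Finset.subset_union_right ?_
        intro k _ hk
        rw [h2' k hk, zero_mul]
      simp only [Pi.add_apply, add_mul, Finset.sum_add_distrib]
      rw [e1, e2, h4, h4']
      abel
  · rintro c x _ ⟨T, b, u, h1, h2, h3, h4⟩
    refine ⟨T, c • b, c • u, fun k => (KS p M).smul_mem c (h1 k), ?_,
      fun i => (Id p M r).smul_mem c (h3 i), ?_⟩
    · intro k hk
      rw [Pi.smul_apply, h2 k hk, smul_zero]
    · rw [h4]
      simp only [Pi.smul_apply, smul_mul_assoc, smul_add, Finset.smul_sum]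

theorem sup_mul (W : WFS p M y n J) {a b c : ℕ} (hc : c ≤ a + b) {x z : GA p F}
    (hx : x ∈ Id p M r ⊔ J a) (hz : z ∈ J b) : x * z ∈ Id p M r ⊔ J c := by
  obtain ⟨u, hu, v, hv, rfl⟩ := Submodule.mem_sup.1 hx
  rw [add_mul]
  refine (Id p M r ⊔ J c).add_mem ?_ ?_
  · exact Submodule.mem_sup_left (Id_right (W.le_KS b hz) hu)
  · exact Submodule.mem_sup_right (W.anti hc (W.mul a b _ _ hv hz))

theorem mul_sup (W : WFS p M y n J) {m : ℕ} {x z : GA p F}
    (hx : x ∈ KS p M) (hz : z ∈ Id p M r ⊔ J m) : x * z ∈ Id p M r ⊔ J m := by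
  obtain ⟨u, hu, v, hv, rfl⟩ := Submodule.mem_sup.1 hz
  rw [mul_add]
  refine (Id p M r ⊔ J m).add_mem ?_ ?_
  · exact Submodule.mem_sup_left (Id_left hx hu)
  · exact Submodule.mem_sup_right (W.left_mul hx hv)

/-- the subspace `I + J m` of `𝔽_p[M]` -/
noncomputable def SS (p : ℕ) (M : Subgroup F) (r : κ → F) (J : ℕ → Submodule (ZMod p) (GA p F))
    (m : ℕ) : Submodule (ZMod p) (KS p M) := (Id p M r ⊔ J m).comap (KS p M).subtype

theorem mem_SS {m : ℕ} {x : KS p M} : x ∈ SS p M r J m ↔ (x : GA p F) ∈ Id p M r ⊔ J m :=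
  Iff.rfl

/-- the map `(a_i) ↦ ∑ a_i (y_i - 1)` -/
noncomputable def fmap (W : WFS p M y n J) : (ι → KS p M) →ₗ[ZMod p] KS p M where
  toFun a := ⟨∑ i, (a i : GA p F) * (el p (y i) - 1), (KS p M).sum_mem fun i _ =>
    KS_mul_mem (a i).2 (el_sub_one_mem_KS (W.memM i))⟩
  map_add' a b := by
    apply Subtype.ext
    simp [add_mul, Finset.sum_add_distrib]
  map_smul' c a := by
    apply Subtype.ext
    simp [Finset.smul_sum]

/-- the map `(b_k) ↦ (∑ b_k r_{k,i})_i` -/
noncomputable def gmap (T : Finset κ) (c : κ → ι → GA p F) (hc : ∀ k i, c k i ∈ KS p M) :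
    (T → KS p M) →ₗ[ZMod p] (ι → KS p M) where
  toFun b := fun i => ⟨∑ k, (b k : GA p F) * c k i, (KS p M).sum_mem fun k _ =>
    KS_mul_mem (b k).2 (hc k i)⟩
  map_add' a b := by
    funext i
    apply Subtype.ext
    simp [add_mul, Finset.sum_add_distrib]
  map_smul' c a := by
    funext i
    apply Subtype.ext
    simp [Finset.smul_sum]

theorem exact_step (W : WFS p M y n J) (hr : ∀ k, r k ∈ M ∧ 1 ≤ d k ∧ el p (r k) - 1 ∈ J (d k))
    (c : κ → ι → GA p F) (hc : ∀ k i, c k i ∈ KS p M)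
    (hc' : ∀ k, el p (r k) - 1 = ∑ i, c k i * (el p (y i) - 1)) (m : ℕ) (hm : 1 ≤ m)
    (T : Finset κ) (hT : ∀ k, k ∈ T ↔ d k < m) (v : ι → KS p M)
    (hv : fmap W v ∈ SS p M r J m) :
    ∃ u, v - gmap T c hc u ∈ Submodule.pi Set.univ (fun i => SS p M r J (m - n i)) := by
  classical
  have hcJ : ∀ k i, c k i ∈ J (d k - n i) := fun k i =>
    W.split (d k) (c k) (hc k) (by rw [← hc']; exact (hr k).2.2) i
  rw [mem_SS] at hv
  obtain ⟨x, hx, j, hj, hxj⟩ := Submodule.mem_sup.1 hv
  obtain ⟨T', b, u, hb, hb0, hu, hxe⟩ := Id_decomp W hx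
  obtain ⟨w, hw, hje⟩ := exists_decomp_zero W.gen (W.le_KS m hj) (W.aug1 j (W.anti hm hj))
  have hwJ : ∀ i, w i ∈ J (m - n i) := W.split m w hw (hje ▸ hj)
  have hfv : ((fmap W v : KS p M) : GA p F) = ∑ i, (v i : GA p F) * (el p (y i) - 1) := rfl
  have hmain : ∀ i, (v i : GA p F) - (∑ k ∈ T', b k * c k i + u i + w i) = 0 := by
    apply W.indep
    · intro i
      refine (KS p M).sub_mem (v i).2 ?_
      refine (KS p M).add_mem ((KS p M).add_mem ?_ (Id_le (fun k => (hr k).1) (hu i))) (hw i)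
      exact (KS p M).sum_mem fun k _ => KS_mul_mem (hb k) (hc k i)
    · simp only [sub_mul, Finset.sum_sub_distrib, add_mul, Finset.sum_add_distrib]
      rw [← hfv, ← hxj, hxe, hje]
      have e1 : ∑ i, (∑ k ∈ T', b k * c k i) * (el p (y i) - 1) =
          ∑ k ∈ T', b k * (el p (r k) - 1) := by
        simp only [Finset.sum_mul]
        rw [Finset.sum_comm]
        refine Finset.sum_congr rfl fun k _ => ?_
        rw [hc' k, Finset.mul_sum]
        exact Finset.sum_congr rfl fun i _ => by rw [mul_assoc]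
      rw [e1]
      abel
  refine ⟨fun k => ⟨b k, hb k⟩, ?_⟩
  rw [Submodule.mem_pi]
  intro i _
  rw [mem_SS]
  have e2 : ((v - gmap T c hc fun k => ⟨b k, hb k⟩) i : GA p F) =
      (v i : GA p F) - ∑ k : T, b k * c k i := rfl
  rw [e2]
  have e3 : ∑ k : T, b k * c k i = ∑ k ∈ T, b k * c k i :=
    Finset.sum_coe_sort T (fun k => b k * c k i)
  have e4 : (v i : GA p F) = ∑ k ∈ T', b k * c k i + u i + w i := sub_eq_zero.1 (hmain i)
  have e5 : ∑ k ∈ T', b k * c k i - ∑ k ∈ T, b k * c k i =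
      ∑ k ∈ T' \ T, b k * c k i := by
    have h1 : ∑ k ∈ T', b k * c k i = ∑ k ∈ T' ∪ T, b k * c k i := by
      refine Finset.sum_subset Finset.subset_union_left ?_
      intro k _ hk
      rw [hb0 k hk, zero_mul]
    have h2 : T' ∪ T = (T' \ T) ∪ T := by
      rw [Finset.sdiff_union_self_eq_union]
    rw [h1, h2, Finset.sum_union Finset.sdiff_disjoint]
    abel
  have e6 : (v i : GA p F) - ∑ k : T, b k * c k i =
      ∑ k ∈ T' \ T, b k * c k i + u i + w i := by
    rw [e3, e4, ← e5]; abel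
  rw [e6]
  refine (Id p M r ⊔ J (m - n i)).add_mem ((Id p M r ⊔ J (m - n i)).add_mem ?_ ?_) ?_
  · refine (Id p M r ⊔ J (m - n i)).sum_mem fun k hk => ?_
    have hk' : ¬ d k < m := fun h => (Finset.mem_sdiff.1 hk).2 ((hT k).2 h)
    refine Submodule.mem_sup_right (W.left_mul (hb k) (W.anti ?_ (hcJ k i)))
    omega
  · exact Submodule.mem_sup_left (hu i)
  · exact Submodule.mem_sup_right (hwJ i)

/-! ## Finiteness and the bound by the index -/

theorem mem_T (W : WFS p M y n J) (hp : p ≠ 1) (hr : ∀ k, r k ∈ M) {R : Subgroup F}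
    (hR : RelGen M r R) (m : ℕ) {h : F} (hh : h ∈ Dsub p J m ⊔ R) :
    h ∈ M ∧ el p h - 1 ∈ Id p M r ⊔ J m := by
  let T : Subgroup F :=
    { carrier := {h | h ∈ M ∧ el p h - 1 ∈ Id p M r ⊔ J m}
      mul_mem' := by
        rintro a b ⟨ha, ha'⟩ ⟨hb, hb'⟩
        refine ⟨M.mul_mem ha hb, ?_⟩
        have : el p (a * b) - 1 = el p a * (el p b - 1) + (el p a - 1) := by
          rw [el_mul]; noncomm_ring
        rw [this]
        exact (Id p M r ⊔ J m).add_mem (mul_sup W (el_mem_KS ha) hb') ha'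
      one_mem' := ⟨M.one_mem, by simp⟩
      inv_mem' := by
        rintro a ⟨ha, ha'⟩
        refine ⟨M.inv_mem ha, ?_⟩
        have : el p a⁻¹ - 1 = -(el p a⁻¹ * (el p a - 1)) := by
          rw [mul_sub, el_inv_mul]; simp
        rw [this]
        exact (Id p M r ⊔ J m).neg_mem (mul_sup W (el_mem_KS (M.inv_mem ha)) ha') }
  have hD : Dsub p J m ≤ T := by
    unfold Dsub
    rw [Subgroup.closure_le]
    intro g hg
    exact ⟨mem_of_el_sub_one_mem_KS hp (W.le_KS m hg), Submodule.mem_sup_right hg⟩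
  have hRT : R ≤ T := by
    rw [hR, Subgroup.closure_le]
    rintro _ ⟨g, hg, k, rfl⟩
    refine ⟨M.mul_mem (M.mul_mem hg (hr k)) (M.inv_mem hg), Submodule.mem_sup_left ?_⟩
    refine Submodule.subset_span ⟨k, g, hg, g⁻¹, M.inv_mem hg, ?_⟩
    rw [el_mul, el_mul, mul_sub, sub_mul, mul_one, el_mul_inv]
  exact (sup_le hD hRT) hh

theorem fin_bound (W : WFS p M y n J) [Fact p.Prime] (hr : ∀ k, r k ∈ M) {R : Subgroup F}
    (hR : RelGen M r R) (m : ℕ) (hi : (Dsub p J m ⊔ R).relIndex M ≠ 0) :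
    Module.Finite (ZMod p) (KS p M ⧸ SS p M r J m) ∧
      finrank (ZMod p) (KS p M ⧸ SS p M r J m) ≤ (Dsub p J m ⊔ R).relIndex M := by
  classical
  have hp : p ≠ 1 := (Fact.out : p.Prime).ne_one
  set L := Dsub p J m ⊔ R with hL
  have hfi : (L.subgroupOf M).FiniteIndex := ⟨hi⟩
  have : Fintype (M ⧸ L.subgroupOf M) := Subgroup.fintypeQuotientOfFiniteIndex
  have hcard : Fintype.card (M ⧸ L.subgroupOf M) = L.relIndex M := by
    rw [← Nat.card_eq_fintype_card]; rfl
  let f : (M ⧸ L.subgroupOf M) → (KS p M ⧸ SS p M r J m) := fun q =>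
    Submodule.Quotient.mk ⟨el p (q.out : F), el_mem_KS q.out.2⟩
  have hspan : Submodule.span (ZMod p) (Set.range f) = ⊤ := by
    rw [eq_top_iff]
    rintro x -
    obtain ⟨⟨v, hv⟩, rfl⟩ := Submodule.Quotient.mk_surjective _ x
    refine KS_induction (P := fun v => ∀ hv : v ∈ KS p M, (Submodule.Quotient.mk ⟨v, hv⟩ :
      KS p M ⧸ SS p M r J m) ∈ Submodule.span (ZMod p) (Set.range f)) ?_ ?_ ?_ ?_ hv hv
    · intro h0
      have : (Submodule.Quotient.mk ⟨0, h0⟩ : KS p M ⧸ SS p M r J m) = 0 := by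
        rw [Submodule.Quotient.mk_eq_zero, mem_SS]
        exact (Id p M r ⊔ J m).zero_mem
      rw [this]
      exact Submodule.zero_mem _
    · intro g hg hv
      let g' : M := ⟨g, hg⟩
      have h1 : (Submodule.Quotient.mk ⟨el p g, hv⟩ : KS p M ⧸ SS p M r J m) =
          f (QuotientGroup.mk g') := by
        rw [Submodule.Quotient.eq, mem_SS]
        set q : M ⧸ L.subgroupOf M := QuotientGroup.mk g' with hq
        have h2 : (QuotientGroup.mk q.out : M ⧸ L.subgroupOf M) = QuotientGroup.mk g' := by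
          rw [QuotientGroup.out_eq']
        rw [QuotientGroup.eq] at h2
        have h3 : (q.out : F)⁻¹ * g ∈ L := h2
        have h4 := (mem_T W hp hr hR m h3).2
        have h5 : el p g - el p (q.out : F) =
            el p (q.out : F) * (el p ((q.out : F)⁻¹ * g) - 1) := by
          rw [mul_sub, ← el_mul, mul_inv_cancel_left, mul_one]
        show el p g - el p (q.out : F) ∈ _
        rw [h5]
        exact mul_sup W (el_mem_KS q.out.2) h4
      rw [h1]
      exact Submodule.subset_span ⟨_, rfl⟩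
    · intro u w hu hw ihu ihw huw
      have : (Submodule.Quotient.mk ⟨u + w, huw⟩ : KS p M ⧸ SS p M r J m) =
          Submodule.Quotient.mk ⟨u, hu⟩ + Submodule.Quotient.mk ⟨w, hw⟩ := rfl
      rw [this]
      exact Submodule.add_mem _ (ihu hu) (ihw hw)
    · intro c u hu ihu hcu
      have : (Submodule.Quotient.mk ⟨c • u, hcu⟩ : KS p M ⧸ SS p M r J m) =
          c • Submodule.Quotient.mk ⟨u, hu⟩ := rfl
      rw [this]
      exact Submodule.smul_mem _ c (ihu hu)
  constructor
  · rw [Module.finite_def, ← hspan]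
    exact Submodule.fg_span (Set.finite_range f)
  · have h1 := finrank_range_le_card (R := ZMod p) f
    rw [Set.finrank, hspan, finrank_top, hcard] at h1
    exact h1

end alg

theorem main (hD : S_Dsub) : S_GS := by
  intro p _ F _ M R J t σ ρ ht0 ht1 hW hRel hdef B
  classical
  obtain ⟨ι, _, y, n, W, hσ⟩ := hW
  obtain ⟨κ, _, r, d, hr, hR, hsum, hρ⟩ := hRel
  have hp : p ≠ 1 := (Fact.out : p.Prime).ne_one
  by_contra hcon
  push Not at hcon
  have hidx : ∀ m, (Dsub p J m ⊔ R).relIndex M ≠ 0 := by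
    intro m h0
    obtain ⟨k, hk⟩ := (hD p F M ι y n J W).1 m
    have h1 := Subgroup.relIndex_dvd_of_le_left M (le_sup_left : Dsub p J m ≤ Dsub p J m ⊔ R)
    rw [h0, hk, zero_dvd_iff] at h1
    exact absurd h1 (pow_ne_zero k (Fact.out : p.Prime).ne_zero)
  have hfb := fun m => fin_bound W (fun k => (hr k).1) hR m (hidx m)
  have hfin : ∀ m, Module.Finite (ZMod p) (KS p M ⧸ SS p M r J m) := fun m => (hfb m).1
  have hfree : ∀ m, Module.Free (ZMod p) (KS p M ⧸ SS p M r J m) := fun m =>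
    Module.Free.of_divisionRing (ZMod p) (KS p M ⧸ SS p M r J m)
  set a : ℕ → ℕ := fun m => finrank (ZMod p) (KS p M ⧸ SS p M r J m) with ha
  have haB : ∀ m, a m ≤ B := fun m => (hfb m).2.trans (hcon m).le
  have ha0 : a 0 = 0 := by
    have h1 : SS p M r J 0 = ⊤ := by
      rw [eq_top_iff]
      rintro x -
      rw [mem_SS]
      refine Submodule.mem_sup_right ?_
      rw [W.zero]
      exact x.2
    show finrank (ZMod p) (KS p M ⧸ SS p M r J 0) = 0
    rw [h1]
    have : Subsingleton (KS p M ⧸ (⊤ : Submodule (ZMod p) (KS p M))) :=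
      Submodule.Quotient.subsingleton_iff.2 rfl
    exact Module.finrank_zero_of_subsingleton
  -- the finite sets of relators of degree `< m`
  have hfinset : ∀ m, {k | d k < m}.Finite := by
    intro m
    have h1 := hsum.tendsto_cofinite_zero
    have h2 : ∀ᶠ k in Filter.cofinite, t ^ d k < t ^ m :=
      h1.eventually (gt_mem_nhds (pow_pos ht0 m))
    refine (Filter.eventually_cofinite.1 h2).subset ?_
    intro k hk
    show ¬ t ^ d k < t ^ m
    rw [not_lt]
    exact pow_le_pow_of_le_one ht0.le ht1.le (le_of_lt hk)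
  have hc : ∀ k, ∃ b : ι → GA p F, (∀ i, b i ∈ KS p M) ∧
      el p (r k) - 1 = ∑ i, b i * (el p (y i) - 1) := fun k =>
    exists_decomp_el W.gen (hr k).1
  choose c hcK hce using hc
  refine series n d t ρ ht0 ht1 a B haB ha0 hsum hρ (fun m => (hfinset m).toFinset)
    (fun m k => by simp) ?_ (by rw [hσ]; exact hdef)
  intro m hm
  set T := (hfinset m).toFinset with hT
  have hTm : ∀ k, k ∈ T ↔ d k < m := fun k => by simp [hT]
  let SU : Submodule (ZMod p) (T → KS p M) :=
    Submodule.pi Set.univ (fun k : T => SS p M r J (m - d k))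
  let SV : Submodule (ZMod p) (ι → KS p M) :=
    Submodule.pi Set.univ (fun i => SS p M r J (m - n i))
  let eU := Submodule.quotientPi (fun k : T => SS p M r J (m - d k))
  let eV := Submodule.quotientPi (fun i => SS p M r J (m - n i))
  have fU : Module.Finite (ZMod p) ((T → KS p M) ⧸ SU) := Module.Finite.equiv eU.symm
  have fV : Module.Finite (ZMod p) ((ι → KS p M) ⧸ SV) := Module.Finite.equiv eV.symm
  have hU : finrank (ZMod p) ((T → KS p M) ⧸ SU) = ∑ k ∈ T, a (m - d k) := by
    rw [eU.finrank_eq, Module.finrank_pi_fintype]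
    exact Finset.sum_coe_sort T (fun k => a (m - d k))
  have hV : finrank (ZMod p) ((ι → KS p M) ⧸ SV) = ∑ i, a (m - n i) := by
    rw [eV.finrank_eq, Module.finrank_pi_fintype]
  have hcJ : ∀ k i, c k i ∈ J (d k - n i) := fun k i =>
    W.split (d k) (c k) (hcK k) (by rw [← hce]; exact (hr k).2.2) i
  have key := count (gmap T c hcK) (fmap W) SU SV (SS p M r J m) ?_ ?_
    (fun v hv => exact_step W hr c hcK hce m hm T hTm v hv) ⟨1, one_mem_KS M⟩ ?_
  · rw [hU, hV] at key
    exact key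
  · intro b hb
    rw [Submodule.mem_comap, Submodule.mem_pi]
    intro i _
    rw [mem_SS]
    show ∑ k : T, (b k : GA p F) * c k i ∈ Id p M r ⊔ J (m - n i)
    refine (Id p M r ⊔ J (m - n i)).sum_mem fun k _ => ?_
    have hk : d (k : κ) < m := (hTm k).1 k.2
    exact sup_mul W (by omega) (hb k (Set.mem_univ k)) (hcJ k i)
  · intro v hv
    rw [Submodule.mem_comap, mem_SS]
    show ∑ i, (v i : GA p F) * (el p (y i) - 1) ∈ Id p M r ⊔ J m
    refine (Id p M r ⊔ J m).sum_mem fun i _ => ?_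
    exact sup_mul W (by omega) (hv i (Set.mem_univ i)) (W.geny i)
  · intro v hv
    rw [mem_SS] at hv
    have h1 : aug p (((⟨1, one_mem_KS M⟩ : KS p M) - fmap W v : KS p M) : GA p F) = 0 := by
      obtain ⟨x, hx, j, hj, hxj⟩ := Submodule.mem_sup.1 hv
      rw [← hxj, map_add, Id_aug hx, W.aug1 j (W.anti hm hj), add_zero]
    have h2 : (((⟨1, one_mem_KS M⟩ : KS p M) - fmap W v : KS p M) : GA p F) =
        1 - ∑ i, (v i : GA p F) * (el p (y i) - 1) := rfl
    rw [h2, map_sub, map_one, map_sum] at h1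
    simp only [map_mul, map_sub, aug_el, map_one, sub_self, mul_zero, Finset.sum_const_zero,
      sub_zero] at h1
    exact one_ne_zero h1

end Pool.Agent.H656.DC.GS
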