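import Pool.Agent.H656.DC.GStmts

/-!
# Leaf Gen of project DC (helper282 for helper656): S_gen and S_relgen
-/

set_option autoImplicit false

open scoped commutatorElement

namespace Pool.Agent.H656.DC.Gen

section

variable {G : Type} [Group G]

theorem icomm_succ (x y : G) (j : ℕ) :
    icomm x (j + 1) y = icomm x j y * (x * (icomm x j y)⁻¹ * x⁻¹) := by
  show ⁅icomm x j y, x⁆ = _
  rw [commutatorElement_def]
  group

theorem conj_icomm (x y : G) (j : ℕ) :
    x * icomm x j y * x⁻¹ = (icomm x (j + 1) y)⁻¹ * icomm x j y := by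
  rw [icomm_succ]
  group

theorem conj_succ (x y : G) (k i : ℕ) :
    x ^ (k + 1) * icomm x i y * (x ^ (k + 1))⁻¹ =
      (x ^ k * icomm x (i + 1) y * (x ^ k)⁻¹)⁻¹ * (x ^ k * icomm x i y * (x ^ k)⁻¹) := by
  have h := conj_icomm x y i
  have e : x ^ (k + 1) * icomm x i y * (x ^ (k + 1))⁻¹ =
      x ^ k * (x * icomm x i y * x⁻¹) * (x ^ k)⁻¹ := by
    rw [pow_succ]
    group
  rw [e, h]
  group

variable (T' : Subgroup G) (x : G)

theorem claim1 (p : ℕ) (y : G) (hz : ∀ j < p, icomm x j y ∈ T') :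
    ∀ k i : ℕ, i + k < p → x ^ k * icomm x i y * (x ^ k)⁻¹ ∈ T' := by
  intro k
  induction k with
  | zero =>
    intro i hi
    rw [pow_zero, one_mul, inv_one, mul_one]
    exact hz i (by omega)
  | succ k ih =>
    intro i hi
    rw [conj_succ]
    exact T'.mul_mem (T'.inv_mem (ih (i + 1) (by omega))) (ih i (by omega))

theorem claim2 (p : ℕ) (y : G) (hz : ∀ j < p, icomm x j y ∈ T') :
    ∀ k i : ℕ, i + k = p → x ^ k * icomm x i y * (x ^ k)⁻¹ ∈ T' → icomm x p y ∈ T' := by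
  intro k
  induction k with
  | zero =>
    intro i hi h
    rw [pow_zero, one_mul, inv_one, mul_one] at h
    have : i = p := by omega
    rwa [this] at h
  | succ k ih =>
    intro i hi h
    rw [conj_succ] at h
    have h1 := claim1 T' x p y hz k i (by omega)
    have h2 := (T'.mul_mem_cancel_right h1).1 h
    exact ih (i + 1) (by omega) (T'.inv_mem_iff.1 h2)

/-- the commutator chain is stable under conjugation by `x` -/
theorem chain (p : ℕ) (y : G) (hz : ∀ j < p, icomm x j y ∈ T')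
    (hp : x ^ p * y * (x ^ p)⁻¹ ∈ T') : ∀ j < p, x * icomm x j y * x⁻¹ ∈ T' := by
  intro j hj
  rw [conj_icomm]
  refine T'.mul_mem (T'.inv_mem ?_) (hz j hj)
  rcases Nat.lt_or_ge (j + 1) p with h | h
  · exact hz _ h
  · have h1 : j + 1 = p := by omega
    rw [h1]
    exact claim2 T' x p y hz p 0 (by omega) hp

theorem pow_norm (hA : ∀ t ∈ T', x * t * x⁻¹ ∈ T') (k : ℕ) :
    ∀ t ∈ T', x ^ k * t * (x ^ k)⁻¹ ∈ T' := by
  induction k with
  | zero =>
    intro t ht
    rw [pow_zero, one_mul, inv_one, mul_one]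
    exact ht
  | succ k ih =>
    intro t ht
    have e : x ^ (k + 1) * t * (x ^ (k + 1))⁻¹ = x ^ k * (x * t * x⁻¹) * (x ^ k)⁻¹ := by
      rw [pow_succ]
      group
    rw [e]
    exact ih _ (hA t ht)

theorem inv_norm (p : ℕ) (hp : 1 ≤ p) (hA : ∀ t ∈ T', x * t * x⁻¹ ∈ T')
    (hC : ∀ t ∈ T', (x ^ p)⁻¹ * t * x ^ p ∈ T') : ∀ t ∈ T', x⁻¹ * t * x ∈ T' := by
  intro t ht
  have h1 := hC _ (pow_norm T' x hA (p - 1) t ht)
  have e : (x ^ p)⁻¹ * (x ^ (p - 1) * t * (x ^ (p - 1))⁻¹) * x ^ p = x⁻¹ * t * x := by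
    have e1 : x ^ p = x ^ (p - 1) * x := by
      rw [← pow_succ, Nat.sub_add_cancel hp]
    rw [e1]
    group
  rwa [e] at h1

theorem zpow_norm (p : ℕ) (hp : 1 ≤ p) (hA : ∀ t ∈ T', x * t * x⁻¹ ∈ T')
    (hC : ∀ t ∈ T', (x ^ p)⁻¹ * t * x ^ p ∈ T') (i : ℤ) :
    ∀ t ∈ T', x ^ i * t * (x ^ i)⁻¹ ∈ T' := by
  have hB := inv_norm T' x p hp hA hC
  induction i with
  | zero =>
    intro t ht
    rw [zpow_zero, one_mul, inv_one, mul_one]
    exact ht
  | succ i ih =>
    intro t ht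
    have e : x ^ ((i : ℤ) + 1) * t * (x ^ ((i : ℤ) + 1))⁻¹ =
        x ^ (i : ℤ) * (x * t * x⁻¹) * (x ^ (i : ℤ))⁻¹ := by
      rw [zpow_add_one]
      group
    rw [e]
    exact ih _ (hA t ht)
  | pred i ih =>
    intro t ht
    have e : x ^ (-(i : ℤ) - 1) * t * (x ^ (-(i : ℤ) - 1))⁻¹ =
        x ^ (-(i : ℤ)) * (x⁻¹ * t * x) * (x ^ (-(i : ℤ)))⁻¹ := by
      rw [zpow_sub_one]
      group
    rw [e]
    exact ih _ (hB t ht)

end

section

variable {G : Type} [Group G] (p : ℕ) [hp : Fact p.Prime] (M H : Subgroup G) (x : G)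

theorem normal_of (hn : ∀ b ∈ M, ∀ h ∈ H, b * h * b⁻¹ ∈ H) : (H.subgroupOf M).Normal := by
  constructor
  intro h hh g
  rw [Subgroup.mem_subgroupOf] at hh ⊢
  exact hn g g.2 h hh

theorem pow_mem (hn : ∀ b ∈ M, ∀ h ∈ H, b * h * b⁻¹ ∈ H) (hi : H.relIndex M = p) (hx : x ∈ M) :
    x ^ p ∈ H := by
  haveI := normal_of M H hn
  have h1 := Subgroup.pow_index_mem (H.subgroupOf M) (⟨x, hx⟩ : M)
  have h2 : (H.subgroupOf M).index = p := hi
  rw [h2, Subgroup.mem_subgroupOf] at h1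
  exact h1

theorem decomp (hn : ∀ b ∈ M, ∀ h ∈ H, b * h * b⁻¹ ∈ H) (hi : H.relIndex M = p) (hx : x ∈ M)
    (hxH : x ∉ H) (m : G) (hm : m ∈ M) : ∃ (i : ℤ), ∃ h ∈ H, m = x ^ i * h := by
  haveI := normal_of M H hn
  have h2 : Nat.card (M ⧸ H.subgroupOf M) = p := hi
  have h3 : ((⟨x, hx⟩ : M) : M ⧸ H.subgroupOf M) ≠ 1 := by
    intro h
    rw [QuotientGroup.eq_one_iff, Subgroup.mem_subgroupOf] at h
    exact hxH h
  have h4 := zpowers_eq_top_of_prime_card h2 h3
  have h5 : ((⟨m, hm⟩ : M) : M ⧸ H.subgroupOf M) ∈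
      Subgroup.zpowers ((⟨x, hx⟩ : M) : M ⧸ H.subgroupOf M) := by
    rw [h4]
    trivial
  obtain ⟨i, hi'⟩ := Subgroup.mem_zpowers_iff.1 h5
  refine ⟨i, x ^ (-i) * m, ?_, by group⟩
  rw [← QuotientGroup.mk_zpow] at hi'
  have h6 := QuotientGroup.eq.1 hi'
  rw [Subgroup.mem_subgroupOf] at h6
  have h7 : (((⟨x, hx⟩ : M) ^ i)⁻¹ * (⟨m, hm⟩ : M) : M) = (⟨x ^ (-i) * m, M.mul_mem (M.zpow_mem hx _) hm⟩ : M) := by
    apply Subtype.ext
    show (x ^ i)⁻¹ * m = x ^ (-i) * m
    rw [zpow_neg]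
  rw [h7] at h6
  exact h6

end

theorem main : S_gen := by
  intro p hp G _ B H x T hB hHB hn hi hxH hT
  have hp1 : 1 ≤ p := hp.out.one_lt.le
  have hxB : x ∈ B := by
    rw [← hB]
    exact Subgroup.subset_closure (Set.mem_insert _ _)
  have hxp : x ^ p ∈ H := pow_mem p B H x hn hi hxB
  set T' := Subgroup.closure (insert (x ^ p) {g | ∃ y ∈ T, ∃ j < p, g = icomm x j y}) with hT'
  have hxpT : x ^ p ∈ T' := Subgroup.subset_closure (Set.mem_insert _ _)
  have hzT : ∀ y ∈ T, ∀ j < p, icomm x j y ∈ T' := fun y hy j hj =>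
    Subgroup.subset_closure (Set.mem_insert_of_mem _ ⟨y, hy, j, hj, rfl⟩)
  have hle : T' ≤ H := by
    rw [hT', Subgroup.closure_le]
    rintro g (rfl | ⟨y, hy, j, -, rfl⟩)
    · exact hxp
    · induction j with
      | zero => exact hT hy
      | succ j ih =>
        rw [icomm_succ]
        exact H.mul_mem ih (hn x hxB _ (H.inv_mem ih))
  apply le_antisymm hle
  have hA : ∀ t ∈ T', x * t * x⁻¹ ∈ T' := by
    intro t ht
    rw [hT'] at ht
    induction ht using Subgroup.closure_induction with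
    | mem g hg =>
      rcases hg with rfl | ⟨y, hy, j, hj, rfl⟩
      · have e : x * x ^ p * x⁻¹ = x ^ p := by
          rw [← pow_succ', pow_succ]
          group
        rw [e]
        exact hxpT
      · refine chain T' x p y (hzT y hy) ?_ j hj
        exact T'.mul_mem (T'.mul_mem hxpT (hzT y hy 0 (by omega))) (T'.inv_mem hxpT)
    | one =>
      rw [mul_one, mul_inv_cancel]
      exact T'.one_mem
    | mul a b _ _ ha hb =>
      have e : x * (a * b) * x⁻¹ = (x * a * x⁻¹) * (x * b * x⁻¹) := by group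
      rw [e]
      exact T'.mul_mem ha hb
    | inv a _ ha =>
      have e : x * a⁻¹ * x⁻¹ = (x * a * x⁻¹)⁻¹ := by group
      rw [e]
      exact T'.inv_mem ha
  have hz := zpow_norm T' x p hp1 hA
    (fun t ht => T'.mul_mem (T'.mul_mem (T'.inv_mem hxpT) ht) hxpT)
  have hdec : ∀ b ∈ B, ∃ i : ℤ, ∃ t ∈ T', b = x ^ i * t := by
    intro b hb
    rw [← hB] at hb
    induction hb using Subgroup.closure_induction with
    | mem g hg =>
      rcases hg with rfl | hg
      · exact ⟨1, 1, T'.one_mem, by rw [zpow_one, mul_one]⟩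
      · exact ⟨0, g, hzT g hg 0 (by omega), by rw [zpow_zero, one_mul]⟩
    | one => exact ⟨0, 1, T'.one_mem, by rw [zpow_zero, mul_one]⟩
    | mul a b _ _ ha hb =>
      obtain ⟨i, t, ht, rfl⟩ := ha
      obtain ⟨j, u, hu, rfl⟩ := hb
      refine ⟨i + j, x ^ (-j) * t * (x ^ (-j))⁻¹ * u, T'.mul_mem (hz _ t ht) hu, ?_⟩
      rw [zpow_add, zpow_neg]
      group
    | inv a _ ha =>
      obtain ⟨i, t, ht, rfl⟩ := ha
      refine ⟨-i, x ^ i * t⁻¹ * (x ^ i)⁻¹, hz _ _ (T'.inv_mem ht), ?_⟩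
      rw [zpow_neg]
      group
  intro h hh
  obtain ⟨i, t, ht, rfl⟩ := hdec h (hHB hh)
  have hxi : x ^ i ∈ H := (H.mul_mem_cancel_right (hle ht)).1 hh
  have hpi : (p : ℤ) ∣ i := by
    by_contra hnd
    apply hxH
    have hcop : IsCoprime i (p : ℤ) := by
      rw [isCoprime_comm]
      exact (Nat.prime_iff_prime_int.1 hp.out).coprime_iff_not_dvd.2 hnd
    obtain ⟨a, b, hab⟩ := hcop
    have e : x = (x ^ i) ^ a * (x ^ p) ^ b := by
      rw [← zpow_mul, ← zpow_natCast x p, ← zpow_mul, ← zpow_add, mul_comm i a, mul_comm (p : ℤ) b,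
        hab, zpow_one]
    rw [e]
    exact H.mul_mem (H.zpow_mem hxi a) (H.zpow_mem hxp b)
  obtain ⟨m, rfl⟩ := hpi
  rw [zpow_mul, zpow_natCast]
  exact T'.mul_mem (T'.zpow_mem hxpT m) ht

theorem main2 : S_relgen := by
  intro p hp G _ M H R x κ r hHM hn hi hxM hxH hr hR
  have hp1 : 1 ≤ p := hp.out.one_lt.le
  have hxp : x ^ p ∈ H := pow_mem p M H x hn hi hxM
  unfold RelGen at hR ⊢
  set T' := Subgroup.closure {g : G | ∃ m ∈ H, ∃ k : κ × Fin p, g = m * icomm x k.2 (r k.1) * m⁻¹}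
    with hT'
  have hgen : ∀ m ∈ H, ∀ k, ∀ j < p, m * icomm x j (r k) * m⁻¹ ∈ T' := fun m hm k j hj =>
    Subgroup.subset_closure ⟨m, hm, (k, ⟨j, hj⟩), rfl⟩
  have hz0 : ∀ k, ∀ j < p, icomm x j (r k) ∈ T' := fun k j hj => by
    have := hgen 1 H.one_mem k j hj
    rwa [one_mul, inv_one, mul_one] at this
  -- `T'` is normalised by `H`
  have hH : ∀ h ∈ H, ∀ t ∈ T', h * t * h⁻¹ ∈ T' := by
    intro h hh t ht
    rw [hT'] at ht
    induction ht using Subgroup.closure_induction with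
    | mem g hg =>
      obtain ⟨m, hm, k, rfl⟩ := hg
      have e : h * (m * icomm x k.2 (r k.1) * m⁻¹) * h⁻¹ =
          (h * m) * icomm x k.2 (r k.1) * (h * m)⁻¹ := by group
      rw [e]
      exact hgen _ (H.mul_mem hh hm) k.1 k.2 k.2.2
    | one =>
      rw [mul_one, mul_inv_cancel]
      exact T'.one_mem
    | mul a b _ _ ha hb =>
      have e : h * (a * b) * h⁻¹ = (h * a * h⁻¹) * (h * b * h⁻¹) := by group
      rw [e]
      exact T'.mul_mem ha hb
    | inv a _ ha =>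
      have e : h * a⁻¹ * h⁻¹ = (h * a * h⁻¹)⁻¹ := by group
      rw [e]
      exact T'.inv_mem ha
  have hA : ∀ t ∈ T', x * t * x⁻¹ ∈ T' := by
    intro t ht
    rw [hT'] at ht
    induction ht using Subgroup.closure_induction with
    | mem g hg =>
      obtain ⟨m, hm, k, rfl⟩ := hg
      have h1 := chain T' x p (r k.1) (hz0 k.1) (hH _ hxp _ (hz0 k.1 0 (by omega))) k.2 k.2.2
      have h2 := hH _ (hn x hxM m hm) _ h1
      have e : x * m * x⁻¹ * (x * icomm x k.2 (r k.1) * x⁻¹) * (x * m * x⁻¹)⁻¹ =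
          x * (m * icomm x k.2 (r k.1) * m⁻¹) * x⁻¹ := by group
      rwa [e] at h2
    | one =>
      rw [mul_one, mul_inv_cancel]
      exact T'.one_mem
    | mul a b _ _ ha hb =>
      have e : x * (a * b) * x⁻¹ = (x * a * x⁻¹) * (x * b * x⁻¹) := by group
      rw [e]
      exact T'.mul_mem ha hb
    | inv a _ ha =>
      have e : x * a⁻¹ * x⁻¹ = (x * a * x⁻¹)⁻¹ := by group
      rw [e]
      exact T'.inv_mem ha
  have hz := zpow_norm T' x p hp1 hA (fun t ht => by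
    have := hH _ (H.inv_mem hxp) t ht
    rwa [inv_inv] at this)
  apply le_antisymm
  · rw [hR, Subgroup.closure_le]
    rintro g ⟨m, hm, k, rfl⟩
    obtain ⟨i, h, hh, rfl⟩ := decomp p M H x hn hi hxM hxH m hm
    have e : x ^ i * h * r k * (x ^ i * h)⁻¹ = x ^ i * (h * r k * h⁻¹) * (x ^ i)⁻¹ := by group
    rw [e]
    exact hz i _ (hH h hh _ (hz0 k 0 (by omega)))
  · -- `R` is normalised by `M`
    have hRM : ∀ h ∈ M, ∀ t ∈ R, h * t * h⁻¹ ∈ R := by
      intro h hh t ht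
      rw [hR] at ht
      induction ht using Subgroup.closure_induction with
      | mem g hg =>
        obtain ⟨m, hm, k, rfl⟩ := hg
        have e : h * (m * r k * m⁻¹) * h⁻¹ = (h * m) * r k * (h * m)⁻¹ := by group
        rw [e, hR]
        exact Subgroup.subset_closure ⟨h * m, M.mul_mem hh hm, k, rfl⟩
      | one =>
        rw [mul_one, mul_inv_cancel]
        exact R.one_mem
      | mul a b _ _ ha hb =>
        have e : h * (a * b) * h⁻¹ = (h * a * h⁻¹) * (h * b * h⁻¹) := by group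
        rw [e]
        exact R.mul_mem ha hb
      | inv a _ ha =>
        have e : h * a⁻¹ * h⁻¹ = (h * a * h⁻¹)⁻¹ := by group
        rw [e]
        exact R.inv_mem ha
    have hzR : ∀ k, ∀ j, icomm x j (r k) ∈ R := by
      intro k j
      induction j with
      | zero =>
        rw [hR]
        refine Subgroup.subset_closure ⟨1, M.one_mem, k, ?_⟩
        rw [one_mul, inv_one, mul_one]
        rfl
      | succ j ih =>
        rw [icomm_succ]
        exact R.mul_mem ih (hRM x hxM _ (R.inv_mem ih))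
    rw [hT', Subgroup.closure_le]
    rintro g ⟨m, hm, k, rfl⟩
    exact hRM m (hHM hm) _ (hzR k.1 k.2)

end Pool.Agent.H656.DC.Gen
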