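import Pool.Agent.H656.DC.GStmts
import Pool.Agent.H656.DC.EStmts

/-!
# Assembly of the group part
-/

set_option autoImplicit false

open scoped commutatorElement

namespace Pool.Agent.H656.DC.GroupMain

open Pool.Agent.H656.DC

lemma stage_unb (hGS : S_GS) (hD : S_Dsub) (p : ℕ) [hp : Fact p.Prime] (F : Type) [Group F]
    (R : Subgroup F) (hR : Stage p R) : Unb p R := by
  obtain ⟨M, J, t, σ, ρ, hst⟩ := hR
  intro B
  obtain ⟨m, hm⟩ := hGS p F M R J t σ ρ hst.t0 hst.t1 hst.W hst.rel hst.defi B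
  obtain ⟨ι, _, y, n, hw, hσ⟩ := hst.W
  obtain ⟨d1, d2, d3, d4, d5⟩ := hD p F M ι y n J hw
  have hRM : R ≤ M := by
    obtain ⟨κ, _, r, d, h1, h2, _⟩ := hst.rel
    rw [h2, Subgroup.closure_le]
    rintro g ⟨m, hm, k, rfl⟩
    exact M.mul_mem (M.mul_mem hm (h1 k).1) (M.inv_mem hm)
  have hDM := hw.Dsub_le hp.out.one_lt.ne' m
  have hDn : (Dsub p J m).Normal := d5 hst.inv m
  have hRn := hst.nR
  have hKM : Dsub p J m ⊔ R ≤ M := sup_le hDM hRM
  obtain ⟨a, ha⟩ := d1 m
  obtain ⟨b, hb⟩ := hst.ind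
  have h1 : (Dsub p J m ⊔ R).relIndex M ∣ p ^ a := by
    rw [← ha]
    exact Subgroup.relIndex_dvd_of_le_left M le_sup_left
  obtain ⟨c, _, hc⟩ := (Nat.dvd_prime_pow hp.out).1 h1
  have h2 := Subgroup.relIndex_mul_index hKM
  refine ⟨Dsub p J m ⊔ R, inferInstance, le_sup_right, ⟨c + b, ?_⟩, ?_⟩
  · rw [← h2, hc, hb, pow_add]
  · rw [← h2]
    refine hm.trans (Nat.le_mul_of_pos_right _ ?_)
    rw [hb]; exact pow_pos hp.out.pos b

/-- the sequence of relation subgroups -/
lemma exists_seq (hSA : S_stepAll) (p : ℕ) [hp : Fact p.Prime] (F : Type) [Group F] [Countable F]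
    (hF : Group.FG F) (R0 : Subgroup F) (hR0 : Stage p R0) :
    ∃ R : ℕ → Subgroup F, R 0 = R0 ∧ Monotone R ∧ (∀ n, Stage p (R n)) ∧
      ∀ A : Subgroup F, A.FG → ∃ n, (R n).relIndex (A ⊔ R n) ≠ 0 ∨ (A ⊔ R n).index ≠ 0 := by
  classical
  obtain ⟨T, hT⟩ := exists_surjective_nat (Finset F)
  have hstep : ∀ (n : ℕ) (R : {R : Subgroup F // Stage p R}), ∃ R' : {R : Subgroup F // Stage p R},
      R.1 ≤ R'.1 ∧ ((R'.1).relIndex (Subgroup.closure (T n : Set F) ⊔ R'.1) ≠ 0 ∨
        (Subgroup.closure (T n : Set F) ⊔ R'.1).index ≠ 0) := by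
    intro n R
    obtain ⟨R', h1, h2, h3⟩ := hSA p F hF R.1 R.2 (Subgroup.closure (T n : Set F)) ⟨T n, rfl⟩
    exact ⟨⟨R', h2⟩, h1, h3⟩
  choose nx hnx1 hnx2 using hstep
  let S : ℕ → {R : Subgroup F // Stage p R} := fun n => Nat.rec ⟨R0, hR0⟩ (fun n R => nx n R) n
  refine ⟨fun n => (S n).1, rfl, monotone_nat_of_le_succ fun n => hnx1 n (S n), fun n => (S n).2, ?_⟩
  intro A hA
  obtain ⟨U, hU⟩ := hA
  obtain ⟨n, hn⟩ := hT U
  refine ⟨n + 1, ?_⟩
  have := hnx2 n (S n)
  rw [hn, hU] at this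
  exact this

lemma relIndex_sup_mono {F : Type} [Group F] {R R' A : Subgroup F} (hR : R.Normal)
    (hR' : R'.Normal) (h : R ≤ R') (hA : R.relIndex (A ⊔ R) ≠ 0) :
    R'.relIndex (A ⊔ R') ≠ 0 := by
  rw [Subgroup.relIndex_sup_right] at hA ⊢
  exact fun h0 => hA (Nat.eq_zero_of_zero_dvd (h0 ▸ Subgroup.relIndex_dvd_of_le_left A h))

lemma exists_lim (hSA : S_stepAll) (hGS : S_GS) (hD : S_Dsub) (hCU : S_chainUnb)
    (p : ℕ) [hp : Fact p.Prime] (F : Type) [Group F] [Countable F]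
    (hF : Group.FG F) (R0 : Subgroup F) (hR0 : Stage p R0) :
    ∃ R : Subgroup F, R.Normal ∧ R0 ≤ R ∧ Unb p R ∧ FinOr R := by
  obtain ⟨R, h0, hm, hS, hA⟩ := exists_seq hSA p F hF R0 hR0
  have hn : ∀ n, (R n).Normal := fun n => by
    obtain ⟨M, J, t, σ, ρ, hst⟩ := hS n
    exact hst.nR
  have hdir : Directed (· ≤ ·) R := hm.directed_le
  have hsup : sSup (Set.range R) = ⨆ n, R n := sSup_range
  have hRn : (⨆ n, R n).Normal := by
    refine ⟨fun x hx g => ?_⟩
    rw [Subgroup.mem_iSup_of_directed hdir] at hx ⊢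
    obtain ⟨i, hi⟩ := hx
    exact ⟨i, (hn i).conj_mem x hi g⟩
  refine ⟨⨆ n, R n, hRn, h0 ▸ le_iSup R 0, ?_, ?_⟩
  · rw [← hsup]
    refine hCU p F hF (Set.range R) (Set.range_nonempty R) hm.isChain_range ?_
    rintro _ ⟨n, rfl⟩
    exact ⟨hn n, stage_unb hGS hD p F (R n) (hS n)⟩
  · intro A hAfg
    obtain ⟨n, hn'⟩ := hA A hAfg
    rcases hn' with h | h
    · exact Or.inl (relIndex_sup_mono (hn n) hRn (le_iSup R n) h)
    · exact Or.inr fun h0 => h (Nat.eq_zero_of_zero_dvd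
        (h0 ▸ Subgroup.index_dvd_of_le (sup_le_sup_left (le_iSup R n) A)))

/-- the quotient has the properties `RTM` -/
lemma rtm_quot (p : ℕ) [hp : Fact p.Prime] (hp2 : p ≠ 2) (F : Type) [Group F]
    (hF : Group.FG F) (R N : Subgroup F) [hN : N.Normal] (hRN : R ≤ N) (hRn : R.Normal) (hfo : FinOr R)
    (hcl : PClosed p N) (hu : Unb p N)
    (hji : ∀ N' : Subgroup F, N'.Normal → N < N' → N'.index ≠ 0)
    (T : Set F) (hT : Subgroup.closure T = ⊤) (hTp : ∀ x ∈ T, x ^ p ∈ N) :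
    RTM p (F ⧸ N) := by
  classical
  have hmk : Function.Surjective (QuotientGroup.mk' N) := QuotientGroup.mk'_surjective N
  refine ⟨hp2, inferInstance, ?_, ?_, ?_, ?_, ?_⟩
  · rw [← not_finite_iff_infinite]
    intro hfin
    obtain ⟨K, hK, hNK, _, hB⟩ := hu (N.index + 1)
    have h1 : N.index ≠ 0 := Subgroup.index_ne_zero_of_finite
    have h2 := Nat.le_of_dvd (Nat.pos_of_ne_zero h1) (Subgroup.index_dvd_of_le hNK)
    omega
  · intro g hg
    obtain ⟨x, rfl⟩ := hmk g
    have hx : x ∉ N := fun h => hg ((QuotientGroup.eq_one_iff x).2 h)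
    have h1 := mt (hcl x) hx
    push Not at h1
    obtain ⟨K, hK, ⟨k, hk⟩, hNK, hxK⟩ := h1
    have hker : (QuotientGroup.mk' N).ker ≤ K := by rwa [QuotientGroup.ker_mk']
    refine ⟨K.map (QuotientGroup.mk' N), hK.map _ hmk, ⟨k, ?_⟩, ?_⟩
    · rw [Subgroup.index_map_eq _ hmk hker, hk]
    · intro hmem
      rw [← Subgroup.mem_comap, Subgroup.comap_map_eq, sup_of_le_left hker] at hmem
      exact hxK hmem
  · intro A hA
    obtain ⟨U, hU⟩ := hA
    choose f hf using hmk
    let A' : Subgroup F := Subgroup.closure (f '' (U : Set (F ⧸ N)))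
    have hA' : A'.map (QuotientGroup.mk' N) = A := by
      rw [MonoidHom.map_closure, ← hU]
      congr 1
      rw [← Set.image_comp]
      have : (⇑(QuotientGroup.mk' N) ∘ f) = id := funext hf
      rw [this, Set.image_id]
    have hmk : Function.Surjective (QuotientGroup.mk' N) := QuotientGroup.mk'_surjective N
    rcases hfo A' ⟨U.image f, by simp [A']⟩ with h | h
    · left
      have h1 := relIndex_sup_mono hRn hN hRN h
      rw [Subgroup.relIndex_sup_right] at h1
      -- A is the image of A', with kernel A' ⊓ N of finite index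
      have h2 : ((QuotientGroup.mk' N).comp A'.subtype).ker = N.subgroupOf A' := by
        ext x
        simp [MonoidHom.mem_ker, Subgroup.mem_subgroupOf]
      have h3 : Nat.card A = N.relIndex A' := by
        have h4 : ((QuotientGroup.mk' N).comp A'.subtype).range = A := by
          rw [MonoidHom.range_comp, Subgroup.range_subtype, hA']
        rw [← h4, ← Subgroup.index_ker, h2]
        rfl
      exact Nat.finite_of_card_ne_zero (h3 ▸ h1)
    · right
      rw [← hA', Subgroup.index_map, MonoidHom.range_eq_top.2 hmk, Subgroup.index_top, mul_one,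
        QuotientGroup.ker_mk']
      exact fun h0 => h (Nat.eq_zero_of_zero_dvd
        (h0 ▸ Subgroup.index_dvd_of_le (sup_le_sup_left hRN A')))
  · intro N' hN' hne
    have h1 : N < N'.comap (QuotientGroup.mk' N) := by
      refine lt_of_le_of_ne ?_ ?_
      · intro x hx
        rw [Subgroup.mem_comap]
        have : QuotientGroup.mk' N x = 1 := (QuotientGroup.eq_one_iff x).2 hx
        rw [this]; exact N'.one_mem
      · intro heq
        apply hne
        rw [eq_bot_iff]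
        intro y hy
        obtain ⟨x, rfl⟩ := hmk y
        have : x ∈ N := by rw [heq]; exact hy
        exact (QuotientGroup.eq_one_iff x).2 this
    have h2 := hji _ (hN'.comap _) h1
    rwa [Subgroup.index_comap_of_surjective _ hmk] at h2
  · rw [eq_top_iff]
    have h1 : (Subgroup.closure T).map (QuotientGroup.mk' N) = ⊤ := by
      rw [hT]; exact Subgroup.map_top_of_surjective _ hmk
    rw [← h1, MonoidHom.map_closure]
    apply Subgroup.closure_mono
    rintro _ ⟨x, hx, rfl⟩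
    show (QuotientGroup.mk' N x) ^ p = 1
    rw [← map_pow]
    exact (QuotientGroup.eq_one_iff _).2 (hTp x hx)

theorem main (hSA : S_stepAll) (hGS : S_GS) (hD : S_Dsub) (hCU : S_chainUnb) (hZ : S_zorn)
    (hB : S_base) (hS : S_seed) :
    ∃ (G : Type) (_ : Group G), RTM 67 G ∧ ∃ (S : Finset G) (C : ℝ), HasTC G S C := by
  classical
  have hp : Fact (Nat.Prime 67) := ⟨by norm_num⟩
  let F := FreeGroup (Fin 9)
  let T0 : Set F := {g : FreeGroup (Fin 9) | (∃ i, g = FreeGroup.of i ^ 67) ∨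
      ∃ i j, i ≠ j ∧ g = ⁅⁅FreeGroup.of i, FreeGroup.of j⁆, FreeGroup.of j⁆}
  have hF : Group.FG F := inferInstance
  obtain ⟨R, hRn, hR0, hRu, hRf⟩ := exists_lim hSA hGS hD hCU 67 F hF
    (Subgroup.normalClosure T0) hB
  obtain ⟨N, hN, hRN, hNc, hNu, hNj⟩ := hZ 67 F hF R hRn hRu hRf
  have hT : Subgroup.closure (Set.range (FreeGroup.of : Fin 9 → F)) = ⊤ :=
    FreeGroup.closure_range_of _
  have hT0N : T0 ⊆ N := fun x hx => hRN (hR0 (Subgroup.subset_normalClosure hx))
  have hTp : ∀ x ∈ Set.range (FreeGroup.of : Fin 9 → F), x ^ 67 ∈ N := by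
    rintro _ ⟨i, rfl⟩
    exact hT0N (Or.inl ⟨i, rfl⟩)
  refine ⟨F ⧸ N, inferInstance, rtm_quot 67 (by norm_num) F hF R N hRN
    hRn hRf hNc hNu hNj _ hT hTp, ?_⟩
  refine hS (F ⧸ N) (fun i => QuotientGroup.mk' N (FreeGroup.of i)) ?_ ?_ ?_
  · have : Set.range (fun i => QuotientGroup.mk' N (FreeGroup.of i)) =
        QuotientGroup.mk' N '' Set.range (FreeGroup.of : Fin 9 → F) := by
      rw [← Set.range_comp]; rfl
    rw [this, ← MonoidHom.map_closure, hT]
    exact Subgroup.map_top_of_surjective _ (QuotientGroup.mk'_surjective N)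
  · intro i
    rw [← map_pow]
    exact (QuotientGroup.eq_one_iff _).2 (hT0N (Or.inl ⟨i, rfl⟩))
  · intro i j hij
    rw [← map_commutatorElement, ← map_commutatorElement]
    exact (QuotientGroup.eq_one_iff _).2 (hT0N (Or.inr ⟨i, j, hij, rfl⟩))

end Pool.Agent.H656.DC.GroupMain
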