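import Pool.Agent.H656.DC.EStmts

/-!
# Leaf Interp (by helper860): the interpolation maps preserve the Bernoulli measure
-/

set_option autoImplicit false

open MeasureTheory Filter Topology Set

namespace Pool.Agent.H656.DC.Interp

open Pool.Agent.H656.DC

/-- the coordinate map -/
noncomputable def es (s : ℝ) (p : ℝ × ℝ × ℝ) : ℝ := if s ≤ p.2.2 then p.1 else p.2.1

theorem measurable_es (s : ℝ) : Measurable (es s) := by
  unfold es
  refine Measurable.ite ?_ measurable_fst (measurable_fst.comp measurable_snd)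
  exact measurableSet_le measurable_const (measurable_snd.comp measurable_snd)

theorem map_es (s : ℝ) : nu3.map (es s) = nu0 := by
  ext A hA
  rw [Measure.map_apply (measurable_es s) hA]
  have h1 : es s ⁻¹' A = (A ×ˢ ((univ : Set ℝ) ×ˢ Ici s)) ∪ ((univ : Set ℝ) ×ˢ (A ×ˢ Iio s)) := by
    ext ⟨a, b, u⟩
    simp only [es, mem_preimage, mem_union, mem_prod, mem_univ, true_and, mem_Ici, mem_Iio]
    split_ifs with h
    · constructor
      · intro ha
        exact Or.inl ⟨ha, h⟩
      · rintro (⟨ha, _⟩ | ⟨_, h'⟩)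
        · exact ha
        · exact absurd h (not_le.2 h')
    · constructor
      · intro ha
        exact Or.inr ⟨ha, not_le.1 h⟩
      · rintro (⟨_, h'⟩ | ⟨hb, _⟩)
        · exact absurd h' h
        · exact hb
  have h2 : Disjoint (A ×ˢ ((univ : Set ℝ) ×ˢ Ici s)) ((univ : Set ℝ) ×ˢ (A ×ˢ Iio s)) := by
    rw [Set.disjoint_left]
    rintro ⟨a, b, u⟩ h h'
    simp only [mem_prod, mem_univ, true_and, mem_Ici, mem_Iio] at h h'
    exact absurd h.2 (not_le.2 h'.2)
  have h3 : MeasurableSet ((univ : Set ℝ) ×ˢ (A ×ˢ Iio s)) :=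
    MeasurableSet.univ.prod (hA.prod measurableSet_Iio)
  rw [h1, measure_union h2 h3]
  unfold nu3
  rw [Measure.prod_prod, Measure.prod_prod, Measure.prod_prod, Measure.prod_prod, measure_univ,
    one_mul, one_mul, ← mul_add]
  have h4 : nu0 (Ici s) + nu0 (Iio s) = 1 := by
    rw [← compl_Ici, measure_add_measure_compl measurableSet_Ici, measure_univ]
  rw [h4, mul_one]

theorem mp (G : Type) [Countable G] (s : ℝ) :
    MeasurePreserving (interp s : (G → ℝ × ℝ × ℝ) → G → ℝ) (bern G nu3) (bern G nu0) := by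
  refine ⟨?_, ?_⟩
  · refine measurable_pi_lambda _ fun h => ?_
    exact (measurable_es s).comp (measurable_pi_apply h)
  · have h1 := Measure.infinitePi_map_pi (μ := fun _ : G => nu3) (f := fun _ => es s)
      (fun _ => measurable_es s)
    simp only [map_es] at h1
    exact h1

theorem ae_coord (G : Type) [Countable G] (P : ℝ → Prop) (hP : ∀ᵐ u ∂nu0, P u) :
    ∀ᵐ z ∂(bern G nu3), ∀ h, P (z h).2.2 := by
  rw [ae_all_iff]
  intro h
  have h1 : MeasurePreserving (fun z : G → ℝ × ℝ × ℝ => z h) (bern G nu3) nu3 :=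
    measurePreserving_eval_infinitePi (fun _ : G => nu3) h
  have h2 : MeasurePreserving (fun p : ℝ × ℝ × ℝ => p.2) nu3 (nu0.prod nu0) :=
    measurePreserving_snd
  have h3 : MeasurePreserving (fun p : ℝ × ℝ => p.2) (nu0.prod nu0) nu0 :=
    measurePreserving_snd
  exact ((h3.comp h2).comp h1).quasiMeasurePreserving.ae hP

theorem main : S_interp := by
  intro G _ _
  refine ⟨mp G, ?_, ?_⟩
  · have h1 : ∀ᵐ u ∂nu0, (0 : ℝ) ≤ u := by
      filter_upwards [ae_restrict_mem (μ := volume) (measurableSet_Icc (a := (0 : ℝ)) (b := 1))]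
        with u hu using hu.1
    filter_upwards [ae_coord G _ h1] with z hz
    funext h
    exact if_pos (hz h)
  · have h1 : ∀ᵐ u ∂nu0, u < (1 : ℝ) := by
      have h2 : ∀ᵐ u ∂nu0, u ≠ (1 : ℝ) := by
        refine ae_restrict_of_ae ?_
        exact Measure.ae_ne volume 1
      filter_upwards [ae_restrict_mem (μ := volume) (measurableSet_Icc (a := (0 : ℝ)) (b := 1)), h2]
        with u hu hu' using lt_of_le_of_ne hu.2 hu'
    filter_upwards [ae_coord G _ h1] with z hz
    funext h
    exact if_neg (not_le.2 (hz h))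

end Pool.Agent.H656.DC.Interp
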