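import Pool.Agent.H656.DC.EStmts

/-!
# Locally finite targets (leaf L1)
-/

set_option autoImplicit false

open MeasureTheory Filter Topology ProbabilityTheory

namespace Pool.Agent.H656.DC.L1

/-- a probability measure on the line all of whose half lines have measure near `0` or `1` has an
atom -/
lemma exists_atom (ρ : Measure ℝ) [IsProbabilityMeasure ρ]
    (h : ∀ c, ρ.real (Set.Iic c) * (1 - ρ.real (Set.Iic c)) ≤ 1 / 8) : ∃ c, 0 < ρ {c} := by
  have hF : ∀ c, cdf ρ c = ρ.real (Set.Iic c) := cdf_eq_real ρ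
  have h0 : ∀ c, 0 ≤ cdf ρ c := cdf_nonneg ρ
  have hmono : Monotone (cdf ρ) := monotone_cdf ρ
  have hlow : ∀ c, cdf ρ c < 1 / 2 → cdf ρ c ≤ 1 / 6 := by
    intro c hc
    have := h c
    rw [← hF] at this
    by_contra hh
    push Not at hh
    nlinarith
  have hhigh : ∀ c, 1 / 2 ≤ cdf ρ c → 1 / 3 ≤ cdf ρ c := fun c hc => by linarith
  set T : Set ℝ := {c | 1 / 2 ≤ cdf ρ c} with hT
  have hTne : T.Nonempty := by
    have h1 := (tendsto_cdf_atTop ρ).eventually (lt_mem_nhds (by norm_num : (1:ℝ)/2 < 1))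
    obtain ⟨c, hc⟩ := h1.exists
    exact ⟨c, le_of_lt hc⟩
  have hTbdd : BddBelow T := by
    have h1 := (tendsto_cdf_atBot ρ).eventually (gt_mem_nhds (by norm_num : (0:ℝ) < 1/2))
    obtain ⟨b, hb⟩ := eventually_atBot.1 h1
    refine ⟨b, fun c hc => ?_⟩
    by_contra hlt
    push Not at hlt
    have h2 := hb c hlt.le
    have h3 : 1 / 2 ≤ cdf ρ c := hc
    linarith
  set c0 := sInf T with hc0
  have hbelow : ∀ c, c < c0 → cdf ρ c ≤ 1 / 6 := by
    intro c hc
    apply hlow
    by_contra hh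
    push Not at hh
    exact absurd (csInf_le hTbdd hh) (not_le.2 hc)
  have habove : 1 / 2 ≤ cdf ρ c0 := by
    have h1 : Tendsto (cdf ρ) (𝓝[>] c0) (𝓝 (cdf ρ c0)) :=
      ((cdf ρ).right_continuous c0).tendsto.mono_left (nhdsWithin_mono _ Set.Ioi_subset_Ici_self)
    refine ge_of_tendsto h1 ?_
    filter_upwards [self_mem_nhdsWithin] with c hc
    obtain ⟨c', hc', hlt⟩ := exists_lt_of_csInf_lt hTne (show sInf T < c from hc)
    exact le_trans (show 1 / 2 ≤ cdf ρ c' from hc') (hmono hlt.le)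
  have hleft : Function.leftLim (cdf ρ) c0 ≤ 1 / 6 := by
    have h1 := hmono.tendsto_leftLim c0
    refine le_of_tendsto h1 ?_
    filter_upwards [self_mem_nhdsWithin] with c hc
    exact hbelow c hc
  refine ⟨c0, ?_⟩
  rw [← measure_cdf ρ, StieltjesFunction.measure_singleton, ENNReal.ofReal_pos]
  linarith

/-- an increasing sequence of finitely generated subgroups -/
lemma exists_exhaust {G : Type} [Group G] [Countable G] (N : Subgroup G) :
    ∃ K : ℕ → Subgroup G, (∀ k, (K k).FG) ∧ (∀ k, K k ≤ N) ∧ Monotone K ∧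
      ∀ h ∈ N, ∃ k, h ∈ K k := by
  obtain ⟨e, he⟩ := exists_surjective_nat N
  refine ⟨fun k => Subgroup.closure ((fun i => ((e i : N) : G)) '' Set.Iio k), fun k => ?_,
    fun k => ?_, fun k l hkl => ?_, fun h hh => ?_⟩
  · exact (Subgroup.fg_iff _).2 ⟨_, rfl, (Set.finite_Iio k).image _⟩
  · rw [Subgroup.closure_le]
    rintro _ ⟨i, -, rfl⟩
    exact (e i).2
  · exact Subgroup.closure_mono (Set.image_mono (Set.Iio_subset_Iio hkl))
  · obtain ⟨i, hi⟩ := he ⟨h, hh⟩
    refine ⟨i + 1, Subgroup.subset_closure ⟨i, Set.mem_Iio.2 (Nat.lt_succ_self i), ?_⟩⟩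
    simp [hi]

lemma measurable_lam {G X : Type} [Countable G] [MeasurableSpace X] {l : X → G}
    (hl : ∀ h, MeasurableSet {x | l x = h}) (T : Set G) : MeasurableSet {x | l x ∈ T} := by
  have e : {x | l x ∈ T} = ⋃ h ∈ T, {x | l x = h} := by
    ext x; simp
  rw [e]
  exact MeasurableSet.biUnion (Set.to_countable T) fun h _ => hl h

/-- for large `k` the values of `l` are in `K k` up to a small set -/
lemma eventually_small {G X : Type} [Group G] [Countable G] [MeasurableSpace X] {μ : Measure X}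
    [IsProbabilityMeasure μ] {l : X → G} (hl : ∀ h, MeasurableSet {x | l x = h})
    {N : Subgroup G} (hN : ∀ᵐ x ∂μ, l x ∈ N) {K : ℕ → Subgroup G} (hK : Monotone K)
    (hKN : ∀ h ∈ N, ∃ k, h ∈ K k) {ε : ℝ} (hε : 0 < ε) :
    ∀ᶠ k in atTop, μ.real {x | l x ∉ K k} ≤ ε := by
  have hm : ∀ k, MeasurableSet {x | l x ∉ K k} := fun k =>
    measurable_lam hl {h | h ∉ K k}
  have hanti : Antitone fun k => {x | l x ∉ K k} := fun k k' hkk x hx hx' => hx (hK hkk hx')
  have h1 : Tendsto (μ ∘ fun k => {x | l x ∉ K k}) atTop (𝓝 (μ (⋂ k, {x | l x ∉ K k}))) :=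
    tendsto_measure_iInter_atTop (fun k => (hm k).nullMeasurableSet) hanti
      ⟨0, measure_ne_top _ _⟩
  have h2 : μ (⋂ k, {x | l x ∉ K k}) = 0 := by
    refine measure_mono_null ?_ (ae_iff.1 hN)
    intro x hx hx'
    obtain ⟨k, hk⟩ := hKN _ hx'
    exact (Set.mem_iInter.1 hx k) hk
  rw [h2] at h1
  have h3 : Tendsto (fun k => μ.real {x | l x ∉ K k}) atTop (𝓝 0) := by
    have := (ENNReal.tendsto_toReal ENNReal.zero_ne_top).comp h1
    exact this
  exact (h3.eventually (gt_mem_nhds hε)).mono fun k hk => le_of_lt hk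

variable {G Y : Type} [Group G] [MulAction G Y]

/-- the smallest value of `e` on an orbit of a finite subgroup -/
noncomputable def rr (K : Subgroup G) (e : Y → ℝ) (y : Y) : ℝ := ⨅ h : K, e ((h : G) • y)

lemma rr_smul (K : Subgroup G) (e : Y → ℝ) (y : Y) {g : G} (hg : g ∈ K) :
    rr K e (g • y) = rr K e y := by
  unfold rr
  refine (Equiv.mulRight (⟨g, hg⟩ : K)).iInf_congr fun h => ?_
  simp [mul_smul]

lemma rr_eq (K : Subgroup G) [Finite K] (e : Y → ℝ) (y : Y) :
    ∃ h ∈ K, e (h • y) = rr K e y := by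
  obtain ⟨h, hh⟩ := exists_eq_ciInf_of_finite (f := fun h : K => e ((h : G) • y))
  exact ⟨h, h.2, hh⟩

lemma rr_orbit (K : Subgroup G) [Finite K] {e : Y → ℝ} (he : Function.Injective e) {y y' : Y}
    (h : rr K e y = rr K e y') : ∃ g ∈ K, y' = g • y := by
  obtain ⟨a, ha, ha'⟩ := rr_eq K e y
  obtain ⟨b, hb, hb'⟩ := rr_eq K e y'
  have h1 : a • y = b • y' := he (by rw [ha', hb', h])
  refine ⟨b⁻¹ * a, K.mul_mem (K.inv_mem hb) ha, ?_⟩
  rw [mul_smul, h1, inv_smul_smul]

theorem main (h1 : S_T1) (hm : S_mix) (hb : S_bernPMP) : S_L1 := by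
  intro G _ _ _ S C hT Y _ _ _ hact f lam N hf hlam hfin hS
  set μ := bern G nu0 with hμ
  have hPMP : PMP G μ (shift : G → (G → ℝ) → (G → ℝ)) := hb G ℝ nu0
  obtain ⟨K, hK1, hK2, hK3, hK4⟩ := exists_exhaust N
  have hC := hT.1
  -- the choice of the finite subgroup
  set ε : ℝ := 1 / (8 * (4 * C * S.card + 1)) with hε
  have hε0 : 0 < ε := by positivity
  have hev : ∀ᶠ k in atTop, ∀ g ∈ S, μ.real {x | lam g x ∉ K k} ≤ ε := by
    rw [Filter.eventually_all_finset]
    intro g hg
    exact eventually_small (hlam g) ((hS g hg).mono fun x hx => hx.2) hK3 hK4 hε0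
  obtain ⟨k, hk⟩ := hev.exists
  have : Finite (K k) := hfin (K k) (hK1 k) (hK2 k)
  set e : Y → ℝ := MeasureTheory.embeddingReal Y with he
  have hemb : MeasurableEmbedding e := MeasureTheory.measurableEmbedding_embeddingReal Y
  set r : Y → ℝ := rr (K k) e with hr
  have hrm : Measurable r := by
    have : r = fun y => ⨅ h : K k, e ((h : G) • y) := rfl
    rw [this]
    exact Measurable.iInf fun h => hemb.measurable.comp (hact h)
  have hrf : Measurable fun x => r (f x) := hrm.comp hf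
  -- the half lines
  have hhalf : ∀ c : ℝ, μ.real {x | r (f x) ≤ c} * (1 - μ.real {x | r (f x) ≤ c}) ≤ 1 / 8 := by
    intro c
    set A : Set (G → ℝ) := {x | r (f x) ≤ c} with hA
    have hAm : MeasurableSet A := measurableSet_le hrf measurable_const
    have hsd : ∀ g ∈ S, μ.real (symmDiff (shift g ⁻¹' A) A) ≤ ε := by
      intro g hg
      refine le_trans ?_ (hk g hg)
      have hsub : (symmDiff (shift g ⁻¹' A) A : Set (G → ℝ)) ≤ᵐ[μ] {x | lam g x ∉ K k} := by
        filter_upwards [hS g hg] with x hx hx'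
        intro hmem
        have e1 : r (f (shift g x)) = r (f x) := by rw [hx.1, hr, rr_smul _ _ _ hmem]
        rcases hx' with ⟨ha, hb⟩ | ⟨ha, hb⟩
        · apply hb
          show r (f x) ≤ c
          rw [← e1]; exact ha
        · apply hb
          show r (f (shift g x)) ≤ c
          rw [e1]; exact ha
      exact ENNReal.toReal_mono (measure_ne_top _ _) (measure_mono_ae hsub)
    have hall : ∀ g : G, μ.real (symmDiff (shift g ⁻¹' A) A) ≤ 1 / 8 := by
      intro g
      refine le_trans (h1 G S C hT (G → ℝ) μ shift hPMP A hAm g) ?_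
      have h2 : ∑ s ∈ S, μ.real (symmDiff (shift s ⁻¹' A) A) ≤ S.card * ε := by
        calc ∑ s ∈ S, μ.real (symmDiff (shift s ⁻¹' A) A) ≤ ∑ _s ∈ S, ε := Finset.sum_le_sum hsd
          _ = S.card * ε := by simp
      calc 4 * C * ∑ s ∈ S, μ.real (symmDiff (shift s ⁻¹' A) A) ≤ 4 * C * (S.card * ε) :=
            mul_le_mul_of_nonneg_left h2 (by positivity)
        _ = (4 * C * S.card) * ε := by ring
        _ ≤ (4 * C * S.card + 1) * ε := mul_le_mul_of_nonneg_right (by linarith) hε0.le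
        _ = 1 / 8 := by rw [hε]; field_simp
    have hmix := hm G ℝ nu0 A Aᶜ hAm hAm.compl
    have hcompl : (bern G nu0).real Aᶜ = 1 - μ.real A := by
      rw [← hμ, measureReal_compl hAm]
      simp
    rw [hcompl] at hmix
    refine le_of_tendsto hmix (Filter.Eventually.of_forall fun g => ?_)
    refine le_trans (measureReal_mono ?_ (measure_ne_top _ _)) (hall g)
    intro x hx
    exact Or.inr ⟨hx.1, hx.2⟩
  -- the distribution of `r ∘ f`
  set ρ := μ.map (fun x => r (f x)) with hρ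
  have : IsProbabilityMeasure ρ := Measure.isProbabilityMeasure_map hrf.aemeasurable
  obtain ⟨c, hc⟩ := exists_atom ρ (by
    intro c
    have : ρ.real (Set.Iic c) = μ.real {x | r (f x) ≤ c} := by
      rw [hρ, map_measureReal_apply hrf measurableSet_Iic]; rfl
    rw [this]
    exact hhalf c)
  rw [hρ, Measure.map_apply hrf (measurableSet_singleton c)] at hc
  by_contra hno
  push Not at hno
  have hzero : ∀ y, μ (f ⁻¹' {y}) = 0 := fun y => le_antisymm (hno y) bot_le
  apply hc.ne'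
  obtain ⟨x0, hx0⟩ : ((fun x => r (f x)) ⁻¹' {c}).Nonempty := by
    by_contra hne
    rw [Set.not_nonempty_iff_eq_empty] at hne
    rw [hne] at hc
    simp at hc
  have hx0' : r (f x0) = c := hx0
  have hsub : (fun x => r (f x)) ⁻¹' {c} ⊆ ⋃ g : K k, f ⁻¹' {(g : G) • f x0} := by
    intro x hx
    have hx' : r (f x) = c := hx
    obtain ⟨g, hg, hgx⟩ := rr_orbit (K k) hemb.injective (hx0'.trans hx'.symm)
    exact Set.mem_iUnion.2 ⟨⟨g, hg⟩, hgx⟩
  exact measure_mono_null hsub (measure_iUnion_null fun g => hzero _)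

end Pool.Agent.H656.DC.L1
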