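import Pool.Agent.H656.DC.EStmts

/-! Leaf Mix (helper353). -/

set_option autoImplicit false

open MeasureTheory Filter Topology

namespace Pool.Agent.H656.DC.Mix

open Pool.Agent.H656.DC ProbabilityTheory

variable {G : Type} [Group G] {B : Type} [MeasurableSpace B] (ν : Measure B) [IsProbabilityMeasure ν]

omit [Group G] in
/-- cylinders over disjoint sets of coordinates are independent -/
theorem indep (I J : Finset G) (h : Disjoint I J) (S : Set (I → B)) (T : Set (J → B))
    (hS : MeasurableSet S) (hT : MeasurableSet T) :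
    (bern G ν).real (cylinder (α := fun _ => B) I S ∩ cylinder (α := fun _ => B) J T) =
      (bern G ν).real (cylinder (α := fun _ => B) I S) *
      (bern G ν).real (cylinder (α := fun _ => B) J T) := by
  have h1 : iIndepFun (fun (i : G) (ω : G → B) => ω i) (bern G ν) :=
    iIndepFun_infinitePi (X := fun _ => id) (fun _ => measurable_id)
  have h2 := h1.indepFun_finset I J h (fun i => measurable_pi_apply i)
  have h3 := h2.measure_inter_preimage_eq_mul S T hS hT
  have e1 : (fun (a : G → B) (i : I) => a i) ⁻¹' S = cylinder (α := fun _ => B) I S := rfl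
  have e2 : (fun (a : G → B) (i : J) => a i) ⁻¹' T = cylinder (α := fun _ => B) J T := rfl
  rw [e1, e2] at h3
  rw [measureReal_def, h3, ENNReal.toReal_mul]
  rfl

/-- translates of cylinders -/
theorem shift_cyl [DecidableEq G] (g : G) (J : Finset G) (T : Set (J → B)) (hT : MeasurableSet T) :
    ∃ T' : Set ((J.image (fun h => g⁻¹ * h) : Finset G) → B), MeasurableSet T' ∧
      shift g ⁻¹' (cylinder (α := fun _ => B) J T) =
        cylinder (α := fun _ => B) (J.image (fun h => g⁻¹ * h)) T' := by
  refine ⟨(fun (y : (J.image (fun h => g⁻¹ * h) : Finset G) → B) (j : J) =>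
    y ⟨g⁻¹ * j, Finset.mem_image_of_mem _ j.2⟩) ⁻¹' T, ?_, rfl⟩
  apply hT.preimage
  apply measurable_pi_lambda
  intro j
  exact measurable_pi_apply _

omit [Group G] in
theorem approx (A : Set (G → B)) (hA : MeasurableSet A) (ε : ℝ) (hε : 0 < ε) :
    ∃ (I : Finset G) (S : Set (I → B)), MeasurableSet S ∧
      (bern G ν).real (symmDiff A (cylinder (α := fun _ => B) I S)) < ε := by
  have hd : (bern G ν).MeasureDense (measurableCylinders (fun _ : G => B)) :=
    Measure.MeasureDense.of_generateFrom_isSetAlgebra_finite _ isSetAlgebra_measurableCylinders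
      generateFrom_measurableCylinders.symm
  obtain ⟨t, ht, h⟩ := hd.approx A hA (measure_ne_top _ _) ε hε
  obtain ⟨I, S, hS, rfl⟩ := (mem_measurableCylinders t).1 ht
  refine ⟨I, S, hS, ?_⟩
  rw [measureReal_def]
  exact (ENNReal.lt_ofReal_iff_toReal_lt (measure_ne_top _ _)).1 h

theorem main (hb : S_bernPMP) : S_mix := by
  intro G _ _ _ B _ ν _ A C hA hC
  classical
  set μ := bern G ν with hμ
  have hP := hb G B ν
  rw [Metric.tendsto_nhds]
  intro ε hε
  obtain ⟨I, S, hS, h1⟩ := approx ν A hA (ε / 8) (by linarith)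
  obtain ⟨J, T, hT, h2⟩ := approx ν C hC (ε / 8) (by linarith)
  set A' := cylinder (α := fun _ : G => B) I S with hA'
  set C' := cylinder (α := fun _ : G => B) J T with hC'
  have mA' : MeasurableSet A' := MeasurableSet.cylinder I hS
  have mC' : MeasurableSet C' := MeasurableSet.cylinder J hT
  have hfin : {g : G | ¬ Disjoint I (J.image (fun h => g⁻¹ * h))}.Finite := by
    apply (((J ×ˢ I).image (fun p : G × G => p.1 * p.2⁻¹)).finite_toSet).subset
    intro g hg
    obtain ⟨i, hi, hj⟩ := Finset.not_disjoint_iff.1 hg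
    obtain ⟨j, hj2, rfl⟩ := Finset.mem_image.1 hj
    rw [Finset.mem_coe, Finset.mem_image]
    exact ⟨(j, g⁻¹ * j), Finset.mem_product.2 ⟨hj2, hi⟩, by simp⟩
  have hev : ∀ᶠ g : G in cofinite, Disjoint I (J.image (fun h => g⁻¹ * h)) := by
    rw [eventually_cofinite]
    exact hfin
  filter_upwards [hev] with g hg
  obtain ⟨T', hT', e1⟩ := shift_cyl (B := B) g J T hT
  have hmp := hP.mp g
  have h3 : μ.real (A' ∩ shift g ⁻¹' C') = μ.real A' * μ.real C' := by
    have h4 : μ.real (shift g ⁻¹' C') = μ.real C' := by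
      rw [measureReal_def, hmp.measure_preimage mC'.nullMeasurableSet]
      rfl
    rw [← h4, hC', e1]
    exact indep ν I _ hg S T' hS hT'
  have h5 : |μ.real (A ∩ shift g ⁻¹' C) - μ.real (A' ∩ shift g ⁻¹' C')| ≤ ε / 4 := by
    have mC : MeasurableSet (shift g ⁻¹' C) := hmp.measurable hC
    have mC2 : MeasurableSet (shift g ⁻¹' C') := hmp.measurable mC'
    refine (abs_measureReal_sub_le_measureReal_symmDiff (hA.inter mC).nullMeasurableSet
      (mA'.inter mC2).nullMeasurableSet).trans ?_
    have hsub : symmDiff (A ∩ shift g ⁻¹' C) (A' ∩ shift g ⁻¹' C') ⊆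
        symmDiff A A' ∪ shift g ⁻¹' (symmDiff C C') := by
      intro x hx
      simp only [Set.mem_symmDiff, Set.mem_inter_iff, Set.mem_union, Set.mem_preimage] at hx ⊢
      tauto
    have h6 : μ.real (shift g ⁻¹' (symmDiff C C')) = μ.real (symmDiff C C') := by
      rw [measureReal_def, hmp.measure_preimage (hC.symmDiff mC').nullMeasurableSet]
      rfl
    calc μ.real (symmDiff (A ∩ shift g ⁻¹' C) (A' ∩ shift g ⁻¹' C'))
        ≤ μ.real (symmDiff A A' ∪ shift g ⁻¹' (symmDiff C C')) := measureReal_mono hsub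
      _ ≤ μ.real (symmDiff A A') + μ.real (shift g ⁻¹' (symmDiff C C')) := measureReal_union_le _ _
      _ ≤ ε / 4 := by rw [h6]; linarith
  have h7 : |μ.real A - μ.real A'| ≤ ε / 8 :=
    (abs_measureReal_sub_le_measureReal_symmDiff hA.nullMeasurableSet
      mA'.nullMeasurableSet).trans h1.le
  have h8 : |μ.real C - μ.real C'| ≤ ε / 8 :=
    (abs_measureReal_sub_le_measureReal_symmDiff hC.nullMeasurableSet
      mC'.nullMeasurableSet).trans h2.le
  have b1 : μ.real A' ≤ 1 := measureReal_le_one
  have b2 : μ.real C ≤ 1 := measureReal_le_one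
  have b3 : 0 ≤ μ.real A' := measureReal_nonneg
  have b4 : 0 ≤ μ.real C := measureReal_nonneg
  rw [Real.dist_eq]
  rw [h3] at h5
  rw [abs_le] at h5 h7 h8
  rw [abs_lt]
  constructor <;> nlinarith [h5.1, h5.2, h7.1, h7.2, h8.1, h8.2]

end Pool.Agent.H656.DC.Mix
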