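import Mathlib
import Pool.Agent.H656.DC.GStmts

/-!
# Normalisers of nontrivial locally finite subgroups have infinite index (`S_norm`)
-/

set_option autoImplicit false

open scoped commutatorElement

namespace Pool.Agent.H656.DC.Norm

open Subgroup

variable {G : Type} [Group G]

lemma not_fin [Infinite G] (N : Subgroup G) (h : N.index ≠ 0) : ¬ Finite N := by
  intro hf
  have h0 := N.card_mul_index
  have h1 : Nat.card G = 0 := Nat.card_eq_zero_of_infinite
  have h2 : Nat.card N ≠ 0 := Nat.card_pos.ne'
  rw [h1] at h0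
  rcases Nat.mul_eq_zero.mp h0 with h3 | h3
  · exact h2 h3
  · exact h h3

lemma fg_of_index [Group.FG G] (N : Subgroup G) (h : N.index ≠ 0) : N.FG := by
  have : N.FiniteIndex := ⟨h⟩
  exact (Group.fg_iff_subgroup_fg N).mp inferInstance

lemma LocFin_index [Group.FG G] [Infinite G] (N : Subgroup G) (h : N.index ≠ 0)
    (hN : LocFin N) : False :=
  not_fin N h (hN N (fg_of_index N h) le_rfl)

lemma LocFin_mono {X Y : Subgroup G} (h : X ≤ Y) (hY : LocFin Y) : LocFin X :=
  fun A hA hAX => hY A hA (hAX.trans h)

lemma LocFin_bot : LocFin (⊥ : Subgroup G) := by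
  intro A _ hA
  have : A = ⊥ := le_bot_iff.mp hA
  subst this
  infer_instance

/-- transport along an injective homomorphism -/
lemma LocFin_map {H : Type} [Group H] (f : G →* H) (hf : Function.Injective f) {X : Subgroup G}
    (hX : LocFin X) : LocFin (X.map f) := by
  intro A hA hAX
  have h1 : (A.comap f).map f = A := by
    rw [Subgroup.map_comap_eq]
    apply inf_eq_right.mpr
    exact hAX.trans (Subgroup.map_le_range f X)
  have h2 : A.comap f ≤ X := by
    rw [← Subgroup.map_le_map_iff_of_injective hf, h1]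
    exact hAX
  have h3 : (A.comap f).FG := by
    have hA' : ((A.comap f).map f).FG := by rw [h1]; exact hA
    have e := Subgroup.equivMapOfInjective (A.comap f) f hf
    rw [← Group.fg_iff_subgroup_fg] at hA' ⊢
    exact Group.fg_of_surjective (f := e.symm.toMonoidHom) e.symm.surjective
  have h4 := hX _ h3 h2
  have e := Subgroup.equivMapOfInjective (A.comap f) f hf
  rw [← h1]
  exact Finite.of_equiv _ e.toEquiv

lemma LocFin_comap {H : Type} [Group H] (f : G →* H) (hf : Function.Injective f)
    {X : Subgroup H} (hX : LocFin X) : LocFin (X.comap f) := by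
  intro A hA hAX
  have h1 : (A.map f).FG := by
    classical
    obtain ⟨S, hS⟩ := hA
    exact ⟨S.image f, by rw [Finset.coe_image, ← MonoidHom.map_closure, hS]⟩
  have h2 := hX _ h1 (Subgroup.map_le_iff_le_comap.mpr hAX)
  have e := Subgroup.equivMapOfInjective A f hf
  exact Finite.of_equiv _ e.symm.toEquiv

lemma LocFin_sup {X Y : Subgroup G} [X.Normal] (hX : LocFin X) (hY : LocFin Y) :
    LocFin (X ⊔ Y) := by
  classical
  intro A hA hAXY
  obtain ⟨S, hS⟩ := hA
  have hS' : ∀ s : G, s ∈ S → ∃ x ∈ X, ∃ y ∈ Y, x * y = s := by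
    intro s hs
    have h1 : s ∈ A := by rw [← hS]; exact Subgroup.subset_closure hs
    have h2 : s ∈ ((X ⊔ Y : Subgroup G) : Set G) := hAXY h1
    rw [Subgroup.normal_mul] at h2
    obtain ⟨x, hx, y, hy, h⟩ := h2
    exact ⟨x, hx, y, hy, h⟩
  choose! x hx y hy hxy using hS'
  set B : Subgroup G := Subgroup.closure ((S.image y : Finset G) : Set G) with hB
  have hBfg : B.FG := ⟨S.image y, rfl⟩
  have hBY : B ≤ Y := by
    rw [hB, Subgroup.closure_le]
    intro z hz
    rw [Finset.mem_coe, Finset.mem_image] at hz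
    obtain ⟨s, hs, rfl⟩ := hz
    exact hy s hs
  have hBfin : Finite B := hY B hBfg hBY
  have hAB : A ≤ B ⊔ X := by
    rw [← hS, Subgroup.closure_le]
    intro s hs
    have h1 : y s ∈ B := Subgroup.subset_closure (by
      rw [Finset.mem_coe, Finset.mem_image]; exact ⟨s, hs, rfl⟩)
    have h2 := hxy s hs
    rw [← h2]
    exact mul_mem (Subgroup.mem_sup_right (hx s hs)) (Subgroup.mem_sup_left h1)
  have h1 : X.relIndex (B ⊔ X) ≠ 0 := by
    rw [Subgroup.relIndex_sup_right]
    exact Subgroup.index_ne_zero_of_finite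
  have h2 : X.relIndex A ≠ 0 := fun h => h1 (Subgroup.relIndex_eq_zero_of_le_right hAB h)
  have : Group.FG A := (Group.fg_iff_subgroup_fg A).mpr ⟨S, hS⟩
  have h3 : (X.subgroupOf A).FG := fg_of_index (X.subgroupOf A) h2
  have h4 : Finite (X.subgroupOf A) := by
    refine LocFin_comap A.subtype A.subtype_injective hX _ h3 ?_
    exact le_rfl
  by_contra hinf
  rw [not_finite_iff_infinite] at hinf
  exact not_fin (X.subgroupOf A) h2 h4

/-- the locally finite radical -/
def rad (G : Type) [Group G] : Subgroup G := sSup {N | N.Normal ∧ LocFin N}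

lemma rad_locFin : LocFin (rad G) := by
  intro A hA hAR
  obtain ⟨S, hS⟩ := hA
  have hne : ({N : Subgroup G | N.Normal ∧ LocFin N}).Nonempty := ⟨⊥, inferInstance, LocFin_bot⟩
  have hdir : DirectedOn (· ≤ ·) {N : Subgroup G | N.Normal ∧ LocFin N} := by
    rintro X ⟨hX1, hX2⟩ Y ⟨hY1, hY2⟩
    have := hX1
    have := hY1
    exact ⟨X ⊔ Y, ⟨inferInstance, LocFin_sup hX2 hY2⟩, le_sup_left, le_sup_right⟩
  have key : ∀ T : Finset G, (∀ s ∈ T, s ∈ rad G) →
      ∃ N ∈ {N : Subgroup G | N.Normal ∧ LocFin N}, ∀ s ∈ T, s ∈ N := by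
    classical
    intro T
    induction T using Finset.induction_on with
    | empty => intro _; exact ⟨⊥, ⟨inferInstance, LocFin_bot⟩, by simp⟩
    | insert a T _ ih =>
      intro h
      obtain ⟨N, hN, hTN⟩ := ih (fun s hs => h s (Finset.mem_insert_of_mem hs))
      have ha := h a (Finset.mem_insert_self a T)
      rw [rad, Subgroup.mem_sSup_of_directedOn hne hdir] at ha
      obtain ⟨M, hM, haM⟩ := ha
      obtain ⟨K, hK, hNK, hMK⟩ := hdir N hN M hM
      refine ⟨K, hK, ?_⟩
      intro s hs
      rcases Finset.mem_insert.mp hs with rfl | hs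
      · exact hMK haM
      · exact hNK (hTN s hs)
  obtain ⟨N, hN, hSN⟩ := key S (fun s hs => hAR (by rw [← hS]; exact Subgroup.subset_closure hs))
  exact hN.2 A ⟨S, hS⟩ (by rw [← hS, Subgroup.closure_le]; exact fun s hs => hSN s hs)

instance rad_char : (rad G).Characteristic := by
  rw [Subgroup.characteristic_iff_map_le]
  intro φ
  rw [Subgroup.map_le_iff_le_comap, rad]
  apply sSup_le
  rintro N ⟨hN1, hN2⟩
  rw [← Subgroup.map_le_iff_le_comap]
  apply le_sSup
  refine ⟨hN1.map φ.toMonoidHom φ.surjective, LocFin_map φ.toMonoidHom φ.injective hN2⟩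

lemma le_rad {N : Subgroup G} (h1 : N.Normal) (h2 : LocFin N) : N ≤ rad G := le_sSup ⟨h1, h2⟩

theorem main (hT : S_torsion) : S_norm := by
  intro p _ G _ hG W hW hLF
  by_contra hind
  have := hG.fg
  have := hG.inf
  set Q : Subgroup G := Subgroup.normalizer (W : Set G) with hQ
  have : Q.FiniteIndex := ⟨hind⟩
  set Mc : Subgroup G := Q.normalCore with hMc
  have hMcn : Mc.Normal := Subgroup.normalCore_normal Q
  have hMcf : Mc.FiniteIndex := Subgroup.finiteIndex_normalCore Q
  have hMcQ : Mc ≤ Q := Subgroup.normalCore_le Q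
  -- the locally finite radical of `Mc`
  set P : Subgroup G := (rad Mc).map Mc.subtype with hP
  have hPn : P.Normal := ConjAct.normal_of_characteristic_of_normal
  have hPLF : LocFin P := LocFin_map Mc.subtype Mc.subtype_injective rad_locFin
  have hWMc : (W.subgroupOf Mc).Normal := by
    refine ⟨fun n hn g => ?_⟩
    rw [Subgroup.mem_subgroupOf] at hn ⊢
    have hg : (g : G) ∈ Q := hMcQ g.2
    rw [hQ, Subgroup.mem_normalizer_iff] at hg
    exact (hg n).mp hn
  have hWle : W ⊓ Mc ≤ P := by
    have h1 : W.subgroupOf Mc ≤ rad Mc :=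
      le_rad hWMc (LocFin_comap Mc.subtype Mc.subtype_injective hLF)
    have h2 := Subgroup.map_mono (f := Mc.subtype) h1
    rwa [Subgroup.subgroupOf_map_subtype] at h2
  by_cases hPb : P = ⊥
  · -- `W` is finite
    have hWMb : W ⊓ Mc = ⊥ := by
      rw [hPb] at hWle
      exact le_bot_iff.mp hWle
    have hWfin : Finite W := by
      have h1 : Mc.relIndex W ≠ 0 := by
        intro h
        have h2 := Subgroup.relIndex_eq_zero_of_le_right (le_top (a := W)) h
        rw [Subgroup.relIndex_top_right] at h2
        exact hMcf.index_ne_zero h2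
      have h3 : Mc.subgroupOf W = ⊥ := by
        rw [Subgroup.subgroupOf_eq_bot, disjoint_iff, inf_comm]
        exact hWMb
      rw [Subgroup.relIndex, h3, Subgroup.index_bot] at h1
      exact (Nat.card_ne_zero.mp h1).2
    -- the centraliser has finite index
    have hC : (Subgroup.centralizer (W : Set G)).index ≠ 0 := by
      have h1 : (W.normalizerMonoidHom.ker).index ≠ 0 := by
        have : Finite (MulAut W) := by
          unfold MulAut
          exact DFunLike.finite _
        rw [Subgroup.index_ker]
        exact Nat.card_pos.ne'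
      rw [Subgroup.normalizerMonoidHom_ker] at h1
      rw [← Subgroup.relIndex_mul_index (Subgroup.centralizer_le_normalizer (W : Set G))]
      exact mul_ne_zero h1 hind
    have : (Subgroup.centralizer (W : Set G)).FiniteIndex := ⟨hC⟩
    set Zc : Subgroup G := (Subgroup.centralizer (W : Set G)).normalCore with hZc
    have hZn : Zc.Normal := Subgroup.normalCore_normal _
    have hZf : Zc.FiniteIndex := Subgroup.finiteIndex_normalCore _
    have hZle : Zc ≤ Subgroup.centralizer (W : Set G) := Subgroup.normalCore_le _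
    set V : Subgroup G := Subgroup.normalClosure (W : Set G) with hV
    have hVn : V.Normal := Subgroup.normalClosure_normal
    have hVb : V ≠ ⊥ := by
      intro h
      apply hW
      rw [← le_bot_iff, ← h]
      exact Subgroup.subset_normalClosure
    have hVi : V.index ≠ 0 := hG.ji V hVn hVb
    have hVZ : V ≤ Subgroup.centralizer (Zc : Set G) := by
      apply Subgroup.normalClosure_le_normal
      intro w hw
      rw [SetLike.mem_coe, Subgroup.mem_centralizer_iff]
      intro z hz
      have := Subgroup.mem_centralizer_iff.mp (hZle hz) w hw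
      exact this.symm
    have hAi : (V ⊓ Zc).index ≠ 0 := Subgroup.index_inf_ne_zero hVi hZf.index_ne_zero
    have hAfg : (V ⊓ Zc).FG := fg_of_index _ hAi
    apply not_fin (V ⊓ Zc) hAi
    have : Group.FG ↥(V ⊓ Zc) := (Group.fg_iff_subgroup_fg _).mpr hAfg
    let _ : CommGroup ↥(V ⊓ Zc) :=
      { (inferInstance : Group ↥(V ⊓ Zc)) with
        mul_comm := by
          intro a b
          apply Subtype.ext
          have h1 := Subgroup.mem_centralizer_iff.mp (hVZ a.2.1) b b.2.2
          exact h1.symm }
    apply CommGroup.finite_of_fg_isMulTorsion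
    intro a
    have := hT p G hG (a : G)
    exact (Submonoid.isOfFinOrder_coe (x := a)).mp this
  · exact LocFin_index P (hG.ji P hPn hPb) hPLF

end Pool.Agent.H656.DC.Norm
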