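import Pool.Agent.H656.DC.GStmts

/-!
# Orthogonality of the powers `(x - 1) ^ k` over `𝔽_p[H]` (leaf `Orth`, by helper738)
-/

set_option autoImplicit false

namespace Pool.Agent.H656.DC.Orth

open Pool.Agent.H656.DC

section chi

variable {F : Type} [Group F] {M H : Subgroup F} {p : ℕ}

theorem exists_chi [Fact p.Prime] (hHM : H ≤ M) (hn : ∀ b ∈ M, ∀ h ∈ H, b * h * b⁻¹ ∈ H)
    (hi : H.relIndex M = p) :
    ∃ χ : F → ZMod p, (∀ a ∈ M, ∀ b ∈ M, χ (a * b) = χ a + χ b) ∧
      (∀ a ∈ M, (χ a = 0 ↔ a ∈ H)) := by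
  classical
  have hN : (H.subgroupOf M).Normal := by
    refine ⟨fun h hh b => ?_⟩
    rw [Subgroup.mem_subgroupOf] at hh ⊢
    exact hn _ b.2 _ hh
  have hc : Nat.card (M ⧸ H.subgroupOf M) = p := hi
  let e : (M ⧸ H.subgroupOf M) ≃* Multiplicative (ZMod p) :=
    mulEquivOfPrimeCardEq (p := p) hc (by rw [Nat.card_eq_fintype_card]; simp)
  refine ⟨fun g => if hg : g ∈ M then
    Multiplicative.toAdd (e (QuotientGroup.mk' (H.subgroupOf M) ⟨g, hg⟩)) else 0, ?_, ?_⟩
  · intro a ha b hb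
    simp only [dif_pos ha, dif_pos hb, dif_pos (M.mul_mem ha hb)]
    rw [← toAdd_mul, ← map_mul, ← map_mul]
    rfl
  · intro a ha
    simp only [dif_pos ha]
    rw [toAdd_eq_zero, map_eq_one_iff e e.injective, ← MonoidHom.mem_ker, QuotientGroup.ker_mk',
      Subgroup.mem_subgroupOf]

end chi

section der

variable {F : Type} [Group F] {M H : Subgroup F} {p : ℕ}

/-- the linear map `g ↦ χ(g) g` -/
noncomputable def Dm (p : ℕ) (χ : F → ZMod p) : GA p F →ₗ[ZMod p] GA p F :=
  (Finsupp.linearCombination (ZMod p) (fun g => χ g • el p g)) ∘ₗ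
    (MonoidAlgebra.coeffLinearEquiv (ZMod p)).toLinearMap

theorem Dm_el (χ : F → ZMod p) (g : F) : Dm p χ (el p g) = χ g • el p g := by
  simp [Dm, el]

/-- a homomorphism on `M` with kernel `H` -/
structure Chi (p : ℕ) (M H : Subgroup F) (χ : F → ZMod p) : Prop where
  le : H ≤ M
  mul : ∀ a ∈ M, ∀ b ∈ M, χ (a * b) = χ a + χ b
  ker : ∀ a ∈ M, (χ a = 0 ↔ a ∈ H)

namespace Chi

variable {χ : F → ZMod p} (h : Chi p M H χ)
include h

theorem one : χ 1 = 0 := (h.ker 1 M.one_mem).2 H.one_mem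

theorem ofH {a : F} (ha : a ∈ H) : χ a = 0 := (h.ker a (h.le ha)).2 ha

theorem inv {a : F} (ha : a ∈ M) : χ a⁻¹ = -χ a := by
  have h1 := h.mul a ha a⁻¹ (M.inv_mem ha)
  rw [mul_inv_cancel, h.one] at h1
  exact eq_neg_of_add_eq_zero_right h1.symm

theorem pow {a : F} (ha : a ∈ M) (j : ℕ) : χ (a ^ j) = j * χ a := by
  induction j with
  | zero => rw [pow_zero, h.one]; simp
  | succ j ih =>
    rw [pow_succ, h.mul _ (M.pow_mem ha j) _ ha, ih]
    push_cast
    ring

theorem D_mul {a b : GA p F} (ha : a ∈ KS p M) (hb : b ∈ KS p M) :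
    Dm p χ (a * b) = Dm p χ a * b + a * Dm p χ b := by
  refine KS_induction (P := fun a => Dm p χ (a * b) = Dm p χ a * b + a * Dm p χ b)
    (by simp) ?_ ?_ ?_ ha
  · intro g hg
    refine KS_induction (P := fun b => Dm p χ (el p g * b) = Dm p χ (el p g) * b +
      el p g * Dm p χ b) (by simp) ?_ ?_ ?_ hb
    · intro k hk
      rw [← el_mul, Dm_el, Dm_el, Dm_el, h.mul g hg k hk, el_mul, smul_mul_assoc, mul_smul_comm,
        add_smul]
    · intro x y _ _ hx hy
      rw [mul_add, map_add, hx, hy, map_add]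
      noncomm_ring
    · intro c x _ hx
      rw [mul_smul_comm, map_smul, hx, map_smul, mul_smul_comm, mul_smul_comm, smul_add]
  · intro x y _ _ hx hy
    rw [add_mul, map_add, hx, hy, map_add]
    noncomm_ring
  · intro c x _ hx
    rw [smul_mul_assoc, map_smul, hx, map_smul, smul_mul_assoc, smul_mul_assoc, smul_add]

theorem D_H {a : GA p F} (ha : a ∈ KS p H) : Dm p χ a = 0 := by
  refine KS_induction (P := fun a => Dm p χ a = 0) (map_zero _) ?_ ?_ ?_ ha
  · intro g hg
    rw [Dm_el, h.ofH hg, zero_smul]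
  · intro x y _ _ hx hy
    rw [map_add, hx, hy, add_zero]
  · intro c x _ hx
    rw [map_smul, hx, smul_zero]

omit h in
theorem D_mem {a : GA p F} (ha : a ∈ KS p M) : Dm p χ a ∈ KS p M := by
  refine KS_induction (P := fun a => Dm p χ a ∈ KS p M) (by simp) ?_ ?_ ?_ ha
  · intro g hg
    rw [Dm_el]
    exact (KS p M).smul_mem _ (el_mem_KS hg)
  · intro x y _ _ hx hy
    rw [map_add]
    exact (KS p M).add_mem hx hy
  · intro c x _ hx
    rw [map_smul]
    exact (KS p M).smul_mem _ hx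

theorem D_sub_one (g : F) : Dm p χ (el p g - 1) = χ g • el p g := by
  rw [map_sub, Dm_el, ← el_one, Dm_el, h.one, zero_smul, sub_zero]

theorem D_pow {x : F} (hx : x ∈ M) (k : ℕ) :
    Dm p χ ((el p x - 1) ^ k) = ((k : ZMod p) * χ x) • ((el p x - 1) ^ (k - 1) * el p x) := by
  have hxM : el p x - 1 ∈ KS p M := el_sub_one_mem_KS hx
  have hpow : ∀ k, (el p x - 1) ^ k ∈ KS p M := by
    intro k
    induction k with
    | zero => rw [pow_zero]; exact one_mem_KS M
    | succ k ih => rw [pow_succ]; exact KS_mul_mem ih hxM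
  induction k with
  | zero =>
    rw [pow_zero, ← el_one, Dm_el, h.one]
    simp
  | succ k ih =>
    rw [pow_succ, h.D_mul (hpow k) hxM, ih, h.D_sub_one]
    have hcomm : el p x * (el p x - 1) = (el p x - 1) * el p x := by noncomm_ring
    rw [smul_mul_assoc, mul_smul_comm, mul_assoc, hcomm, ← mul_assoc, Nat.add_sub_cancel]
    rcases Nat.eq_zero_or_pos k with rfl | hk
    · simp
    · have e1 : (el p x - 1) ^ (k - 1) * (el p x - 1) = (el p x - 1) ^ k := by
        rw [← pow_succ, Nat.sub_add_cancel hk]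
      rw [e1, ← add_smul]
      congr 1
      push_cast
      ring

/-- the twisted derivation on `b (x - 1) ^ k` -/
theorem D_term {x : F} (hx : x ∈ M) {b : GA p F} (hb : b ∈ KS p H) (k : ℕ) :
    Dm p χ (b * (el p x - 1) ^ k) * el p x⁻¹ =
      ((k : ZMod p) * χ x) • (b * (el p x - 1) ^ (k - 1)) := by
  have hxM : el p x - 1 ∈ KS p M := el_sub_one_mem_KS hx
  have hpow : ∀ k, (el p x - 1) ^ k ∈ KS p M := by
    intro k
    induction k with
    | zero => rw [pow_zero]; exact one_mem_KS M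
    | succ k ih => rw [pow_succ]; exact KS_mul_mem ih hxM
  rw [h.D_mul (KS_mono h.le hb) (hpow k), h.D_H hb, zero_mul, zero_add, h.D_pow hx,
    mul_smul_comm, smul_mul_assoc, mul_assoc, mul_assoc, el_mul_inv, mul_one]

end Chi

end der

section main

variable {F : Type} [Group F] {M H : Subgroup F} {p : ℕ} {χ : F → ZMod p}
  {ι : Type} [Fintype ι] {y : ι → F} {n : ι → ℕ} {J : ℕ → Submodule (ZMod p) (GA p F)}

theorem D_J (h : Chi p M H χ) (hW : WFS p M y n J) (i0 : ι) (hy : ∀ i, i ≠ i0 → y i ∈ H) (m : ℕ)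
    (a : GA p F) (ha : a ∈ J m) : Dm p χ a ∈ J (m - n i0) := by
  classical
  induction m using Nat.strong_induction_on generalizing a with
  | _ m ih =>
    rcases Nat.eq_zero_or_pos m with rfl | hm
    · rw [Nat.zero_sub, hW.zero]
      exact Chi.D_mem (hW.le_KS 0 ha)
    · have ha1 : a ∈ J 1 := hW.anti hm ha
      obtain ⟨b, hb, rfl⟩ := exists_decomp_zero hW.gen (hW.le_KS m ha) (hW.aug1 a ha1)
      have hs := hW.split m b hb ha
      rw [map_sum]
      refine Submodule.sum_mem _ fun i _ => ?_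
      rw [h.D_mul (hb i) (el_sub_one_mem_KS (hW.memM i)), h.D_sub_one]
      refine (J (m - n i0)).add_mem ?_ ?_
      · have h1 := ih (m - n i) (by have := hW.pos i; omega) (b i) (hs i)
        exact hW.anti (by omega) (hW.mul _ _ _ _ h1 (hW.geny i))
      · by_cases hi : i = i0
        · subst hi
          rw [mul_smul_comm]
          exact (J _).smul_mem _ (hW.right_mul (hs i) (el_mem_KS (hW.memM i)))
        · rw [h.ofH (hy i hi), zero_smul, mul_zero]
          exact (J _).zero_mem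

theorem pow_mem (hW : WFS p M y n J) (i0 : ι) (k : ℕ) : (el p (y i0) - 1) ^ k ∈ J (k * n i0) := by
  induction k with
  | zero =>
    rw [pow_zero, Nat.zero_mul, hW.zero]
    exact one_mem_KS M
  | succ k ih =>
    rw [pow_succ, Nat.succ_mul]
    exact hW.mul _ _ _ _ ih (hW.geny i0)

/-- the twisted derivation on sums -/
theorem D_sum (h : Chi p M H χ) {x : F} (hx : x ∈ M) (b : ℕ → GA p F) (hb : ∀ k, b k ∈ KS p H)
    (r : ℕ) :
    Dm p χ (∑ k ∈ Finset.range (r + 1), b k * (el p x - 1) ^ k) * el p x⁻¹ =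
      ∑ k ∈ Finset.range r, ((((k + 1 : ℕ) : ZMod p) * χ x) • b (k + 1)) * (el p x - 1) ^ k := by
  rw [map_sum, Finset.sum_mul, Finset.sum_range_succ', h.D_term hx (hb 0)]
  rw [Nat.cast_zero, zero_mul, zero_smul, add_zero]
  refine Finset.sum_congr rfl fun k _ => ?_
  rw [h.D_term hx (hb (k + 1)), Nat.add_sub_cancel, smul_mul_assoc]

theorem coef_ne [Fact p.Prime] {x : F} (hχ : χ x ≠ 0) {k : ℕ} (hk : k + 1 < p) :
    (((k + 1 : ℕ) : ZMod p) * χ x) ≠ 0 := by
  refine mul_ne_zero (fun h0 => ?_) hχ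
  rw [ZMod.natCast_eq_zero_iff] at h0
  exact absurd (Nat.le_of_dvd (Nat.succ_pos k) h0) (not_le.2 hk)

theorem part1 [Fact p.Prime] (h : Chi p M H χ) (hW : WFS p M y n J) (i0 : ι)
    (hx : y i0 ∉ H) (hy : ∀ i, i ≠ i0 → y i ∈ H) (r : ℕ) (hr : r ≤ p) (b : ℕ → GA p F) (m : ℕ)
    (hb : ∀ k, b k ∈ KS p H)
    (hs : ∑ k ∈ Finset.range r, b k * (el p (y i0) - 1) ^ k ∈ J m) :
    ∀ k < r, b k ∈ J (m - k * n i0) := by
  have hχ : χ (y i0) ≠ 0 := fun h0 => hx ((h.ker _ (hW.memM i0)).1 h0)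
  induction r generalizing b m with
  | zero => intro k hk; exact absurd hk (Nat.not_lt_zero k)
  | succ r ih =>
    have h1 : Dm p χ (∑ k ∈ Finset.range (r + 1), b k * (el p (y i0) - 1) ^ k) * el p (y i0)⁻¹ ∈
        J (m - n i0) :=
      hW.right_mul (D_J h hW i0 hy m _ hs) (el_mem_KS (M.inv_mem (hW.memM i0)))
    rw [D_sum h (hW.memM i0) b hb r] at h1
    have h2 := ih (by omega) (fun k => (((k + 1 : ℕ) : ZMod p) * χ (y i0)) • b (k + 1)) (m - n i0)
      (fun k => (KS p H).smul_mem _ (hb _)) h1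
    have h3 : ∀ k < r, b (k + 1) ∈ J (m - (k + 1) * n i0) := by
      intro k hk
      have h4 := h2 k hk
      have h5 := coef_ne (x := y i0) hχ (k := k) (by omega)
      have h6 := (J (m - n i0 - k * n i0)).smul_mem ((((k + 1 : ℕ) : ZMod p) * χ (y i0))⁻¹) h4
      rw [smul_smul, inv_mul_cancel₀ h5, one_smul] at h6
      have h7 : m - (k + 1) * n i0 = m - n i0 - k * n i0 := by
        rw [Nat.sub_sub, Nat.succ_mul, Nat.add_comm]
      rw [h7]
      exact h6
    intro k hk
    rcases k with _ | k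
    · rw [Finset.sum_range_succ', pow_zero, mul_one] at hs
      have h8 : ∑ k ∈ Finset.range r, b (k + 1) * (el p (y i0) - 1) ^ (k + 1) ∈ J m := by
        refine Submodule.sum_mem _ fun k hk => ?_
        refine hW.anti ?_ (hW.mul _ _ _ _ (h3 k (Finset.mem_range.1 hk)) (pow_mem hW i0 (k + 1)))
        omega
      have h9 := (J m).sub_mem hs h8
      rw [add_sub_cancel_left] at h9
      rw [Nat.zero_mul, Nat.sub_zero]
      exact h9
    · exact h3 k (by omega)

theorem part2 [Fact p.Prime] (h : Chi p M H χ) {x : F} (hxM : x ∈ M) (hx : x ∉ H) (r : ℕ)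
    (hr : r ≤ p) (b : ℕ → GA p F) (hb : ∀ k, b k ∈ KS p H)
    (hs : ∑ k ∈ Finset.range r, b k * (el p x - 1) ^ k = 0) : ∀ k < r, b k = 0 := by
  have hχ : χ x ≠ 0 := fun h0 => hx ((h.ker _ hxM).1 h0)
  induction r generalizing b with
  | zero => intro k hk; exact absurd hk (Nat.not_lt_zero k)
  | succ r ih =>
    have h1 := D_sum h hxM b hb r
    rw [hs, map_zero, zero_mul] at h1
    have h2 := ih (by omega) (fun k => (((k + 1 : ℕ) : ZMod p) * χ x) • b (k + 1))
      (fun k => (KS p H).smul_mem _ (hb _)) h1.symm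
    have h3 : ∀ k < r, b (k + 1) = 0 := by
      intro k hk
      have h4 := h2 k hk
      exact (smul_eq_zero.1 h4).resolve_left (coef_ne (x := x) hχ (k := k) (by omega))
    intro k hk
    rcases k with _ | k
    · rw [Finset.sum_range_succ', pow_zero, mul_one, Finset.sum_eq_zero, zero_add] at hs
      · exact hs
      · intro k hk
        rw [h3 k (Finset.mem_range.1 hk), zero_mul]
    · exact h3 k (by omega)

theorem part3 [Fact p.Prime] (h : Chi p M H χ) {x : F} (hxM : x ∈ M) (hx : x ∉ H) (a : GA p F)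
    (ha : a ∈ KS p M) : ∃ b : ℕ → GA p F, (∀ k, b k ∈ KS p H) ∧
      a = ∑ k ∈ Finset.range p, b k * (el p x - 1) ^ k := by
  have hχ : χ x ≠ 0 := fun h0 => hx ((h.ker _ hxM).1 h0)
  refine KS_induction (P := fun a => ∃ b : ℕ → GA p F, (∀ k, b k ∈ KS p H) ∧
      a = ∑ k ∈ Finset.range p, b k * (el p x - 1) ^ k) ?_ ?_ ?_ ?_ ha
  · exact ⟨0, fun k => (KS p H).zero_mem, by simp⟩
  · intro g hg
    set j : ℕ := (χ g * (χ x)⁻¹).val with hj
    have hjp : j < p := ZMod.val_lt _
    have hjc : (j : ZMod p) * χ x = χ g := by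
      rw [hj, ZMod.natCast_val, ZMod.cast_id, mul_assoc, inv_mul_cancel₀ hχ, mul_one]
    have hgH : g * (x ^ j)⁻¹ ∈ H := by
      have hxj := M.pow_mem hxM j
      rw [← h.ker _ (M.mul_mem hg (M.inv_mem hxj)), h.mul g hg _ (M.inv_mem hxj), h.inv hxj,
        h.pow hxM, hjc, add_neg_cancel]
    refine ⟨fun k => (j.choose k : ZMod p) • el p (g * (x ^ j)⁻¹),
      fun k => (KS p H).smul_mem _ (el_mem_KS hgH), ?_⟩
    have e1 : el p g = el p (g * (x ^ j)⁻¹) * (el p x) ^ j := by
      have e2 : (el p x) ^ j = el p (x ^ j) := by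
        induction j with
        | zero => simp
        | succ j ih => rw [pow_succ, ih, pow_succ, el_mul]
      rw [e2, ← el_mul, inv_mul_cancel_right]
    have e3 : (el p x) ^ j = ∑ k ∈ Finset.range (j + 1), (j.choose k : GA p F) * (el p x - 1) ^ k := by
      have e4 : el p x = (el p x - 1) + 1 := by rw [sub_add_cancel]
      conv_lhs => rw [e4]
      rw [(Commute.one_right (el p x - 1)).add_pow]
      refine Finset.sum_congr rfl fun k _ => ?_
      rw [one_pow, mul_one]
      exact (Nat.cast_commute _ _).eq.symm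
    have e5 : ∑ k ∈ Finset.range (j + 1), (j.choose k : GA p F) * (el p x - 1) ^ k =
        ∑ k ∈ Finset.range p, (j.choose k : GA p F) * (el p x - 1) ^ k := by
      refine Finset.sum_subset (Finset.range_mono (by omega)) fun k _ hk => ?_
      rw [Finset.mem_range, not_lt] at hk
      rw [Nat.choose_eq_zero_of_lt (by omega), Nat.cast_zero, zero_mul]
    rw [e1, e3, e5, Finset.mul_sum]
    refine Finset.sum_congr rfl fun k _ => ?_
    rw [smul_mul_assoc, ← mul_assoc, (Nat.cast_commute (j.choose k) (el p (g * (x ^ j)⁻¹))).eq.symm,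
      mul_assoc, ← nsmul_eq_mul, Nat.cast_smul_eq_nsmul]
  · rintro a b _ _ ⟨u, hu, hu'⟩ ⟨v, hv, hv'⟩
    refine ⟨fun k => u k + v k, fun k => (KS p H).add_mem (hu k) (hv k), ?_⟩
    rw [hu', hv', ← Finset.sum_add_distrib]
    refine Finset.sum_congr rfl fun k _ => ?_
    rw [add_mul]
  · rintro c a _ ⟨u, hu, hu'⟩
    refine ⟨fun k => c • u k, fun k => (KS p H).smul_mem _ (hu k), ?_⟩
    rw [hu', Finset.smul_sum]
    refine Finset.sum_congr rfl fun k _ => ?_
    rw [smul_mul_assoc]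

end main

theorem main : S_orth := by
  intro p _ F _ M H ι _ y n J hW i0 hHM hn hi hx hy
  obtain ⟨χ, h1, h2⟩ := exists_chi hHM hn hi
  have h : Chi p M H χ := ⟨hHM, h1, h2⟩
  exact ⟨fun b m hb hs => part1 h hW i0 hx hy p le_rfl b m hb hs,
    fun b hb hs => part2 h (hW.memM i0) hx p le_rfl b hb hs,
    fun a ha => part3 h (hW.memM i0) hx a ha⟩

end Pool.Agent.H656.DC.Orth
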