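import Pool.Agent.H656.DC.EStmts

/-!
# The Bernoulli measure over a product alphabet is the product of the Bernoulli measures
-/

set_option autoImplicit false

open MeasureTheory Filter Topology Set

namespace Pool.Agent.H656.DC.ProdBern

open Pool.Agent.H656.DC

/-- a spanning family made of the whole space only, for square cylinders -/
noncomputable def span (G : Type) (B : Type) [MeasurableSpace B] (ν : Measure B)
    [IsProbabilityMeasure ν] :
    (bern G ν).FiniteSpanningSetsIn
      (squareCylinders fun _ : G => {s : Set B | MeasurableSet s}) where
  set _ := univ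
  set_mem _ := ⟨∅, fun _ => univ, fun _ _ => MeasurableSet.univ, by simp⟩
  finite _ := by simp
  spanning := iUnion_const univ

theorem bern_pi {G : Type} {B : Type} [MeasurableSpace B] (ν : Measure B)
    [IsProbabilityMeasure ν] (s : Finset G) (t : G → Set B) (ht : ∀ i, MeasurableSet (t i)) :
    bern G ν (Set.pi s t) = ∏ i ∈ s, ν (t i) := by
  unfold bern
  exact Measure.infinitePi_pi _ (fun i _ => ht i)

theorem main : S_prodBern := by
  classical
  intro G _ B B' _ _ ν ν' _ _
  have hmeas : Measurable (fun z : G → B × B' => ((fun g => (z g).1), (fun g => (z g).2))) := by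
    fun_prop
  refine ⟨hmeas, ?_⟩
  symm
  refine Measure.prod_eq_generateFrom (C := squareCylinders fun _ : G => {s : Set B | MeasurableSet s})
    (D := squareCylinders fun _ : G => {s : Set B' | MeasurableSet s})
    generateFrom_squareCylinders generateFrom_squareCylinders
    (isPiSystem_squareCylinders (fun _ => MeasurableSpace.isPiSystem_measurableSet) (fun _ => MeasurableSet.univ))
    (isPiSystem_squareCylinders (fun _ => MeasurableSpace.isPiSystem_measurableSet) (fun _ => MeasurableSet.univ))
    (span G B ν) (span G B' ν') ?_
  rintro _ ⟨I, A, hA, rfl⟩ _ ⟨J, A', hA', rfl⟩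
  simp only [mem_univ_pi, mem_ofPred_eq] at hA hA'
  rw [bern_pi ν I A hA, bern_pi ν' J A' hA']
  rw [Measure.map_apply hmeas (by
    refine MeasurableSet.prod ?_ ?_
    · exact MeasurableSet.pi I.countable_toSet (fun i _ => hA i)
    · exact MeasurableSet.pi J.countable_toSet (fun i _ => hA' i))]
  have hpre : (fun z : G → B × B' => ((fun g => (z g).1), (fun g => (z g).2))) ⁻¹'
      ((I : Set G).pi A ×ˢ (J : Set G).pi A') =
      Set.pi ((I ∪ J : Finset G) : Set G)
        (fun i => (if i ∈ I then A i else univ) ×ˢ (if i ∈ J then A' i else univ)) := by
    ext z
    simp only [mem_preimage, mem_prod, Set.mem_pi, Finset.mem_coe, Finset.mem_union]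
    constructor
    · rintro ⟨h1, h2⟩ i _
      constructor
      · split_ifs with h
        · exact h1 i h
        · trivial
      · split_ifs with h
        · exact h2 i h
        · trivial
    · intro h
      constructor
      · intro i hi
        have := (h i (Or.inl hi)).1
        rwa [if_pos hi] at this
      · intro i hi
        have := (h i (Or.inr hi)).2
        rwa [if_pos hi] at this
  rw [hpre, bern_pi]
  · simp only [Measure.prod_prod]
    rw [Finset.prod_mul_distrib]
    congr 1
    · rw [← Finset.prod_subset Finset.subset_union_left]
      · exact Finset.prod_congr rfl (fun i hi => by rw [if_pos hi])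
      · intro i _ hi
        rw [if_neg hi, measure_univ]
    · rw [← Finset.prod_subset Finset.subset_union_right]
      · exact Finset.prod_congr rfl (fun i hi => by rw [if_pos hi])
      · intro i _ hi
        rw [if_neg hi, measure_univ]
  · intro i
    refine MeasurableSet.prod ?_ ?_
    · split_ifs
      · exact hA i
      · exact MeasurableSet.univ
    · split_ifs
      · exact hA' i
      · exact MeasurableSet.univ

end Pool.Agent.H656.DC.ProdBern
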