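import Pool.Agent.H656.DC.GStmts

/-! Leaf RelGenStep: one step down for relators and for generators of a subgroup. -/

set_option autoImplicit false

open scoped commutatorElement

namespace Pool.Agent.H656.DC.RelGenStep

variable {p : ℕ} {F : Type} [Group F]

lemma icomm_mem {M H : Subgroup F} {x : F} (hn : ∀ b ∈ M, ∀ h ∈ H, b * h * b⁻¹ ∈ H) (hx : x ∈ M)
    {y : F} (hy : y ∈ H) (j : ℕ) : icomm x j y ∈ H := by
  induction j with
  | zero => exact hy
  | succ j ih =>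
    change ⁅icomm x j y, x⁆ ∈ H
    rw [commutatorElement_def]
    have h1 : icomm x j y * x * (icomm x j y)⁻¹ * x⁻¹ =
        icomm x j y * (x * (icomm x j y)⁻¹ * x⁻¹) := by group
    rw [h1]
    exact H.mul_mem ih (hn x hx _ (H.inv_mem ih))

lemma comm_deg {M : Subgroup F} {ι : Type} [Fintype ι] {y : ι → F} {n : ι → ℕ}
    {J : ℕ → Submodule (ZMod p) (GA p F)} (h : WFS p M y n J) {a x : F} (ha : a ∈ M) (hx : x ∈ M)
    {k l : ℕ} (hak : el p a - 1 ∈ J k) (hxl : el p x - 1 ∈ J l) :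
    el p ⁅a, x⁆ - 1 ∈ J (k + l) := by
  have h1 : el p ⁅a, x⁆ - 1 =
      ((el p a - 1) * (el p x - 1) - (el p x - 1) * (el p a - 1)) * el p (a⁻¹ * x⁻¹) := by
    have h2 : ⁅a, x⁆ = (a * x) * (a⁻¹ * x⁻¹) := by
      rw [commutatorElement_def]; group
    have h3 : (1 : GA p F) = el p (x * a) * el p (a⁻¹ * x⁻¹) := by
      rw [← el_mul, ← el_one]
      congr 1
      group
    have h4 : (el p a - 1) * (el p x - 1) - (el p x - 1) * (el p a - 1) =
        el p (a * x) - el p (x * a) := by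
      rw [el_mul, el_mul]
      noncomm_ring
    rw [h4, sub_mul, ← h3, h2, el_mul (a * x)]
  rw [h1]
  apply h.right_mul
  · apply (J (k + l)).sub_mem
    · exact h.mul k l _ _ hak hxl
    · have := h.mul l k _ _ hxl hak
      rwa [add_comm l k] at this
  · exact el_mem_KS (M.mul_mem (M.inv_mem ha) (M.inv_mem hx))

lemma icomm_deg {M H : Subgroup F} {ι : Type} [Fintype ι] {y : ι → F} {n : ι → ℕ}
    {J : ℕ → Submodule (ZMod p) (GA p F)} (h : WFS p M y n J) (hHM : H ≤ M)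
    (hn : ∀ b ∈ M, ∀ h ∈ H, b * h * b⁻¹ ∈ H) {a x : F} (ha : a ∈ H) (hx : x ∈ M)
    {k l : ℕ} (hak : el p a - 1 ∈ J k) (hxl : el p x - 1 ∈ J l) (j : ℕ) :
    el p (icomm x j a) - 1 ∈ J (k + j * l) := by
  induction j with
  | zero =>
    rw [zero_mul, add_zero]
    exact hak
  | succ j ih =>
    have h1 := comm_deg h (hHM (icomm_mem hn hx ha j)) hx ih hxl
    have h2 : k + (j + 1) * l = k + j * l + l := by ring
    rw [h2]
    exact h1

lemma kap_eq (v : ℝ) : ∑ j : Fin p, v ^ (j : ℕ) = kap p v := by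
  unfold kap
  rw [Finset.sum_range]

lemma prod_sum {κ : Type} (f : κ → ℝ) (m : ℕ) (v : ℝ) (hv : 0 ≤ v) (hf0 : ∀ k, 0 ≤ f k)
    (hf : Summable f) : (Summable fun q : κ × Fin m => f q.1 * v ^ (q.2 : ℕ)) ∧
      ∑' q : κ × Fin m, f q.1 * v ^ (q.2 : ℕ) = (∑' k, f k) * kap m v := by
  obtain ⟨g, hg⟩ : ∃ g : Fin m → ℝ, g = fun j : Fin m => v ^ (j : ℕ) := ⟨_, rfl⟩
  have hg0 : (0 : Fin m → ℝ) ≤ g := by
    intro j
    rw [hg]
    exact pow_nonneg hv _
  have h0 : Summable g := Summable.of_finite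
  have h1 : Summable fun q : κ × Fin m => f q.1 * g q.2 := Summable.mul_of_nonneg hf h0 hf0 hg0
  have h2 := Summable.tsum_mul_tsum hf h0 h1
  have h3 : ∑' j, g j = kap m v := by
    rw [tsum_fintype, hg, kap_eq]
  rw [h3] at h2
  rw [hg] at h1 h2
  exact ⟨h1, h2.symm⟩

/-- relators -/
theorem main (hr : S_relgen) : S_relstep := by
  intro p _ F _ M H R J t σ ρ u ht0 ht1 hW hHM hn hidx hx hRH hR
  obtain ⟨ι, _, y, n, h, -⟩ := hW
  obtain ⟨x, hxM, hxH, hxu⟩ := hx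
  obtain ⟨κ, _, r, d, hrd, hgen, hsum, htsum⟩ := hR
  have hrR : ∀ k, r k ∈ R := by
    intro k
    rw [hgen]
    exact Subgroup.subset_closure ⟨1, M.one_mem, k, by simp⟩
  refine ⟨κ × Fin p, inferInstance, fun q => icomm x q.2 (r q.1), fun q => d q.1 + q.2 * u, ?_, ?_,
    ?_, ?_⟩
  · rintro ⟨k, j⟩
    have h1 : icomm x j (r k) ∈ H := icomm_mem hn hxM (hRH (hrR k)) j
    refine ⟨h1, le_trans (hrd k).2.1 (Nat.le_add_right _ _), ?_, el_sub_one_mem_KS h1⟩
    exact icomm_deg h hHM hn (hRH (hrR k)) hxM (hrd k).2.2 hxu j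
  · exact hr p F M H R x κ r hHM hn hidx hxM hxH (fun k => hRH (hrR k)) hgen
  · have h1 := (prod_sum (fun k => t ^ d k) p (t ^ u) (pow_nonneg ht0.le u)
      (fun k => pow_nonneg ht0.le _) hsum).1
    refine h1.congr fun q => ?_
    rw [pow_add, mul_comm (q.2 : ℕ) u, pow_mul]
  · have h2 := (prod_sum (fun k => t ^ d k) p (t ^ u) (pow_nonneg ht0.le u)
      (fun k => pow_nonneg ht0.le _) hsum).2
    have h3 : ∑' q : κ × Fin p, t ^ (d q.1 + q.2 * u) =
        ∑' q : κ × Fin p, t ^ d q.1 * (t ^ u) ^ (q.2 : ℕ) := by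
      refine tsum_congr fun q => ?_
      rw [pow_add, mul_comm (q.2 : ℕ) u, pow_mul]
    rw [h3, h2, mul_comm]
    have h4 : 0 ≤ kap p (t ^ u) := Finset.sum_nonneg fun j _ => pow_nonneg (pow_nonneg ht0.le u) _
    exact mul_le_mul_of_nonneg_left htsum h4

/-- `M = H ⟨x⟩` -/
lemma exists_zpow [Fact p.Prime] {M H : Subgroup F} (hHM : H ≤ M)
    (hn : ∀ b ∈ M, ∀ h ∈ H, b * h * b⁻¹ ∈ H) (hidx : H.relIndex M = p) {x : F} (hx : x ∈ M)
    (hxH : x ∉ H) {g : F} (hg : g ∈ M) : ∃ c : ℤ, g * x ^ c ∈ H := by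
  obtain ⟨K, hK⟩ : ∃ K : Subgroup F, ∀ g, g ∈ K ↔ g ∈ M ∧ ∃ c : ℤ, g * x ^ c ∈ H := by
    refine ⟨{ carrier := {g | g ∈ M ∧ ∃ c : ℤ, g * x ^ c ∈ H}
              mul_mem' := ?_
              one_mem' := ⟨M.one_mem, 0, by simp⟩
              inv_mem' := ?_ }, fun g => Iff.rfl⟩
    · rintro a b ⟨ha, c, hc⟩ ⟨hb, c', hc'⟩
      refine ⟨M.mul_mem ha hb, c' + c, ?_⟩
      have h1 : a * b * x ^ (c' + c) = (a * (b * x ^ c') * a⁻¹) * (a * x ^ c) := by
        rw [zpow_add]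
        group
      rw [h1]
      exact H.mul_mem (hn a ha _ hc') hc
    · rintro a ⟨ha, c, hc⟩
      refine ⟨M.inv_mem ha, -c, ?_⟩
      have h1 : a⁻¹ * x ^ (-c) = x ^ c * (a * x ^ c)⁻¹ * (x ^ c)⁻¹ := by
        rw [zpow_neg, mul_inv_rev]
        group
      rw [h1]
      exact hn _ (M.zpow_mem hx c) _ (H.inv_mem hc)
  have hHK : H ≤ K := fun g hg => (hK g).2 ⟨hHM hg, 0, by simpa using hg⟩
  have hKM : K ≤ M := fun g hg => ((hK g).1 hg).1
  have hxK : x ∈ K := (hK x).2 ⟨hx, -1, by simp⟩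
  have h1 := Subgroup.relIndex_mul_relIndex H K M hHK hKM
  rw [hidx] at h1
  have h2 : H.relIndex K ≠ 1 := by
    intro h
    exact hxH (Subgroup.relIndex_eq_one.1 h hxK)
  have h3 : H.relIndex K = p :=
    ((Fact.out : p.Prime).eq_one_or_self_of_dvd _ ⟨_, h1.symm⟩).resolve_left h2
  have h4 : K.relIndex M = 1 := by
    rw [h3] at h1
    exact Nat.eq_of_mul_eq_mul_left (Fact.out : p.Prime).pos (by rw [h1, mul_one])
  exact ((hK g).1 (Subgroup.relIndex_eq_one.1 h4 hg)).2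

/-- relative index in a subgroup -/
lemma relIndex_sub [Fact p.Prime] {M H B : Subgroup F}
    (hn : ∀ b ∈ M, ∀ h ∈ H, b * h * b⁻¹ ∈ H) (hidx : H.relIndex M = p) (hB : B ≤ M)
    (hBH : ¬ B ≤ H) : (B ⊓ H).relIndex B = p := by
  rw [Subgroup.inf_relIndex_left]
  have hnorm : (H.subgroupOf M).Normal := by
    constructor
    intro a ha b
    exact hn b b.2 a ha
  have h1 : (H.subgroupOf M).relIndex (B.subgroupOf M) ∣ (H.subgroupOf M).index :=
    Subgroup.relIndex_dvd_index_of_normal _ _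
  rw [Subgroup.relIndex_subgroupOf hB] at h1
  have h2 : (H.subgroupOf M).index = p := hidx
  rw [h2] at h1
  refine ((Fact.out : p.Prime).eq_one_or_self_of_dvd _ h1).resolve_left fun h => ?_
  exact hBH (Subgroup.relIndex_eq_one.1 h)

lemma pow_deg {M : Subgroup F} {ι : Type} [Fintype ι] {y : ι → F} {n : ι → ℕ}
    {J : ℕ → Submodule (ZMod p) (GA p F)} (h : WFS p M y n J) {a : GA p F} {u : ℕ} (ha : a ∈ J u)
    (j : ℕ) : a ^ j ∈ J (j * u) := by
  induction j with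
  | zero =>
    rw [pow_zero, zero_mul, h.zero]
    exact one_mem_KS M
  | succ j ih =>
    rw [pow_succ, add_mul, one_mul]
    exact h.mul _ _ _ _ ih ha

lemma el_pow (x : F) (j : ℕ) : el p (x ^ j) = el p x ^ j := by
  induction j with
  | zero => simp
  | succ j ih => rw [pow_succ, pow_succ, el_mul, ih]

lemma pow_p_deg [Fact p.Prime] {M : Subgroup F} {ι : Type} [Fintype ι] {y : ι → F} {n : ι → ℕ}
    {J : ℕ → Submodule (ZMod p) (GA p F)} (h : WFS p M y n J) {x : F} {u : ℕ}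
    (hx : el p x - 1 ∈ J u) : el p (x ^ p) - 1 ∈ J (p * u) := by
  have hc : CharP (GA p F) p := charP_of_injective_algebraMap
    (FaithfulSMul.algebraMap_injective (ZMod p) (GA p F)) p
  have h1 : el p (x ^ p) - 1 = (el p x - 1) ^ p := by
    rw [sub_pow_char_of_commute (p := p) (Commute.one_right (el p x)), one_pow, el_pow]
  rw [h1]
  exact pow_deg h hx p

/-- generators of a subgroup -/
theorem main2 (hg : S_gen) : S_genstep := by
  classical
  intro p _ F _ M H R B J t σ ρ u ht0 ht1 hW hHM hn hidx hlow hup hRn hRH hBM hG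
  have hp : p.Prime := Fact.out
  obtain ⟨ι, _, y, n, h, -⟩ := hW
  obtain ⟨κ, _, s, e, hs, hgen, hsum⟩ := hG
  have hRB : R ≤ B := by rw [← hgen]; exact le_sup_right
  refine ⟨fun hBH => ?_, fun hBH => ?_⟩
  swap
  · exact ⟨κ, inferInstance, s, e, fun k => ⟨(hs k).1, (hs k).2.1, (hs k).2.2,
      el_sub_one_mem_KS (hBH (hs k).1)⟩, hgen, hsum⟩
  obtain ⟨k0, hk0⟩ : ∃ k0, s k0 ∉ H := by
    by_contra hcon
    push Not at hcon
    apply hBH
    rw [← hgen]
    refine sup_le ?_ hRH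
    rw [Subgroup.closure_le]
    rintro _ ⟨k, rfl⟩
    exact hcon k
  obtain ⟨r, hrR, hru⟩ := hup (s k0) (hBM (hs k0).1)
  obtain ⟨x, hx⟩ : ∃ x, x = s k0 * r := ⟨_, rfl⟩
  rw [← hx] at hru
  have hxB : x ∈ B := by rw [hx]; exact B.mul_mem (hs k0).1 (hRB hrR)
  have hxH : x ∉ H := by
    intro hxH
    apply hk0
    have : s k0 = x * r⁻¹ := by rw [hx]; group
    rw [this]
    exact H.mul_mem hxH (H.inv_mem (hRH hrR))
  have hu1 : 1 ≤ u := by
    by_contra hu0
    have hu0' : u = 0 := by omega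
    apply hxH
    apply hlow x (hBM hxB)
    rw [hu0']
    exact h.el_sub_one_mem_one (hBM hxB)
  have heu : ∀ k, s k ∉ H → e k ≤ u := by
    intro k hk
    by_contra hcon
    exact hk (hlow _ (hBM (hs k).1) (h.anti (by omega : u + 1 ≤ e k) (hs k).2.2))
  -- corrections
  have hc : ∀ k, ∃ c : ℤ, s k * x ^ c ∈ H ∧ (s k ∈ H → c = 0) := by
    intro k
    by_cases hk : s k ∈ H
    · exact ⟨0, by simpa using hk, fun _ => rfl⟩
    · obtain ⟨c, hc⟩ := exists_zpow hHM hn hidx (hBM hxB) hxH (hBM (hs k).1)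
      exact ⟨c, hc, fun h => absurd h hk⟩
  choose c hc1 hc2 using hc
  have hsB : ∀ k, s k * x ^ c k ∈ B := fun k => B.mul_mem (hs k).1 (B.zpow_mem hxB _)
  have hsdeg : ∀ k, el p (s k * x ^ c k) - 1 ∈ J (e k) := by
    intro k
    rw [← h.mem_Dsub hp.ne_one]
    refine Subgroup.mul_mem _ ((h.mem_Dsub hp.ne_one).2 (hs k).2.2) ?_
    by_cases hk : s k ∈ H
    · rw [hc2 k hk, zpow_zero]
      exact Subgroup.one_mem _
    · refine Subgroup.zpow_mem _ ((h.mem_Dsub hp.ne_one).2 ?_) _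
      exact h.anti (heu k hk) hru
  -- the subgroup `B ⊓ H`
  have hnB : ∀ b ∈ B, ∀ g ∈ B ⊓ H, b * g * b⁻¹ ∈ B ⊓ H := fun b hb g hg =>
    ⟨B.mul_mem (B.mul_mem hb hg.1) (B.inv_mem hb), hn b (hBM hb) g hg.2⟩
  obtain ⟨T, hT⟩ : ∃ T : Set F, T = {g | ∃ k, k ≠ k0 ∧ g = s k * x ^ c k} ∪ (R : Set F) := ⟨_, rfl⟩
  have hTB : T ⊆ (B ⊓ H : Subgroup F) := by
    rw [hT]
    rintro g (⟨k, -, rfl⟩ | hg)
    · exact ⟨hsB k, hc1 k⟩
    · exact ⟨hRB hg, hRH hg⟩
  have hclos : Subgroup.closure (insert x T) = B := by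
    apply le_antisymm
    · rw [Subgroup.closure_le]
      rintro g (rfl | hg)
      · exact hxB
      · exact (hTB hg).1
    · have hxc : x ∈ Subgroup.closure (insert x T) := Subgroup.subset_closure (Set.mem_insert _ _)
      have hRc : R ≤ Subgroup.closure (insert x T) := fun g hg =>
        Subgroup.subset_closure (Set.mem_insert_of_mem _ (by rw [hT]; exact Or.inr hg))
      rw [← hgen]
      refine sup_le ?_ hRc
      rw [Subgroup.closure_le]
      rintro _ ⟨k, rfl⟩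
      by_cases hk : k = k0
      · subst hk
        have : s k = x * r⁻¹ := by rw [hx]; group
        rw [this]
        exact Subgroup.mul_mem _ hxc (Subgroup.inv_mem _ (hRc hrR))
      · have : s k = (s k * x ^ c k) * (x ^ c k)⁻¹ := by group
        rw [this]
        exact Subgroup.mul_mem _ (Subgroup.subset_closure (Set.mem_insert_of_mem _
          (by rw [hT]; exact Or.inl ⟨k, hk, rfl⟩))) (Subgroup.inv_mem _ (Subgroup.zpow_mem _ hxc _))
  have hmain := hg p F B (B ⊓ H) x T hclos inf_le_left hnB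
    (relIndex_sub hn hidx hBM hBH) (fun h => hxH h.2) hTB
  -- the new family
  have hxp : x ^ p ∈ B ⊓ H := by
    rw [← hmain]
    exact Subgroup.subset_closure (Set.mem_insert _ _)
  have hic : ∀ (k : κ) (j : ℕ), icomm x j (s k * x ^ c k) ∈ B ⊓ H := fun k j =>
    icomm_mem hnB hxB ⟨hsB k, hc1 k⟩ j
  refine ⟨Option ({k : κ // k ≠ k0} × Fin p), inferInstance,
    fun q => q.elim (x ^ p) fun q => icomm x q.2 (s q.1 * x ^ c q.1),
    fun q => q.elim (p * u) fun q => e q.1 + q.2 * u, ?_, ?_, ?_⟩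
  · rintro (_ | ⟨⟨k, hk⟩, j⟩)
    · refine ⟨hxp, ?_, pow_p_deg h hru, el_sub_one_mem_KS hxp.2⟩
      exact Nat.mul_pos hp.pos hu1
    · refine ⟨hic k j, le_trans (hs k).2.1 (Nat.le_add_right _ _), ?_, el_sub_one_mem_KS (hic k j).2⟩
      exact icomm_deg h hHM hn (hc1 k) (hBM hxB) (hsdeg k) hru j
  · apply le_antisymm
    · refine sup_le ?_ (le_inf hRB hRH)
      rw [Subgroup.closure_le]
      rintro _ ⟨(_ | ⟨⟨k, hk⟩, j⟩), rfl⟩
      · exact hxp
      · exact hic k j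
    · rw [← hmain, Subgroup.closure_le]
      rintro g (rfl | ⟨y, hy, j, hj, rfl⟩)
      · exact Subgroup.mem_sup_left (Subgroup.subset_closure ⟨none, rfl⟩)
      · rw [hT] at hy
        rcases hy with ⟨k, hk, rfl⟩ | hy
        · exact Subgroup.mem_sup_left (Subgroup.subset_closure ⟨some (⟨k, hk⟩, ⟨j, hj⟩), rfl⟩)
        · refine Subgroup.mem_sup_right ?_
          exact icomm_mem (M := ⊤) (fun b _ g hg => hRn.conj_mem g hg b) (Subgroup.mem_top x) hy j
  · rw [Fintype.sum_option]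
    simp only [Option.elim]
    have h1 : ∑ q : {k : κ // k ≠ k0} × Fin p, t ^ (e q.1 + q.2 * u) =
        (∑ k : {k : κ // k ≠ k0}, t ^ e k) * kap p (t ^ u) := by
      rw [← kap_eq, Finset.sum_mul_sum, Fintype.sum_prod_type]
      refine Finset.sum_congr rfl fun k _ => Finset.sum_congr rfl fun j _ => ?_
      rw [pow_add, mul_comm (j : ℕ) u, pow_mul]
    have h2 : ∑ k : {k : κ // k ≠ k0}, t ^ e k = (∑ k, t ^ e k) - t ^ e k0 := by
      rw [← Finset.sum_erase_add _ _ (Finset.mem_univ k0), add_sub_cancel_right]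
      rw [Finset.sum_subtype (Finset.univ.erase k0) (p := fun k => k ≠ k0) (fun k => by simp)]
    have h3 : t ^ u ≤ t ^ e k0 := pow_le_pow_of_le_one ht0.le ht1.le (heu k0 hk0)
    have h4 : (1 - t ^ u) * kap p (t ^ u) = 1 - (t ^ u) ^ p := by
      unfold kap
      exact mul_neg_geom_sum (t ^ u) p
    have h5 : 0 ≤ kap p (t ^ u) := Finset.sum_nonneg fun j _ => by positivity
    rw [h1, h2, mul_comm p u, pow_mul]
    nlinarith [mul_le_mul_of_nonneg_right (sub_le_sub hsum h3) h5]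

end Pool.Agent.H656.DC.RelGenStep
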