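import Pool.Agent.H656.DC.GStmts

/-!
# Leaf Rescale: rescaling the degrees `n i ↦ k * n i + m`
-/

set_option autoImplicit false

namespace Pool.Agent.H656.DC.Rescale

variable {p : ℕ} {F : Type} [Group F]

/-- conjugation by a group element is multiplicative -/
lemma conj_mul (g : F) (a b : GA p F) :
    el p g * (a * b) * el p g⁻¹ = (el p g * a * el p g⁻¹) * (el p g * b * el p g⁻¹) := by
  have h : el p g⁻¹ * el p g = 1 := el_inv_mul g
  calc el p g * (a * b) * el p g⁻¹
      = el p g * a * 1 * b * el p g⁻¹ := by rw [mul_one]; simp only [mul_assoc]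
    _ = el p g * a * (el p g⁻¹ * el p g) * b * el p g⁻¹ := by rw [h]
    _ = _ := by simp only [mul_assoc]

lemma conj_mem_KS {M : Subgroup F} (hM : M.Normal) (g : F) {a : GA p F} (ha : a ∈ KS p M) :
    el p g * a * el p g⁻¹ ∈ KS p M := by
  refine KS_induction (P := fun a => el p g * a * el p g⁻¹ ∈ KS p M) (by simp) ?_ ?_ ?_ ha
  · intro h hh
    rw [← el_mul, ← el_mul]
    exact el_mem_KS (hM.conj_mem h hh g)
  · intro x y _ _ hx hy
    rw [mul_add, add_mul]
    exact (KS p M).add_mem hx hy
  · intro c x _ hx
    rw [mul_smul_comm, smul_mul_assoc]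
    exact (KS p M).smul_mem c hx

/-- **Leaf Rescale**. -/
theorem main (hc : S_construct) : S_rescale := by
  intro p _ F _ M ι _ y n J h k m hk
  have hpos : ∀ i, 1 ≤ k * n i + m := by
    intro i
    have h1 := h.pos i
    have h2 : 1 ≤ k * n i := Nat.mul_pos hk h1
    omega
  obtain ⟨J', h'⟩ := hc p F M ι y (fun i => k * n i + m) hpos h.gen h.indep
  -- comparison of the two filtrations
  have key : ∀ (j : ℕ) (a : GA p F), a ∈ J j →
      a ∈ J' (k * j) ∧ (1 ≤ j → a ∈ J' (k * j + m)) := by
    intro j
    induction j using Nat.strong_induction_on with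
    | _ j ih =>
      intro a ha
      rcases Nat.eq_zero_or_pos j with rfl | hj
      · refine ⟨?_, fun h0 => absurd h0 (by omega)⟩
        rw [mul_zero, h'.zero, ← h.zero]
        exact ha
      · have h2 : a ∈ J' (k * j + m) := by
          have ha1 : a ∈ J 1 := h.anti hj ha
          obtain ⟨b, hb, rfl⟩ := exists_decomp_zero h.gen (h.le_KS j ha) (h.aug1 a ha1)
          have hs := h.split j b hb ha
          apply Submodule.sum_mem
          intro i _
          have hni := h.pos i
          have h1 := (ih (j - n i) (by omega) _ (hs i)).1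
          have h3 := h'.mul _ _ _ _ h1 (h'.geny i)
          refine h'.anti ?_ h3
          have h4 : j ≤ (j - n i) + n i := by omega
          have h5 : k * j ≤ k * (j - n i) + k * n i := by
            rw [← mul_add]
            exact Nat.mul_le_mul_left k h4
          omega
        exact ⟨h'.anti (by omega) h2, fun _ => h2⟩
  refine ⟨J', h', fun j a hj ha => (key j a ha).2 hj, ?_⟩
  intro hinv hM g j
  induction j using Nat.strong_induction_on with
  | _ j ih =>
    intro a ha
    rcases Nat.eq_zero_or_pos j with rfl | hj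
    · rw [h'.zero] at ha ⊢
      exact conj_mem_KS hM g ha
    · have ha1 : a ∈ J' 1 := h'.anti hj ha
      obtain ⟨b, hb, rfl⟩ := exists_decomp_zero h'.gen (h'.le_KS j ha) (h'.aug1 a ha1)
      have hs := h'.split j b hb ha
      rw [Finset.mul_sum, Finset.sum_mul]
      apply Submodule.sum_mem
      intro i _
      rw [conj_mul]
      have h1 := ih (j - (k * n i + m)) (by have := hpos i; omega) _ (hs i)
      have h2 : el p g * (el p (y i) - 1) * el p g⁻¹ ∈ J (n i) := hinv g (n i) _ (h.geny i)
      have h3 := (key (n i) _ h2).2 (h.pos i)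
      exact h'.anti (by omega) (h'.mul _ _ _ _ h1 h3)

end Pool.Agent.H656.DC.Rescale
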