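import Mathlib
import Pool.Agent.H656.DC.EStmts

/-!
# The property (T) seed (`S_seed`)
-/

set_option autoImplicit false

open MeasureTheory Filter Topology
open scoped commutatorElement RealInnerProductSpace

namespace Pool.Agent.H656.DC.Seed

instance fact67 : Fact (Nat.Prime 67) := ⟨by norm_num⟩

section grp
variable {G : Type} [Group G]

/-- powers indexed by `ZMod 67` -/
def E (g : G) (k : ZMod 67) : G := g ^ k.val

lemma comm_E {z g : G} (h : Commute z g) (k : ZMod 67) : Commute z (E g k) := h.pow_right k.val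

lemma E_comm' {z g : G} (h : Commute z g) (k : ZMod 67) : Commute (E z k) g := h.pow_left k.val

lemma E_zero (g : G) : E g 0 = 1 := by simp [E]

lemma E_one (g : G) : E g 1 = g := by
  have : (1 : ZMod 67).val = 1 := rfl
  simp [E, this]

lemma E_natCast {g : G} (hg : g ^ 67 = 1) (n : ℕ) : E g (n : ZMod 67) = g ^ n := by
  unfold E
  rw [ZMod.val_natCast]
  exact (pow_eq_pow_mod n hg).symm

lemma E_add {g : G} (hg : g ^ 67 = 1) (k l : ZMod 67) : E g (k + l) = E g k * E g l := by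
  unfold E
  rw [ZMod.val_add, ← pow_eq_pow_mod _ hg, pow_add]

lemma E_neg {g : G} (hg : g ^ 67 = 1) (k : ZMod 67) : E g (-k) = (E g k)⁻¹ := by
  rw [eq_inv_iff_mul_eq_one, ← E_add hg, neg_add_cancel, E_zero]

lemma pow_comm' {a b z : G} (hab : a * b = z * (b * a)) (hza : Commute z a) (hzb : Commute z b)
    (k l : ℕ) : a ^ k * b ^ l = z ^ (k * l) * (b ^ l * a ^ k) := by
  have h1 : ∀ l : ℕ, a * b ^ l = z ^ l * (b ^ l * a) := by
    intro l
    induction l with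
    | zero => simp
    | succ l ih =>
      have hzbl : b ^ l * z = z * b ^ l := (hzb.symm.pow_left l)
      calc a * b ^ (l + 1) = (a * b ^ l) * b := by rw [pow_succ]; group
        _ = z ^ l * b ^ l * (a * b) := by rw [ih]; group
        _ = z ^ l * (b ^ l * z) * (b * a) := by rw [hab]; group
        _ = z ^ (l + 1) * (b ^ (l + 1) * a) := by rw [hzbl]; group
  induction k with
  | zero => simp
  | succ k ih =>
    have hzal : a * z ^ (k * l) = z ^ (k * l) * a := (hza.symm.pow_right (k * l))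
    calc a ^ (k + 1) * b ^ l = a * (a ^ k * b ^ l) := by rw [pow_succ']; group
      _ = (a * z ^ (k * l)) * (b ^ l * a ^ k) := by rw [ih]; group
      _ = z ^ (k * l) * (a * b ^ l) * a ^ k := by rw [hzal]; group
      _ = z ^ (k * l) * z ^ l * (b ^ l * (a * a ^ k)) := by rw [h1]; group
      _ = z ^ ((k + 1) * l) * (b ^ l * a ^ (k + 1)) := by
        rw [← pow_add, ← pow_succ', Nat.succ_mul]

lemma z_pow {a b z : G} (hab : a * b = z * (b * a)) (hza : Commute z a) (hzb : Commute z b)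
    (hb : b ^ 67 = 1) : z ^ 67 = 1 := by
  have h := pow_comm' hab hza hzb 1 67
  simp only [pow_one, hb, mul_one, one_mul] at h
  have : z ^ (67) * a = 1 * a := by rw [one_mul]; exact h.symm
  exact mul_right_cancel this

lemma E_comm {a b z : G} (hab : a * b = z * (b * a)) (hza : Commute z a) (hzb : Commute z b)
    (hb : b ^ 67 = 1) (k l : ZMod 67) :
    E b l * E a k = E z (-(k * l)) * (E a k * E b l) := by
  have hz := z_pow hab hza hzb hb
  have h := pow_comm' hab hza hzb k.val l.val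
  have h1 : E a k * E b l = E z (k * l) * (E b l * E a k) := by
    have h2 : E z (k * l) = z ^ (k.val * l.val) := by
      rw [← E_natCast hz, Nat.cast_mul, ZMod.natCast_zmod_val, ZMod.natCast_zmod_val]
    rw [h2]; exact h
  rw [h1, ← mul_assoc, ← E_add hz, neg_add_cancel, E_zero, one_mul]

end grp

section rep
variable {H : Type} [NormedAddCommGroup H] [InnerProductSpace ℝ H]
variable {G : Type} [Group G] (π : G →* (H ≃ₗᵢ[ℝ] H))

lemma pi_mul (g h : G) (v : H) : π (g * h) v = π g (π h v) := by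
  rw [map_mul]; rfl

lemma pi_one (v : H) : π 1 v = v := by
  rw [map_one]; rfl

lemma pi_inner (g : G) (v w : H) : ⟪π g v, w⟫ = ⟪v, π g⁻¹ w⟫ := by
  have h : π g (π g⁻¹ w) = w := by rw [← pi_mul, mul_inv_cancel, pi_one]
  calc ⟪π g v, w⟫ = ⟪π g v, π g (π g⁻¹ w)⟫ := by rw [h]
    _ = ⟪v, π g⁻¹ w⟫ := LinearIsometryEquiv.inner_map_map _ _ _

/-- the average over the powers of `g` -/
noncomputable def P (g : G) : H →ₗ[ℝ] H :=
  (1 / 67 : ℝ) • ∑ k : ZMod 67, ((π (E g k)).toLinearEquiv : H →ₗ[ℝ] H)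

lemma P_apply (g : G) (v : H) : P π g v = (1 / 67 : ℝ) • ∑ k : ZMod 67, π (E g k) v := by
  simp [P, LinearMap.sum_apply]

lemma P_cont (g : G) : Continuous (fun v => P π g v) := by
  simp only [P_apply]
  apply Continuous.const_smul
  apply continuous_finsetSum
  intro k _
  exact (π (E g k)).continuous

lemma P_symm {g : G} (hg : g ^ 67 = 1) (v w : H) : ⟪P π g v, w⟫ = ⟪v, P π g w⟫ := by
  rw [P_apply, P_apply, inner_smul_left, inner_smul_right, sum_inner, inner_sum]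
  congr 1
  refine Fintype.sum_equiv (Equiv.neg _) _ _ (fun k => ?_)
  rw [Equiv.neg_apply, E_neg hg, pi_inner]

lemma P_fix {g : G} (hg : g ^ 67 = 1) (l : ZMod 67) (v : H) : π (E g l) (P π g v) = P π g v := by
  rw [P_apply, map_smul, map_sum]
  congr 1
  refine Fintype.sum_equiv (Equiv.addLeft l) _ _ (fun k => ?_)
  rw [Equiv.coe_addLeft, E_add hg, pi_mul]

lemma P_fix' {g : G} (hg : g ^ 67 = 1) (l : ZMod 67) (v : H) : P π g (π (E g l) v) = P π g v := by
  rw [P_apply, P_apply]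
  congr 1
  refine Fintype.sum_equiv (Equiv.addRight l) _ _ (fun k => ?_)
  rw [Equiv.coe_addRight, E_add hg, pi_mul]

lemma P_fix1 {g : G} (hg : g ^ 67 = 1) (v : H) : π g (P π g v) = P π g v := by
  have := P_fix π hg 1 v
  rwa [E_one] at this

lemma fix_E {g : G} {v : H} (h : π g v = v) (k : ZMod 67) : π (E g k) v = v := by
  unfold E
  generalize k.val = n
  induction n with
  | zero => rw [pow_zero, pi_one]
  | succ n ih => rw [pow_succ, pi_mul, h, ih]

lemma P_of_fix {g : G} {v : H} (h : π g v = v) : P π g v = v := by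
  rw [P_apply]
  simp only [fix_E π h]
  rw [Finset.sum_const, Finset.card_univ, ZMod.card, ← Nat.cast_smul_eq_nsmul ℝ, smul_smul]
  norm_num

lemma P_idem {g : G} (hg : g ^ 67 = 1) (v : H) : P π g (P π g v) = P π g v :=
  P_of_fix π (P_fix1 π hg v)

lemma P_inner_self {g : G} (hg : g ^ 67 = 1) (v : H) : ⟪P π g v, v⟫ = ‖P π g v‖ ^ 2 := by
  rw [← real_inner_self_eq_norm_sq, ← P_symm π hg, P_idem π hg]

lemma P_comm_pi {z g : G} (h : Commute z g) (v : H) : π z (P π g v) = P π g (π z v) := by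
  rw [P_apply, P_apply, map_smul, map_sum]
  congr 1
  refine Finset.sum_congr rfl (fun k _ => ?_)
  rw [← pi_mul, ← pi_mul]
  have : z * E g k = E g k * z := comm_E h k
  rw [this]

lemma P_of_comm {b : G} (f : H →ₗ[ℝ] H) (w : H)
    (h : ∀ k, π (E b k) (f w) = f (π (E b k) w)) : P π b (f w) = f (P π b w) := by
  rw [P_apply, P_apply, map_smul, map_sum]
  congr 1
  exact Finset.sum_congr rfl (fun k _ => h k)

lemma P_comm_P {z g : G} (h : Commute z g) (v : H) : P π z (P π g v) = P π g (P π z v) :=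
  P_of_comm π (P π g) v (fun k => P_comm_pi π (E_comm' h k) v)

/-- `P_a` and `P_b` commute on `z`-fixed vectors -/
lemma P_comm_on {a b z : G} (hab : a * b = z * (b * a)) (hza : Commute z a) (hzb : Commute z b)
    (hb : b ^ 67 = 1) {w : H} (hw : π z w = w) : P π b (P π a w) = P π a (P π b w) := by
  have key : ∀ k l : ZMod 67, π (E b l) (π (E a k) w) = π (E a k) (π (E b l) w) := by
    intro k l
    rw [← pi_mul, ← pi_mul, E_comm hab hza hzb hb]
    have hc : E z (-(k * l)) * (E a k * E b l) = (E a k * E b l) * E z (-(k * l)) := by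
      have h1 : Commute (E z (-(k * l))) (E a k) := comm_E (E_comm' hza _) _
      have h2 : Commute (E z (-(k * l))) (E b l) := comm_E (E_comm' hzb _) _
      exact h1.mul_right h2
    rw [hc, pi_mul, fix_E π hw]
  refine P_of_comm π (P π a) w (fun l => ?_)
  rw [P_apply, P_apply, map_smul, map_sum]
  congr 1
  exact Finset.sum_congr rfl (fun k _ => key k l)

/-- `P_b a^k P_b` is `z`-fixed for `k ≠ 0` -/
lemma PbaPb {a b z : G} (hab : a * b = z * (b * a)) (hza : Commute z a) (hzb : Commute z b)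
    (hb : b ^ 67 = 1) (k : ZMod 67) (hk : k ≠ 0) (v : H) :
    P π z (P π b (π (E a k) (P π b v))) = P π b (π (E a k) (P π b v)) := by
  set T := P π b (π (E a k) (P π b v)) with hT
  have h1 : ∀ l : ZMod 67, π (E z (-(k * l))) T = T := by
    intro l
    have h2 : P π b (π (E b l) (π (E a k) (P π b v))) = T := P_fix' π hb l _
    rw [← pi_mul, E_comm hab hza hzb hb, pi_mul, pi_mul, P_fix π hb,
      ← P_comm_pi π (E_comm' hzb _)] at h2
    exact h2
  have h3 : ∀ m : ZMod 67, π (E z m) T = T := by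
    intro m
    have := h1 (-(k⁻¹ * m))
    have e : -(k * -(k⁻¹ * m)) = m := by field_simp
    rwa [e] at this
  apply P_of_fix
  have := h3 1
  rwa [E_one] at this

/-- the projection on the common fixed vectors -/
noncomputable def EE (a b z : G) (v : H) : H := P π z (P π b (P π a (P π b v)))

lemma Pba_formula {a b z : G} (hab : a * b = z * (b * a)) (hza : Commute z a) (hzb : Commute z b)
    (hb : b ^ 67 = 1) (v : H) :
    P π b (P π a (P π b v)) - EE π a b z v = (1 / 67 : ℝ) • (P π b v - P π z (P π b v)) := by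
  unfold EE
  rw [P_apply π a]
  simp only [map_smul, map_sum]
  rw [← smul_sub, ← Finset.sum_sub_distrib]
  congr 1
  rw [Finset.sum_eq_single (0 : ZMod 67)]
  · rw [E_zero, pi_one, P_idem π hb]
  · intro k _ hk
    rw [PbaPb π hab hza hzb hb k hk, sub_self]
  · intro h; exact absurd (Finset.mem_univ _) h

lemma EE_z {a b z : G} (hz : z ^ 67 = 1) (v : H) : π z (EE π a b z v) = EE π a b z v :=
  P_fix1 π hz _

lemma EE_b {a b z : G} (hzb : Commute z b) (hb : b ^ 67 = 1) (v : H) :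
    π b (EE π a b z v) = EE π a b z v := by
  unfold EE
  rw [P_comm_P π hzb]
  exact P_fix1 π hb _

lemma EE_eq {a b z : G} (hab : a * b = z * (b * a)) (hza : Commute z a) (hzb : Commute z b)
    (hb : b ^ 67 = 1) (v : H) :
    EE π a b z v = P π a (P π b (P π z v)) := by
  have hz := z_pow hab hza hzb hb
  unfold EE
  rw [P_comm_P π hzb, P_comm_P π hza, P_comm_P π hzb]
  rw [P_comm_on π hab hza hzb hb, P_idem π hb]
  rw [← P_comm_P π hzb]
  exact P_fix1 π hz _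

lemma EE_a {a b z : G} (hab : a * b = z * (b * a)) (hza : Commute z a) (hzb : Commute z b)
    (ha : a ^ 67 = 1) (hb : b ^ 67 = 1) (v : H) :
    π a (EE π a b z v) = EE π a b z v := by
  rw [EE_eq π hab hza hzb hb]
  exact P_fix1 π ha _

lemma EE_idem {a b z : G} (hab : a * b = z * (b * a)) (hza : Commute z a) (hzb : Commute z b)
    (ha : a ^ 67 = 1) (hb : b ^ 67 = 1) (v : H) :
    EE π a b z (EE π a b z v) = EE π a b z v := by
  have hz := z_pow hab hza hzb hb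
  have h1 := EE_a π hab hza hzb ha hb v
  have h2 := EE_b π (a := a) hzb hb v
  have h3 := EE_z π (a := a) (b := b) hz v
  generalize EE π a b z v = w at *
  unfold EE
  rw [P_of_fix π h2, P_of_fix π h1, P_of_fix π h2, P_of_fix π h3]

lemma EE_sub (a b z : G) (v w : H) : EE π a b z (v - w) = EE π a b z v - EE π a b z w := by
  simp [EE, map_sub]

/-- the pair lemma, first form -/
lemma pair1 {a b z : G} (hab : a * b = z * (b * a)) (hza : Commute z a) (hzb : Commute z b)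
    (ha : a ^ 67 = 1) (hb : b ^ 67 = 1) (v : H) (hv : EE π a b z v = 0) :
    ‖P π a (P π b v)‖ ^ 2 ≤ (1 / 67) * ‖P π b v‖ ^ 2 := by
  have hz := z_pow hab hza hzb hb
  have h1 := Pba_formula π hab hza hzb hb v
  rw [hv, sub_zero] at h1
  have h2 : ‖P π a (P π b v)‖ ^ 2 = ⟪P π b (P π a (P π b v)), v⟫ := by
    rw [P_symm π hb, P_inner_self π ha]
  rw [h2, h1, inner_smul_left, inner_sub_left, P_inner_self π hb]
  have h3 : ⟪P π z (P π b v), v⟫ = ‖P π z (P π b v)‖ ^ 2 := by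
    rw [← P_inner_self π hz, ← P_symm π hb, ← P_comm_P π hzb, P_idem π hb]
  rw [h3]
  simp only [conj_trivial]
  nlinarith [sq_nonneg ‖P π z (P π b v)‖]

/-- the complementary operator -/
noncomputable def Lo (g : G) (v : H) : H := v - P π g v

/-- the pair lemma, second form -/
lemma pair2 {a b z : G} (hab : a * b = z * (b * a)) (hza : Commute z a) (hzb : Commute z b)
    (ha : a ^ 67 = 1) (hb : b ^ 67 = 1) (v : H) (hv : EE π a b z v = 0) :
    -(1 / √67) * (‖Lo π a v‖ ^ 2 + ‖Lo π b v‖ ^ 2) ≤ 2 * ⟪Lo π a v, Lo π b v⟫ := by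
  set ε : ℝ := 1 / √67 with hε
  have h67 : (0 : ℝ) < √67 := by positivity
  have hε0 : 0 < ε := by positivity
  have hε1 : ε ≤ 1 := by
    rw [hε, div_le_one h67]
    rw [show (1 : ℝ) = √1 by simp]
    exact Real.sqrt_le_sqrt (by norm_num)
  have hε2 : ε ^ 2 = 1 / 67 := by
    rw [hε, div_pow, Real.sq_sqrt (by norm_num)]; norm_num
  set u := P π a v with hu
  set w := P π b v with hw
  have huv : ⟪u, v⟫ = ‖u‖ ^ 2 := P_inner_self π ha v
  have hwv : ⟪w, v⟫ = ‖w‖ ^ 2 := P_inner_self π hb v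
  have hvu : ⟪v, u⟫ = ‖u‖ ^ 2 := by rw [real_inner_comm]; exact huv
  have hvw : ⟪v, w⟫ = ‖w‖ ^ 2 := by rw [real_inner_comm]; exact hwv
  have h1 := pair1 π hab hza hzb ha hb v hv
  rw [← hw] at h1
  have h2 : ‖P π a w‖ ≤ ε * ‖w‖ := by
    apply abs_le_of_sq_le_sq' _ (by positivity) |>.2
    rw [mul_pow, hε2]
    linarith
  have h3 : ⟪u, w⟫ ≤ ε * ‖u‖ * ‖w‖ := by
    have e : ⟪u, w⟫ = ⟪u, P π a w⟫ := by
      rw [← P_symm π ha, hu, P_idem π ha]
    rw [e]
    calc ⟪u, P π a w⟫ ≤ ‖u‖ * ‖P π a w‖ := real_inner_le_norm _ _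
      _ ≤ ‖u‖ * (ε * ‖w‖) := by gcongr
      _ = ε * ‖u‖ * ‖w‖ := by ring
  have h4 : 2 * ⟪u, w⟫ ≤ ε * (‖u‖ ^ 2 + ‖w‖ ^ 2) := by
    nlinarith [sq_nonneg (‖u‖ - ‖w‖)]
  have h5 : 0 ≤ ‖(1 + ε) • v - u - w‖ ^ 2 := by positivity
  have h6 : ‖(1 + ε) • v - u - w‖ ^ 2 = (1 + ε) ^ 2 * ‖v‖ ^ 2 - 2 * (1 + ε) * (‖u‖ ^ 2 + ‖w‖ ^ 2)
      + (‖u‖ ^ 2 + ‖w‖ ^ 2) + 2 * ⟪u, w⟫ := by
    rw [← real_inner_self_eq_norm_sq, ← real_inner_self_eq_norm_sq]
    simp only [inner_sub_left, inner_sub_right, inner_smul_left, inner_smul_right]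
    rw [hvu, hvw, huv, hwv, real_inner_comm w u]
    simp only [real_inner_self_eq_norm_sq, conj_trivial]
    ring
  have h7 : ‖Lo π a v‖ ^ 2 = ‖v‖ ^ 2 - ‖u‖ ^ 2 := by
    unfold Lo
    rw [← hu, norm_sub_sq_real, hvu]; ring
  have h8 : ‖Lo π b v‖ ^ 2 = ‖v‖ ^ 2 - ‖w‖ ^ 2 := by
    unfold Lo
    rw [← hw, norm_sub_sq_real, hvw]; ring
  have h9 : ⟪Lo π a v, Lo π b v⟫ = ‖v‖ ^ 2 - ‖w‖ ^ 2 - ‖u‖ ^ 2 + ⟪u, w⟫ := by
    unfold Lo
    rw [← hu, ← hw]
    simp only [inner_sub_left, inner_sub_right]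
    rw [hvw, huv, real_inner_self_eq_norm_sq]; ring
  rw [h7, h8, h9]
  have h10 : 0 ≤ (1 + ε) * (2 * (1 + ε) * ‖v‖ ^ 2 - (2 + ε) * (‖u‖ ^ 2 + ‖w‖ ^ 2) + 2 * ⟪u, w⟫) := by
    have e : (1 + ε) * (2 * (1 + ε) * ‖v‖ ^ 2 - (2 + ε) * (‖u‖ ^ 2 + ‖w‖ ^ 2) + 2 * ⟪u, w⟫)
      = 2 * ‖(1 + ε) • v - u - w‖ ^ 2 + (1 - ε) * (ε * (‖u‖ ^ 2 + ‖w‖ ^ 2) - 2 * ⟪u, w⟫) := by
      rw [h6]; ring
    rw [e]
    have : 0 ≤ (1 - ε) * (ε * (‖u‖ ^ 2 + ‖w‖ ^ 2) - 2 * ⟪u, w⟫) :=
      mul_nonneg (by linarith) (by linarith)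
    linarith
  have h11 := nonneg_of_mul_nonneg_right h10 (by linarith)
  nlinarith

/-- the pair lemma for all vectors -/
lemma pair3 {a b z : G} (hab : a * b = z * (b * a)) (hza : Commute z a) (hzb : Commute z b)
    (ha : a ^ 67 = 1) (hb : b ^ 67 = 1) (v : H) :
    -(1 / √67) * (‖Lo π a v‖ ^ 2 + ‖Lo π b v‖ ^ 2) ≤ 2 * ⟪Lo π a v, Lo π b v⟫ := by
  have h0 : EE π a b z (v - EE π a b z v) = 0 := by
    rw [EE_sub, EE_idem π hab hza hzb ha hb, sub_self]
  have h1 := pair2 π hab hza hzb ha hb _ h0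
  have h2 : Lo π a (v - EE π a b z v) = Lo π a v := by
    unfold Lo
    rw [map_sub, P_of_fix π (EE_a π hab hza hzb ha hb v)]; abel
  have h3 : Lo π b (v - EE π a b z v) = Lo π b v := by
    unfold Lo
    rw [map_sub, P_of_fix π (EE_b π hzb hb v)]; abel
  rwa [h2, h3] at h1

/-- the quadratic form -/
noncomputable def q {m : ℕ} (x : Fin m → G) (v : H) : ℝ := ∑ i, ‖Lo π (x i) v‖ ^ 2

/-- the Laplacian -/
noncomputable def D {m : ℕ} (x : Fin m → G) (v : H) : H := ∑ i, Lo π (x i) v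

lemma q_nonneg {m : ℕ} (x : Fin m → G) (v : H) : 0 ≤ q π x v :=
  Finset.sum_nonneg (fun _ _ => by positivity)

lemma Lo_inner {g : G} (hg : g ^ 67 = 1) (v w : H) : ⟪Lo π g v, w⟫ = ⟪Lo π g v, Lo π g w⟫ := by
  unfold Lo
  have h1 : ⟪v, P π g w⟫ = ⟪P π g v, w⟫ := (P_symm π hg v w).symm
  have h2 : ⟪P π g v, P π g w⟫ = ⟪P π g v, w⟫ := by rw [← P_symm π hg, P_idem π hg]
  simp only [inner_sub_left, inner_sub_right]
  rw [h1, h2]; ring

lemma D_inner {m : ℕ} (x : Fin m → G) (hx : ∀ i, x i ^ 67 = 1) (v : H) :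
    ⟪D π x v, v⟫ = q π x v := by
  unfold D q
  rw [sum_inner]
  refine Finset.sum_congr rfl (fun i _ => ?_)
  rw [Lo_inner π (hx i), real_inner_self_eq_norm_sq]

lemma Lo_sub_smul (g : G) (v w : H) (t : ℝ) : Lo π g (v - t • w) = Lo π g v - t • Lo π g w := by
  unfold Lo
  rw [map_sub, map_smul, smul_sub]; abel

lemma norm_D {m : ℕ} (x : Fin m → G) (v : H) : ‖D π x v‖ ^ 2 ≤ m * q π x v := by
  unfold D q
  calc ‖∑ i, Lo π (x i) v‖ ^ 2 ≤ (∑ i, ‖Lo π (x i) v‖) ^ 2 := by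
        gcongr
        exact norm_sum_le _ _
    _ ≤ (Finset.univ : Finset (Fin m)).card * ∑ i, ‖Lo π (x i) v‖ ^ 2 :=
        sq_sum_le_card_mul_sum_sq
    _ = _ := by simp

lemma q_D_le {m : ℕ} (x : Fin m → G) (hx : ∀ i, x i ^ 67 = 1) (v : H) :
    q π x v ≤ m * ‖v‖ ^ 2 := by
  unfold q
  have : ∀ i, ‖Lo π (x i) v‖ ^ 2 ≤ ‖v‖ ^ 2 := by
    intro i
    have h1 : ‖Lo π (x i) v‖ ^ 2 = ‖v‖ ^ 2 - ‖P π (x i) v‖ ^ 2 := by
      unfold Lo
      rw [norm_sub_sq_real, real_inner_comm, P_inner_self π (hx i)]; ring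
    rw [h1]
    nlinarith [sq_nonneg ‖P π (x i) v‖]
  calc ∑ i, ‖Lo π (x i) v‖ ^ 2 ≤ ∑ _i : Fin m, ‖v‖ ^ 2 := Finset.sum_le_sum (fun i _ => this i)
    _ = m * ‖v‖ ^ 2 := by simp

/-- expansion of `q` along a gradient step -/
lemma q_step {m : ℕ} (x : Fin m → G) (hx : ∀ i, x i ^ 67 = 1) (v : H) (t : ℝ) :
    q π x (v - t • D π x v) = q π x v - 2 * t * ‖D π x v‖ ^ 2 + t ^ 2 * q π x (D π x v) := by
  have h1 : ∑ i, ⟪Lo π (x i) v, Lo π (x i) (D π x v)⟫ = ‖D π x v‖ ^ 2 := by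
    have : ∀ i, ⟪Lo π (x i) v, Lo π (x i) (D π x v)⟫ = ⟪Lo π (x i) v, D π x v⟫ := fun i =>
      (Lo_inner π (hx i) _ _).symm
    rw [Finset.sum_congr rfl (fun i _ => this i), ← sum_inner, ← real_inner_self_eq_norm_sq]
    rfl
  rw [← h1]
  unfold q
  rw [Finset.mul_sum, Finset.mul_sum, ← Finset.sum_sub_distrib, ← Finset.sum_add_distrib]
  refine Finset.sum_congr rfl (fun i _ => ?_)
  rw [Lo_sub_smul, norm_sub_sq_real, inner_smul_right, norm_smul, mul_pow, Real.norm_eq_abs, sq_abs]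
  ring

/-- the spectral gap -/
lemma gap (x : Fin 9 → G)
    (hp : ∀ i j, i ≠ j → ∀ v : H, -(1 / √67) * (‖Lo π (x i) v‖ ^ 2 + ‖Lo π (x j) v‖ ^ 2)
      ≤ 2 * ⟪Lo π (x i) v, Lo π (x j) v⟫) (v : H) :
    (1 - 8 / √67) * q π x v ≤ ‖D π x v‖ ^ 2 := by
  have h1 : ‖D π x v‖ ^ 2 = ∑ i, ∑ j, ⟪Lo π (x i) v, Lo π (x j) v⟫ := by
    unfold D
    rw [← real_inner_self_eq_norm_sq, sum_inner]
    refine Finset.sum_congr rfl (fun i _ => ?_)
    rw [inner_sum]
  have h2 : ∀ i j : Fin 9, (if i = j then (1 + 1 / √67) * ‖Lo π (x i) v‖ ^ 2 else 0)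
      - (1 / √67) / 2 * (‖Lo π (x i) v‖ ^ 2 + ‖Lo π (x j) v‖ ^ 2)
      ≤ ⟪Lo π (x i) v, Lo π (x j) v⟫ := by
    intro i j
    by_cases h : i = j
    · subst h
      rw [if_pos rfl, real_inner_self_eq_norm_sq]
      apply le_of_eq
      ring
    · rw [if_neg h]
      have := hp i j h v
      linarith
  rw [h1]
  calc (1 - 8 / √67) * q π x v
      = ∑ i, ∑ j, ((if i = j then (1 + 1 / √67) * ‖Lo π (x i) v‖ ^ 2 else 0)
      - (1 / √67) / 2 * (‖Lo π (x i) v‖ ^ 2 + ‖Lo π (x j) v‖ ^ 2)) := by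
        simp only [Finset.sum_sub_distrib, Finset.sum_ite_eq, Finset.mem_univ, if_true,
          ← Finset.mul_sum, Finset.sum_add_distrib, Finset.sum_const, Finset.card_univ,
          Fintype.card_fin, nsmul_eq_mul]
        unfold q
        push_cast
        ring
    _ ≤ _ := Finset.sum_le_sum (fun i _ => Finset.sum_le_sum (fun j _ => h2 i j))

lemma Lo_le (g : G) (v : H) : ‖Lo π g v‖ ≤ 67 * ‖π g v - v‖ := by
  have h0 : ∀ n : ℕ, ‖v - π (g ^ n) v‖ ≤ n * ‖π g v - v‖ := by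
    intro n
    induction n with
    | zero => simp
    | succ n ih =>
      have e : v - π (g ^ (n + 1)) v = (v - π (g ^ n) v) - π (g ^ n) (π g v - v) := by
        rw [pow_succ, pi_mul, map_sub]; abel
      rw [e]
      calc ‖(v - π (g ^ n) v) - π (g ^ n) (π g v - v)‖
          ≤ ‖v - π (g ^ n) v‖ + ‖π (g ^ n) (π g v - v)‖ := norm_sub_le _ _
        _ ≤ n * ‖π g v - v‖ + ‖π g v - v‖ := by
            rw [LinearIsometryEquiv.norm_map]
            gcongr
        _ = ((n + 1 : ℕ) : ℝ) * ‖π g v - v‖ := by push_cast; ring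
  have h1 : Lo π g v = (1 / 67 : ℝ) • ∑ k : ZMod 67, (v - π (E g k) v) := by
    unfold Lo
    rw [P_apply, Finset.sum_sub_distrib, smul_sub, Finset.sum_const, Finset.card_univ, ZMod.card,
      ← Nat.cast_smul_eq_nsmul ℝ, smul_smul]
    norm_num
  rw [h1, norm_smul]
  have h2 : ‖∑ k : ZMod 67, (v - π (E g k) v)‖ ≤ ∑ _k : ZMod 67, 67 * ‖π g v - v‖ := by
    refine norm_sum_le_of_le _ (fun k _ => ?_)
    refine (h0 k.val).trans ?_
    gcongr
    exact_mod_cast (ZMod.val_lt k).le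
  rw [Finset.sum_const, Finset.card_univ, ZMod.card, nsmul_eq_mul] at h2
  calc ‖(1 / 67 : ℝ)‖ * ‖∑ k : ZMod 67, (v - π (E g k) v)‖
      ≤ ‖(1 / 67 : ℝ)‖ * (((67 : ℕ) : ℝ) * (67 * ‖π g v - v‖)) := by gcongr
    _ = 67 * ‖π g v - v‖ := by
      rw [Real.norm_of_nonneg (by norm_num)]; push_cast; ring

lemma q_cont {m : ℕ} (x : Fin m → G) : Continuous (fun v => q π x v) := by
  unfold q
  apply continuous_finsetSum
  intro i _
  unfold Lo
  exact (continuous_id.sub (P_cont π (x i))).norm.pow 2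

/-- gradient descent -/
lemma descent [CompleteSpace H] (x : Fin 9 → G) (hx : ∀ i, x i ^ 67 = 1) (c : ℝ) (hc0 : 0 < c)
    (hc1 : c ≤ 1) (hgap : ∀ v : H, c * q π x v ≤ ‖D π x v‖ ^ 2) (ξ : H) :
    ∃ η : H, q π x η = 0 ∧ ‖ξ - η‖ ≤ (1 / 3 * √(q π x ξ)) / (1 - √(1 - c / 9)) := by
  set ρ : ℝ := 1 - c / 9 with hρ
  have hρ0 : 0 ≤ ρ := by rw [hρ]; linarith
  have hρ1 : ρ < 1 := by rw [hρ]; linarith
  set r : ℝ := √ρ with hr
  have hr0 : 0 ≤ r := Real.sqrt_nonneg _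
  have hr1 : r < 1 := by
    rw [hr, show (1 : ℝ) = √1 by simp]
    exact Real.sqrt_lt_sqrt hρ0 hρ1
  have hr2 : r ^ 2 = ρ := Real.sq_sqrt hρ0
  set f : ℕ → H := fun n => Nat.rec ξ (fun _ v => v - (1 / 9 : ℝ) • D π x v) n with hf
  have hf0 : f 0 = ξ := rfl
  have hfs : ∀ n, f (n + 1) = f n - (1 / 9 : ℝ) • D π x (f n) := fun n => rfl
  have hstep : ∀ v : H, q π x (v - (1 / 9 : ℝ) • D π x v) ≤ ρ * q π x v := by
    intro v
    rw [q_step π x hx]
    have h1 := q_D_le π x hx (D π x v)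
    have h2 := hgap v
    push_cast at h1
    rw [hρ]
    nlinarith
  have hq : ∀ n, q π x (f n) ≤ ρ ^ n * q π x ξ := by
    intro n
    induction n with
    | zero => rw [hf0]; simp
    | succ n ih =>
      rw [hfs]
      calc _ ≤ ρ * q π x (f n) := hstep _
        _ ≤ ρ * (ρ ^ n * q π x ξ) := by gcongr
        _ = ρ ^ (n + 1) * q π x ξ := by ring
  have hdist : ∀ n, dist (f n) (f (n + 1)) ≤ (1 / 3 * √(q π x ξ)) * r ^ n := by
    intro n
    rw [hfs, dist_eq_norm, sub_sub_cancel, norm_smul, Real.norm_of_nonneg (by norm_num)]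
    have h1 := norm_D π x (f n)
    have h2 : ‖D π x (f n)‖ ≤ 3 * √(q π x ξ) * r ^ n := by
      apply abs_le_of_sq_le_sq' _ (by positivity) |>.2
      rw [mul_pow, mul_pow, Real.sq_sqrt (q_nonneg π x ξ), ← pow_mul, mul_comm n 2, pow_mul, hr2]
      have h3 := hq n
      push_cast at h1
      nlinarith
    linarith
  have hcau : CauchySeq f := cauchySeq_of_le_geometric r _ hr1 hdist
  obtain ⟨η, hη⟩ := cauchySeq_tendsto_of_complete hcau
  refine ⟨η, ?_, ?_⟩
  · have h1 : Tendsto (fun n => q π x (f n)) atTop (𝓝 (q π x η)) :=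
      ((q_cont π x).tendsto η).comp hη
    have h2 : Tendsto (fun n => ρ ^ n * q π x ξ) atTop (𝓝 (0 * q π x ξ)) :=
      (tendsto_pow_atTop_nhds_zero_of_lt_one hρ0 hρ1).mul_const _
    rw [zero_mul] at h2
    exact le_antisymm (le_of_tendsto_of_tendsto' h1 h2 hq) (q_nonneg π x η)
  · have h1 := dist_le_of_le_geometric_of_tendsto₀ r _ hr1 hdist hη
    rwa [hf0, dist_eq_norm] at h1

end rep

theorem main : S_seed := by
  intro G _ x hgen hx hcomm
  classical
  have h67 : (8 : ℝ) < √67 := by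
    rw [show (8 : ℝ) = √(8 ^ 2) by rw [Real.sqrt_sq (by norm_num)]]
    exact Real.sqrt_lt_sqrt (by norm_num) (by norm_num)
  set c : ℝ := 1 - 8 / √67 with hc
  have hc0 : 0 < c := by
    rw [hc, sub_pos, div_lt_one (by linarith)]; exact h67
  have hc1 : c ≤ 1 := by
    rw [hc]; have : 0 ≤ 8 / √67 := by positivity
    linarith
  set K : ℝ := 1 / (1 - √(1 - c / 9)) with hK
  have hr1 : √(1 - c / 9) < 1 := by
    rw [show (1 : ℝ) = √1 by simp]
    exact Real.sqrt_lt_sqrt (by simp; linarith) (by simp; linarith)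
  have hK0 : 0 ≤ K := by
    rw [hK]; apply div_nonneg zero_le_one; linarith
  refine ⟨Finset.univ.image x, (1 / 3 * K) ^ 2 * (67 ^ 2 * 9), by positivity, ?_⟩
  intro H _ _ _ π ξ
  -- the pair inequalities
  have hp : ∀ i j, i ≠ j → ∀ v : H, -(1 / √67) * (‖Lo π (x i) v‖ ^ 2 + ‖Lo π (x j) v‖ ^ 2)
      ≤ 2 * ⟪Lo π (x i) v, Lo π (x j) v⟫ := by
    intro i j hij v
    have hab : x i * x j = ⁅x i, x j⁆ * (x j * x i) := by
      rw [commutatorElement_def]; group
    have hzb : Commute ⁅x i, x j⁆ (x j) :=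
      commutatorElement_eq_one_iff_commute.mp (hcomm i j hij)
    have hza : Commute ⁅x i, x j⁆ (x i) := by
      have h1 : Commute ⁅x j, x i⁆ (x i) :=
        commutatorElement_eq_one_iff_commute.mp (hcomm j i hij.symm)
      rw [← commutatorElement_inv] at h1
      exact Commute.inv_left_iff.mp h1
    exact pair3 π hab hza hzb (hx i) (hx j) v
  obtain ⟨η, hη, hd⟩ := descent π x hx c hc0 hc1 (fun v => gap π x hp v) ξ
  refine ⟨η, ?_, ?_⟩
  · -- invariance
    have h1 : ∀ i, π (x i) η = η := by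
      intro i
      have h2 : ‖Lo π (x i) η‖ ^ 2 = 0 := by
        have := (Finset.sum_eq_zero_iff_of_nonneg (fun i _ => by positivity)).mp hη i
          (Finset.mem_univ i)
        exact this
      have h3 : Lo π (x i) η = 0 := by
        rwa [sq_eq_zero_iff, norm_eq_zero] at h2
      have h4 : P π (x i) η = η := by
        unfold Lo at h3
        exact (sub_eq_zero.mp h3).symm
      rw [← h4]
      exact P_fix1 π (hx i) η
    intro g
    have hg : g ∈ Subgroup.closure (Set.range x) := by rw [hgen]; trivial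
    induction hg using Subgroup.closure_induction with
    | mem y hy => obtain ⟨i, rfl⟩ := hy; exact h1 i
    | one => exact pi_one π η
    | mul a b _ _ ha hb => rw [pi_mul, hb, ha]
    | inv a _ ha =>
      have : π a⁻¹ (π a η) = η := by rw [← pi_mul, inv_mul_cancel, pi_one]
      rwa [ha] at this
  · have h1 : ‖ξ - η‖ ≤ (1 / 3 * K) * √(q π x ξ) := by
      refine hd.trans (le_of_eq ?_)
      rw [hK]; ring
    have h2 : ‖ξ - η‖ ^ 2 ≤ (1 / 3 * K) ^ 2 * q π x ξ := by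
      calc ‖ξ - η‖ ^ 2 ≤ ((1 / 3 * K) * √(q π x ξ)) ^ 2 := by gcongr
        _ = _ := by rw [mul_pow, Real.sq_sqrt (q_nonneg π x ξ)]
    have h3 : q π x ξ ≤ 67 ^ 2 * 9 * ∑ s ∈ Finset.univ.image x, ‖π s ξ - ξ‖ ^ 2 := by
      unfold q
      have h4 : ∀ i, ‖Lo π (x i) ξ‖ ^ 2 ≤ 67 ^ 2 * ∑ s ∈ Finset.univ.image x, ‖π s ξ - ξ‖ ^ 2 := by
        intro i
        have h5 : ‖π (x i) ξ - ξ‖ ^ 2 ≤ ∑ s ∈ Finset.univ.image x, ‖π s ξ - ξ‖ ^ 2 :=
          Finset.single_le_sum (f := fun s => ‖π s ξ - ξ‖ ^ 2) (fun _ _ => by positivity)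
            (Finset.mem_image_of_mem x (Finset.mem_univ i))
        calc ‖Lo π (x i) ξ‖ ^ 2 ≤ (67 * ‖π (x i) ξ - ξ‖) ^ 2 := by
              gcongr
              exact Lo_le π (x i) ξ
          _ = 67 ^ 2 * ‖π (x i) ξ - ξ‖ ^ 2 := by ring
          _ ≤ _ := by gcongr
      calc ∑ i, ‖Lo π (x i) ξ‖ ^ 2
          ≤ ∑ _i : Fin 9, 67 ^ 2 * ∑ s ∈ Finset.univ.image x, ‖π s ξ - ξ‖ ^ 2 :=
            Finset.sum_le_sum (fun i _ => h4 i)
        _ = _ := by simp; ring
    calc ‖ξ - η‖ ^ 2 ≤ (1 / 3 * K) ^ 2 * q π x ξ := h2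
      _ ≤ (1 / 3 * K) ^ 2 * (67 ^ 2 * 9 * ∑ s ∈ Finset.univ.image x, ‖π s ξ - ξ‖ ^ 2) := by gcongr
      _ = _ := by ring

end Pool.Agent.H656.DC.Seed
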