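import Pool.Agent.H656.DC.GStmts

/-!
# Leaf Seq: cofinal sequence of normal subgroups of `p`-power index
-/

set_option autoImplicit false

namespace Pool.Agent.H656.DC.Seq

lemma inf_index {G : Type} [Group G] {p : ℕ} (hp : p.Prime) (A B : Subgroup G) [B.Normal]
    (hA : ∃ k, A.index = p ^ k) (hB : ∃ k, B.index = p ^ k) : ∃ k, (A ⊓ B).index = p ^ k := by
  obtain ⟨a, ha⟩ := hA
  obtain ⟨b, hb⟩ := hB
  have h1 : (A ⊓ B).relIndex A * A.index = (A ⊓ B).index :=
    Subgroup.relIndex_mul_index inf_le_left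
  have h2 : (A ⊓ B).relIndex A = B.relIndex A := by
    rw [inf_comm]; exact Subgroup.inf_relIndex_right B A
  have h3 : B.relIndex A ∣ B.index := Subgroup.relIndex_dvd_index_of_normal B A
  have h4 : (A ⊓ B).index ∣ p ^ (b + a) := by
    rw [← h1, h2, pow_add, ← hb, ← ha]
    exact Nat.mul_dvd_mul h3 (dvd_refl _)
  obtain ⟨k, _, hk⟩ := (Nat.dvd_prime_pow hp).1 h4
  exact ⟨k, hk⟩

theorem main : S_seq := by
  intro p hpf G _ hfg
  have hp : p.Prime := hpf.out
  have hcount : Countable G := by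
    obtain ⟨α, hα, φ, hφ⟩ := Group.fg_iff_exists_freeGroup_hom_surjective_finite.1 hfg
    exact hφ.countable
  set 𝒮 : Set (Subgroup G) := {K | K.Normal ∧ ∃ k, K.index = p ^ k} with h𝒮
  have h1 : 𝒮.Countable := by
    apply (Set.countable_range (fun s : Finset G => Subgroup.closure (s : Set G))).mono
    rintro K ⟨_, k, hk⟩
    have hne : K.index ≠ 0 := by rw [hk]; exact pow_ne_zero _ hp.ne_zero
    have : K.FiniteIndex := ⟨hne⟩
    have h3 : Group.FG K := Subgroup.fg_of_index_ne_zero K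
    obtain ⟨s, hs⟩ := (Group.fg_iff_subgroup_fg K).1 h3
    exact ⟨s, hs⟩
  have h2 : 𝒮.Nonempty := ⟨⊤, inferInstance, 0, by simp⟩
  obtain ⟨f, hf⟩ := h1.exists_eq_range h2
  have hfn : ∀ n, (f n).Normal ∧ ∃ k, (f n).index = p ^ k := fun n => by
    have : f n ∈ 𝒮 := hf ▸ Set.mem_range_self n
    exact this
  let K : ℕ → Subgroup G := fun n => Nat.rec (f 0) (fun n A => A ⊓ f (n + 1)) n
  have hK0 : K 0 = f 0 := rfl
  have hKs : ∀ n, K (n + 1) = K n ⊓ f (n + 1) := fun n => rfl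
  refine ⟨K, antitone_nat_of_succ_le (fun n => by rw [hKs]; exact inf_le_left), ?_, ?_⟩
  · intro n
    induction n with
    | zero => rw [hK0]; exact hfn 0
    | succ n ih =>
      rw [hKs]
      have h5 : (K n).Normal := ih.1
      have h6 : (f (n + 1)).Normal := (hfn (n + 1)).1
      have h7 : (K n ⊓ f (n + 1)).Normal :=
        @Subgroup.normal_inf_normal G _ (K n) (f (n + 1)) h5 h6
      exact ⟨h7, inf_index hp _ _ ih.2 (hfn (n + 1)).2⟩
  · intro K' hn hk
    have : K' ∈ 𝒮 := ⟨hn, hk⟩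
    rw [hf] at this
    obtain ⟨n, rfl⟩ := this
    refine ⟨n, ?_⟩
    cases n with
    | zero => exact le_of_eq hK0
    | succ n => rw [hKs]; exact inf_le_right

end Pool.Agent.H656.DC.Seq
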