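import Pool.Agent.H656.DC.EStmts

/-!
# Leaf Split: `S_split`
-/

set_option autoImplicit false

open MeasureTheory Filter Topology

namespace Pool.Agent.H656.DC.Split

theorem exists_pos_fibre {X L : Type} [MeasurableSpace X] [Countable L] (μ : Measure X)
    [IsProbabilityMeasure μ] (f : X → L) : ∃ l, μ (f ⁻¹' {l}) ≠ 0 := by
  by_contra h
  push Not at h
  have h1 : μ Set.univ = 0 := by
    have : (Set.univ : Set X) = ⋃ l, f ⁻¹' {l} := by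
      ext x; simp
    rw [this, measure_iUnion_null_iff]
    exact h
  rw [measure_univ] at h1
  exact one_ne_zero h1

theorem main : S_split := by
  intro G _ _ X W _ _ μ κ _ _ aX aW hX hW hE L _ _ a b ha hb Φ hΦ hrel
  let _ : MeasurableSpace L := ⊤
  have hΦm : Measurable Φ := measurable_to_countable' (fun l => hΦ l)
  let E : Set ((X × X) × (W × W)) :=
    {q | (Φ (q.1.1, q.2.1))⁻¹ * Φ (q.1.1, q.2.2) = (Φ (q.1.2, q.2.1))⁻¹ * Φ (q.1.2, q.2.2)}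
  have hEm : MeasurableSet E := by
    have h1 : Measurable (fun q : (X × X) × (W × W) =>
        ((Φ (q.1.1, q.2.1), Φ (q.1.1, q.2.2)), (Φ (q.1.2, q.2.1), Φ (q.1.2, q.2.2)))) := by
      refine Measurable.prodMk (Measurable.prodMk (hΦm.comp ?_) (hΦm.comp ?_))
        (Measurable.prodMk (hΦm.comp ?_) (hΦm.comp ?_))
      · exact (measurable_fst.comp measurable_fst).prodMk (measurable_fst.comp measurable_snd)
      · exact (measurable_fst.comp measurable_fst).prodMk (measurable_snd.comp measurable_snd)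
      · exact (measurable_snd.comp measurable_fst).prodMk (measurable_fst.comp measurable_snd)
      · exact (measurable_snd.comp measurable_fst).prodMk (measurable_snd.comp measurable_snd)
    have h2 : MeasurableSet {r : (L × L) × (L × L) | r.1.1⁻¹ * r.1.2 = r.2.1⁻¹ * r.2.2} :=
      (Set.to_countable _).measurableSet
    exact h1 h2
  have hinv : ∀ g : G, (fun q : (X × X) × (W × W) =>
      ((aX g q.1.1, aX g q.1.2), (aW g q.2.1, aW g q.2.2))) ⁻¹' E =ᵐ[(μ.prod μ).prod (κ.prod κ)] E := by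
    intro g
    have h11 : ∀ᵐ q ∂((μ.prod μ).prod (κ.prod κ)),
        a g q.1.1 * Φ (q.1.1, q.2.1) = Φ (aX g q.1.1, aW g q.2.1) * b g q.2.1 :=
      ((measurePreserving_fst (μ := μ) (ν := μ)).prod
        (measurePreserving_fst (μ := κ) (ν := κ))).quasiMeasurePreserving.ae (hrel g)
    have h12 : ∀ᵐ q ∂((μ.prod μ).prod (κ.prod κ)),
        a g q.1.1 * Φ (q.1.1, q.2.2) = Φ (aX g q.1.1, aW g q.2.2) * b g q.2.2 :=
      ((measurePreserving_fst (μ := μ) (ν := μ)).prod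
        (measurePreserving_snd (μ := κ) (ν := κ))).quasiMeasurePreserving.ae (hrel g)
    have h21 : ∀ᵐ q ∂((μ.prod μ).prod (κ.prod κ)),
        a g q.1.2 * Φ (q.1.2, q.2.1) = Φ (aX g q.1.2, aW g q.2.1) * b g q.2.1 :=
      ((measurePreserving_snd (μ := μ) (ν := μ)).prod
        (measurePreserving_fst (μ := κ) (ν := κ))).quasiMeasurePreserving.ae (hrel g)
    have h22 : ∀ᵐ q ∂((μ.prod μ).prod (κ.prod κ)),
        a g q.1.2 * Φ (q.1.2, q.2.2) = Φ (aX g q.1.2, aW g q.2.2) * b g q.2.2 :=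
      ((measurePreserving_snd (μ := μ) (ν := μ)).prod
        (measurePreserving_snd (μ := κ) (ν := κ))).quasiMeasurePreserving.ae (hrel g)
    filter_upwards [h11, h12, h21, h22] with q e11 e12 e21 e22
    apply propext
    show ((Φ (aX g q.1.1, aW g q.2.1))⁻¹ * Φ (aX g q.1.1, aW g q.2.2) =
      (Φ (aX g q.1.2, aW g q.2.1))⁻¹ * Φ (aX g q.1.2, aW g q.2.2)) ↔
      ((Φ (q.1.1, q.2.1))⁻¹ * Φ (q.1.1, q.2.2) = (Φ (q.1.2, q.2.1))⁻¹ * Φ (q.1.2, q.2.2))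
    rw [← mul_inv_eq_iff_eq_mul] at e11 e12 e21 e22
    rw [← e11, ← e12, ← e21, ← e22]
    constructor
    · intro h
      have h' : b g q.2.1 * ((Φ (q.1.1, q.2.1))⁻¹ * Φ (q.1.1, q.2.2)) * (b g q.2.2)⁻¹ =
          b g q.2.1 * ((Φ (q.1.2, q.2.1))⁻¹ * Φ (q.1.2, q.2.2)) * (b g q.2.2)⁻¹ := by
        convert h using 1 <;> group
      exact mul_left_cancel (mul_right_cancel h')
    · intro h
      have h' : b g q.2.1 * ((Φ (q.1.1, q.2.1))⁻¹ * Φ (q.1.1, q.2.2)) * (b g q.2.2)⁻¹ =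
          b g q.2.1 * ((Φ (q.1.2, q.2.1))⁻¹ * Φ (q.1.2, q.2.2)) * (b g q.2.2)⁻¹ := by rw [h]
      convert h' using 1 <;> group
  have hnz : ((μ.prod μ).prod (κ.prod κ)) E ≠ 0 := by
    intro h0
    have h1 : ∀ᵐ q ∂((μ.prod μ).prod (κ.prod κ)), q ∉ E := measure_eq_zero_iff_ae_notMem.1 h0
    have h2 : ∀ᵐ r ∂((κ.prod κ).prod (μ.prod μ)), Prod.swap r ∉ E :=
      Measure.measurePreserving_swap.quasiMeasurePreserving.ae h1
    obtain ⟨ww, hww⟩ := (Measure.ae_ae_of_ae_prod h2).exists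
    have h3 := Measure.ae_ae_of_ae_prod hww
    obtain ⟨l, hl⟩ := exists_pos_fibre μ (fun x => (Φ (x, ww.1))⁻¹ * Φ (x, ww.2))
    apply hl
    have h4 : ∃ᵐ x ∂μ, x ∈ (fun x => (Φ (x, ww.1))⁻¹ * Φ (x, ww.2)) ⁻¹' {l} :=
      frequently_ae_mem_iff.2 hl
    obtain ⟨x₁, hx₁, hx₁'⟩ := (h4.and_eventually h3).exists
    rw [measure_eq_zero_iff_ae_notMem]
    filter_upwards [hx₁'] with x₂ hx₂ hx₂'
    apply hx₂
    have e1 : (Φ (x₁, ww.1))⁻¹ * Φ (x₁, ww.2) = l := hx₁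
    have e2 : (Φ (x₂, ww.1))⁻¹ * Φ (x₂, ww.2) = l := hx₂'
    show (Φ (x₁, ww.1))⁻¹ * Φ (x₁, ww.2) = (Φ (x₂, ww.1))⁻¹ * Φ (x₂, ww.2)
    rw [e1, e2]
  have hE0 : ((μ.prod μ).prod (κ.prod κ)) Eᶜ = 0 := (hE E hEm hinv).resolve_left hnz
  have h1 : ∀ᵐ q ∂((μ.prod μ).prod (κ.prod κ)), q ∈ E := by
    rw [measure_eq_zero_iff_ae_notMem] at hE0
    filter_upwards [hE0] with q hq
    exact not_not.1 hq
  have h2 : ∀ᵐ r ∂((κ.prod κ).prod (μ.prod μ)), Prod.swap r ∈ E :=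
    Measure.measurePreserving_swap.quasiMeasurePreserving.ae h1
  have h3 : ∀ᵐ ww ∂(κ.prod κ), ∀ᵐ xx ∂(μ.prod μ), (xx, ww) ∈ E := Measure.ae_ae_of_ae_prod h2
  have h4 : ∀ᵐ ww ∂(κ.prod κ), ∀ᵐ xx ∂(μ.prod μ), (xx, Prod.swap ww) ∈ E :=
    Measure.measurePreserving_swap.quasiMeasurePreserving.ae h3
  obtain ⟨w₀, hw₀⟩ := (Measure.ae_ae_of_ae_prod h4).exists
  -- the function `θ`
  have h5 : ∀ᵐ w ∂κ, ∃ θ : L, ∀ᵐ x ∂μ, Φ (x, w) = Φ (x, w₀) * θ := by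
    filter_upwards [hw₀] with w hw
    obtain ⟨x₁, hx₁⟩ := (Measure.ae_ae_of_ae_prod hw).exists
    refine ⟨((Φ (x₁, w))⁻¹ * Φ (x₁, w₀))⁻¹, ?_⟩
    filter_upwards [hx₁] with x hx
    have e : (Φ (x₁, w))⁻¹ * Φ (x₁, w₀) = (Φ (x, w))⁻¹ * Φ (x, w₀) := hx
    rw [e]
    group
  classical
  let ψ : W → L := fun w => if h : ∃ θ : L, ∀ᵐ x ∂μ, Φ (x, w) = Φ (x, w₀) * θ then h.choose else 1
  have hψ : ∀ᵐ w ∂κ, ∀ᵐ x ∂μ, Φ (x, w) = Φ (x, w₀) * ψ w := by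
    filter_upwards [h5] with w hw
    have : ψ w = hw.choose := dif_pos hw
    rw [this]
    exact hw.choose_spec
  have hrel' : ∀ g, ∀ᵐ w ∂κ, ∀ᵐ x ∂μ, a g x * Φ (x, w) = Φ (aX g x, aW g w) * b g w := by
    intro g
    have e1 : ∀ᵐ r ∂(κ.prod μ), a g (Prod.swap r).1 * Φ (Prod.swap r) =
        Φ (aX g (Prod.swap r).1, aW g (Prod.swap r).2) * b g (Prod.swap r).2 :=
      Measure.measurePreserving_swap.quasiMeasurePreserving.ae (hrel g)
    exact Measure.ae_ae_of_ae_prod e1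
  have key : ∀ g, ∃ r : L, ∀ᵐ x ∂μ, a g x = Φ (aX g x, w₀) * r * (Φ (x, w₀))⁻¹ := by
    intro g
    have e1 : ∀ᵐ w ∂κ, ∀ᵐ x ∂μ, Φ (x, aW g w) = Φ (x, w₀) * ψ (aW g w) :=
      (hW.mp g).quasiMeasurePreserving.ae hψ
    obtain ⟨w, hw1, hw2, hw3⟩ := ((hrel' g).and (hψ.and e1)).exists
    have e2 : ∀ᵐ x ∂μ, Φ (aX g x, aW g w) = Φ (aX g x, w₀) * ψ (aW g w) :=
      (hX.mp g).quasiMeasurePreserving.ae hw3
    refine ⟨ψ (aW g w) * b g w * (ψ w)⁻¹, ?_⟩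
    filter_upwards [hw1, hw2, e2] with x f1 f2 f3
    rw [f2, f3] at f1
    have f4 : a g x = Φ (aX g x, w₀) * ψ (aW g w) * b g w * (Φ (x, w₀) * ψ w)⁻¹ := by
      rw [eq_mul_inv_iff_mul_eq, f1]
    rw [f4]
    group
  choose r hr using key
  have hmul : ∀ g h, r (g * h) = r g * r h := by
    intro g h
    have e1 : ∀ᵐ x ∂μ, a g (aX h x) = Φ (aX g (aX h x), w₀) * r g * (Φ (aX h x, w₀))⁻¹ :=
      (hX.mp h).quasiMeasurePreserving.ae (hr g)
    obtain ⟨x, f1, f2, f3⟩ := ((hr (g * h)).and (e1.and (hr h))).exists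
    rw [ha.coc, hX.mul, f2, f3] at f1
    have f4 : Φ (aX g (aX h x), w₀) * (r g * r h) * (Φ (x, w₀))⁻¹ =
        Φ (aX g (aX h x), w₀) * r (g * h) * (Φ (x, w₀))⁻¹ := by
      rw [← f1]
      group
    exact (mul_left_cancel (mul_right_cancel f4)).symm
  refine ⟨MonoidHom.mk' r hmul, fun x => Φ (x, w₀), ?_, ?_⟩
  · intro l
    exact (measurable_id.prodMk measurable_const) (hΦ l)
  · intro g
    exact hr g

end Pool.Agent.H656.DC.Split
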