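import Pool.Agent.H656.DC.GStmts

/-!
# DC leaf Step: one step down, weights of generators
-/

set_option autoImplicit false

namespace Pool.Agent.H656.DC.Step

/-- the linear extension of a function on the group -/
noncomputable def ext (p : ℕ) {F : Type} [Group F] (f : F → ZMod p) : GA p F →ₗ[ZMod p] ZMod p where
  toFun a := Finsupp.linearCombination (ZMod p) f a.coeff
  map_add' a b := by simp
  map_smul' c a := by simp

theorem ext_el {p : ℕ} {F : Type} [Group F] (f : F → ZMod p) (g : F) : ext p f (el p g) = f g := by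
  simp [ext, el]

/-- the character of a normal subgroup of index `p` -/
theorem exists_chi (p : ℕ) [Fact p.Prime] {F : Type} [Group F] (M H : Subgroup F)
    (hn : ∀ b ∈ M, ∀ h ∈ H, b * h * b⁻¹ ∈ H) (hi : H.relIndex M = p) :
    ∃ χ : F → ZMod p, (∀ g ∈ M, ∀ h ∈ M, χ (g * h) = χ g + χ h) ∧ ∀ g ∈ M, (χ g = 0 ↔ g ∈ H) := by
  classical
  have hN : (H.subgroupOf M).Normal := by
    constructor
    rintro ⟨h, hh⟩ hhH ⟨b, hb⟩
    rw [Subgroup.mem_subgroupOf] at hhH ⊢
    exact hn b hb h hhH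
  have hc : Nat.card (M ⧸ H.subgroupOf M) = p := hi
  have hc' : Nat.card (Multiplicative (ZMod p)) = p := by
    rw [Nat.card_congr Multiplicative.toAdd, Nat.card_zmod]
  let e : (M ⧸ H.subgroupOf M) ≃* Multiplicative (ZMod p) := mulEquivOfPrimeCardEq hc hc'
  let χ₀ : M →* Multiplicative (ZMod p) := e.toMonoidHom.comp (QuotientGroup.mk' (H.subgroupOf M))
  refine ⟨fun g => if h : g ∈ M then Multiplicative.toAdd (χ₀ ⟨g, h⟩) else 0, ?_, ?_⟩
  · intro g hg h hh
    simp only [dif_pos hg, dif_pos hh, dif_pos (M.mul_mem hg hh)]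
    rw [← toAdd_mul, ← map_mul]
    rfl
  · intro g hg
    simp only [dif_pos hg]
    rw [toAdd_eq_zero]
    change e (QuotientGroup.mk' (H.subgroupOf M) ⟨g, hg⟩) = 1 ↔ _
    rw [map_eq_one_iff e e.injective]
    change (QuotientGroup.mk (⟨g, hg⟩ : M) : M ⧸ H.subgroupOf M) = 1 ↔ _
    rw [QuotientGroup.eq_one_iff, Subgroup.mem_subgroupOf]

/-- the derivation rule -/
theorem ext_mul {p : ℕ} {F : Type} [Group F] {M : Subgroup F} {χ : F → ZMod p}
    (hχ : ∀ g ∈ M, ∀ h ∈ M, χ (g * h) = χ g + χ h) {a b : GA p F} (ha : a ∈ KS p M)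
    (hb : b ∈ KS p M) : ext p χ (a * b) = ext p χ a * aug p b + aug p a * ext p χ b := by
  refine KS_induction (P := fun a => ext p χ (a * b) = ext p χ a * aug p b + aug p a * ext p χ b)
    (by simp) ?_ ?_ ?_ ha
  · intro g hg
    refine KS_induction (P := fun b => ext p χ (el p g * b) =
      ext p χ (el p g) * aug p b + aug p (el p g) * ext p χ b) (by simp) ?_ ?_ ?_ hb
    · intro h hh
      rw [← el_mul, ext_el, ext_el, ext_el, hχ g hg h hh]
      simp
    · intro x y _ _ hx hy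
      rw [mul_add, map_add, hx, hy, map_add, map_add]
      ring
    · intro c x _ hx
      rw [mul_smul_comm, map_smul, hx, map_smul, map_smul]
      simp only [smul_eq_mul]
      ring
  · intro x y _ _ hx hy
    rw [add_mul, map_add, hx, hy, map_add, map_add]
    ring
  · intro c x _ hx
    rw [smul_mul_assoc, map_smul, hx, map_smul, map_smul]
    simp only [smul_eq_mul]
    ring

theorem main (hb : S_bc) (he : S_elim) : S_step := by
  intro p _ F _ M H J t σ u ht0 ht1 hW hHM hn hi hlow hup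
  classical
  obtain ⟨ι, _, y, n, hJ, hσ⟩ := hW
  obtain ⟨χ, hχ, hχ0⟩ := exists_chi p M H hn hi
  have hχ1 : χ 1 = 0 := (hχ0 1 M.one_mem).2 H.one_mem
  -- the element of degree `u`
  obtain ⟨g, hgM, hgH, hgu⟩ := hup
  have hy := hJ.memM
  obtain ⟨i0, hi0H, hi0⟩ : ∃ i, y i ∉ H ∧ u ≤ n i := by
    obtain ⟨a, ha, ha'⟩ := exists_decomp_el (p := p) hJ.gen hgM
    have hsplit := hJ.split u a ha (ha' ▸ hgu)
    have h1 : χ g = ∑ i, aug p (a i) * χ (y i) := by
      have h2 : ext p χ (el p g - 1) = χ g := by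
        rw [map_sub, ext_el, ← el_one, ext_el, hχ1, sub_zero]
      rw [← h2, ha', map_sum]
      refine Finset.sum_congr rfl fun i _ => ?_
      rw [ext_mul hχ (ha i) (el_sub_one_mem_KS (hy i)), map_sub, aug_el, map_one, sub_self, mul_zero,
        zero_add, map_sub, ext_el, ← el_one, ext_el, hχ1, sub_zero]
    have h3 : χ g ≠ 0 := fun h => hgH ((hχ0 g hgM).1 h)
    rw [h1] at h3
    obtain ⟨i, -, hi'⟩ := Finset.exists_ne_zero_of_sum_ne_zero h3
    refine ⟨i, fun h => right_ne_zero_of_mul hi' ((hχ0 _ (hy i)).2 h), ?_⟩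
    by_contra hlt
    push Not at hlt
    have h4 : a i ∈ J 1 := hJ.anti (by omega) (hsplit i)
    exact left_ne_zero_of_mul hi' (hJ.aug1 _ h4)
  have hle : ∀ i, y i ∉ H → n i ≤ u := by
    intro i hiH
    by_contra hlt
    push Not at hlt
    exact hiH (hlow _ (hy i) (hJ.anti hlt (hJ.geny i)))
  have hni0 : n i0 = u := le_antisymm (hle i0 hi0H) hi0
  have hχi0 : χ (y i0) ≠ 0 := fun h => hi0H ((hχ0 _ (hy i0)).1 h)
  -- change of basis
  obtain ⟨k, hk⟩ : ∃ k : ι → ℤ, k = fun i =>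
    if i = i0 then 0 else (((-(χ (y i) / χ (y i0))).val : ℕ) : ℤ) := ⟨_, rfl⟩
  have hk0 : k i0 = 0 := by rw [hk]; simp
  have hk1 : ∀ i, k i ≠ 0 → n i ≤ n i0 := by
    intro i hi'
    rw [hni0]
    apply hle
    intro h
    apply hi'
    rw [hk]
    have : χ (y i) = 0 := (hχ0 _ (hy i)).2 h
    simp [this]
  have hpow : ∀ (x : F), x ∈ M → ∀ m : ℕ, χ (x ^ m) = m * χ x := by
    intro x hx m
    induction m with
    | zero => simp [hχ1]
    | succ m ih =>
      rw [pow_succ, hχ _ (M.pow_mem hx m) _ hx, ih]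
      push_cast
      ring
  have hB := hb p F M ι y n J hJ i0 k hk0 hk1
  have hy0 : y i0 * y i0 ^ k i0 = y i0 := by rw [hk0]; simp
  have hyi : ∀ i, i ≠ i0 → y i * y i0 ^ k i ∈ H := by
    intro i hi'
    have hki : k i = (((-(χ (y i) / χ (y i0))).val : ℕ) : ℤ) := by
      rw [hk]
      exact if_neg hi'
    rw [hki, zpow_natCast]
    rw [← hχ0 _ (M.mul_mem (hy i) (M.pow_mem (hy i0) _)), hχ _ (hy i) _ (M.pow_mem (hy i0) _),
      hpow _ (hy i0), ZMod.natCast_val, ZMod.cast_id]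
    field_simp
    ring
  have hE := he p F M H ι (fun i => y i * y i0 ^ k i) n J hB i0 hHM hn hi
    (by rw [hy0]; exact hi0H) hyi
  refine ⟨_, _, _, _, hE, ?_⟩
  rw [Fintype.sum_option, Fintype.sum_prod_type]
  simp only [elimN]
  have h1 : ∀ i : {i : ι // i ≠ i0}, ∑ j : Fin p, t ^ (n i + j * n i0) =
      t ^ n i * kap p (t ^ u) := by
    intro i
    unfold kap
    rw [Finset.mul_sum, Finset.sum_range]
    refine Finset.sum_congr rfl fun j _ => ?_
    rw [hni0, pow_add, ← pow_mul, mul_comm (j : ℕ) u]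
  rw [Finset.sum_congr rfl fun i _ => h1 i, ← Finset.sum_mul]
  have h2 : ∑ i : {i : ι // i ≠ i0}, t ^ n i = σ - t ^ u := by
    have h3 : ∑ i ∈ Finset.univ.erase i0, t ^ n i = ∑ i : {i : ι // i ≠ i0}, t ^ n i :=
      Finset.sum_subtype _ (fun x => by simp) _
    rw [← h3, ← hσ, ← Finset.add_sum_erase _ _ (Finset.mem_univ i0), hni0]
    ring
  rw [h2, hni0, mul_comm p u, pow_mul]
  have h4 : kap p (t ^ u) * (t ^ u - 1) = (t ^ u) ^ p - 1 := geom_sum_mul _ _
  linear_combination -h4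

end Pool.Agent.H656.DC.Step
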