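import Pool.Agent.H656.DC.GStmts

/-!
# Assembly of the extension step
-/

set_option autoImplicit false

namespace Pool.Agent.H656.DC.StepAll

open Pool.Agent.H656.DC

variable {p : ℕ} {F : Type} [Group F]

lemma relGen_le {κ : Type} {M R : Subgroup F} {r : κ → F} (h : RelGen M r R)
    (hr : ∀ k, r k ∈ M) : R ≤ M := by
  rw [h, Subgroup.closure_le]
  rintro g ⟨m, hm, k, rfl⟩
  exact M.mul_mem (M.mul_mem hm (hr k)) (M.inv_mem hm)

lemma Jr_self {M : Subgroup F} {J : ℕ → Submodule (ZMod p) (GA p F)} {t σ : ℝ}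
    (h : HasW p M J t σ) : Jr p J M = J := by
  obtain ⟨ι, _, y, n, hw, _⟩ := h
  funext k
  exact inf_eq_left.2 (hw.le_KS k)

lemma Jr_Jr {H H' : Subgroup F} (hH : H' ≤ H) (J : ℕ → Submodule (ZMod p) (GA p F)) :
    Jr p (Jr p J H) H' = Jr p J H' := by
  funext k
  simp only [Jr]
  rw [inf_assoc, inf_eq_right.2 (KS_mono hH)]

lemma kap_pos {v : ℝ} (hp : 1 ≤ p) (hv : 0 < v) : 1 ≤ kap p v := by
  unfold kap
  calc (1 : ℝ) = v ^ 0 := by simp
    _ ≤ ∑ j ∈ Finset.range p, v ^ j :=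
      Finset.single_le_sum (f := fun j => v ^ j) (fun j _ => (pow_pos hv j).le)
        (Finset.mem_range.2 hp)

lemma kap_ge {v : ℝ} (hp : 2 ≤ p) (hv : 0 < v) : 1 + v ≤ kap p v := by
  unfold kap
  calc (1 : ℝ) + v = ∑ j ∈ Finset.range 2, v ^ j := by
        rw [Finset.sum_range_succ, Finset.sum_range_one]; simp
    _ ≤ ∑ j ∈ Finset.range p, v ^ j := by
        apply Finset.sum_le_sum_of_subset_of_nonneg
        · intro i hi
          rw [Finset.mem_range] at hi ⊢
          omega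
        · intro i _ _
          exact (pow_pos hv i).le

/-- invariance of the restricted filtration -/
lemma inv_Jr {J : ℕ → Submodule (ZMod p) (GA p F)} (hJ : Inv p J) {H : Subgroup F}
    (hH : H.Normal) : Inv p (Jr p J H) := by
  intro g k a ha
  refine ⟨hJ g k a ha.1, ?_⟩
  refine KS_induction (P := fun a => el p g * a * el p g⁻¹ ∈ KS p H) (by simp) ?_ ?_ ?_ ha.2
  · intro h hh
    rw [← el_mul, ← el_mul]
    exact el_mem_KS (hH.conj_mem h hh g)
  · intro x y _ _ hx hy
    rw [mul_add, add_mul]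
    exact (KS p H).add_mem hx hy
  · intro c x _ hx
    rw [mul_smul_comm, smul_mul_assoc]
    exact (KS p H).smul_mem c hx

lemma sup_inf_eq {A R M : Subgroup F} (hR : R.Normal) (hRM : R ≤ M) :
    (A ⊔ R) ⊓ M = (A ⊓ M) ⊔ R := by
  apply le_antisymm
  · rintro x ⟨hx, hxM⟩
    have hx' : x ∈ A ⊔ R := hx
    rw [← SetLike.mem_coe, Subgroup.mul_normal] at hx'
    obtain ⟨a, ha, r, hr, rfl⟩ := hx'
    have haM : a ∈ M := by
      have := M.mul_mem hxM (M.inv_mem (hRM hr))
      simpa using this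
    exact Subgroup.mul_mem_sup ⟨ha, haM⟩ hr
  · apply sup_le
    · exact inf_le_inf_right _ le_sup_left
    · exact le_inf le_sup_right hRM

/-- the initial generating family of `(A ⊔ R) ⊓ M` -/
lemma initG {M R : Subgroup F} {J : ℕ → Submodule (ZMod p) (GA p F)} {t σ : ℝ}
    (hW : HasW p M J t σ) (hM : M.index ≠ 0) (hR : R.Normal) (hRM : R ≤ M) {A : Subgroup F}
    (hA : A.FG) : ∃ r : ℝ, HasG p J t R ((A ⊔ R) ⊓ M) r := by
  classical
  obtain ⟨ι, _, y, n, hw, _⟩ := hW
  have h1 : (A ⊓ M).FG := by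
    have : Group.FG A := (Group.fg_iff_subgroup_fg A).2 hA
    have : M.FiniteIndex := ⟨hM⟩
    have h2 : Group.FG (M.subgroupOf A) := Subgroup.fg_of_index_ne_zero _
    obtain ⟨T, hT⟩ := (Group.fg_iff_subgroup_fg _).1 h2
    refine ⟨T.image A.subtype, ?_⟩
    rw [Finset.coe_image, ← MonoidHom.map_closure, hT, Subgroup.subgroupOf_map_subtype, inf_comm]
  obtain ⟨T, hT⟩ := h1
  refine ⟨∑ k : T, t ^ 1, T, inferInstance, fun k => (k : F), fun _ => 1, ?_, ?_, le_refl _⟩
  · intro k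
    have hk : (k : F) ∈ A ⊓ M := hT ▸ Subgroup.subset_closure k.2
    exact ⟨⟨Subgroup.mem_sup_left hk.1, hk.2⟩, le_refl _, hw.el_sub_one_mem_one hk.2⟩
  · rw [sup_inf_eq hR hRM]
    congr 1
    rw [← hT]
    congr 1
    ext x
    simp

/-- product of the `κ`'s -/
noncomputable def PP (p : ℕ) (t : ℝ) (u : ℕ → ℕ) (i : ℕ) : ℝ :=
  ∏ j ∈ Finset.range i, kap p (t ^ u j)

open Classical in
/-- product of the `κ`'s over the steps seen by `A` -/
noncomputable def QQ (p : ℕ) (t : ℝ) (u : ℕ → ℕ) (I : Set ℕ) (i : ℕ) : ℝ :=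
  ∏ j ∈ Finset.range i, if j ∈ I then 1 else kap p (t ^ u j)

open Classical in
/-- product of the `κ`'s over the steps not seen by `A` -/
noncomputable def UU (p : ℕ) (t : ℝ) (u : ℕ → ℕ) (I : Set ℕ) (i : ℕ) : ℝ :=
  ∏ j ∈ Finset.range i, if j ∈ I then kap p (t ^ u j) else 1

lemma PP_eq (t : ℝ) (u : ℕ → ℕ) (I : Set ℕ) (i : ℕ) :
    PP p t u i = QQ p t u I i * UU p t u I i := by
  classical
  unfold PP QQ UU
  rw [← Finset.prod_mul_distrib]
  apply Finset.prod_congr rfl
  intro j _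
  split_ifs <;> simp

lemma QQ_pos {t : ℝ} (ht : 0 < t) (hp : 1 ≤ p) (u : ℕ → ℕ) (I : Set ℕ) (i : ℕ) :
    0 < QQ p t u I i := by
  classical
  unfold QQ
  apply Finset.prod_pos
  intro j _
  split_ifs
  · exact one_pos
  · exact lt_of_lt_of_le one_pos (kap_pos hp (pow_pos ht _))

open Classical in
lemma UU_ge {t : ℝ} (ht : 0 < t) (hp : 2 ≤ p) (u : ℕ → ℕ) (I : Set ℕ) (i : ℕ) :
    1 + ∑ j ∈ Finset.range i, Set.indicator I (fun j => t ^ u j) j ≤ UU p t u I i := by
  unfold UU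
  induction i with
  | zero => simp
  | succ i ih =>
    rw [Finset.sum_range_succ, Finset.prod_range_succ]
    have h0 : 0 ≤ ∑ j ∈ Finset.range i, Set.indicator I (fun j => t ^ u j) j :=
      Finset.sum_nonneg fun j _ => Set.indicator_nonneg (fun j _ => (pow_pos ht _).le) j
    by_cases hi : i ∈ I
    · rw [Set.indicator_of_mem hi, if_pos hi]
      have hk := kap_ge hp (pow_pos ht (u i))
      have h1 := pow_pos ht (u i)
      nlinarith
    · rw [Set.indicator_of_notMem hi, if_neg hi]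
      linarith

theorem main (hstep : S_step) (hrs : S_relstep) (hgs : S_genstep) (hGS : S_GS)
    (hch : S_chain) (hc1 : S_case1) (hc2 : S_case2) : S_stepAll := by
  classical
  intro p hp F _ hFG R hR A hA
  obtain ⟨M, J, t, σ, ρ, hst⟩ := hR
  have hp1 : p.Prime := hp.out
  have hpp : 0 < p := hp1.pos
  have hM0 : M.index ≠ 0 := by
    obtain ⟨k, hk⟩ := hst.ind
    rw [hk]; exact (pow_pos hpp k).ne'
  have hRM : R ≤ M := by
    obtain ⟨κ, _, r, d, h1, h2, _⟩ := hst.rel
    exact relGen_le h2 fun k => (h1 k).1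
  have hunb := hGS p F M R J t σ ρ hst.t0 hst.t1 hst.W hst.rel hst.defi
  obtain ⟨H, u, hH0, hHn, hRH, hHs, hlow, hup, hu⟩ :=
    hch p F M R J t σ hst.nM hst.ind hst.W hst.inv hst.nR hRM hunb
  obtain ⟨r0, hr0⟩ := initG hst.W hM0 hst.nR hRM hA
  let I : Set ℕ := {i | (A ⊔ R) ⊓ H i ≤ H (i + 1)}
  have hx : ∀ i, ∃ x ∈ H i, x ∉ H (i + 1) ∧ el p x - 1 ∈ J (u i) := by
    intro i
    have h1 : ¬ H i ≤ H (i + 1) := by
      intro hle
      have h2 := (hHs i).2
      rw [Subgroup.relIndex_eq_one.2 hle] at h2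
      exact hp1.one_lt.ne h2
    obtain ⟨g, hg, hg'⟩ := SetLike.not_le_iff_exists.1 h1
    obtain ⟨r, hr, hr'⟩ := hup i g hg
    refine ⟨g * r, (H i).mul_mem hg (hRH i hr), fun hc => hg' ?_, hr'⟩
    have := (H (i + 1)).mul_mem hc ((H (i + 1)).inv_mem (hRH (i + 1) hr))
    simpa using this
  have key : ∀ i, HasW p (H i) (Jr p J (H i)) t (1 + PP p t u i * (σ - 1)) ∧
      HasR p (H i) (Jr p J (H i)) t R (PP p t u i * ρ) ∧
      HasG p (Jr p J (H i)) t R ((A ⊔ R) ⊓ H i) (1 + QQ p t u I i * (r0 - 1)) := by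
    intro i
    induction i with
    | zero =>
      rw [hH0, Jr_self hst.W]
      refine ⟨?_, ?_, ?_⟩
      · have := hst.W
        simpa [PP] using this
      · have := hst.rel
        simpa [PP] using this
      · simpa [QQ] using hr0
    | succ i ih =>
      obtain ⟨h1, h2, h3⟩ := ih
      have hle := (hHs i).1
      have hidx := (hHs i).2
      have hnorm : ∀ b ∈ H i, ∀ h ∈ H (i + 1), b * h * b⁻¹ ∈ H (i + 1) :=
        fun b _ h hh => (hHn (i + 1)).conj_mem h hh b
      have hlow' : ∀ g ∈ H i, el p g - 1 ∈ Jr p J (H i) (u i + 1) → g ∈ H (i + 1) :=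
        fun g hg hg' => hlow i g hg hg'.1
      have hup' : ∀ g ∈ H i, ∃ r ∈ R, el p (g * r) - 1 ∈ Jr p J (H i) (u i) := by
        intro g hg
        obtain ⟨r, hr, hr'⟩ := hup i g hg
        exact ⟨r, hr, hr', el_sub_one_mem_KS ((H i).mul_mem hg (hRH i hr))⟩
      have hx' : ∃ x ∈ H i, x ∉ H (i + 1) ∧ el p x - 1 ∈ Jr p J (H i) (u i) := by
        obtain ⟨x, hx1, hx2, hx3⟩ := hx i
        exact ⟨x, hx1, hx2, hx3, el_sub_one_mem_KS hx1⟩
      have e1 := hstep p F (H i) (H (i + 1)) (Jr p J (H i)) t _ (u i) hst.t0 hst.t1 h1 hle hnorm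
        hidx hlow' hx'
      have e2 := hrs p F (H i) (H (i + 1)) R (Jr p J (H i)) t _ _ (u i) hst.t0 hst.t1 h1 hle hnorm
        hidx hx' (hRH (i + 1)) h2
      have e3 := hgs p F (H i) (H (i + 1)) R ((A ⊔ R) ⊓ H i) (Jr p J (H i)) t _ _ (u i) hst.t0
        hst.t1 h1 hle hnorm hidx hlow' hup' hst.nR (hRH (i + 1)) inf_le_right h3
      rw [Jr_Jr hle] at e1 e2 e3
      refine ⟨?_, ?_, ?_⟩
      · have : 1 + PP p t u (i + 1) * (σ - 1) =
            1 + kap p (t ^ u i) * (1 + PP p t u i * (σ - 1) - 1) := by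
          unfold PP; rw [Finset.prod_range_succ]; ring
        rw [this]; exact e1
      · have : PP p t u (i + 1) * ρ = kap p (t ^ u i) * (PP p t u i * ρ) := by
          unfold PP; rw [Finset.prod_range_succ]; ring
        rw [this]; exact e2
      · by_cases hi : (A ⊔ R) ⊓ H i ≤ H (i + 1)
        · have h4 : (A ⊔ R) ⊓ H (i + 1) = (A ⊔ R) ⊓ H i := by
            apply le_antisymm
            · exact inf_le_inf_left _ hle
            · exact le_inf inf_le_left hi
          have h5 : QQ p t u I (i + 1) = QQ p t u I i := by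
            unfold QQ; rw [Finset.prod_range_succ, if_pos (show i ∈ I from hi), mul_one]
          rw [h4, h5]
          exact e3.2 hi
        · have h4 : (A ⊔ R) ⊓ H (i + 1) = ((A ⊔ R) ⊓ H i) ⊓ H (i + 1) := by
            rw [inf_assoc, inf_eq_right.2 hle]
          have h5 : 1 + QQ p t u I (i + 1) * (r0 - 1) =
              1 + kap p (t ^ u i) * (1 + QQ p t u I i * (r0 - 1) - 1) := by
            unfold QQ; rw [Finset.prod_range_succ, if_neg (show i ∉ I from hi)]; ring
          rw [h4, h5]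
          exact e3.1 hi
  by_cases hsum : Summable (fun i : {i : ℕ // (A ⊔ R) ⊓ H i ≤ H (i + 1)} => t ^ u i)
  · obtain ⟨R', h1, h2, h3⟩ := hc2 p F M R J t σ ρ hFG hst A H u hH0 hHn hRH hHs hlow hup hu hsum
    exact ⟨R', h1, h2, Or.inr h3⟩
  · have hsum' : ¬ Summable (Set.indicator I (fun j => t ^ u j)) := by
      intro h
      exact hsum (summable_subtype_iff_indicator.2 h)
    have hnn : ∀ j, 0 ≤ Set.indicator I (fun j => t ^ u j) j :=
      fun j => Set.indicator_nonneg (fun j _ => (pow_pos hst.t0 _).le) j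
    have htend := (not_summable_iff_tendsto_nat_atTop_of_nonneg hnn).1 hsum'
    have hdef : 0 < σ - 1 - ρ := by have := hst.defi; linarith
    obtain ⟨i, hi⟩ := (htend.eventually (Filter.eventually_gt_atTop (|r0 - 1| / (σ - 1 - ρ)))).exists
    have hU := UU_ge hst.t0 hp1.two_le u I i
    have hQ := QQ_pos hst.t0 hpp u I i
    have hU' : |r0 - 1| / (σ - 1 - ρ) < UU p t u I i := by linarith
    have hU'' : |r0 - 1| < UU p t u I i * (σ - 1 - ρ) := (div_lt_iff₀ hdef).1 hU'
    obtain ⟨k1, k2, k3⟩ := key i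
    have hPQ := PP_eq (p := p) t u I i
    have hlt : PP p t u i * ρ < 1 + PP p t u i * (σ - 1) - 1 := by
      have : 0 < PP p t u i := by
        rw [hPQ]
        have h0 : 0 ≤ ∑ j ∈ Finset.range i, Set.indicator I (fun j => t ^ u j) j :=
          Finset.sum_nonneg fun j _ => hnn j
        exact mul_pos hQ (by linarith)
      nlinarith
    have hlt2 : 1 + QQ p t u I i * (r0 - 1) < 1 + PP p t u i * (σ - 1) - PP p t u i * ρ := by
      rw [hPQ]
      have h6 : r0 - 1 < UU p t u I i * (σ - 1 - ρ) := lt_of_le_of_lt (le_abs_self _) hU''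
      have h7 := mul_lt_mul_of_pos_left h6 hQ
      nlinarith
    have hidx : ∀ i, ∃ k, (H i).index = p ^ k := by
      intro i
      induction i with
      | zero => rw [hH0]; exact hst.ind
      | succ i ih =>
        obtain ⟨k, hk⟩ := ih
        refine ⟨k + 1, ?_⟩
        rw [← Subgroup.relIndex_mul_index (hHs i).1, (hHs i).2, hk, pow_succ, mul_comm]
    have hst' : StgD p (H i) (Jr p J (H i)) t (1 + PP p t u i * (σ - 1)) (PP p t u i * ρ) R :=
      { nM := hHn i
        ind := hidx i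
        t0 := hst.t0
        t1 := hst.t1
        W := k1
        inv := inv_Jr hst.inv (hHn i)
        nR := hst.nR
        rel := k2
        defi := hlt }
    obtain ⟨R', h1, h2, h3⟩ := hc1 p F (H i) R (Jr p J (H i)) t _ _ _ hst' A k3 hlt2
    exact ⟨R', h1, h2, Or.inl h3⟩

end Pool.Agent.H656.DC.StepAll
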