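import Pool.Agent.H656.DC.EStmts

set_option autoImplicit false

open MeasureTheory Filter Topology
open scoped ENNReal

namespace Pool.Agent.H656.DC.T2

section koopman

variable {G Z : Type} [Group G] [MeasurableSpace Z] {ζ : Measure Z} {T : G → Z → Z}

lemma comp_congr {f f' : Z → Z} (hf : MeasurePreserving f ζ ζ) (hf' : MeasurePreserving f' ζ ζ)
    (h : f = f') (φ : Lp ℝ 2 ζ) :
    Lp.compMeasurePreserving f hf φ = Lp.compMeasurePreserving f' hf' φ := by
  subst h; rfl

lemma act_inv (h : PMP G ζ T) (g : G) (z : Z) : T g (T g⁻¹ z) = z := by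
  rw [← h.mul, mul_inv_cancel, h.one]

lemma comp_mul (h : PMP G ζ T) (g k : G) (φ : Lp ℝ 2 ζ) :
    Lp.compMeasurePreserving (T (g * k)) (h.mp _) φ =
      Lp.compMeasurePreserving (T k) (h.mp _) (Lp.compMeasurePreserving (T g) (h.mp _) φ) := by
  rw [← Lp.compMeasurePreserving_comp_apply]
  apply comp_congr
  funext z
  exact h.mul g k z

lemma comp_one (h : PMP G ζ T) (φ : Lp ℝ 2 ζ) :
    Lp.compMeasurePreserving (T 1) (h.mp _) φ = φ := by
  conv_rhs => rw [← Lp.compMeasurePreserving_id_apply φ]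
  apply comp_congr
  funext z
  exact h.one z

/-- the Koopman representation, `π g φ = φ ∘ T g⁻¹` -/
noncomputable def koop (h : PMP G ζ T) : G →* (Lp ℝ 2 ζ ≃ₗᵢ[ℝ] Lp ℝ 2 ζ) where
  toFun g := LinearIsometryEquiv.ofSurjective
    (Lp.compMeasurePreservingₗᵢ ℝ (T g⁻¹) (h.mp g⁻¹)) (by
      intro φ
      refine ⟨Lp.compMeasurePreserving (T g) (h.mp g) φ, ?_⟩
      change Lp.compMeasurePreserving (T g⁻¹) (h.mp g⁻¹)
        (Lp.compMeasurePreserving (T g) (h.mp g) φ) = φ
      rw [← comp_mul h]
      conv_rhs => rw [← comp_one h φ]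
      apply comp_congr
      simp)
  map_one' := by
    refine LinearIsometryEquiv.ext fun φ => ?_
    change Lp.compMeasurePreserving (T 1⁻¹) (h.mp 1⁻¹) φ = φ
    conv_rhs => rw [← comp_one h φ]
    apply comp_congr
    simp
  map_mul' g k := by
    refine LinearIsometryEquiv.ext fun φ => ?_
    change Lp.compMeasurePreserving (T (g * k)⁻¹) (h.mp (g * k)⁻¹) φ =
      Lp.compMeasurePreserving (T g⁻¹) (h.mp g⁻¹)
        (Lp.compMeasurePreserving (T k⁻¹) (h.mp k⁻¹) φ)
    rw [← comp_mul h]
    apply comp_congr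
    simp

lemma koop_apply (h : PMP G ζ T) (g : G) (φ : Lp ℝ 2 ζ) :
    koop h g φ = Lp.compMeasurePreserving (T g⁻¹) (h.mp g⁻¹) φ := rfl

lemma koop_inv_apply (h : PMP G ζ T) (g : G) (φ : Lp ℝ 2 ζ) :
    koop h g⁻¹ φ = Lp.compMeasurePreserving (T g) (h.mp g) φ := by
  rw [koop_apply]
  apply comp_congr
  simp

lemma norm_koop_sub (h : PMP G ζ T) (g : G) (φ : Lp ℝ 2 ζ) :
    ‖koop h g φ - φ‖ = ‖φ - Lp.compMeasurePreserving (T g) (h.mp g) φ‖ := by
  have h1 : koop h g φ - φ = koop h g (φ - koop h g⁻¹ φ) := by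
    rw [map_sub]
    congr 1
    have : koop h g (koop h g⁻¹ φ) = (koop h g * koop h g⁻¹) φ := rfl
    rw [this, ← map_mul, mul_inv_cancel, map_one]
    rfl
  rw [h1, LinearIsometryEquiv.norm_map, koop_inv_apply]

lemma norm_sq_indicator (h : PMP G ζ T) (g : G) {A : Set Z} (hA : MeasurableSet A)
    (hAf : ζ A ≠ ∞) :
    ‖koop h g (indicatorConstLp 2 hA hAf (1 : ℝ)) - indicatorConstLp 2 hA hAf (1 : ℝ)‖ ^ 2 =
      2 * (ζ.real A - ζ.real (A ∩ T g ⁻¹' A)) := by
  rw [norm_koop_sub, Lp.indicatorConstLp_compMeasurePreserving]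
  have hAm := (h.mp g).measurable hA
  have hAe : ζ (T g ⁻¹' A) = ζ A := (h.mp g).measure_preimage hA.nullMeasurableSet
  have hAfi : ζ (T g ⁻¹' A) ≠ ∞ := by rw [hAe]; exact hAf
  rw [@norm_sub_sq_real, ← real_inner_self_eq_norm_sq, ← real_inner_self_eq_norm_sq,
    L2.real_inner_indicatorConstLp_one_indicatorConstLp_one hA hA hAf hAf,
    L2.real_inner_indicatorConstLp_one_indicatorConstLp_one hA hAm hAf hAfi,
    L2.real_inner_indicatorConstLp_one_indicatorConstLp_one hAm hAm hAfi hAfi,
    Set.inter_self, Set.inter_self]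
  have : ζ.real (T g ⁻¹' A) = ζ.real A := by rw [Measure.real, hAe]; rfl
  rw [this]
  ring

/-- the consequence of (T) -/
lemma invariant {S : Finset G} {C : ℝ} (hT : HasTC G S C) (h : PMP G ζ T) {A : Set Z}
    (hA : MeasurableSet A) (hAf : ζ A ≠ ∞) :
    ∃ η : Lp ℝ 2 ζ, (∀ g, (η : Z → ℝ) ∘ T g =ᵐ[ζ] η) ∧
      ‖indicatorConstLp 2 hA hAf (1 : ℝ) - η‖ ^ 2 ≤
        C * ∑ s ∈ S, 2 * (ζ.real A - ζ.real (A ∩ T s ⁻¹' A)) := by
  obtain ⟨η, hη, hη'⟩ := hT.2 (Lp ℝ 2 ζ) (koop h) (indicatorConstLp 2 hA hAf (1 : ℝ))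
  refine ⟨η, fun g => ?_, ?_⟩
  · have h1 := hη g⁻¹
    rw [koop_inv_apply] at h1
    have h2 := Lp.coeFn_compMeasurePreserving η (h.mp g)
    rw [h1] at h2
    exact h2.symm
  · refine hη'.trans (le_of_eq ?_)
    congr 1
    exact Finset.sum_congr rfl fun s _ => norm_sq_indicator h s hA hAf

end koopman

section skew

variable {G X L : Type} [Group G] [MeasurableSpace X] {μ : Measure X} [IsProbabilityMeasure μ]
  {act : G → X → X} [Group L] [Countable L] {a b : G → X → L}

/-- the twisted action on `X × L` -/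
def tw (act : G → X → X) (a b : G → X → L) (g : G) (z : X × L) : X × L :=
  (act g z.1, a g z.1 * z.2 * (b g z.1)⁻¹)

lemma coc_one (h : PMP G μ act) (ha : Coc act a) (x : X) : a 1 x = 1 := by
  have := ha.coc 1 1 x
  rw [mul_one, h.one] at this
  exact left_eq_mul.1 this

lemma tw_one (h : PMP G μ act) (ha : Coc act a) (hb : Coc act b) (z : X × L) :
    tw act a b 1 z = z := by
  unfold tw
  rw [coc_one h ha, coc_one h hb, h.one]
  simp

lemma tw_mul (h : PMP G μ act) (ha : Coc act a) (hb : Coc act b) (g k : G) (z : X × L) :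
    tw act a b (g * k) z = tw act a b g (tw act a b k z) := by
  unfold tw
  simp only [h.mul, ha.coc, hb.coc]
  ext
  · rfl
  · simp only
    group

lemma measurable_coc [MeasurableSpace L] [DiscreteMeasurableSpace L] (ha : Coc act a) (g : G) :
    Measurable (a g) :=
  measurable_to_countable' fun l => ha.meas g l

lemma tw_mp [MeasurableSpace L] [DiscreteMeasurableSpace L] (h : PMP G μ act)
    (ha : Coc act a) (hb : Coc act b) (g : G) :
    MeasurePreserving (tw act a b g) (μ.prod Measure.count) (μ.prod Measure.count) := by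
  have hma := measurable_coc ha g
  have hmb := measurable_coc hb g
  refine MeasurePreserving.skew_product (g := fun x l => a g x * l * (b g x)⁻¹) (h.mp g) ?_ ?_
  · have h1 : Measurable (fun z : X × L => a g z.1) := hma.comp measurable_fst
    have h2 : Measurable (fun z : X × L => b g z.1) := hmb.comp measurable_fst
    have h3 : Measurable (fun z : X × L => z.2) := measurable_snd
    have h4 : Measurable (fun q : L × L × L => q.1 * q.2.1 * (q.2.2)⁻¹) := by
      exact Measurable.of_discrete
    exact h4.comp (h1.prodMk (h3.prodMk h2))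
  · refine Filter.Eventually.of_forall fun x => ?_
    ext s hs
    rw [Measure.map_apply (Measurable.of_discrete) hs]
    have : (fun l : L => a g x * l * (b g x)⁻¹) ⁻¹' s =
        (fun l : L => (a g x)⁻¹ * l * b g x) '' s := by
      ext l
      constructor
      · intro hl
        exact ⟨_, hl, by simp only; group⟩
      · rintro ⟨l', hl', rfl⟩
        simp only [Set.mem_preimage]
        convert hl' using 1
        group
    rw [this, Measure.count_injective_image]
    intro l l' hll
    simpa using hll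

lemma tw_pmp [MeasurableSpace L] [DiscreteMeasurableSpace L] (h : PMP G μ act)
    (ha : Coc act a) (hb : Coc act b) : PMP G (μ.prod Measure.count) (tw act a b) :=
  ⟨tw_one h ha hb, tw_mul h ha hb, tw_mp h ha hb⟩

lemma exists_good [MeasurableSpace L] [DiscreteMeasurableSpace L]
    (hA : MeasurableSet ((Set.univ : Set X) ×ˢ ({1} : Set L)))
    (hAf : (μ.prod Measure.count) ((Set.univ : Set X) ×ˢ ({1} : Set L)) ≠ ∞)
    (η : Lp ℝ 2 (μ.prod (Measure.count : Measure L)))
    (hη : ‖indicatorConstLp 2 hA hAf (1 : ℝ) - η‖ ^ 2 < 1 / 4) :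
    ¬ ∀ᵐ x ∂μ, ¬ ∃! l, 1 / 2 < η (x, l) := by
  classical
  intro hbad
  set w := indicatorConstLp 2 hA hAf (1 : ℝ) - η with hw
  have h1 : ∀ᵐ x ∂μ, ∀ l : L, w (x, l) = (if l = 1 then (1 : ℝ) else 0) - η (x, l) := by
    have h2 : ∀ᵐ z ∂(μ.prod (Measure.count : Measure L)),
        w z = (if z.2 = 1 then (1 : ℝ) else 0) - η z := by
      filter_upwards [Lp.coeFn_sub (indicatorConstLp 2 hA hAf (1 : ℝ)) η,
        (indicatorConstLp_coeFn (p := 2) (hs := hA) (hμs := hAf) (c := (1 : ℝ)))] with z hz hz'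
      rw [hw, hz, Pi.sub_apply, hz']
      congr 1
      by_cases h : z.2 = 1
      · rw [Set.indicator_of_mem, if_pos h]
        exact ⟨Set.mem_univ _, h⟩
      · rw [Set.indicator_of_notMem, if_neg h]
        rintro ⟨_, h'⟩
        exact h h'
    filter_upwards [Measure.ae_ae_of_ae_prod h2] with x hx
    exact Measure.ae_count_iff.1 hx
  have h3 : ∀ᵐ x ∂μ, ∃ l : L, ENNReal.ofReal (1 / 2) ≤ ‖w (x, l)‖ₑ := by
    filter_upwards [h1, hbad] with x hx hx'
    by_contra hcon
    push Not at hcon
    have h4 : ∀ l, |w (x, l)| < 1 / 2 := by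
      intro l
      have := hcon l
      rw [← ofReal_norm, ENNReal.ofReal_lt_ofReal_iff (by norm_num)] at this
      exact this
    apply hx'
    refine ⟨1, ?_, ?_⟩
    · have h5 := h4 1
      rw [hx 1, if_pos rfl, abs_lt] at h5
      simp only
      linarith [h5.2]
    · intro l hl
      by_contra hl1
      have h5 := h4 l
      rw [hx l, if_neg hl1, abs_lt] at h5
      linarith [h5.1]
  have hmeas : MeasurableSet {z : X × L | ENNReal.ofReal (1 / 2) ≤ ‖w z‖ₑ} := by
    apply measurableSet_le measurable_const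
    exact (Lp.stronglyMeasurable w).measurable.enorm
  have h6 : 1 ≤ (μ.prod (Measure.count : Measure L)) {z | ENNReal.ofReal (1 / 2) ≤ ‖w z‖ₑ} := by
    rw [Measure.prod_apply hmeas]
    calc (1 : ℝ≥0∞) = ∫⁻ _, 1 ∂μ := by simp
      _ ≤ _ := by
        apply lintegral_mono_ae
        filter_upwards [h3] with x hx
        obtain ⟨l, hl⟩ := hx
        calc (1 : ℝ≥0∞) = Measure.count ({l} : Set L) := (Measure.count_singleton l).symm
          _ ≤ _ := by
            apply measure_mono
            intro l' hl'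
            rw [Set.mem_singleton_iff] at hl'
            rw [hl']
            exact hl
  have h7 := mul_meas_ge_le_pow_eLpNorm' (μ.prod (Measure.count : Measure L)) (p := 2)
    two_ne_zero ENNReal.ofNat_ne_top (Lp.aestronglyMeasurable w) (ENNReal.ofReal (1 / 2))
  rw [← Lp.enorm_def, ← ofReal_norm] at h7
  simp only [ENNReal.toReal_ofNat, ENNReal.rpow_ofNat] at h7
  have h8 : ENNReal.ofReal (1 / 2) ^ 2 ≤ ENNReal.ofReal ‖w‖ ^ 2 := by
    calc ENNReal.ofReal (1 / 2) ^ 2 = ENNReal.ofReal (1 / 2) ^ 2 * 1 := (mul_one _).symm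
      _ ≤ _ := by gcongr
      _ ≤ _ := h7
  rw [← ENNReal.ofReal_pow (by norm_num), ← ENNReal.ofReal_pow (norm_nonneg _),
    ENNReal.ofReal_le_ofReal_iff (by positivity)] at h8
  linarith

end skew

theorem main : S_T2 := by
  classical
  intro G _ _ S C hT
  have hC := hT.1
  have hD0 : 0 < 8 * (C * (S.card : ℝ) + 1) := by positivity
  refine ⟨1 / (8 * (C * S.card + 1)), by positivity, ?_⟩
  intro X _ μ _ act hact herg L _ _ a b ha hb hε
  set ε : ℝ := 1 / (8 * (C * S.card + 1)) with hεdef
  let _ : MeasurableSpace L := ⊤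
  have _ : DiscreteMeasurableSpace L := ⟨fun _ => trivial⟩
  have hA : MeasurableSet ((Set.univ : Set X) ×ˢ ({1} : Set L)) :=
    MeasurableSet.univ.prod (MeasurableSet.singleton 1)
  have hAv : (μ.prod (Measure.count : Measure L)) ((Set.univ : Set X) ×ˢ ({1} : Set L)) = 1 := by
    rw [Measure.prod_prod]; simp
  have hAf : (μ.prod (Measure.count : Measure L)) ((Set.univ : Set X) ×ˢ ({1} : Set L)) ≠ ∞ := by
    rw [hAv]; exact ENNReal.one_ne_top
  obtain ⟨η, hη, hη'⟩ := invariant hT (tw_pmp hact ha hb) hA hAf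
  -- the estimate
  have h1 : ∀ s ∈ S, 2 * ((μ.prod (Measure.count : Measure L)).real
      ((Set.univ : Set X) ×ˢ ({1} : Set L)) - (μ.prod (Measure.count : Measure L)).real
      ((Set.univ : Set X) ×ˢ ({1} : Set L) ∩ tw act a b s ⁻¹' ((Set.univ : Set X) ×ˢ ({1} : Set L))))
      ≤ 2 * ε := by
    intro s hs
    have h2 : (Set.univ : Set X) ×ˢ ({1} : Set L) ∩
        tw act a b s ⁻¹' ((Set.univ : Set X) ×ˢ ({1} : Set L)) =
        {x | a s x = b s x} ×ˢ ({1} : Set L) := by
      ext ⟨x, l⟩
      simp only [tw, Set.mem_inter_iff, Set.mem_prod, Set.mem_univ, true_and, Set.mem_preimage,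
        Set.mem_singleton_iff, Set.mem_ofPred_eq]
      constructor
      · rintro ⟨rfl, h⟩
        rw [mul_one, mul_inv_eq_one] at h
        exact ⟨h, rfl⟩
      · rintro ⟨h, rfl⟩
        rw [mul_one, mul_inv_eq_one]
        exact ⟨rfl, h⟩
    have h3 : (μ.prod (Measure.count : Measure L)).real ((Set.univ : Set X) ×ˢ ({1} : Set L)) = 1 := by
      rw [Measure.real, hAv]; simp
    have h4 : (μ.prod (Measure.count : Measure L)).real ({x | a s x = b s x} ×ˢ ({1} : Set L)) =
        μ.real {x | a s x = b s x} := by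
      rw [Measure.real, Measure.prod_prod]; simp [Measure.real]
    have h5 : (1 : ℝ) ≤ μ.real {x | a s x = b s x} + μ.real {x | a s x ≠ b s x} := by
      calc (1 : ℝ) = μ.real Set.univ := by simp
        _ = μ.real ({x | a s x = b s x} ∪ {x | a s x ≠ b s x}) := by
          congr 1
          ext x
          simp [em]
        _ ≤ _ := measureReal_union_le _ _
    rw [h2, h3, h4]
    linarith [hε s hs]
  have h6 : ‖indicatorConstLp 2 hA hAf (1 : ℝ) - η‖ ^ 2 < 1 / 4 := by
    refine hη'.trans_lt ?_
    calc _ ≤ C * ∑ s ∈ S, 2 * ε := by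
          exact mul_le_mul_of_nonneg_left (Finset.sum_le_sum h1) hC
      _ = 2 * (C * S.card) * ε := by
          rw [Finset.sum_const, nsmul_eq_mul]; ring
      _ < 1 / 4 := by
          rw [hεdef, mul_one_div, div_lt_iff₀ hD0]
          linarith
  -- measurability
  have hD : ∀ l : L, MeasurableSet {x | 1 / 2 < η (x, l)} := by
    intro l
    apply measurableSet_lt measurable_const
    exact (Lp.stronglyMeasurable η).measurable.comp (measurable_id.prodMk measurable_const)
  have hE : ∀ l : L, MeasurableSet {x | 1 / 2 < η (x, l) ∧ ∀ l', 1 / 2 < η (x, l') → l' = l} := by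
    intro l
    apply (hD l).inter
    have : {x | ∀ l', 1 / 2 < η (x, l') → l' = l} =
        ⋂ l' : L, {x | 1 / 2 < η (x, l') → l' = l} := by
      ext x; simp
    change MeasurableSet {x | ∀ l', 1 / 2 < η (x, l') → l' = l}
    rw [this]
    refine MeasurableSet.iInter fun l' => ?_
    by_cases hl : l' = l
    · simp [hl]
    · have : {x | 1 / 2 < η (x, l') → l' = l} = {x | 1 / 2 < η (x, l')}ᶜ := by
        ext x; simp [hl]
      rw [this]
      exact (hD l').compl
  have hU : MeasurableSet {x | ∃! l, 1 / 2 < η (x, l)} := by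
    have : {x | ∃! l, 1 / 2 < η (x, l)} =
        ⋃ l : L, {x | 1 / 2 < η (x, l) ∧ ∀ l', 1 / 2 < η (x, l') → l' = l} := by
      ext x; simp [ExistsUnique]
    rw [this]
    exact MeasurableSet.iUnion hE
  -- equivariance
  have hinv : ∀ g, ∀ᵐ x ∂μ, ∀ l, η (act g x, a g x * l * (b g x)⁻¹) = η (x, l) := by
    intro g
    filter_upwards [Measure.ae_ae_of_ae_prod (hη g)] with x hx
    exact Measure.ae_count_iff.1 hx
  have hUinv : ∀ g, ∀ᵐ x ∂μ, ((∃! l, 1 / 2 < η (act g x, l)) ↔ ∃! l, 1 / 2 < η (x, l)) := by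
    intro g
    filter_upwards [hinv g] with x hx
    constructor
    · rintro ⟨l, hl, hl'⟩
      refine ⟨(a g x)⁻¹ * l * b g x, ?_, ?_⟩
      · simp only
        rw [← hx]
        convert hl using 3
        group
      · intro k hk
        rw [← hx] at hk
        have := hl' _ hk
        rw [← this]
        group
    · rintro ⟨l, hl, hl'⟩
      refine ⟨a g x * l * (b g x)⁻¹, ?_, ?_⟩
      · simp only
        rw [hx]
        exact hl
      · intro k hk
        have h8 : k = a g x * ((a g x)⁻¹ * k * b g x) * (b g x)⁻¹ := by group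
        rw [h8, hx] at hk
        have := hl' _ hk
        rw [← this]
        group
  have hUc : ∀ᵐ x ∂μ, ∃! l, 1 / 2 < η (x, l) := by
    rcases herg {x | ∃! l, 1 / 2 < η (x, l)} hU (fun g => by
      filter_upwards [hUinv g] with x hx
      exact propext hx) with h | h
    · exfalso
      exact exists_good hA hAf η h6 (measure_eq_zero_iff_ae_notMem.1 h)
    · exact h
  -- the transfer function
  refine ⟨fun x => if h : ∃! l, 1 / 2 < η (x, l) then h.choose else 1, ?_, ?_⟩
  · intro l
    have : {x | (if h : ∃! l, 1 / 2 < η (x, l) then h.choose else 1) = l} =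
        {x | 1 / 2 < η (x, l) ∧ ∀ l', 1 / 2 < η (x, l') → l' = l} ∪
          (if l = 1 then {x | ∃! l, 1 / 2 < η (x, l)}ᶜ else ∅) := by
      ext x
      simp only [Set.mem_ofPred_eq, Set.mem_union]
      by_cases h : ∃! l, 1 / 2 < η (x, l)
      · rw [dif_pos h]
        have h9 := h.choose_spec
        constructor
        · intro h10
          left
          rw [← h10]
          exact h9
        · rintro (h10 | h10)
          · exact h10.2 _ h9.1
          · exfalso
            split_ifs at h10 with h11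
            · exact h10 h
            · exact h10
      · rw [dif_neg h]
        constructor
        · intro h10
          right
          rw [if_pos h10.symm]
          exact h
        · rintro (h10 | h10)
          · exact absurd ⟨l, h10⟩ h
          · split_ifs at h10 with h11
            · exact h11.symm
            · exact absurd h10 (Set.notMem_empty _)
    rw [this]
    apply (hE l).union
    split_ifs
    · exact hU.compl
    · exact MeasurableSet.empty
  · intro g
    filter_upwards [hinv g, hUinv g, hUc] with x hx1 hx2 hx3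
    have hx4 := hx2.2 hx3
    rw [dif_pos hx3, dif_pos hx4]
    have h9 := hx3.choose_spec
    have h10 := hx4.choose_spec
    have h11 := h9.1
    simp only at h11
    rw [← hx1] at h11
    have h12 := h10.2 _ h11
    rw [← h12]
    group

end Pool.Agent.H656.DC.T2
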