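import Pool.Agent.H656.DC.GStmts

/-!
# Leaf Torsion: `S_torsion`

If `g` has infinite order, then `zpowers g` has finite index, and so has its normal core `C`.  If `x ^ p = 1`
and `c = g ^ j ∈ C`, then `x c x⁻¹ = g ^ m` for some `m`, so `g ^ (j ^ p) = x ^ p g ^ (j ^ p) x ^ (-p) = g ^ (m ^ p)`,
`j = m` as `p` is odd.  So `C` is central, and the transfer `y ↦ y ^ n` into the centre, followed by the `p`-th power,
kills the generators of `G`: `y ^ (n p) = 1` for all `y`.
-/

set_option autoImplicit false

namespace Pool.Agent.H656.DC.Torsion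

open Subgroup

theorem conj_pow {G : Type} [Group G] {g x : G} {j m : ℤ} (h : x * g ^ j * x⁻¹ = g ^ m) :
    ∀ (i : ℕ) (e : ℤ), x ^ i * g ^ (j ^ i * e) * (x ^ i)⁻¹ = g ^ (m ^ i * e) := by
  intro i
  induction i with
  | zero => intro e; simp
  | succ i ih =>
    intro e
    have h1 : x * g ^ (j * (j ^ i * e)) * x⁻¹ = g ^ (m * (j ^ i * e)) := by
      rw [zpow_mul, ← conj_zpow, h, ← zpow_mul]
    calc x ^ (i + 1) * g ^ (j ^ (i + 1) * e) * (x ^ (i + 1))⁻¹
        = x ^ i * (x * g ^ (j * (j ^ i * e)) * x⁻¹) * (x ^ i)⁻¹ := by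
          rw [show j ^ (i + 1) * e = j * (j ^ i * e) by ring, pow_succ, mul_inv_rev]
          simp only [mul_assoc]
      _ = x ^ i * g ^ (j ^ i * (m * e)) * (x ^ i)⁻¹ := by
          rw [h1, show m * (j ^ i * e) = j ^ i * (m * e) by ring]
      _ = g ^ (m ^ (i + 1) * e) := by
          rw [ih, show m ^ i * (m * e) = m ^ (i + 1) * e by ring]

theorem main : S_torsion := by
  intro p hp G _ hG g
  by_contra hg
  have hinj : ∀ a b : ℤ, g ^ a = g ^ b → a = b := by
    intro a b hab
    have := injective_zpow_iff_not_isOfFinOrder.2 hg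
    exact this hab
  have hidx : (zpowers g).index ≠ 0 := by
    rcases hG.fin_or (zpowers g) ⟨{g}, by rw [Finset.coe_singleton, zpowers_eq_closure]⟩ with h | h
    · exfalso
      apply hg
      rw [← finite_zpowers]
      exact Set.toFinite _
    · exact h
  have hfi : (zpowers g).FiniteIndex := ⟨hidx⟩
  have hcore : (zpowers g).normalCore.index ≠ 0 :=
    (inferInstance : (zpowers g).normalCore.FiniteIndex).index_ne_zero
  have hodd : Odd p := hp.out.odd_of_ne_two hG.odd
  have hcen : (zpowers g).normalCore ≤ center G := by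
    intro c hc
    rw [mem_center_iff]
    obtain ⟨j, rfl⟩ := mem_zpowers_iff.1 (normalCore_le _ hc)
    have hgen : ∀ x : G, x ^ p = 1 → x ∈ centralizer ({g ^ j} : Set G) := by
      intro x hx
      obtain ⟨m, hm⟩ := mem_zpowers_iff.1 (normalCore_le _
        ((inferInstance : (zpowers g).normalCore.Normal).conj_mem _ hc x))
      have h1 := conj_pow hm.symm p 1
      rw [hx, one_mul, inv_one, mul_one, mul_one, mul_one] at h1
      have h2 := hinj _ _ h1
      have h3 : j = m := hodd.pow_injective h2
      rw [mem_centralizer_singleton_iff]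
      rw [← h3] at hm
      exact (eq_mul_inv_iff_mul_eq.1 hm).symm
    have htop : centralizer ({g ^ j} : Set G) = ⊤ := by
      rw [eq_top_iff, ← hG.gen, closure_le]
      exact fun x hx => hgen x hx
    intro x
    have hx : x ∈ centralizer ({g ^ j} : Set G) := by rw [htop]; trivial
    rw [mem_centralizer_singleton_iff] at hx
    exact hx
  have hci : (center G).FiniteIndex := ⟨ne_zero_of_dvd_ne_zero hcore (index_dvd_of_le hcen)⟩
  have hall : ∀ y : G, (MonoidHom.transferCenterPow G y) ^ p = 1 := by
    intro y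
    have hy : y ∈ closure {g : G | g ^ p = 1} := by rw [hG.gen]; trivial
    induction hy using closure_induction with
    | mem x hx => rw [← map_pow, hx, map_one]
    | one => rw [map_one, one_pow]
    | mul x y _ _ hx hy => 
      have hcomm : Commute (MonoidHom.transferCenterPow G x) (MonoidHom.transferCenterPow G y) := by
        apply Subtype.ext
        exact (mem_center_iff.1 (MonoidHom.transferCenterPow G y).2 _)
      rw [map_mul, hcomm.mul_pow, hx, hy, one_mul]
    | inv x _ hx => rw [map_inv, inv_pow, hx, inv_one]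
  apply hg
  rw [isOfFinOrder_iff_pow_eq_one]
  refine ⟨(center G).index * p, Nat.mul_pos (Nat.pos_of_ne_zero hci.index_ne_zero) hp.out.pos, ?_⟩
  have := congrArg Subtype.val (hall g)
  rw [pow_mul]
  exact this

end Pool.Agent.H656.DC.Torsion
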