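import Pool.Agent.H656.DC.GStmts

/-! `S_zorn` (just infinite quotient), project DC of helper656; by helper253. -/

set_option autoImplicit false

namespace Pool.Agent.H656.DC.ZornL

open Pool.Agent.H656.DC

variable {F : Type} [Group F]

/-- normal of `p`-power index -/
def NP (p : ℕ) (K : Subgroup F) : Prop := K.Normal ∧ ∃ k, K.index = p ^ k

/-- the `p`-closure -/
def cl (p : ℕ) (N : Subgroup F) : Subgroup F := sInf {K | NP p K ∧ N ≤ K}

theorem cl_normal (p : ℕ) (N : Subgroup F) : (cl p N).Normal := by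
  constructor
  intro n hn g
  unfold cl at hn ⊢
  rw [Subgroup.mem_sInf] at hn ⊢
  intro K hK
  exact hK.1.1.conj_mem n (hn K hK) g

theorem le_cl (p : ℕ) (N : Subgroup F) : N ≤ cl p N := le_sInf fun _ hK => hK.2

theorem cl_le (p : ℕ) {N K : Subgroup F} (hK : NP p K) (h : N ≤ K) : cl p N ≤ K := sInf_le ⟨hK, h⟩

theorem cl_closed (p : ℕ) (N : Subgroup F) : PClosed p (cl p N) := by
  intro g hg
  unfold cl
  rw [Subgroup.mem_sInf]
  intro K hK
  exact hg K hK.1.1 hK.1.2 (cl_le p hK.1 hK.2)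

theorem cl_unb (p : ℕ) {N : Subgroup F} (h : Unb p N) : Unb p (cl p N) := by
  intro B
  obtain ⟨K, h1, h2, h3, h4⟩ := h B
  exact ⟨K, h1, cl_le p ⟨h1, h3⟩ h2, h3, h4⟩

theorem NP.ne {p : ℕ} [hp : Fact p.Prime] {K : Subgroup F} (h : NP p K) : K.index ≠ 0 := by
  obtain ⟨k, hk⟩ := h.2
  rw [hk]
  exact pow_ne_zero _ hp.out.ne_zero

theorem NP.sup {p : ℕ} [hp : Fact p.Prime] {K N : Subgroup F} (h : NP p K) (hN : N.Normal) :
    NP p (N ⊔ K) := by
  have := h.1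
  refine ⟨Subgroup.sup_normal N K, ?_⟩
  obtain ⟨k, hk⟩ := h.2
  have h1 := Subgroup.index_dvd_of_le (le_sup_right : K ≤ N ⊔ K)
  rw [hk, Nat.dvd_prime_pow hp.out] at h1
  obtain ⟨m, -, hm⟩ := h1
  exact ⟨m, hm⟩

theorem NP.inf {p : ℕ} [hp : Fact p.Prime] {K N : Subgroup F} (h : NP p K) (hN : NP p N) :
    NP p (K ⊓ N) := by
  have := h.1
  have := hN.1
  refine ⟨Subgroup.normal_inf_normal K N, ?_⟩
  obtain ⟨k, hk⟩ := h.2
  obtain ⟨l, hl⟩ := hN.2
  have h1 := Subgroup.relIndex_mul_index (inf_le_right : K ⊓ N ≤ N)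
  have h2 : (K ⊓ N).relIndex N ∣ K.index := by
    rw [Subgroup.inf_relIndex_right]
    exact Subgroup.relIndex_dvd_index_of_normal K N
  have h3 : (K ⊓ N).index ∣ p ^ (k + l) := by
    rw [← h1, pow_add, ← hk, ← hl]
    exact Nat.mul_dvd_mul_right h2 _
  rw [Nat.dvd_prime_pow hp.out] at h3
  obtain ⟨m, -, hm⟩ := h3
  exact ⟨m, hm⟩

theorem NP.top (p : ℕ) : NP p (⊤ : Subgroup F) := ⟨inferInstance, 0, by simp⟩

/-- if not `Unb`, there is a smallest normal subgroup of `p`-power index above `N` -/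
theorem smallest {p : ℕ} [hp : Fact p.Prime] {N : Subgroup F} (h : ¬ Unb p N) :
    ∃ K0 : Subgroup F, NP p K0 ∧ N ≤ K0 ∧ ∀ K, NP p K → N ≤ K → K0 ≤ K := by
  classical
  unfold Unb at h
  push Not at h
  obtain ⟨B, hB⟩ := h
  have hne : ∃ n, ∃ K : Subgroup F, NP p K ∧ N ≤ K ∧ K.index = B - n := by
    refine ⟨B - 1, ⊤, NP.top p, le_top, ?_⟩
    have := hB ⊤ inferInstance le_top ⟨0, by simp⟩
    rw [Subgroup.index_top] at this ⊢
    omega
  obtain ⟨K0, h1, h2, h3⟩ := Nat.find_spec hne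
  refine ⟨K0, h1, h2, fun K hK hNK => ?_⟩
  have h4 := h1.inf hK
  have h5 : N ≤ K0 ⊓ K := le_inf h2 hNK
  have h6 := hB _ h4.1 h5 h4.2
  have h7 : K0.index ≤ (K0 ⊓ K).index :=
    Nat.le_of_dvd (Nat.pos_of_ne_zero h4.ne) (Subgroup.index_dvd_of_le inf_le_left)
  have h8 : (K0 ⊓ K).index ≤ K0.index := by
    by_contra hlt
    push Not at hlt
    have h9 := Nat.find_min hne (m := B - (K0 ⊓ K).index) (by omega)
    exact h9 ⟨_, h4, h5, by omega⟩
  have h10 := Subgroup.relIndex_mul_index (inf_le_left : K0 ⊓ K ≤ K0)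
  have h11 : (K0 ⊓ K).relIndex K0 = 1 := by
    have h12 : K0.index ≠ 0 := h1.ne
    have h13 : (K0 ⊓ K).index = K0.index := le_antisymm h8 h7
    rw [h13] at h10
    exact Nat.eq_of_mul_eq_mul_right (Nat.pos_of_ne_zero h12) (by rw [h10, one_mul])
  rw [Subgroup.relIndex_eq_one] at h11
  exact h11.trans inf_le_right

theorem main (hC : S_chainUnb) (hBu : S_burnside) : S_zorn := by
  intro p hp F _ hF R hR hU hFin
  obtain ⟨N, hRN, hN⟩ := zorn_le_nonempty₀
    {N : Subgroup F | N.Normal ∧ R ≤ N ∧ PClosed p N ∧ Unb p N} (by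
      intro c hc hch y hy
      refine ⟨cl p (sSup c), ⟨cl_normal p _, ?_, cl_closed p _, ?_⟩, fun z hz =>
        (le_sSup hz).trans (le_cl p _)⟩
      · exact ((hc hy).2.1.trans (le_sSup hy)).trans (le_cl p _)
      · exact cl_unb p (hC p F hF c ⟨y, hy⟩ hch fun N hN => ⟨(hc hN).1, (hc hN).2.2.2⟩))
    (cl p R) ⟨cl_normal p R, le_cl p R, cl_closed p R, cl_unb p hU⟩
  have hmem := hN.1
  refine ⟨N, hmem.1, hmem.2.1, hmem.2.2.1, hmem.2.2.2, fun N' hN' hlt hidx => ?_⟩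
  have hnU : ¬ Unb p N' := by
    intro h
    have h1 : cl p N' ≤ N := hN.2 (y := cl p N') ⟨cl_normal p N',
      (hmem.2.1.trans hlt.le).trans (le_cl p N'), cl_closed p N', cl_unb p h⟩
      (hlt.le.trans (le_cl p N'))
    exact absurd ((le_cl p N').trans h1) (not_le_of_gt hlt)
  obtain ⟨K0, hK0, hNK0, hmin⟩ := smallest hnU
  obtain ⟨A, hA1, hA2, hA3⟩ := hBu p F hF N' K0 K0 hNK0 le_rfl hK0.1 hK0.2
    (fun K hK hKp => hmin _ (NP.sup ⟨hK, hKp⟩ hN') le_sup_left)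
  rcases hFin A hA1 with hb | hb
  · -- finite
    obtain ⟨K, hK1, hK2, hK3, hK4⟩ := hmem.2.2.2 (R.relIndex (A ⊔ R) * K0.index + 1)
    have hKn : NP p K := ⟨hK1, hK3⟩
    have e1 : R.relIndex (A ⊔ R) = R.relIndex A := Subgroup.relIndex_sup_right A R
    have e2 : K.relIndex (A ⊔ K) = K.relIndex A := Subgroup.relIndex_sup_right A K
    rw [e1] at hb hK4
    have h1 : K.relIndex A ≤ R.relIndex A :=
      Subgroup.relIndex_le_of_le_left (hmem.2.1.trans hK2) hb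
    have h2 : K.relIndex A ≠ 0 := fun h0 =>
      hb (Subgroup.relIndex_eq_zero_of_le_left (hmem.2.1.trans hK2) h0)
    have h3 : K.relIndex K0 ≤ K.relIndex (A ⊔ K) :=
      Subgroup.relIndex_le_of_le_right (hA3 K hK1 hK3) (by rw [e2]; exact h2)
    rw [e2] at h3
    have h4 := Subgroup.relIndex_mul_index (inf_le_right : K ⊓ K0 ≤ K0)
    rw [Subgroup.inf_relIndex_right] at h4
    have h5 : K.index ≤ (K ⊓ K0).index :=
      Nat.le_of_dvd (Nat.pos_of_ne_zero (hKn.inf hK0).ne) (Subgroup.index_dvd_of_le inf_le_left)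
    rw [← h4] at h5
    have h6 : K.relIndex K0 * K0.index ≤ R.relIndex A * K0.index :=
      Nat.mul_le_mul_right _ (h3.trans h1)
    omega
  · -- finite index
    have h1 : A ⊔ R ≤ N' := sup_le hA2 (hmem.2.1.trans hlt.le)
    have h2 := Subgroup.index_dvd_of_le h1
    rw [hidx, zero_dvd_iff] at h2
    exact hb h2

end Pool.Agent.H656.DC.ZornL
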