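import Pool.Agent.H656.DC.Core
import Pool.Agent.H656.DC.GroupMain
import Pool.Agent.H656.DC.StepAll
import Pool.Agent.H656.DC.Fox
import Pool.Agent.H656.DC.Construct
import Pool.Agent.H656.DC.Rescale
import Pool.Agent.H656.DC.Gen
import Pool.Agent.H656.DC.BC
import Pool.Agent.H656.DC.Orth
import Pool.Agent.H656.DC.Elim
import Pool.Agent.H656.DC.Step
import Pool.Agent.H656.DC.RelGenStep
import Pool.Agent.H656.DC.GS
import Pool.Agent.H656.DC.DsubL
import Pool.Agent.H656.DC.Chain
import Pool.Agent.H656.DC.Add
import Pool.Agent.H656.DC.Small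
import Pool.Agent.H656.DC.Case1
import Pool.Agent.H656.DC.Case2
import Pool.Agent.H656.DC.ChainUnb
import Pool.Agent.H656.DC.Burnside
import Pool.Agent.H656.DC.ZornL
import Pool.Agent.H656.DC.Base
import Pool.Agent.H656.DC.Seq
import Pool.Agent.H656.DC.Dense
import Pool.Agent.H656.DC.Torsion
import Pool.Agent.H656.DC.Norm
import Pool.Agent.H656.DC.BernPMP
import Pool.Agent.H656.DC.Mix
import Pool.Agent.H656.DC.ProdBern
import Pool.Agent.H656.DC.Free
import Pool.Agent.H656.DC.Interp
import Pool.Agent.H656.DC.Cont
import Pool.Agent.H656.DC.T1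
import Pool.Agent.H656.DC.T2
import Pool.Agent.H656.DC.Split
import Pool.Agent.H656.DC.Const
import Pool.Agent.H656.DC.L1
import Pool.Agent.H656.DC.Seed

/-!
# Groups that are not dynamically compressible
-/

set_option autoImplicit false

open MeasureTheory Filter Topology

namespace Pool.Agent.H656.DC.Main

open Pool.Agent.H656.DC Pool.Agent.H656.DC.Core

/-- There is an infinite residually finite group with property (T), all of whose finitely generated
subgroups are finite or of finite index (and more, see `RTM`). -/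
theorem group_exists :
    ∃ (G : Type) (_ : Group G), RTM 67 G ∧ ∃ (S : Finset G) (C : ℝ), HasTC G S C := by
  have hstep : S_step := Step.main BC.main (Elim.main Orth.main Gen.main)
  have hGS : S_GS := GS.main DsubL.main
  have hc1 : S_case1 := Case1.main (Rescale.main Construct.main) (Small.main Gen.main) Add.main
  have hc2 : S_case2 := Case2.main DsubL.main Add.main
  have hSA : S_stepAll := StepAll.main hstep (RelGenStep.main Gen.main2)
    (RelGenStep.main2 Gen.main) hGS (Chain.main DsubL.main) hc1 hc2
  exact GroupMain.main hSA hGS DsubL.main ChainUnb.main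
    (ZornL.main ChainUnb.main Burnside.main) (Base.main Fox.main Construct.main) Seed.main

/-- **Popa's cocycle superrigidity** for Bernoulli shifts of property (T) groups. -/
theorem superrigid : S_SR :=
  SR.main T2.main Interp.main (Cont.main Interp.main) (Mix.main BernPMP.main) BernPMP.main
    BernPMP.main2 ProdBern.main Split.main

/-- the shift action on the free part -/
@[instance_reducible] noncomputable def actFP (G : Type) [Group G] [Countable G] : MulAction G (FP G) where
  smul g x := ⟨shift g x.1, shift_mem_FP x.2 g⟩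
  one_smul x := Subtype.ext (shift_one x.1)
  mul_smul g h x := Subtype.ext (shift_mul g h x.1)

theorem main :
    ¬ (∀ (G : Type) [Group G] [Countable G] [Infinite G],
    ∀ (X : Type) [MeasurableSpace X] [StandardBorelSpace X] [MulAction G X],
      (∀ g : G, Measurable (fun x : X => g • x)) →
      (∀ x : X, (MulAction.orbit G x).Infinite) →
      ∃ (Y : Type) (_ : MeasurableSpace Y) (_ : StandardBorelSpace Y) (_ : MulAction G Y),
        (∀ g : G, Measurable (fun y : Y => g • y)) ∧
        (∀ y : Y, (MulAction.orbit G y).Infinite) ∧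
        (∃ c : Y → Y, Measurable c ∧ Function.Injective c ∧
          (∀ y : Y, c y ∈ MulAction.orbit G y) ∧
          (∀ y : Y, ∃ z ∈ MulAction.orbit G y, ∀ w : Y, c w ≠ z)) ∧
        (∃ f : X → Y, Measurable f ∧
          ∀ x x' : X, (x' ∈ MulAction.orbit G x ↔ f x' ∈ MulAction.orbit G (f x)))) := by
  classical
  intro H
  obtain ⟨G, iG, hR, S, C, hT⟩ := group_exists
  have hp : Fact (Nat.Prime 67) := ⟨by norm_num⟩
  have hGinf : Infinite G := hR.inf
  have hcount : Countable G := by
    obtain ⟨α, hα, φ, hφ⟩ := Group.fg_iff_exists_freeGroup_hom_surjective_finite.1 hR.fg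
    exact hφ.countable
  letI : MulAction G (FP G) := actFP G
  have hFPm : MeasurableSet (FP G) := measurable_FP
  haveI : StandardBorelSpace (FP G) := hFPm.standardBorel
  have hsm : ∀ (g : G) (x : FP G), ((g • x : FP G) : G → ℝ) = shift g x.1 := fun g x => rfl
  obtain ⟨Y, iY1, iY2, iY3, hm, hinf, ⟨c, hc, hci, hco, hcz⟩, f, hf, hred⟩ := H G (FP G)
    (fun g => ((measurable_shift g).comp measurable_subtype_coe).subtype_mk)
    (fun x => by
      have hinj : Function.Injective (fun g : G => g • x) := by
        intro g h hgh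
        by_contra hne
        have h1 : shift g x.1 = shift h x.1 := congrArg Subtype.val hgh
        refine x.2 (h⁻¹ * g) (fun h2 => hne ?_) ?_
        · exact (inv_mul_eq_one.1 h2).symm
        · rw [shift_mul, h1, ← shift_mul, inv_mul_cancel, shift_one]
      exact Set.infinite_range_of_injective hinj)
  have hne : (FP G).Nonempty := by
    by_contra hem
    rw [Set.not_nonempty_iff_eq_empty] at hem
    have h1 := ae_FP (G := G) Free.main
    rw [hem] at h1
    simp only [Set.mem_empty_iff_false] at h1
    have h2 := h1.exists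
    obtain ⟨x, hx⟩ := h2
    exact hx
  obtain ⟨x1, hx1⟩ := hne
  let y0 : Y := f ⟨x1, hx1⟩
  let F : (G → ℝ) → Y := Function.extend (Subtype.val : FP G → G → ℝ) f (fun _ => y0)
  have hFm : Measurable F :=
    (MeasurableEmbedding.subtype_coe hFPm).measurable_extend hf measurable_const
  have hF1 : ∀ x : FP G, F x.1 = f x := fun x => Subtype.val_injective.extend_apply f _ x
  have hF2 : ∀ x : G → ℝ, x ∉ FP G → F x = y0 := fun x hx =>
    Function.extend_apply' f _ x (fun ⟨a, ha⟩ => hx (ha ▸ a.2))
  refine core superrigid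
    (Const.main Interp.main (Cont.main Interp.main) T1.main (Mix.main BernPMP.main) BernPMP.main
      BernPMP.main2 ProdBern.main)
    (L1.main T1.main (Mix.main BernPMP.main) BernPMP.main) Free.main BernPMP.main
    (Mix.main BernPMP.main) Seq.main (Dense.main Burnside.main) (Norm.main Torsion.main)
    hR S C hT hm hinf c hc hci hco hcz F hFm ?_ ?_
  · intro g x
    by_cases hx : x ∈ FP G
    · have h1 : F (shift g x) = f (g • (⟨x, hx⟩ : FP G)) := hF1 (g • (⟨x, hx⟩ : FP G))
      have h2 : F x = f ⟨x, hx⟩ := hF1 ⟨x, hx⟩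
      have h3 : f (g • (⟨x, hx⟩ : FP G)) ∈ MulAction.orbit G (f ⟨x, hx⟩) :=
        (hred _ _).1 ⟨g, rfl⟩
      obtain ⟨l, hl⟩ := h3
      exact ⟨l, by rw [h1, h2]; exact hl.symm⟩
    · have hx' : shift g x ∉ FP G := fun h => hx (by
        have := shift_mem_FP h g⁻¹
        rwa [← shift_mul, inv_mul_cancel, shift_one] at this)
      exact ⟨1, by rw [hF2 x hx, hF2 _ hx', one_smul]⟩
  · intro x hx x' hx' h
    rw [show F x = f ⟨x, hx⟩ from hF1 ⟨x, hx⟩, show F x' = f ⟨x', hx'⟩ from hF1 ⟨x', hx'⟩] at h
    obtain ⟨g, hg⟩ := (hred ⟨x, hx⟩ ⟨x', hx'⟩).2 h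
    exact ⟨g, (congrArg Subtype.val hg).symm⟩

end Pool.Agent.H656.DC.Main
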