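import Pool.Agent.H656.DC.EStmts

/-!
# Cocycle superrigidity of Bernoulli shifts of property (T) groups (countable targets): assembly
-/

set_option autoImplicit false

open MeasureTheory Filter Topology

namespace Pool.Agent.H656.DC

/-- **Popa's cocycle superrigidity** for Bernoulli shifts of property (T) groups and countable
target groups. -/
def S_SR : Prop :=
  ∀ (G : Type) [Group G] [Countable G] [Infinite G] (S : Finset G) (C : ℝ), HasTC G S C →
    ∀ (L : Type) [Group L] [Countable L] (c : G → (G → ℝ) → L), Coc shift c →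
      ∃ (ρ : G →* L) (φ : (G → ℝ) → L), (∀ l, MeasurableSet {x | φ x = l}) ∧
        ∀ g, ∀ᵐ x ∂(bern G nu0), c g x = φ (shift g x) * ρ g * (φ x)⁻¹

namespace SR

lemma mixing_factor {G : Type} [Group G] {Z Y : Type} [MeasurableSpace Z] [MeasurableSpace Y]
    {m : Measure Z} {ν : Measure Y} {aZ : G → Z → Z} {aY : G → Y → Y} {θ : Z → Y}
    (hθ : MeasurePreserving θ m ν) (heq : ∀ g z, θ (aZ g z) = aY g (θ z))
    (hm' : ∀ g, Measurable (aY g)) (hm : Mixing G m aZ) : Mixing G ν aY := by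
  intro A B hA hB
  have h1 := hm (θ ⁻¹' A) (θ ⁻¹' B) (hθ.measurable hA) (hθ.measurable hB)
  have h2 : ∀ A : Set Y, MeasurableSet A → m.real (θ ⁻¹' A) = ν.real A := by
    intro A hA
    simp only [Measure.real]
    rw [hθ.measure_preimage hA.nullMeasurableSet]
  rw [h2 A hA, h2 B hB] at h1
  refine h1.congr fun g => ?_
  rw [← h2 _ (hA.inter (hm' g hB))]
  congr 1
  ext z
  simp only [Set.mem_inter_iff, Set.mem_preimage]
  rw [heq]

lemma measurable_level {X L : Type} [MeasurableSpace X] [Countable L] {f g : X → L}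
    (hf : ∀ l, MeasurableSet {x | f x = l}) (hg : ∀ l, MeasurableSet {x | g x = l})
    {L' : Type} (F : L → L → L') (l : L') : MeasurableSet {x | F (f x) (g x) = l} := by
  have : {x | F (f x) (g x) = l} =
      ⋃ (a : L) (b : L) (_ : F a b = l), {x | f x = a} ∩ {x | g x = b} := by
    ext x
    simp only [Set.mem_ofPred_eq, Set.mem_iUnion, Set.mem_inter_iff, exists_prop]
    constructor
    · intro h
      exact ⟨f x, g x, h, rfl, rfl⟩
    · rintro ⟨a, b, h, rfl, rfl⟩
      exact h
  rw [this]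
  exact MeasurableSet.iUnion fun a => MeasurableSet.iUnion fun b => MeasurableSet.iUnion fun _ =>
    (hf a).inter (hg b)

/-- the map `(B × B')^G → B^G × B'^G` -/
def spl {G B B' : Type} (z : G → B × B') : (G → B) × (G → B') :=
  ((fun g => (z g).1), (fun g => (z g).2))

/-- its inverse -/
def jn {G B B' : Type} (q : (G → B) × (G → B')) : G → B × B' := fun g => (q.1 g, q.2 g)

lemma measurable_jn {G B B' : Type} [MeasurableSpace B] [MeasurableSpace B'] :
    Measurable (jn : (G → B) × (G → B') → G → B × B') := by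
  refine measurable_pi_lambda _ fun g => ?_
  exact ((measurable_pi_apply g).comp measurable_fst).prodMk
    ((measurable_pi_apply g).comp measurable_snd)

lemma mp_jn (hp : S_prodBern) {G B B' : Type} [Countable G] [MeasurableSpace B]
    [MeasurableSpace B'] (ν : Measure B) (ν' : Measure B') [IsProbabilityMeasure ν]
    [IsProbabilityMeasure ν'] :
    MeasurePreserving (jn : (G → B) × (G → B') → G → B × B') ((bern G ν).prod (bern G ν'))
      (bern G (ν.prod ν')) := by
  have h := hp G B B' ν ν'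
  refine ⟨measurable_jn, ?_⟩
  rw [← h.map_eq, Measure.map_map measurable_jn h.measurable]
  have : (jn ∘ fun z : G → B × B' => ((fun g => (z g).1), (fun g => (z g).2))) = id := by
    funext z; rfl
  rw [this, Measure.map_id]

lemma mix_prod (hp : S_prodBern) (hm : S_mix) (hb : S_bernPMP) (G : Type) [Group G] [Countable G]
    [Infinite G] {B B' : Type} [MeasurableSpace B] [MeasurableSpace B'] (ν : Measure B)
    (ν' : Measure B') [IsProbabilityMeasure ν] [IsProbabilityMeasure ν'] :
    Mixing G ((bern G ν).prod (bern G ν'))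
      (fun (g : G) (q : (G → B) × (G → B')) => (shift g q.1, shift g q.2)) := by
  refine mixing_factor (hp G B B' ν ν') (aZ := shift) ?_ ?_ (hm G (B × B') (ν.prod ν'))
  · intro g z
    rfl
  · intro g
    exact ((hb G B ν).mp g).measurable.prodMap ((hb G B' ν').mp g).measurable

lemma pmp_prod {G : Type} [Group G] {X Y : Type} [MeasurableSpace X] [MeasurableSpace Y]
    {μ : Measure X} {ν : Measure Y} [IsProbabilityMeasure μ] [IsProbabilityMeasure ν]
    {aX : G → X → X} {aY : G → Y → Y} (hX : PMP G μ aX) (hY : PMP G ν aY) :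
    PMP G (μ.prod ν) (fun g q => (aX g q.1, aY g q.2)) where
  one x := by simp [hX.one, hY.one]
  mul g h x := by simp [hX.mul, hY.mul]
  mp g := (hX.mp g).prod (hY.mp g)

theorem main (hT2 : S_T2) (hi : S_interp) (hc : S_cont) (hm : S_mix) (hb : S_bernPMP)
    (he : S_mixErg) (hp : S_prodBern) (hsp : S_split) : S_SR := by
  classical
  intro G _ _ _ S C hT L _ _ c hcoc
  obtain ⟨ε, hε, hT2'⟩ := hT2 G S C hT
  -- a common δ
  have hδ : ∃ δ : ℝ, 0 < δ ∧ ∀ g ∈ S, ∀ s s' : ℝ, |s - s'| ≤ δ →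
      (bern G nu3).real {z | c g (interp s z) ≠ c g (interp s' z)} ≤ ε := by
    choose δ hδ0 hδ using fun g : G => hc G L (c g) (hcoc.meas g) ε hε
    by_cases hS : S.Nonempty
    · refine ⟨S.inf' hS δ, (Finset.lt_inf'_iff hS).2 fun g _ => hδ0 g, fun g hg s s' hs => ?_⟩
      exact hδ g s s' (hs.trans (Finset.inf'_le δ hg))
    · refine ⟨1, one_pos, fun g hg => ?_⟩
      exact absurd ⟨g, hg⟩ hS
  obtain ⟨δ, hδ0, hδ⟩ := hδ
  obtain ⟨N, hN⟩ := exists_nat_gt (1 / δ)
  have hN0 : 0 < (N : ℝ) := lt_trans (by positivity) hN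
  have hNδ : 1 / (N : ℝ) ≤ δ := by
    rw [div_le_iff₀ hN0]
    rw [div_lt_iff₀ hδ0] at hN
    nlinarith
  set m := bern G nu3 with hmdef
  have hpmp : PMP G m (shift : G → (G → ℝ × ℝ × ℝ) → _) := hb G (ℝ × ℝ × ℝ) nu3
  have herg : Erg G m (shift : G → (G → ℝ × ℝ × ℝ) → _) :=
    he G _ m shift hpmp (hm G (ℝ × ℝ × ℝ) nu3)
  have hcocs : ∀ s : ℝ, Coc (shift : G → (G → ℝ × ℝ × ℝ) → _) (fun g z => c g (interp s z)) := by
    intro s
    refine ⟨fun g l => ?_, fun g h z => ?_⟩
    · exact ((hi G).1 s).measurable (hcoc.meas g l)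
    · show c (g * h) (interp s z) = c g (interp s (shift h z)) * c h (interp s z)
      rw [interp_shift, hcoc.coc]
  have hchain : ∀ k : ℕ, k ≤ N → ∃ Ψ : (G → ℝ × ℝ × ℝ) → L, (∀ l, MeasurableSet {z | Ψ z = l}) ∧
      ∀ g, ∀ᵐ z ∂m, c g (interp 0 z) * Ψ z = Ψ (shift g z) * c g (interp ((k : ℝ) / N) z) := by
    intro k
    induction k with
    | zero =>
      intro _
      refine ⟨fun _ => 1, fun l => ?_, fun g => ?_⟩
      · exact MeasurableSet.const _
      · refine Eventually.of_forall fun z => ?_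
        simp
    | succ k ih =>
      intro hk
      obtain ⟨Ψ, hΨ1, hΨ2⟩ := ih (by omega)
      have hclose : ∀ s ∈ S, m.real {z | c s (interp ((k : ℝ) / N) z) ≠
          c s (interp (((k + 1 : ℕ) : ℝ) / N) z)} ≤ ε := by
        intro s hs
        refine hδ s hs _ _ ?_
        have : (k : ℝ) / N - ((k + 1 : ℕ) : ℝ) / N = -(1 / N) := by
          push_cast; field_simp; ring
        rw [this, abs_neg, abs_of_nonneg (by positivity)]
        exact hNδ
      obtain ⟨Φ, hΦ1, hΦ2⟩ := hT2' _ m shift hpmp herg L _ _ (hcocs ((k : ℝ) / N))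
        (hcocs (((k + 1 : ℕ) : ℝ) / N)) hclose
      refine ⟨fun z => Ψ z * Φ z, measurable_level hΨ1 hΦ1 (· * ·), fun g => ?_⟩
      filter_upwards [hΨ2 g, hΦ2 g] with z h1 h2
      rw [← mul_assoc, h1, mul_assoc, h2, mul_assoc]
  obtain ⟨Φ, hΦ1, hΦ2⟩ := hchain N le_rfl
  rw [div_self hN0.ne'] at hΦ2
  -- transfer to the product
  let W := G → ℝ × ℝ
  let κ : Measure W := bern G (nu0.prod nu0)
  have hjn := mp_jn hp (G := G) nu0 (nu0.prod nu0)
  have hcW : Coc (shift : G → W → W) (fun g w => c g (fun h => (w h).1)) := by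
    refine ⟨fun g l => ?_, fun g h w => ?_⟩
    · have : Measurable (fun w : W => fun h => (w h).1) :=
        measurable_pi_lambda _ fun h => measurable_fst.comp (measurable_pi_apply h)
      exact this (hcoc.meas g l)
    · exact hcoc.coc g h _
  have hE : Erg G (((bern G nu0).prod (bern G nu0)).prod (κ.prod κ))
      (fun g (q : ((G → ℝ) × (G → ℝ)) × (W × W)) =>
        ((shift g q.1.1, shift g q.1.2), (shift g q.2.1, shift g q.2.2))) := by
    have e1 : MeasurePreserving (fun z : G → (ℝ × ℝ) × ((ℝ × ℝ) × (ℝ × ℝ)) =>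
        Prod.map (spl (G := G) (B := ℝ) (B' := ℝ)) (spl (G := G) (B := ℝ × ℝ) (B' := ℝ × ℝ))
          (spl z)) (bern G ((nu0.prod nu0).prod ((nu0.prod nu0).prod (nu0.prod nu0))))
        (((bern G nu0).prod (bern G nu0)).prod (κ.prod κ)) :=
      ((hp G ℝ ℝ nu0 nu0).prod (hp G (ℝ × ℝ) (ℝ × ℝ) (nu0.prod nu0) (nu0.prod nu0))).comp
        (hp G (ℝ × ℝ) ((ℝ × ℝ) × (ℝ × ℝ)) (nu0.prod nu0) ((nu0.prod nu0).prod (nu0.prod nu0)))
    have hX := hb G ℝ nu0
    have hW := hb G (ℝ × ℝ) (nu0.prod nu0)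
    have hP := pmp_prod (pmp_prod hX hX) (pmp_prod hW hW)
    refine he G _ _ _ hP ?_
    exact mixing_factor e1 (aZ := shift) (fun g z => rfl) (fun g => (hP.mp g).measurable)
      (hm G _ _)
  refine hsp G (G → ℝ) W (bern G nu0) κ shift shift (hb G ℝ nu0) (hb G (ℝ × ℝ) (nu0.prod nu0)) hE
    L c (fun g w => c g (fun h => (w h).1)) hcoc hcW (fun q => Φ (jn q)) ?_ ?_
  · intro l
    exact measurable_jn (hΦ1 l)
  · intro g
    have h0 := hjn.quasiMeasurePreserving.ae (hi G).2.1
    have h1 := hjn.quasiMeasurePreserving.ae (hi G).2.2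
    have h2 := hjn.quasiMeasurePreserving.ae (hΦ2 g)
    filter_upwards [h0, h1, h2] with q e0 e1 e2
    have e0' : interp 0 (jn q) = fun h => (jn q h).1 := e0
    have e1' : interp 1 (jn q) = fun h => (jn q h).2.1 := e1
    have e2' : c g (interp 0 (jn q)) * Φ (jn q) =
      Φ (shift g (jn q)) * c g (interp 1 (jn q)) := e2
    rw [e0', e1'] at e2'
    exact e2'

end SR

end Pool.Agent.H656.DC
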