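import Pool.Agent.H656.DC.GStmts

/-!
# A light subgroup has light subgroups of finite index (helper356)
-/

set_option autoImplicit false

open scoped commutatorElement

namespace Pool.Agent.H656.DC.Small

open Pool.Agent.H656.DC

/-! ### iterated commutators -/

theorem icomm_map {G G' : Type} [Group G] [Group G'] (φ : G →* G') (x : G) (j : ℕ) (y : G) :
    φ (icomm x j y) = icomm (φ x) j (φ y) := by
  induction j with
  | zero => rfl
  | succ j ih => simp only [icomm, map_commutatorElement, ih]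

/-- **one elimination, index** -/
theorem elim_index (hg : S_gen) (p : ℕ) [hp : Fact p.Prime] {G : Type} [Group G] (x : G)
    (T : Set G) :
    Subgroup.closure (insert (x ^ p) {g | ∃ y ∈ T, ∃ j < p, g = icomm x j y}) ≤
      Subgroup.closure (insert x T) ∧
    (Subgroup.closure (insert (x ^ p) {g | ∃ y ∈ T, ∃ j < p, g = icomm x j y})).relIndex
      (Subgroup.closure (insert x T)) ≠ 0 := by
  set φ : FreeGroup (Option T) →* G := FreeGroup.lift (fun o => o.elim x (fun y => y.1)) with hφ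
  set χ : FreeGroup (Option T) →* Multiplicative (ZMod p) :=
    FreeGroup.lift (fun o => o.elim (Multiplicative.ofAdd 1) (fun _ => 1)) with hχ
  set x0 : FreeGroup (Option T) := FreeGroup.of none with hx0
  set T0 : Set (FreeGroup (Option T)) := Set.range (fun y : T => FreeGroup.of (some y)) with hT0
  have hφx : φ x0 = x := by simp [hφ, hx0]
  have hφy : ∀ y : T, φ (FreeGroup.of (some y)) = y.1 := fun y => by simp [hφ]
  have hχx : χ x0 = Multiplicative.ofAdd 1 := by simp [hχ, hx0]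
  have hχy : ∀ y : T, χ (FreeGroup.of (some y)) = 1 := fun y => by simp [hχ]
  have htop : Subgroup.closure (insert x0 T0) = ⊤ := by
    rw [← FreeGroup.closure_range_of]
    congr 1
    ext g
    constructor
    · rintro (rfl | ⟨y, rfl⟩)
      · exact ⟨none, rfl⟩
      · exact ⟨some y, rfl⟩
    · rintro ⟨o, rfl⟩
      cases o with
      | none => exact Or.inl rfl
      | some y => exact Or.inr ⟨y, rfl⟩
  have hsurj : Function.Surjective χ := by
    intro z
    refine ⟨x0 ^ (Multiplicative.toAdd z).val, ?_⟩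
    rw [map_pow, hχx, ← ofAdd_nsmul]
    have : (Multiplicative.toAdd z).val • (1 : ZMod p) = Multiplicative.toAdd z := by
      rw [nsmul_eq_mul, mul_one, ZMod.natCast_zmod_val]
    rw [this]
    rfl
  have hind : χ.ker.index = p := by
    rw [Subgroup.index_ker, MonoidHom.range_eq_top.2 hsurj]
    rw [Nat.card_congr (Subgroup.topEquiv (G := Multiplicative (ZMod p))).toEquiv]
    exact Nat.card_zmod p
  have hx0H : x0 ∉ χ.ker := by
    rw [MonoidHom.mem_ker, hχx]
    intro h
    have h2 : (1 : ZMod p) = 0 := Multiplicative.ofAdd.injective h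
    have : Fact (1 < p) := ⟨hp.out.one_lt⟩
    exact one_ne_zero h2
  have key := hg p (FreeGroup (Option T)) ⊤ χ.ker x0 T0 htop le_top
    (fun b _ h hh => (MonoidHom.normal_ker χ).conj_mem h hh b)
    (by rw [Subgroup.relIndex_top_right, hind]) hx0H
    (by rintro _ ⟨y, rfl⟩; exact hχy y)
  -- push forward
  have e1 : χ.ker.map φ =
      Subgroup.closure (insert (x ^ p) {g | ∃ y ∈ T, ∃ j < p, g = icomm x j y}) := by
    rw [← key, MonoidHom.map_closure]
    congr 1
    ext g
    constructor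
    · rintro ⟨_, (rfl | ⟨_, ⟨y, rfl⟩, j, hj, rfl⟩), rfl⟩
      · left
        rw [map_pow, hφx]
      · right
        exact ⟨y.1, y.2, j, hj, by rw [icomm_map, hφx, hφy]⟩
    · rintro (rfl | ⟨y, hy, j, hj, rfl⟩)
      · exact ⟨x0 ^ p, Or.inl rfl, by rw [map_pow, hφx]⟩
      · exact ⟨icomm x0 j (FreeGroup.of (some ⟨y, hy⟩)), Or.inr ⟨_, ⟨⟨y, hy⟩, rfl⟩, j, hj, rfl⟩,
          by rw [icomm_map, hφx, hφy]⟩
  have e2 : (⊤ : Subgroup (FreeGroup (Option T))).map φ = Subgroup.closure (insert x T) := by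
    rw [← htop, MonoidHom.map_closure]
    congr 1
    ext g
    constructor
    · rintro ⟨_, (rfl | ⟨y, rfl⟩), rfl⟩
      · left; exact hφx
      · right; rw [hφy]; exact y.2
    · rintro (rfl | hy)
      · exact ⟨x0, Or.inl rfl, hφx⟩
      · exact ⟨FreeGroup.of (some ⟨g, hy⟩), Or.inr ⟨⟨g, hy⟩, rfl⟩, hφy _⟩
  rw [← e1, ← e2]
  refine ⟨Subgroup.map_mono le_top, ?_⟩
  rw [Subgroup.relIndex_map_map, top_sup_eq, Subgroup.relIndex_top_right]
  have h1 : (χ.ker ⊔ φ.ker).index ∣ χ.ker.index := Subgroup.index_dvd_of_le le_sup_left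
  intro h0
  rw [h0, hind, zero_dvd_iff] at h1
  exact hp.out.ne_zero h1

/-! ### degrees -/

section deg

variable {p : ℕ} [hp : Fact p.Prime] {F : Type} [Group F] {M : Subgroup F} {ι : Type} [Fintype ι]
  {y : ι → F} {n : ι → ℕ} {J : ℕ → Submodule (ZMod p) (GA p F)}

theorem comm_deg (h : WFS p M y n J) {a x : F} (ha : a ∈ M) (hx : x ∈ M) {k l : ℕ}
    (hak : el p a - 1 ∈ J k) (hxl : el p x - 1 ∈ J l) : el p ⁅a, x⁆ - 1 ∈ J (k + l) := by
  have e : el p ⁅a, x⁆ - 1 = ((el p a - 1) * (el p x - 1) - (el p x - 1) * (el p a - 1)) *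
      el p (a⁻¹ * x⁻¹) := by
    have e1 : (el p a - 1) * (el p x - 1) - (el p x - 1) * (el p a - 1) =
        el p (a * x) - el p (x * a) := by
      rw [el_mul, el_mul]
      noncomm_ring
    rw [e1, sub_mul, ← el_mul, ← el_mul]
    have e2 : x * a * (a⁻¹ * x⁻¹) = 1 := by group
    have e3 : a * x * (a⁻¹ * x⁻¹) = ⁅a, x⁆ := by
      rw [commutatorElement_def]
      group
    rw [e2, e3, el_one]
  rw [e]
  refine h.right_mul ((J (k + l)).sub_mem (h.mul _ _ _ _ hak hxl) ?_)
    (el_mem_KS (M.mul_mem (M.inv_mem ha) (M.inv_mem hx)))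
  rw [add_comm k l]
  exact h.mul _ _ _ _ hxl hak

theorem icomm_mem {x b : F} (hx : x ∈ M) (hb : b ∈ M) (j : ℕ) : icomm x j b ∈ M := by
  induction j with
  | zero => exact hb
  | succ j ih =>
    show ⁅icomm x j b, x⁆ ∈ M
    rw [commutatorElement_def]
    exact M.mul_mem (M.mul_mem (M.mul_mem ih hx) (M.inv_mem ih)) (M.inv_mem hx)

theorem icomm_deg (h : WFS p M y n J) {x b : F} (hx : x ∈ M) (hb : b ∈ M) {k l : ℕ}
    (hbk : el p b - 1 ∈ J k) (hxl : el p x - 1 ∈ J l) (j : ℕ) :
    el p (icomm x j b) - 1 ∈ J (k + j * l) := by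
  induction j with
  | zero => simpa [icomm] using hbk
  | succ j ih =>
    have := comm_deg h (icomm_mem hx hb j) hx ih hxl
    have e : k + (j + 1) * l = k + j * l + l := by ring
    rw [e]
    exact this

theorem pow_deg (h : WFS p M y n J) {x : F} {l : ℕ} (hxl : el p x - 1 ∈ J l) :
    el p (x ^ p) - 1 ∈ J (p * l) := by
  have hpow : ∀ k : ℕ, (el p x - 1) ^ k ∈ J (k * l) := by
    intro k
    induction k with
    | zero =>
      rw [pow_zero, zero_mul, h.zero]
      exact one_mem_KS M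
    | succ k ih =>
      rw [pow_succ, Nat.succ_mul]
      exact h.mul _ _ _ _ ih hxl
  have : CharP (GA p F) p := by
    have : Nontrivial (GA p F) := inferInstance
    exact charP_of_injective_algebraMap (algebraMap (ZMod p) (GA p F)).injective p
  have e1 : (el p x - 1) ^ p = el p (x ^ p) - 1 := by
    rw [sub_pow_char_of_commute p (Commute.one_right (el p x)), one_pow]
    congr 1
    unfold el
    rw [map_pow]
  rw [← e1]
  exact hpow p

end deg

/-! ### lists -/

section lists

variable {p : ℕ} [hp : Fact p.Prime] {F : Type} [Group F]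

/-- the subgroup generated by a list -/
def Cl (L : List (F × ℕ)) : Subgroup F := Subgroup.closure {g | ∃ e, (g, e) ∈ L}

/-- the weight of a list -/
noncomputable def Wt (t : ℝ) (L : List (F × ℕ)) : ℝ := (L.map (fun q => t ^ q.2)).sum

/-- a list of elements of `M` of positive degrees -/
def Ok (M : Subgroup F) (J : ℕ → Submodule (ZMod p) (GA p F)) (L : List (F × ℕ)) : Prop :=
  ∀ q ∈ L, q.1 ∈ M ∧ 1 ≤ q.2 ∧ el p q.1 - 1 ∈ J q.2

theorem Wt_append (t : ℝ) (L L' : List (F × ℕ)) : Wt t (L ++ L') = Wt t L + Wt t L' := by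
  simp [Wt]

theorem Wt_cons (t : ℝ) (q : F × ℕ) (L : List (F × ℕ)) : Wt t (q :: L) = t ^ q.2 + Wt t L := by
  simp [Wt]

theorem Wt_nonneg {t : ℝ} (ht : 0 < t) (L : List (F × ℕ)) : 0 ≤ Wt t L := by
  unfold Wt
  refine List.sum_nonneg ?_
  intro x hx
  obtain ⟨q, -, rfl⟩ := List.mem_map.1 hx
  positivity

/-- the new commutators -/
def nw (p : ℕ) (x : F) (n : ℕ) (L : List (F × ℕ)) : List (F × ℕ) :=
  L.flatMap (fun q => (List.range (p - 1)).map (fun j => (icomm x (j + 1) q.1, q.2 + (j + 1) * n)))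

theorem mem_nw {x : F} {n : ℕ} {L : List (F × ℕ)} {r : F × ℕ} :
    r ∈ nw p x n L ↔ ∃ q ∈ L, ∃ j < p - 1, r = (icomm x (j + 1) q.1, q.2 + (j + 1) * n) := by
  unfold nw
  simp only [List.mem_flatMap, List.mem_map, List.mem_range]
  constructor
  · rintro ⟨q, hq, j, hj, rfl⟩
    exact ⟨q, hq, j, hj, rfl⟩
  · rintro ⟨q, hq, j, hj, rfl⟩
    exact ⟨q, hq, j, hj, rfl⟩

theorem Wt_nw (t : ℝ) (x : F) (n : ℕ) (L : List (F × ℕ)) :
    Wt t (nw p x n L) = (kap p (t ^ n) - 1) * Wt t L := by
  induction L with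
  | nil => simp [nw, Wt]
  | cons q L ih =>
    have e : nw p x n (q :: L) = (List.range (p - 1)).map
        (fun j => (icomm x (j + 1) q.1, q.2 + (j + 1) * n)) ++ nw p x n L := by
      simp [nw]
    rw [e, Wt_append, ih, Wt_cons, mul_add]
    congr 1
    have e2 : Wt t ((List.range (p - 1)).map
        (fun j => (icomm x (j + 1) q.1, q.2 + (j + 1) * n))) =
        ∑ j ∈ Finset.range (p - 1), t ^ (q.2 + (j + 1) * n) := by
      unfold Wt
      rw [List.map_map, ← List.sum_toFinset _ List.nodup_range, List.toFinset_range]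
      simp
    have e3 : kap p (t ^ n) - 1 = ∑ j ∈ Finset.range (p - 1), (t ^ n) ^ (j + 1) := by
      unfold kap
      have : p = (p - 1) + 1 := by have := hp.out.one_lt; omega
      rw [this, Finset.sum_range_succ']
      simp
    rw [e2, e3, Finset.sum_mul]
    refine Finset.sum_congr rfl fun j _ => ?_
    rw [pow_add, mul_comm (j + 1) n, pow_mul]
    ring

/-- **one elimination** -/
theorem elim (hg : S_gen) {M : Subgroup F} {ι : Type} [Fintype ι]
    {y : ι → F} {n : ι → ℕ} {J : ℕ → Submodule (ZMod p) (GA p F)} (h : WFS p M y n J) (t : ℝ)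
    (x : F) (d : ℕ) (T L : List (F × ℕ)) (hok : Ok M J ((x, d) :: (T ++ L))) :
    ∃ L' : List (F × ℕ), Ok M J (T ++ L') ∧ Cl (T ++ L') ≤ Cl ((x, d) :: (T ++ L)) ∧
      (Cl (T ++ L')).relIndex (Cl ((x, d) :: (T ++ L))) ≠ 0 ∧
      1 - Wt t (T ++ L') = kap p (t ^ d) * (1 - Wt t ((x, d) :: (T ++ L))) := by
  have hpp : 1 < p := hp.out.one_lt
  obtain ⟨hx1, hx2, hx3⟩ := hok (x, d) (by simp)
  have hokT : Ok M J (T ++ L) := fun q hq => hok q (List.mem_cons_of_mem _ hq)
  refine ⟨L ++ ((x ^ p, p * d) :: nw p x d (T ++ L)), ?_, ?_⟩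
  · intro q hq
    simp only [List.mem_append, List.mem_cons] at hq
    rcases hq with hq | hq | rfl | hq
    · exact hokT q (List.mem_append_left _ hq)
    · exact hokT q (List.mem_append_right _ hq)
    · refine ⟨M.pow_mem hx1 p, ?_, pow_deg h hx3⟩
      exact Nat.mul_pos (by omega) hx2
    · obtain ⟨r, hr, j, hj, rfl⟩ := mem_nw.1 hq
      obtain ⟨a1, a2, a3⟩ := hokT r hr
      exact ⟨icomm_mem hx1 a1 _, by simp only; omega, icomm_deg h hx1 a1 a3 hx3 (j + 1)⟩
  · have e1 : Cl ((x, d) :: (T ++ L)) = Subgroup.closure (insert x {g | ∃ e, (g, e) ∈ T ++ L}) := by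
      unfold Cl
      congr 1
      ext g
      constructor
      · rintro ⟨e, he⟩
        rcases List.mem_cons.1 he with he | he
        · left; exact (Prod.mk.inj he).1
        · right; exact ⟨e, he⟩
      · rintro (rfl | ⟨e, he⟩)
        · exact ⟨d, List.mem_cons_self⟩
        · exact ⟨e, List.mem_cons_of_mem _ he⟩
    have e2 : Cl (T ++ (L ++ ((x ^ p, p * d) :: nw p x d (T ++ L)))) =
        Subgroup.closure (insert (x ^ p) {g | ∃ y ∈ {g | ∃ e, (g, e) ∈ T ++ L}, ∃ j < p,
          g = icomm x j y}) := by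
      unfold Cl
      congr 1
      ext g
      constructor
      · rintro ⟨e, he⟩
        rw [← List.append_assoc, List.mem_append, List.mem_cons] at he
        rcases he with he | he | he
        · right
          exact ⟨g, ⟨e, he⟩, 0, by omega, rfl⟩
        · left; exact (Prod.mk.inj he).1
        · right
          obtain ⟨r, hr, j, hj, hr'⟩ := mem_nw.1 he
          exact ⟨r.1, ⟨r.2, hr⟩, j + 1, by omega, (Prod.mk.inj hr').1⟩
      · rintro (rfl | ⟨y, ⟨e, he⟩, j, hj, rfl⟩)
        · refine ⟨p * d, ?_⟩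
          rw [← List.append_assoc, List.mem_append, List.mem_cons]
          exact Or.inr (Or.inl rfl)
        · cases j with
          | zero =>
            refine ⟨e, ?_⟩
            rw [← List.append_assoc, List.mem_append]
            exact Or.inl he
          | succ j =>
            refine ⟨e + (j + 1) * d, ?_⟩
            rw [← List.append_assoc, List.mem_append, List.mem_cons]
            exact Or.inr (Or.inr (mem_nw.2 ⟨(y, e), he, j, by omega, rfl⟩))
    rw [e1, e2]
    obtain ⟨k1, k2⟩ := elim_index hg p x {g | ∃ e, (g, e) ∈ T ++ L}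
    refine ⟨k1, k2, ?_⟩
    rw [← List.append_assoc, Wt_append, Wt_cons, Wt_nw, Wt_cons]
    simp only
    have hgeo : (1 - t ^ d) * kap p (t ^ d) = 1 - t ^ (p * d) := by
      unfold kap
      have := mul_neg_geom_sum (t ^ d) p
      rw [this, ← pow_mul, mul_comm d p]
    linear_combination -hgeo

/-- **one round** -/
theorem round (hg : S_gen) {M : Subgroup F} {ι : Type} [Fintype ι]
    {y : ι → F} {n : ι → ℕ} {J : ℕ → Submodule (ZMod p) (GA p F)} (h : WFS p M y n J) {t : ℝ}
    (ht : 0 < t) : ∀ T L : List (F × ℕ), Ok M J (T ++ L) → Wt t (T ++ L) < 1 →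
    ∃ L' : List (F × ℕ), Ok M J L' ∧ Cl L' ≤ Cl (T ++ L) ∧
      (Cl L').relIndex (Cl (T ++ L)) ≠ 0 ∧
      (1 - Wt t (T ++ L)) * (T.map (fun q => 1 + t ^ q.2)).prod ≤ 1 - Wt t L' := by
  intro T
  induction T with
  | nil =>
    intro L hok hw
    refine ⟨L, hok, le_rfl, ?_, by simp⟩
    simp
  | cons q T ih =>
    intro L hok hw
    obtain ⟨x, d⟩ := q
    obtain ⟨L1, a1, a2, a3, a4⟩ := elim hg h t x d T L hok
    have hkap : 1 + t ^ d ≤ kap p (t ^ d) := by
      unfold kap
      have h2 : ∑ j ∈ Finset.range 2, (t ^ d) ^ j ≤ ∑ j ∈ Finset.range p, (t ^ d) ^ j := by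
        refine Finset.sum_le_sum_of_subset_of_nonneg ?_ fun _ _ _ => by positivity
        exact Finset.range_subset_range.2 hp.out.two_le
      simpa [Finset.sum_range_succ] using h2
    have hpos : 0 < 1 - Wt t ((x, d) :: T ++ L) := by linarith
    rw [List.cons_append] at hpos ⊢
    have htd : 0 < t ^ d := by positivity
    have hw1 : Wt t (T ++ L1) < 1 := by
      have : 0 < kap p (t ^ d) * (1 - Wt t ((x, d) :: (T ++ L))) :=
        mul_pos (by linarith) hpos
      rw [← a4] at this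
      linarith
    obtain ⟨L', b1, b2, b3, b4⟩ := ih L1 a1 hw1
    refine ⟨L', b1, b2.trans a2, ?_, ?_⟩
    · rw [← Subgroup.relIndex_mul_relIndex _ _ _ b2 a2]
      exact mul_ne_zero b3 a3
    · refine le_trans ?_ b4
      rw [a4, List.map_cons, List.prod_cons]
      have hprod : 0 ≤ (T.map (fun q => 1 + t ^ q.2)).prod := by
        refine List.prod_nonneg ?_
        intro z hz
        obtain ⟨q, -, rfl⟩ := List.mem_map.1 hz
        positivity
      simp only
      calc (1 - Wt t ((x, d) :: (T ++ L))) * ((1 + t ^ d) *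
            (T.map (fun q => 1 + t ^ q.2)).prod) =
          ((1 + t ^ d) * (1 - Wt t ((x, d) :: (T ++ L)))) *
            (T.map (fun q => 1 + t ^ q.2)).prod := by ring
        _ ≤ (kap p (t ^ d) * (1 - Wt t ((x, d) :: (T ++ L)))) *
            (T.map (fun q => 1 + t ^ q.2)).prod :=
          mul_le_mul_of_nonneg_right (mul_le_mul_of_nonneg_right hkap hpos.le) hprod

theorem prod_ge {t : ℝ} (ht : 0 < t) (T : List (F × ℕ)) :
    1 + Wt t T ≤ (T.map (fun q => 1 + t ^ q.2)).prod := by
  induction T with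
  | nil => simp [Wt]
  | cons q T ih =>
    rw [List.map_cons, List.prod_cons, Wt_cons]
    have h1 : 0 < t ^ q.2 := by positivity
    have h2 := Wt_nonneg ht T
    nlinarith

/-- squaring the weight -/
theorem square (hg : S_gen) {M : Subgroup F} {ι : Type} [Fintype ι]
    {y : ι → F} {n : ι → ℕ} {J : ℕ → Submodule (ZMod p) (GA p F)} (h : WFS p M y n J) {t : ℝ}
    (ht : 0 < t) (L : List (F × ℕ)) (hok : Ok M J L) (hw : Wt t L < 1) :
    ∃ L' : List (F × ℕ), Ok M J L' ∧ Cl L' ≤ Cl L ∧ (Cl L').relIndex (Cl L) ≠ 0 ∧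
      Wt t L' ≤ Wt t L ^ 2 := by
  have := round hg h ht L [] (by simpa using hok) (by simpa using hw)
  rw [List.append_nil] at this
  obtain ⟨L', a1, a2, a3, a4⟩ := this
  refine ⟨L', a1, a2, a3, ?_⟩
  have h1 := prod_ge ht L
  have h2 : (1 - Wt t L) * (1 + Wt t L) ≤ (1 - Wt t L) * (L.map (fun q => 1 + t ^ q.2)).prod :=
    mul_le_mul_of_nonneg_left h1 (by linarith)
  nlinarith

theorem rounds (hg : S_gen) {M : Subgroup F} {ι : Type} [Fintype ι]
    {y : ι → F} {n : ι → ℕ} {J : ℕ → Submodule (ZMod p) (GA p F)} (h : WFS p M y n J) {t : ℝ}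
    (ht : 0 < t) (L : List (F × ℕ)) (hok : Ok M J L) (hw : Wt t L < 1) (k : ℕ) :
    ∃ L' : List (F × ℕ), Ok M J L' ∧ Cl L' ≤ Cl L ∧ (Cl L').relIndex (Cl L) ≠ 0 ∧
      Wt t L' ≤ Wt t L ^ (k + 1) := by
  induction k with
  | zero => exact ⟨L, hok, le_rfl, by simp, by simp⟩
  | succ k ih =>
    obtain ⟨L1, a1, a2, a3, a4⟩ := ih
    have h0 := Wt_nonneg ht L
    have h1 := Wt_nonneg ht L1
    have h2 : Wt t L ^ (k + 1) ≤ Wt t L := by
      rw [pow_succ]
      exact mul_le_of_le_one_left h0 (pow_le_one₀ h0 hw.le)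
    obtain ⟨L', b1, b2, b3, b4⟩ := square hg h ht L1 a1 (by linarith)
    refine ⟨L', b1, b2.trans a2, ?_, ?_⟩
    · rw [← Subgroup.relIndex_mul_relIndex _ _ _ b2 a2]
      exact mul_ne_zero b3 a3
    · refine b4.trans ?_
      rw [sq, pow_succ]
      exact mul_le_mul a4 (a4.trans h2) h1 (by positivity)

end lists

theorem main (hg : S_gen) : S_small := by
  intro p _ F _ M J t σ ht0 ht1 hW κ _ s e hse hsum ε hε
  obtain ⟨ι, _, y, n, h, -⟩ := hW
  set L : List (F × ℕ) := (Finset.univ : Finset κ).toList.map (fun k => (s k, e k)) with hL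
  have hok : Ok M J L := by
    intro q hq
    obtain ⟨k, -, rfl⟩ := List.mem_map.1 hq
    exact hse k
  have hwL : Wt t L = ∑ k, t ^ e k := by
    unfold Wt
    rw [hL, List.map_map]
    exact Finset.sum_map_toList _ _
  have hClL : Cl L = Subgroup.closure (Set.range s) := by
    unfold Cl
    congr 1
    ext g
    constructor
    · rintro ⟨d, hd⟩
      obtain ⟨k, -, hk⟩ := List.mem_map.1 hd
      exact ⟨k, (Prod.mk.inj hk).1⟩
    · rintro ⟨k, rfl⟩
      exact ⟨e k, List.mem_map.2 ⟨k, by simp, rfl⟩⟩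
  have hw : Wt t L < 1 := by rw [hwL]; exact hsum
  obtain ⟨k, hk⟩ := exists_pow_lt_of_lt_one hε hw
  obtain ⟨L', a1, a2, a3, a4⟩ := rounds hg h ht0 L hok hw k
  rw [hClL] at a2 a3
  have hCl' : Subgroup.closure (Set.range fun i : Fin L'.length => (L'.get i).1) = Cl L' := by
    unfold Cl
    congr 1
    ext g
    constructor
    · rintro ⟨i, rfl⟩
      exact ⟨(L'.get i).2, L'.get_mem i⟩
    · rintro ⟨d, hd⟩
      obtain ⟨i, hi⟩ := List.mem_iff_get.1 hd
      exact ⟨i, by simp only [hi]⟩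
  refine ⟨Fin L'.length, inferInstance, fun i => (L'.get i).1, fun i => (L'.get i).2, ?_, ?_, ?_⟩
  · intro i
    obtain ⟨-, b2, b3⟩ := a1 _ (L'.get_mem i)
    refine ⟨a2 ?_, b2, b3⟩
    rw [← hCl']
    exact Subgroup.subset_closure ⟨i, rfl⟩
  · have e1 : ∑ i : Fin L'.length, t ^ (L'.get i).2 = Wt t L' := by
      unfold Wt
      rw [← List.sum_ofFn]
      congr 1
      apply List.ext_get
      · simp
      · intro m h1 h2
        simp
    rw [e1]
    refine a4.trans_lt (lt_of_le_of_lt ?_ hk)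
    rw [pow_succ]
    exact mul_le_of_le_one_right (pow_nonneg (Wt_nonneg ht0 L) k) hw.le
  · rw [hCl']
    exact a3

end Pool.Agent.H656.DC.Small

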