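import Pool.Agent.H656.DC.EStmts

/-!
# Leaf T1: the property (T) estimate for sets
-/

set_option autoImplicit false

open MeasureTheory Filter Topology

namespace Pool.Agent.H656.DC.T1

section

variable {G : Type} [Group G] {X : Type} [MeasurableSpace X] {μ : Measure X}
  {act : G → X → X}

/-- The Koopman operator. -/
noncomputable def kop (h : PMP G μ act) (g : G) : Lp ℝ 2 μ →ₗᵢ[ℝ] Lp ℝ 2 μ :=
  Lp.compMeasurePreservingₗᵢ ℝ (act g⁻¹) (h.mp g⁻¹)

theorem kop_apply (h : PMP G μ act) (g : G) (φ : Lp ℝ 2 μ) :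
    kop h g φ = Lp.compMeasurePreserving (act g⁻¹) (h.mp g⁻¹) φ := rfl

theorem comp_congr {f f' : X → X} (hf : MeasurePreserving f μ μ) (hf' : MeasurePreserving f' μ μ)
    (e : f = f') (φ : Lp ℝ 2 μ) :
    Lp.compMeasurePreserving f hf φ = Lp.compMeasurePreserving f' hf' φ := by
  subst e; rfl

theorem kop_one (h : PMP G μ act) (φ : Lp ℝ 2 μ) : kop h 1 φ = φ := by
  rw [kop_apply, comp_congr (h.mp 1⁻¹) (MeasurePreserving.id μ) (by
    funext x; rw [inv_one, h.one]; rfl), Lp.compMeasurePreserving_id_apply]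

theorem kop_mul (h : PMP G μ act) (g k : G) (φ : Lp ℝ 2 μ) :
    kop h (g * k) φ = kop h g (kop h k φ) := by
  rw [kop_apply, kop_apply, kop_apply, ← Lp.compMeasurePreserving_comp_apply]
  exact comp_congr _ _ (by funext x; rw [mul_inv_rev, h.mul]; rfl) _

/-- The Koopman representation. -/
noncomputable def koop (h : PMP G μ act) : G →* (Lp ℝ 2 μ ≃ₗᵢ[ℝ] Lp ℝ 2 μ) where
  toFun g :=
    { toLinearEquiv := LinearEquiv.ofLinearMap (kop h g).toLinearMap (kop h g⁻¹).toLinearMap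
        (by
          ext1 φ
          show kop h g (kop h g⁻¹ φ) = φ
          rw [← kop_mul, mul_inv_cancel, kop_one])
        (by
          ext1 φ
          show kop h g⁻¹ (kop h g φ) = φ
          rw [← kop_mul, inv_mul_cancel, kop_one])
      norm_map' := fun φ => (kop h g).norm_map φ }
  map_one' := by
    ext1 φ
    exact kop_one h φ
  map_mul' g k := by
    ext1 φ
    exact kop_mul h g k φ

theorem koop_apply (h : PMP G μ act) (g : G) (φ : Lp ℝ 2 μ) : koop h g φ = kop h g φ := rfl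

theorem norm_sq [IsProbabilityMeasure μ] {A B : Set X} (hA : MeasurableSet A)
    (hB : MeasurableSet B) (hA' : μ A ≠ ⊤) (hB' : μ B ≠ ⊤) :
    ‖(indicatorConstLp 2 hA hA' (1:ℝ) : Lp ℝ 2 μ) - indicatorConstLp 2 hB hB' (1:ℝ)‖ ^ 2 =
      μ.real (symmDiff A B) := by
  rw [← dist_eq_norm, dist_indicatorConstLp_eq_norm,
    norm_indicatorConstLp (by norm_num) (by norm_num)]
  simp only [norm_one, one_mul, ENNReal.toReal_ofNat]
  rw [← Real.sqrt_eq_rpow, Real.sq_sqrt measureReal_nonneg]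

theorem kop_ind [IsProbabilityMeasure μ] (h : PMP G μ act) (g : G) {A : Set X}
    (hA : MeasurableSet A) (hA' : μ A ≠ ⊤) :
    ‖koop h g (indicatorConstLp 2 hA hA' (1:ℝ)) - indicatorConstLp 2 hA hA' (1:ℝ)‖ ^ 2 =
      μ.real (symmDiff (act g ⁻¹' A) A) := by
  rw [koop_apply, kop_apply, Lp.indicatorConstLp_compMeasurePreserving, norm_sq]
  have h1 : MeasurableSet (symmDiff (act g⁻¹ ⁻¹' A) A) :=
    (hA.preimage (h.mp g⁻¹).measurable).symmDiff hA
  have h2 := (h.mp g).measureReal_preimage h1.nullMeasurableSet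
  rw [← h2]
  have h3 : act g ⁻¹' (act g⁻¹ ⁻¹' A) = A := by
    ext x
    simp only [Set.mem_preimage]
    rw [← h.mul, inv_mul_cancel, h.one]
  rw [Set.preimage_symmDiff, h3, symmDiff_comm]

end

theorem main : S_T1 := by
  intro G _ S C hT X _ μ _ act hp A hA g
  obtain ⟨hC, hT⟩ := hT
  have hA' : μ A ≠ ⊤ := measure_ne_top μ A
  set ξ : Lp ℝ 2 μ := indicatorConstLp 2 hA hA' (1:ℝ) with hξ
  obtain ⟨η, h1, h2⟩ := hT (Lp ℝ 2 μ) (koop hp) ξ
  have h3 : ∀ s, ‖koop hp s ξ - ξ‖ ^ 2 = μ.real (symmDiff (act s ⁻¹' A) A) :=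
    fun s => kop_ind hp s hA hA'
  simp only [h3] at h2
  rw [← h3 g]
  have h4 : ‖koop hp g ξ - ξ‖ ≤ 2 * ‖ξ - η‖ := by
    have e : koop hp g ξ - ξ = koop hp g (ξ - η) - (ξ - η) := by
      rw [map_sub, h1 g]; abel
    rw [e]
    refine (norm_sub_le _ _).trans ?_
    rw [LinearIsometryEquiv.norm_map]
    linarith
  have h5 : ‖koop hp g ξ - ξ‖ ^ 2 ≤ (2 * ‖ξ - η‖) ^ 2 := by gcongr
  nlinarith

end Pool.Agent.H656.DC.T1
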